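import Pool.Agent.Lib.MP_fe6961_an.TorN53

/-! Torus bundles of every dimension, row ATT: the support function of the sublevel sets attains its minimum. -/

open Filter Matrix Topology

namespace Pool.Agent.Lib.TorN

theorem att95 : StATT := by
  rintro n H ⟨hC, hconv, hcomp⟩ v k a b c hac hcb hS ⟨C, hc, ⟨pa, hpa, hCa⟩, ⟨pb, hpb, hCb⟩⟩
  have hmax : ∀ s, ∃ p, H s p ≤ k ∧ ∀ p', H s p' ≤ k → inner ℝ v p' ≤ inner ℝ v p := by
    intro s
    have hK : IsCompact {p : EN n | H s p ≤ k} := by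
      have h1 := (hcomp s s k).image continuous_snd
      have h2 : Prod.snd '' {z : ℝ × EN n | s ≤ z.1 ∧ z.1 ≤ s ∧ H z.1 z.2 ≤ k} =
          {p : EN n | H s p ≤ k} := by
        ext p
        constructor
        · rintro ⟨⟨s', p'⟩, ⟨h1, h2, h3⟩, rfl⟩
          obtain rfl : s' = s := le_antisymm h2 h1
          exact h3
        · intro h
          exact ⟨(s, p), ⟨le_refl s, le_refl s, h⟩, rfl⟩
      rwa [h2] at h1
    obtain ⟨q, hq⟩ := hS s
    have hco : Continuous fun p : EN n => (inner ℝ v p : ℝ) := by fun_prop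
    obtain ⟨p, hp, hp'⟩ := hK.exists_isMaxOn ⟨q, hq.le⟩ hco.continuousOn
    exact ⟨p, hp, fun p' h => hp' h⟩
  choose P hP1 hP2 using hmax
  have hcont : ∀ p, Continuous (fun s => H s p) := fun p =>
    hC.continuous.comp (by fun_prop : Continuous fun s : ℝ => (s, p))
  have hlsc : LowerSemicontinuousOn (fun s => (inner ℝ v (P s) : ℝ)) (Set.Icc a b) := by
    intro s _ y hy
    obtain ⟨q, hq⟩ := hS s
    have hl : Tendsto (fun ε : ℝ => (inner ℝ v ((1 - ε) • P s + ε • q) : ℝ)) (𝓝 0)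
        (𝓝 (inner ℝ v (P s))) := by
      have h0 : Continuous (fun ε : ℝ => (inner ℝ v ((1 - ε) • P s + ε • q) : ℝ)) := by fun_prop
      have h := h0.tendsto 0
      simpa using h
    have hev : ∀ᶠ ε in 𝓝[>] (0 : ℝ), y < inner ℝ v ((1 - ε) • P s + ε • q) :=
      (hl.eventually (lt_mem_nhds hy)).filter_mono nhdsWithin_le_nhds
    obtain ⟨ε, h1, h2⟩ := (hev.and (Ioo_mem_nhdsGT (zero_lt_one (α := ℝ)))).exists
    have hlt : H s ((1 - ε) • P s + ε • q) < k := by
      have h3 := (hconv s).2 (Set.mem_univ (P s)) (Set.mem_univ q)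
        (by linarith [h2.2] : (0 : ℝ) ≤ 1 - ε) h2.1.le (by ring)
      simp only [smul_eq_mul] at h3
      have h4 : (1 - ε) * H s (P s) ≤ (1 - ε) * k :=
        mul_le_mul_of_nonneg_left (hP1 s) (by linarith [h2.2])
      have h5 : ε * H s q < ε * k := mul_lt_mul_of_pos_left hq h2.1
      linarith
    have hopen : ∀ᶠ s' in 𝓝 s, H s' ((1 - ε) • P s + ε • q) < k :=
      (hcont _).continuousAt.eventually (gt_mem_nhds hlt)
    filter_upwards [mem_nhdsWithin_of_mem_nhds hopen] with s' hs'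
    exact h1.trans_le (hP2 s' _ (le_of_lt hs'))
  have hne : (Set.Icc a b).Nonempty := ⟨c, hac.le, hcb.le⟩
  obtain ⟨s0, hs0, hmin⟩ := hlsc.exists_isMinOn hne isCompact_Icc
  have hm : ∀ s, a ≤ s → s ≤ b → inner ℝ v (P s0) ≤ inner ℝ v (P s) := fun s h1 h2 =>
    hmin ⟨h1, h2⟩
  have hcC : inner ℝ v (P s0) ≤ C := (hm c hac.le hcb.le).trans (hc _ (hP1 c))
  refine ⟨s0, inner ℝ v (P s0), ?_, ?_, ⟨P s0, hP1 s0, rfl⟩, hP2 s0,
    fun s h1 h2 => ⟨P s, hP1 s, hm s h1 h2⟩⟩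
  · rcases eq_or_lt_of_le hs0.1 with h | h
    · rw [← h] at hcC
      linarith [hP2 a pa hpa]
    · exact h
  · rcases eq_or_lt_of_le hs0.2 with h | h
    · rw [h] at hcC
      linarith [hP2 b pb hpb]
    · exact h

end Pool.Agent.Lib.TorN
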