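import Mathlib

/-! Left invariant Tonelli Hamiltonians on homogeneous three-manifolds: definitions and rows. -/

open Filter Matrix

namespace Pool.Agent.Lib.Hom

/-- the Euclidean space of dimension three -/
abbrev E3 := EuclideanSpace ℝ (Fin 3)

/-- a Tonelli function (less is asked: `C^1`, convex, coercive) -/
def Ton (h : E3 → ℝ) : Prop :=
  ContDiff ℝ 1 h ∧ ConvexOn ℝ Set.univ h ∧ Tendsto h (cocompact E3) atTop

/-- the vector `N p` -/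
noncomputable def app (N : Matrix (Fin 3) (Fin 3) ℝ) (p : E3) : E3 :=
  WithLp.toLp 2 (N *ᵥ (fun i => p i))

/-- the transpose of `M` applied to the first two coordinates -/
noncomputable def pull (M : Matrix (Fin 2) (Fin 2) ℝ) (ξ : E3) : E3 :=
  !₂[M 0 0 * ξ 0 + M 1 0 * ξ 1, M 0 1 * ξ 0 + M 1 1 * ξ 1, ξ 2]

/-- the left invariant Hamiltonian of `h` on the cotangent bundle of `ℝ² ⋊ ℝ`, where `s = x 2`
acts on `ℝ²` by `R s`, in the coordinates `x = (u, s)`, `ξ = (α, c)`: it is `h (R(s)^T α, c)` -/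
noncomputable def HSol (R : ℝ → Matrix (Fin 2) (Fin 2) ℝ) (h : E3 → ℝ) (x ξ : E3) : ℝ :=
  h (pull (R (x 2)) ξ)

/-- Hamilton's equations -/
def IsOrbit (H : E3 → E3 → ℝ) (x ξ : ℝ → E3) : Prop :=
  ∀ t, HasDerivAt x (gradient (H (x t)) (ξ t)) t ∧
    HasDerivAt ξ (-gradient (fun y => H y (ξ t)) (x t)) t

/-- `R` is the one-parameter group of `D` in `SL(2, ℝ)` -/
def OnePar (R : ℝ → Matrix (Fin 2) (Fin 2) ℝ) (D : Matrix (Fin 2) (Fin 2) ℝ) : Prop :=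
  R 0 = 1 ∧ (∀ s, (R s).det = 1) ∧ ∀ s i j, HasDerivAt (fun s => R s i j) ((R s * D) i j) s

/-- the integer vector `(w, 0)` -/
noncomputable def iv (w : Fin 2 → ℤ) : E3 := !₂[(w 0 : ℝ), (w 1 : ℝ), 0]

/-- the element of `sl(2, ℝ)` with the coordinates `v` -/
def X (v : E3) : Matrix (Fin 2) (Fin 2) ℝ := !![v 0, v 1 + v 2; v 1 - v 2, -v 0]

/-- the bracket of `sl(2, ℝ)` -/
noncomputable def br (x y : E3) : E3 :=
  !₂[-2 * (x 1 * y 2 - x 2 * y 1), -2 * (x 2 * y 0 - x 0 * y 2), 2 * (x 0 * y 1 - x 1 * y 0)]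

/-- the equations of motion of the left invariant Hamiltonian `h` on the cotangent bundle of
`SL(2, ℝ)`, trivialised from the left -/
def IsOrbit2 (h : E3 → ℝ) (g : ℝ → Matrix (Fin 2) (Fin 2) ℝ) (p : ℝ → E3) : Prop :=
  ∀ t, (∀ i j, HasDerivAt (fun t => g t i j) ((g t * X (gradient h (p t))) i j) t) ∧
    ∀ η, HasDerivAt (fun t => inner ℝ (p t) η) (inner ℝ (p t) (br (gradient h (p t)) η)) t

/-- EXT: a critical point of the Casimir function on the level, off the cone -/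
def StEXT : Prop := ∀ h, Ton h → ∀ N : Matrix (Fin 3) (Fin 3) ℝ, Nᵀ = N → N ≠ 0 → ∀ k,
  (∃ p, h p < k) → ∃ (p : E3) (μ : ℝ), h p = k ∧ μ ≠ 0 ∧ inner ℝ p (app N p) ≠ 0 ∧
    gradient h p = μ • app N p

/-- MIN: a minimum is a critical point -/
def StMIN : Prop := ∀ h, Ton h → ∀ p, (∀ p', h p ≤ h p') → gradient h p = 0

/-- RAT: a rational direction -/
def StRAT : Prop := ∀ R D, OnePar R D → ∀ v : Fin 2 → ℝ,
  v 0 * (D *ᵥ v) 1 - v 1 * (D *ᵥ v) 0 ≠ 0 → ∃ (s c : ℝ) (w : Fin 2 → ℤ), c ≠ 0 ∧ w ≠ 0 ∧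
    R s *ᵥ v = c • (fun i => (w i : ℝ))

/-- HAM: the orbit of `ℝ² ⋊ ℝ` through an equilibrium of the reduced equation -/
def StHAM : Prop := ∀ R D h, OnePar R D → Ton h → ∀ (p : E3) (s : ℝ) (u : Fin 2 → ℝ),
  gradient h p 2 = 0 →
  (D 0 0 * p 0 + D 1 0 * p 1) * gradient h p 0 + (D 0 1 * p 0 + D 1 1 * p 1) * gradient h p 1 = 0 →
  ∃ (x ξ : ℝ → E3), IsOrbit (HSol R h) x ξ ∧ (∀ t, HSol R h (x t) (ξ t) = h p) ∧
    (∀ t t', ξ t = ξ t') ∧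
    ∀ t, x t = !₂[u 0, u 1, s] + t •
      !₂[R s 0 0 * gradient h p 0 + R s 0 1 * gradient h p 1,
        R s 1 0 * gradient h p 0 + R s 1 1 * gradient h p 1, 0]

/-- SOL: the result for `ℝ² ⋊ ℝ` -/
def StSOL : Prop := ∀ R D h, OnePar R D → D.det ≠ 0 → Ton h → ∀ k, (∃ p, h p = k) →
  (∃ x ξ, HSol R h x ξ = k ∧ IsOrbit (HSol R h) (fun _ => x) (fun _ => ξ)) ∨
  ∃ (x ξ : ℝ → E3), IsOrbit (HSol R h) x ξ ∧ (∀ t, HSol R h (x t) (ξ t) = k) ∧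
    ∃ T > 0, ∃ w : Fin 2 → ℤ, w ≠ 0 ∧ ∀ t, x (t + T) = x t + iv w ∧ ξ (t + T) = ξ t

/-- HYP: one-parameter groups of hyperbolic or elliptic elements meet the conjugates of `γ` -/
def StHYP : Prop := ∀ (v : E3) (γ : Matrix (Fin 2) (Fin 2) ℝ), γ.det = 1 → 2 < γ.trace →
  (X v).det ≠ 0 → ∃ (g : ℝ → Matrix (Fin 2) (Fin 2) ℝ) (T : ℝ), 0 < T ∧ (∀ t, (g t).det = 1) ∧
    (∀ t i j, HasDerivAt (fun t => g t i j) ((g t * X v) i j) t) ∧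
    ((∀ t, g (t + T) = γ * g t) ∨ ∀ t, g (t + T) = g t)

/-- SL2: the result for `SL(2, ℝ)` -/
def StSL2 : Prop := ∀ (h : E3 → ℝ) (Γ : Set (Matrix (Fin 2) (Fin 2) ℝ)), Ton h → 1 ∈ Γ →
  (∃ γ ∈ Γ, γ.det = 1 ∧ 2 < γ.trace) → ∀ k, (∃ p, h p = k) →
  (∃ p, h p = k ∧ gradient h p = 0) ∨
  ∃ (g : ℝ → Matrix (Fin 2) (Fin 2) ℝ) (p : E3), (∀ t, (g t).det = 1) ∧ IsOrbit2 h g (fun _ => p) ∧
    h p = k ∧ gradient h p ≠ 0 ∧ ∃ T > 0, ∃ γ ∈ Γ, ∀ t, g (t + T) = γ * g t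

end Pool.Agent.Lib.Hom
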