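import Mathlib
import Pool.Agent.Lib.MP_fe6961_an.Hom10

/-! Assembly rows SOL and SL2. -/

open Filter Matrix

namespace Pool.Agent.Lib.Hom

lemma inner3 (x y : E3) : inner ℝ x y = x 0 * y 0 + x 1 * y 1 + x 2 * y 2 := by
  simp only [PiLp.inner_apply, Fin.sum_univ_three, RCLike.inner_apply, conj_trivial]
  ring

lemma app_apply (N : Matrix (Fin 3) (Fin 3) ℝ) (p : E3) (i : Fin 3) :
    app N p i = N i 0 * p 0 + N i 1 * p 1 + N i 2 * p 2 := by
  simp [app, Matrix.mulVec, dotProduct, Fin.sum_univ_three]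

lemma gradient_eq_zero_of_isMin {f : E3 → ℝ} {x : E3} (hf : ∀ y, f x ≤ f y) : gradient f x = 0 := by
  have h1 : IsLocalMin f x := Filter.Eventually.of_forall hf
  have h2 := h1.fderiv_eq_zero
  unfold gradient
  rw [h2, map_zero]

theorem min_10 : StMIN := fun _ _ _ hp => gradient_eq_zero_of_isMin hp

theorem sl2_10 (hE : StEXT) (hH : StHYP) : StSL2 := by
  intro h Γ hT h1 hΓ k hk
  obtain ⟨γ, hγ, hdet, htr⟩ := hΓ
  obtain ⟨p0, hp0⟩ := hk
  by_cases hmin : ∃ p, h p < k
  · right
    obtain ⟨p, μ, hp, hμ, hq, hg⟩ := hE h hT !![-2, 0, 0; 0, -2, 0; 0, 0, 2]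
      (by ext i j; fin_cases i <;> fin_cases j <;> rfl)
      (by
        intro h0
        have := congrFun (congrFun h0 0) 0
        simp at this) k hmin
    set N : Matrix (Fin 3) (Fin 3) ℝ := !![-2, 0, 0; 0, -2, 0; 0, 0, 2] with hN
    have g0 : gradient h p 0 = μ * (-2 * p 0) := by
      rw [hg, PiLp.smul_apply, app_apply, smul_eq_mul, hN]; simp
    have g1 : gradient h p 1 = μ * (-2 * p 1) := by
      rw [hg, PiLp.smul_apply, app_apply, smul_eq_mul, hN]; simp
    have g2 : gradient h p 2 = μ * (2 * p 2) := by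
      rw [hg, PiLp.smul_apply, app_apply, smul_eq_mul, hN]; simp
    have hq' : -2 * p 0 ^ 2 - 2 * p 1 ^ 2 + 2 * p 2 ^ 2 ≠ 0 := by
      intro h0
      apply hq
      rw [inner3, app_apply, app_apply, app_apply, hN]
      simp
      linarith
    have hX : (X (gradient h p)).det ≠ 0 := by
      rw [X, Matrix.det_fin_two_of, g0, g1, g2]
      intro h0
      apply hq'
      have h3 : 2 * μ ^ 2 * (-2 * p 0 ^ 2 - 2 * p 1 ^ 2 + 2 * p 2 ^ 2) = 0 := by
        rw [← h0]; ring
      rcases mul_eq_zero.mp h3 with h4 | h4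
      · exact absurd h4 (by positivity)
      · exact h4
    obtain ⟨g, T, hT0, hgd, hgder, hper⟩ := hH (gradient h p) γ hdet htr hX
    refine ⟨g, p, hgd, ?_, hp, ?_, ?_⟩
    · intro t
      refine ⟨hgder t, fun η => ?_⟩
      have h0 : inner ℝ p (br (gradient h p) η) = 0 := by
        have e0 : br (gradient h p) η 0
            = -2 * (gradient h p 1 * η 2 - gradient h p 2 * η 1) := rfl
        have e1 : br (gradient h p) η 1
            = -2 * (gradient h p 2 * η 0 - gradient h p 0 * η 2) := rfl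
        have e2 : br (gradient h p) η 2
            = 2 * (gradient h p 0 * η 1 - gradient h p 1 * η 0) := rfl
        rw [inner3, e0, e1, e2, g0, g1, g2]
        ring
      rw [h0]
      exact hasDerivAt_const t _
    · intro h0
      apply hX
      rw [h0]
      simp [X, Matrix.det_fin_two_of]
    · refine ⟨T, hT0, ?_⟩
      rcases hper with h2 | h2
      · exact ⟨γ, hγ, h2⟩
      · exact ⟨1, h1, fun t => by rw [one_mul]; exact h2 t⟩
  · left
    push Not at hmin
    exact ⟨p0, hp0, gradient_eq_zero_of_isMin (fun y => by rw [hp0]; exact hmin y)⟩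

lemma trace_zero {R : ℝ → Matrix (Fin 2) (Fin 2) ℝ} {D : Matrix (Fin 2) (Fin 2) ℝ}
    (hR : OnePar R D) : D 1 1 = - D 0 0 := by
  obtain ⟨h0, hdet, hder⟩ := hR
  have e : ∀ i j, (R 0 * D) i j = D i j := by
    intro i j; rw [h0, one_mul]
  have h1 : HasDerivAt (fun s => R s 0 0 * R s 1 1 - R s 0 1 * R s 1 0)
      ((R 0 * D) 0 0 * R 0 1 1 + R 0 0 0 * (R 0 * D) 1 1
        - ((R 0 * D) 0 1 * R 0 1 0 + R 0 0 1 * (R 0 * D) 1 0)) 0 :=
    ((hder 0 0 0).mul (hder 0 1 1)).sub ((hder 0 0 1).mul (hder 0 1 0))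
  have h2 : (fun s => R s 0 0 * R s 1 1 - R s 0 1 * R s 1 0) = fun _ => 1 := by
    funext s
    rw [← hdet s, Matrix.det_fin_two]
  rw [h2] at h1
  have h3 := h1.unique (hasDerivAt_const 0 1)
  rw [e, e, e, e, h0] at h3
  simp at h3
  linarith

theorem sol_10 (hE : StEXT) (hRat : StRAT) (hHam : StHAM) : StSOL := by
  intro R D h hR hD hT k hk
  obtain ⟨p0, hp0⟩ := hk
  have htr := trace_zero hR
  by_cases hmin : ∃ p, h p < k
  · right
    set N : Matrix (Fin 3) (Fin 3) ℝ := !![D 0 1, -D 0 0, 0; -D 0 0, -D 1 0, 0; 0, 0, 0] with hN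
    have hNs : Nᵀ = N := by
      ext i j; fin_cases i <;> fin_cases j <;> simp [hN, Matrix.transpose]
    have hN0 : N ≠ 0 := by
      intro h0
      have a1 : D 0 1 = 0 := by
        have := congrFun (congrFun h0 0) 0
        simpa [hN] using this
      have a2 : D 0 0 = 0 := by
        have := congrFun (congrFun h0 0) 1
        simpa [hN] using this
      apply hD
      rw [Matrix.det_fin_two, a1, a2]; ring
    obtain ⟨p, μ, hp, hμ, hq, hg⟩ := hE h hT N hNs hN0 k hmin
    have g0 : gradient h p 0 = μ * (D 0 1 * p 0 - D 0 0 * p 1) := by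
      rw [hg, PiLp.smul_apply, app_apply, smul_eq_mul, hN]
      show μ * (D 0 1 * p 0 + -D 0 0 * p 1 + 0 * p 2) = _
      ring
    have g1 : gradient h p 1 = μ * (-D 0 0 * p 0 - D 1 0 * p 1) := by
      rw [hg, PiLp.smul_apply, app_apply, smul_eq_mul, hN]
      show μ * (-D 0 0 * p 0 + -D 1 0 * p 1 + 0 * p 2) = _
      ring
    have g2 : gradient h p 2 = 0 := by
      rw [hg, PiLp.smul_apply, app_apply, smul_eq_mul, hN]; simp
    have hq' : D 0 1 * p 0 ^ 2 - 2 * D 0 0 * p 0 * p 1 - D 1 0 * p 1 ^ 2 ≠ 0 := by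
      intro h0
      apply hq
      rw [inner3, app_apply, app_apply, app_apply, hN]
      simp
      linarith
    have hdet : D.det = - D 0 0 ^ 2 - D 0 1 * D 1 0 := by
      rw [Matrix.det_fin_two, htr]; ring
    let v : Fin 2 → ℝ := ![gradient h p 0, gradient h p 1]
    have hω : v 0 * (D *ᵥ v) 1 - v 1 * (D *ᵥ v) 0 ≠ 0 := by
      have e : v 0 * (D *ᵥ v) 1 - v 1 * (D *ᵥ v) 0
          = - μ ^ 2 * D.det * (D 0 1 * p 0 ^ 2 - 2 * D 0 0 * p 0 * p 1 - D 1 0 * p 1 ^ 2) := by
        simp only [v, Matrix.mulVec, dotProduct, Fin.sum_univ_two, Matrix.cons_val_zero,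
          Matrix.cons_val_one]
        rw [g0, g1, hdet, htr]
        ring
      rw [e]
      exact mul_ne_zero (mul_ne_zero (neg_ne_zero.mpr (pow_ne_zero 2 hμ)) hD) hq'
    obtain ⟨s, c, w, hc, hw, hRv⟩ := hRat R D hR v hω
    obtain ⟨x, ξ, horb, hlev, hξ, hx⟩ := hHam R D h hR hT p s 0 g2 (by
      rw [g0, g1, htr]; ring)
    refine ⟨x, ξ, horb, fun t => by rw [hlev, hp], 1 / |c|, by positivity, ?_⟩
    have e0 : R s 0 0 * gradient h p 0 + R s 0 1 * gradient h p 1 = c * w 0 := by
      have := congrFun hRv 0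
      simpa [v, Matrix.mulVec, dotProduct, Fin.sum_univ_two] using this
    have e1 : R s 1 0 * gradient h p 0 + R s 1 1 * gradient h p 1 = c * w 1 := by
      have := congrFun hRv 1
      simpa [v, Matrix.mulVec, dotProduct, Fin.sum_univ_two] using this
    rcases lt_or_gt_of_ne hc with hneg | hpos
    · refine ⟨-w, neg_ne_zero.mpr hw, fun t => ⟨?_, hξ _ _⟩⟩
      rw [hx, hx, e0, e1, add_smul, ← add_assoc]
      congr 1
      rw [abs_of_neg hneg]
      have hc' : -c ≠ 0 := by linarith
      ext i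
      fin_cases i
      · simp [iv]; field_simp
      · simp [iv]; field_simp
      · simp [iv]
    · refine ⟨w, hw, fun t => ⟨?_, hξ _ _⟩⟩
      rw [hx, hx, e0, e1, add_smul, ← add_assoc]
      congr 1
      rw [abs_of_pos hpos]
      ext i
      fin_cases i
      · simp [iv]; field_simp
      · simp [iv]; field_simp
      · simp [iv]
  · left
    push Not at hmin
    have hpull : ∀ ξ : E3, pull (R 0) ξ = ξ := by
      intro ξ
      rw [hR.1]
      ext i
      fin_cases i <;> simp [pull]
    refine ⟨0, p0, ?_, ?_⟩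
    · unfold HSol
      have : R ((0 : E3) 2) = R 0 := rfl
      rw [this, hpull, hp0]
    · intro t
      have a1 : gradient (HSol R h 0) p0 = 0 := by
        apply gradient_eq_zero_of_isMin
        intro y
        have : HSol R h 0 p0 = k := by
          unfold HSol
          have : R ((0 : E3) 2) = R 0 := rfl
          rw [this, hpull, hp0]
        rw [this]
        exact hmin _
      have a2 : gradient (fun y => HSol R h y p0) 0 = 0 := by
        apply gradient_eq_zero_of_isMin
        intro y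
        have : HSol R h 0 p0 = k := by
          unfold HSol
          have : R ((0 : E3) 2) = R 0 := rfl
          rw [this, hpull, hp0]
        rw [this]
        exact hmin _
      rw [a1, a2, neg_zero]
      exact ⟨hasDerivAt_const _ _, hasDerivAt_const _ _⟩

end Pool.Agent.Lib.Hom
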