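import Mathlib

/-! Tonelli Hamiltonians on all mapping tori of linear automorphisms of the `n`-torus, invariant
under the translations of the fibres: definitions and rows. -/

open Filter Matrix

namespace Pool.Agent.Lib.TorN

/-- the Euclidean space of dimension `n + 1`; the last coordinate is the one of the base -/
abbrev EN (n : ℕ) := EuclideanSpace ℝ (Fin (n + 1))

/-- a Tonelli family (less is asked): `C^1`, convex in the momentum, the part of a sublevel set over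
a compact interval is compact -/
def TonN {n : ℕ} (H : ℝ → EN n → ℝ) : Prop :=
  ContDiff ℝ 1 (fun z : ℝ × EN n => H z.1 z.2) ∧ (∀ s, ConvexOn ℝ Set.univ (H s)) ∧
    ∀ a b k, IsCompact {z : ℝ × EN n | a ≤ z.1 ∧ z.1 ≤ b ∧ H z.1 z.2 ≤ k}

/-- the Hamiltonian on the cotangent bundle of `ℝ^(n+1)` -/
noncomputable def HT {n : ℕ} (H : ℝ → EN n → ℝ) (x ξ : EN n) : ℝ := H (x (Fin.last n)) ξ

/-- Hamilton's equations -/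
def IsOrbit {n : ℕ} (H : EN n → EN n → ℝ) (x ξ : ℝ → EN n) : Prop :=
  ∀ t, HasDerivAt x (gradient (H (x t)) (ξ t)) t ∧
    HasDerivAt ξ (-gradient (fun y => H y (ξ t)) (x t)) t

/-- the integer vector `(w, 0)` -/
noncomputable def iv {n : ℕ} (w : Fin n → ℤ) : EN n :=
  WithLp.toLp 2 (Fin.snoc (fun i => (w i : ℝ)) 0)

/-- the transpose of `B` applied to the first `n` coordinates -/
noncomputable def pull {n : ℕ} (B : Matrix (Fin n) (Fin n) ℤ) (ξ : EN n) : EN n :=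
  WithLp.toLp 2 (Fin.snoc (fun i => ∑ j, (B j i : ℝ) * ξ (Fin.castSucc j)) (ξ (Fin.last n)))

/-- LAG: Lagrange multiplier at fixed `s` -/
def StLAG : Prop := ∀ (n : ℕ) (h : EN n → ℝ), ContDiff ℝ 1 h → ∀ (v p : EN n) (k : ℝ), v ≠ 0 →
  h p = k → (∀ p', h p' ≤ k → inner ℝ v p' ≤ inner ℝ v p) → ∃ μ : ℝ, gradient h p = μ • v

/-- MAX: a maximum of the linear function over `{H ≤ k}` with an interior `s` -/
def StMAX : Prop := ∀ (n : ℕ) (H : ℝ → EN n → ℝ), TonN H → ∀ (v : EN n), v ≠ 0 →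
  ∀ (k a b s : ℝ) (p : EN n), a < s → s < b →
  H s p ≤ k → (∀ s' p', a ≤ s' → s' ≤ b → H s' p' ≤ k → inner ℝ v p' ≤ inner ℝ v p) →
  H s p = k ∧ HasDerivAt (fun r => H r p) 0 s ∧ ∃ μ : ℝ, gradient (H s) p = μ • v

/-- CORE: Danskin's argument on the compact convex set `F = {H s0 ≤ k, M ≤ v}` -/
def StCORE : Prop := ∀ (n : ℕ) (H : ℝ → EN n → ℝ), TonN H → ∀ (v : EN n) (M k s0 : ℝ),
  (∃ p, H s0 p ≤ k ∧ M ≤ inner ℝ v p) → (∀ p, M ≤ inner ℝ v p → k ≤ H s0 p) →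
  (∀ δ > 0, (∃ s p, s0 < s ∧ s < s0 + δ ∧ H s p ≤ k ∧ M ≤ inner ℝ v p) ∧
    ∃ s p, s0 - δ < s ∧ s < s0 ∧ H s p ≤ k ∧ M ≤ inner ℝ v p) →
  ∃ p, H s0 p = k ∧ M ≤ inner ℝ v p ∧ HasDerivAt (fun r => H r p) 0 s0

/-- ATT: the support function `φ(s) = max of v over {H s ≤ k}` has an interior minimum -/
def StATT : Prop := ∀ (n : ℕ) (H : ℝ → EN n → ℝ), TonN H → ∀ (v : EN n) (k a b c : ℝ),
  a < c → c < b → (∀ s, ∃ p, H s p < k) →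
  (∃ C, (∀ p, H c p ≤ k → inner ℝ v p ≤ C) ∧ (∃ p, H a p ≤ k ∧ C < inner ℝ v p) ∧
    ∃ p, H b p ≤ k ∧ C < inner ℝ v p) →
  ∃ s0 M, a < s0 ∧ s0 < b ∧ (∃ p, H s0 p ≤ k ∧ inner ℝ v p = M) ∧
    (∀ p, H s0 p ≤ k → inner ℝ v p ≤ M) ∧ ∀ s, a ≤ s → s ≤ b → ∃ p, H s p ≤ k ∧ M ≤ inner ℝ v p

/-- ORB: the relative equilibrium gives a singularity or a periodic orbit -/
def StORB : Prop := ∀ (n : ℕ) (H : ℝ → EN n → ℝ), TonN H → ∀ (w : Fin n → ℤ), w ≠ 0 →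
  ∀ (s μ : ℝ) (p : EN n),
  HasDerivAt (fun r => H r p) 0 s → gradient (H s) p = μ • iv w →
  (∃ x ξ, HT H x ξ = H s p ∧ IsOrbit (HT H) (fun _ => x) (fun _ => ξ)) ∨
  ∃ (x ξ : ℝ → EN n), IsOrbit (HT H) x ξ ∧ (∀ t, HT H (x t) (ξ t) = H s p) ∧
    ∃ T > 0, ∃ w' : Fin n → ℤ, w' ≠ 0 ∧ ∀ t, x (t + T) = x t + iv w' ∧ ξ (t + T) = ξ t

/-- DIR: the directions of a two-sided orbit which has opposite signs at both ends -/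
def StDIR : Prop := ∀ (n : ℕ) (A : Matrix (Fin n) (Fin n) ℝ) (u v : ℕ → Fin n → ℝ), 0 < n →
  (∀ x, A *ᵥ x = x → x = 0) → (∀ j, u (j + 1) = A *ᵥ u j) → (∀ j, A *ᵥ v (j + 1) = v j) →
  (∀ w : Fin n → ℤ, w ≠ 0 →
    (Tendsto (fun j => ∑ i, (w i : ℝ) * u j i) atTop atTop ∧
      Tendsto (fun j => ∑ i, (w i : ℝ) * v j i) atTop atBot) ∨
    (Tendsto (fun j => ∑ i, (w i : ℝ) * u j i) atTop atBot ∧
      Tendsto (fun j => ∑ i, (w i : ℝ) * v j i) atTop atTop)) → False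

/-- GROW: an infinite orbit of integer vectors is unbounded -/
def StGROW : Prop := ∀ (n : ℕ) (B : Matrix (Fin n) (Fin n) ℤ), IsUnit B.det →
  (∀ w : Fin n → ℤ, w ≠ 0 → ∀ m : ℕ, 0 < m → (B ^ m) *ᵥ w ≠ w) → ∀ w : Fin n → ℤ, w ≠ 0 →
  Tendsto (fun j : ℕ => ‖iv ((B ^ j) *ᵥ w)‖) atTop atTop

/-- PUL: the calculus of `pull` -/
def StPUL : Prop := ∀ (n : ℕ),
  (∀ ξ : EN n, pull (1 : Matrix (Fin n) (Fin n) ℤ) ξ = ξ) ∧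
  (∀ (M N : Matrix (Fin n) (Fin n) ℤ) (ξ : EN n), pull M (pull N ξ) = pull (N * M) ξ) ∧
  (∀ (M : Matrix (Fin n) (Fin n) ℤ) (w : Fin n → ℤ) (ξ : EN n),
    inner ℝ (iv w) (pull M ξ) = inner ℝ (iv (M *ᵥ w)) ξ) ∧
  (∀ (w : Fin n → ℤ) (ξ : EN n), inner ℝ (iv w) ξ = ∑ i, (w i : ℝ) * ξ (Fin.castSucc i)) ∧
  ∀ w : Fin n → ℤ, w ≠ 0 → iv w ≠ 0

/-- KEY: the integer vector whose support function has an interior minimum -/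
def StKEY : Prop := ∀ (n : ℕ) (B : Matrix (Fin n) (Fin n) ℤ), 0 < n → IsUnit B.det →
  (∀ w : Fin n → ℤ, w ≠ 0 → ∀ m : ℕ, 0 < m → (B ^ m) *ᵥ w ≠ w) →
  ∀ O : Set (EN n), IsOpen O → O.Nonempty → ∀ C : (Fin n → ℤ) → ℝ,
  ∃ w : Fin n → ℤ, w ≠ 0 ∧
    (∃ j : ℕ, 0 < j ∧ ∃ η ∈ O, C w < inner ℝ (iv ((B⁻¹ ^ j) *ᵥ w)) η) ∧
    ∃ j : ℕ, 0 < j ∧ ∃ η ∈ O, C w < inner ℝ (iv ((B ^ j) *ᵥ w)) η

/-- TORN: the result -/
def StTORN : Prop := ∀ (n : ℕ) (H : ℝ → EN n → ℝ) (B : Matrix (Fin n) (Fin n) ℤ), 0 < n →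
  TonN H → IsUnit B.det → (∀ s ξ, H (s + 1) ξ = H s (pull B ξ)) → ∀ k, (∃ s ξ, H s ξ = k) →
  (∃ x ξ, HT H x ξ = k ∧ IsOrbit (HT H) (fun _ => x) (fun _ => ξ)) ∨
  ∃ (x ξ : ℝ → EN n), IsOrbit (HT H) x ξ ∧ (∀ t, HT H (x t) (ξ t) = k) ∧
    ∃ T > 0, ∃ w : Fin n → ℤ, w ≠ 0 ∧ ∀ t, x (t + T) = x t + iv w ∧ ξ (t + T) = ξ t

end Pool.Agent.Lib.TorN
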