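import Mathlib
import Pool.Agent.Lib.MP_fe6961_an.TorN53

set_option autoImplicit false

open Filter Matrix Topology

namespace Pool.Agent.Lib.TorN.ATN40

open Pool.Agent.Lib.TorN

variable {d : ℕ}

theorem slice_compact {H : ℝ → EN d → ℝ} (hT : TonN H) (s k : ℝ) : IsCompact {p : EN d | H s p ≤ k} := by
  have h1 := (hT.2.2 s s k).image continuous_snd
  have h2 : (Prod.snd '' {z : ℝ × EN d | s ≤ z.1 ∧ z.1 ≤ s ∧ H z.1 z.2 ≤ k}) = {p : EN d | H s p ≤ k} := by
    ext p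
    constructor
    · rintro ⟨z, ⟨h1, h2, h3⟩, rfl⟩
      have : z.1 = s := le_antisymm h2 h1
      rw [this] at h3
      exact h3
    · intro hp
      exact ⟨(s, p), ⟨le_refl _, le_refl _, hp⟩, rfl⟩
  rwa [h2] at h1

theorem exists_max {H : ℝ → EN d → ℝ} (hT : TonN H) (v : EN d) (s k : ℝ) (hne : ∃ p, H s p < k) :
    ∃ p, H s p ≤ k ∧ ∀ p', H s p' ≤ k → inner ℝ v p' ≤ inner ℝ v p := by
  obtain ⟨q, hq⟩ := hne
  obtain ⟨p, hp, hmax⟩ := (slice_compact hT s k).exists_isMaxOn ⟨q, hq.le⟩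
    (f := fun p : EN d => inner ℝ v p) (by fun_prop)
  exact ⟨p, hp, fun p' hp' => hmax hp'⟩

theorem attN40 : StATT := by
  intro d H hT v k a b c hac hcb hne hC
  obtain ⟨C, hC1, ⟨pa, hpa, hCa⟩, ⟨pb, hpb, hCb⟩⟩ := hC
  have hex := fun s => exists_max hT v s k (hne s)
  choose P hP1 hP2 using hex
  have hcont : Continuous (fun z : ℝ × EN d => H z.1 z.2) := hT.1.continuous
  have hlsc : LowerSemicontinuousOn (fun s => (inner ℝ v (P s) : ℝ)) (Set.Icc a b) := by
    intro s0 _ y hy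
    obtain ⟨q, hq⟩ := hne s0
    have hpath : Continuous (fun t : ℝ => (1 - t) • P s0 + t • q) := by fun_prop
    have h1 : Tendsto (fun t : ℝ => (inner ℝ v ((1 - t) • P s0 + t • q) : ℝ)) (𝓝[>] 0)
        (𝓝 (inner ℝ v (P s0))) := by
      have h2 : Continuous (fun t : ℝ => (inner ℝ v ((1 - t) • P s0 + t • q) : ℝ)) := by fun_prop
      have h3 := h2.tendsto 0
      simp only [sub_zero, one_smul, zero_smul, add_zero] at h3
      exact h3.mono_left nhdsWithin_le_nhds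
    have h4 : ∀ᶠ t : ℝ in 𝓝[>] 0, y < inner ℝ v ((1 - t) • P s0 + t • q) ∧ 0 < t ∧ t < 1 := by
      refine (h1.eventually (lt_mem_nhds hy)).and ?_
      exact Ioo_mem_nhdsGT one_pos
    obtain ⟨t, ht1, ht2, ht3⟩ := h4.exists
    set p := (1 - t) • P s0 + t • q with hp
    have h5 : H s0 p < k := by
      have h6 := (hT.2.1 s0).2 (Set.mem_univ (P s0)) (Set.mem_univ q) (by linarith : 0 ≤ 1 - t)
        ht2.le (by ring)
      rw [← hp] at h6
      simp only [smul_eq_mul] at h6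
      have h7 := hP1 s0
      have h8 : (1 - t) * H s0 (P s0) ≤ (1 - t) * k := mul_le_mul_of_nonneg_left h7 (by linarith)
      have h9 : t * H s0 q < t * k := mul_lt_mul_of_pos_left hq ht2
      linarith
    have h10 : Continuous (fun s : ℝ => H s p) :=
      hcont.comp (by fun_prop : Continuous fun s : ℝ => (s, p))
    have h11 : ∀ᶠ s in 𝓝 s0, H s p < k := h10.continuousAt.eventually (gt_mem_nhds h5)
    filter_upwards [mem_nhdsWithin_of_mem_nhds h11] with s hs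
    exact lt_of_lt_of_le ht1 (hP2 s p hs.le)
  obtain ⟨s0, hs0, hmin⟩ := LowerSemicontinuousOn.exists_isMinOn
    (Set.nonempty_Icc.2 (hac.trans hcb).le) isCompact_Icc hlsc
  have hm : ∀ s, a ≤ s → s ≤ b → inner ℝ v (P s0) ≤ inner ℝ v (P s) := fun s h1 h2 =>
    hmin (show s ∈ Set.Icc a b from ⟨h1, h2⟩)
  have hc := hm c hac.le hcb.le
  have hc2 := hC1 (P c) (hP1 c)
  have hne_a : s0 ≠ a := by
    rintro rfl
    have := hP2 s0 pa hpa
    linarith
  have hne_b : s0 ≠ b := by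
    rintro rfl
    have := hP2 s0 pb hpb
    linarith
  refine ⟨s0, inner ℝ v (P s0), lt_of_le_of_ne hs0.1 (Ne.symm hne_a), lt_of_le_of_ne hs0.2 hne_b,
    ⟨P s0, hP1 s0, rfl⟩, hP2 s0, fun s h1 h2 => ⟨P s, hP1 s, hm s h1 h2⟩⟩

end Pool.Agent.Lib.TorN.ATN40
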