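import Mathlib
import Pool.Agent.Lib.MP_fe6961_an.Hom10

/-! Tonelli Hamiltonians on torus bundles over the circle which are invariant under the translations
of the fibres: definitions and rows. -/

open Filter Matrix

namespace Pool.Agent.Lib.Tor

open Pool.Agent.Lib.Hom

/-- a Tonelli family (less is asked): `C^1`, convex in the momentum, the part of a sublevel set over
a compact interval is compact -/
def Ton3 (H : ℝ → E3 → ℝ) : Prop :=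
  ContDiff ℝ 1 (fun z : ℝ × E3 => H z.1 z.2) ∧ (∀ s, ConvexOn ℝ Set.univ (H s)) ∧
    ∀ a b k, IsCompact {z : ℝ × E3 | a ≤ z.1 ∧ z.1 ≤ b ∧ H z.1 z.2 ≤ k}

/-- the Hamiltonian on the cotangent bundle of `ℝ³` -/
noncomputable def HT (H : ℝ → E3 → ℝ) (x ξ : E3) : ℝ := H (x 2) ξ

/-- the integer matrix as a real one -/
def re (B : Matrix (Fin 2) (Fin 2) ℤ) : Matrix (Fin 2) (Fin 2) ℝ := B.map (fun n => (n : ℝ))

/-- LAG: Lagrange multiplier at fixed `s` -/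
def StLAG : Prop := ∀ h : E3 → ℝ, ContDiff ℝ 1 h → ∀ (v p : E3) (k : ℝ), v ≠ 0 → h p = k →
  (∀ p', h p' ≤ k → inner ℝ v p' ≤ inner ℝ v p) → ∃ μ : ℝ, gradient h p = μ • v

/-- MAX: a maximum of the linear function over `{H ≤ k}` with an interior `s` -/
def StMAX : Prop := ∀ H, Ton3 H → ∀ (v : E3), v ≠ 0 → ∀ (k a b s : ℝ) (p : E3), a < s → s < b →
  H s p ≤ k → (∀ s' p', a ≤ s' → s' ≤ b → H s' p' ≤ k → inner ℝ v p' ≤ inner ℝ v p) →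
  H s p = k ∧ HasDerivAt (fun r => H r p) 0 s ∧ ∃ μ : ℝ, gradient (H s) p = μ • v

/-- CORE: Danskin's argument on the compact convex set `F = {H s0 ≤ k, M ≤ v}` -/
def StCORE : Prop := ∀ H, Ton3 H → ∀ (v : E3) (M k s0 : ℝ),
  (∃ p, H s0 p ≤ k ∧ M ≤ inner ℝ v p) → (∀ p, M ≤ inner ℝ v p → k ≤ H s0 p) →
  (∀ δ > 0, (∃ s p, s0 < s ∧ s < s0 + δ ∧ H s p ≤ k ∧ M ≤ inner ℝ v p) ∧
    ∃ s p, s0 - δ < s ∧ s < s0 ∧ H s p ≤ k ∧ M ≤ inner ℝ v p) →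
  ∃ p, H s0 p = k ∧ M ≤ inner ℝ v p ∧ HasDerivAt (fun r => H r p) 0 s0

/-- ATT: the support function `φ(s) = max of v over {H s ≤ k}` has an interior minimum -/
def StATT : Prop := ∀ H, Ton3 H → ∀ (v : E3) (k a b c : ℝ), a < c → c < b →
  (∀ s, ∃ p, H s p < k) →
  (∃ C, (∀ p, H c p ≤ k → inner ℝ v p ≤ C) ∧ (∃ p, H a p ≤ k ∧ C < inner ℝ v p) ∧
    ∃ p, H b p ≤ k ∧ C < inner ℝ v p) →
  ∃ s0 M, a < s0 ∧ s0 < b ∧ (∃ p, H s0 p ≤ k ∧ inner ℝ v p = M) ∧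
    (∀ p, H s0 p ≤ k → inner ℝ v p ≤ M) ∧ ∀ s, a ≤ s → s ≤ b → ∃ p, H s p ≤ k ∧ M ≤ inner ℝ v p

/-- ORB: the relative equilibrium gives a singularity or a periodic orbit -/
def StORB : Prop := ∀ H, Ton3 H → ∀ (w : Fin 2 → ℤ), w ≠ 0 → ∀ (s μ : ℝ) (p : E3),
  HasDerivAt (fun r => H r p) 0 s → gradient (H s) p = μ • iv w →
  (∃ x ξ, HT H x ξ = H s p ∧ IsOrbit (HT H) (fun _ => x) (fun _ => ξ)) ∨
  ∃ (x ξ : ℝ → E3), IsOrbit (HT H) x ξ ∧ (∀ t, HT H (x t) (ξ t) = H s p) ∧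
    ∃ T > 0, ∃ w' : Fin 2 → ℤ, w' ≠ 0 ∧ ∀ t, x (t + T) = x t + iv w' ∧ ξ (t + T) = ξ t

/-- SA: choice of the integer vector for a hyperbolic matrix -/
def StSA : Prop := ∀ B : Matrix (Fin 2) (Fin 2) ℤ, B.det = 1 → 2 < B.trace → ∀ O : Set E3,
  IsOpen O → O.Nonempty → ∃ ξ ∈ O, ∃ w : Fin 2 → ℤ, w ≠ 0 ∧ 0 < inner ℝ (iv w) ξ ∧
    inner ℝ (iv w) ξ < inner ℝ (iv w) (pull (re B) ξ) ∧
    inner ℝ (iv w) ξ < inner ℝ (iv w) (pull (re B.adjugate) ξ)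

/-- SB: growth in both directions -/
def StSB : Prop := ∀ B : Matrix (Fin 2) (Fin 2) ℤ, B.det = 1 → 2 < B.trace →
  ∀ (ξ : E3) (w : Fin 2 → ℤ), 0 < inner ℝ (iv w) ξ →
    inner ℝ (iv w) ξ < inner ℝ (iv w) (pull (re B) ξ) →
    inner ℝ (iv w) ξ < inner ℝ (iv w) (pull (re B.adjugate) ξ) →
  ∀ C : ℝ, ∃ j : ℕ, 0 < j ∧ C < inner ℝ (iv w) ((pull (re B))^[j] ξ) ∧
    C < inner ℝ (iv w) ((pull (re B.adjugate))^[j] ξ)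

/-- TOR: the result -/
def StTOR : Prop := ∀ (H : ℝ → E3 → ℝ) (B : Matrix (Fin 2) (Fin 2) ℤ), Ton3 H → B.det = 1 →
  (2 < B.trace ∨ ∃ w : Fin 2 → ℤ, w ≠ 0 ∧ B *ᵥ w = w) →
  (∀ s ξ, H (s + 1) ξ = H s (pull (re B) ξ)) → ∀ k, (∃ s ξ, H s ξ = k) →
  (∃ x ξ, HT H x ξ = k ∧ IsOrbit (HT H) (fun _ => x) (fun _ => ξ)) ∨
  ∃ (x ξ : ℝ → E3), IsOrbit (HT H) x ξ ∧ (∀ t, HT H (x t) (ξ t) = k) ∧
    ∃ T > 0, ∃ w : Fin 2 → ℤ, w ≠ 0 ∧ ∀ t, x (t + T) = x t + iv w ∧ ξ (t + T) = ξ t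

end Pool.Agent.Lib.Tor
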