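import Mathlib
import Pool.Agent.Lib.MP_fe6961_an.TorN53

/-! Danskin's argument on the compact convex face: row CORE. -/

open Filter Topology

namespace Pool.Agent.Lib.TorN.CORE53

open Pool.Agent.Lib.TorN

/-- passage to the limit -/
theorem lim53 {d : ℕ} (H : ℝ → EN d → ℝ) (hT : TonN H) (v : EN d) (M k s0 : ℝ) (g : ℝ × EN d → ℝ)
    (hg : Continuous g)
    (h : ∀ δ > 0, ∃ s p τ, |s - s0| < δ ∧ |τ - s0| < δ ∧ H s p ≤ k ∧ M ≤ inner ℝ v p ∧
      g (τ, p) ≤ 0) : ∃ p, H s0 p ≤ k ∧ M ≤ inner ℝ v p ∧ g (s0, p) ≤ 0 := by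
  have h1 : ∀ n : ℕ, ∃ s p τ, |s - s0| < 1 / ((n : ℝ) + 1) ∧ |τ - s0| < 1 / ((n : ℝ) + 1) ∧
      H s p ≤ k ∧ M ≤ inner ℝ v p ∧ g (τ, p) ≤ 0 := fun n => h _ Nat.one_div_pos_of_nat
  choose s p τ hs hτ hH hM hgp using h1
  have hb : ∀ n : ℕ, 1 / ((n : ℝ) + 1) ≤ 1 := fun n => by
    rw [div_le_one (by positivity)]
    have : (0 : ℝ) ≤ n := Nat.cast_nonneg n
    linarith
  have hK := hT.2.2 (s0 - 1) (s0 + 1) k
  have hin : ∀ n, ((s n, p n) : ℝ × EN d) ∈
      {z : ℝ × EN d | s0 - 1 ≤ z.1 ∧ z.1 ≤ s0 + 1 ∧ H z.1 z.2 ≤ k} := by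
    intro n
    have := abs_lt.1 ((hs n).trans_le (hb n))
    exact ⟨by show s0 - 1 ≤ s n; linarith, by show s n ≤ s0 + 1; linarith, hH n⟩
  obtain ⟨⟨a1, a2⟩, ha, φ, hφ, hlim⟩ := hK.tendsto_subseq hin
  have ht0 : Tendsto (fun n : ℕ => 1 / ((n : ℝ) + 1)) atTop (𝓝 0) :=
    tendsto_one_div_add_atTop_nhds_zero_nat
  have hsq : ∀ u : ℕ → ℝ, (∀ n, |u n - s0| < 1 / ((n : ℝ) + 1)) → Tendsto u atTop (𝓝 s0) := by
    intro u hu
    rw [tendsto_iff_norm_sub_tendsto_zero]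
    refine squeeze_zero (fun n => norm_nonneg _) (fun n => ?_) ht0
    rw [Real.norm_eq_abs]
    exact (hu n).le
  have hs0 : Tendsto (fun n => s (φ n)) atTop (𝓝 s0) := (hsq s hs).comp hφ.tendsto_atTop
  have hτ0 : Tendsto (fun n => τ (φ n)) atTop (𝓝 s0) := (hsq τ hτ).comp hφ.tendsto_atTop
  have hp1 : Tendsto (fun n => s (φ n)) atTop (𝓝 a1) := (continuous_fst.tendsto _).comp hlim
  have hp2 : Tendsto (fun n => p (φ n)) atTop (𝓝 a2) := (continuous_snd.tendsto _).comp hlim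
  have ha1 : a1 = s0 := tendsto_nhds_unique hp1 hs0
  subst ha1
  refine ⟨a2, ha.2.2, ?_, ?_⟩
  · exact ge_of_tendsto' ((continuous_const.inner continuous_id).tendsto a2 |>.comp hp2)
      fun n => hM (φ n)
  · have h3 : Tendsto (fun n => g (τ (φ n), p (φ n))) atTop (𝓝 (g (a1, a2))) :=
      (hg.tendsto _).comp (hτ0.prodMk_nhds hp2)
    exact le_of_tendsto' h3 fun n => hgp (φ n)

theorem coren53 : StCORE := by
  intro n H hT v M k s0 hne hlow hseq
  let g : ℝ × EN n → ℝ := fun z => fderiv ℝ (fun z : ℝ × EN n => H z.1 z.2) z (1, 0)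
  have hgc : Continuous g := (hT.1.continuous_fderiv (by norm_num)).clm_apply continuous_const
  have hder : ∀ τ p, HasDerivAt (fun r => H r p) (g (τ, p)) τ := by
    intro τ p
    have h1 : HasFDerivAt (fun z : ℝ × EN n => H z.1 z.2)
        (fderiv ℝ (fun z : ℝ × EN n => H z.1 z.2) (τ, p)) (τ, p) :=
      (hT.1.differentiable (by norm_num) (τ, p)).hasFDerivAt
    exact h1.comp_hasDerivAt τ ((hasDerivAt_id τ).prodMk (hasDerivAt_const τ p))
  obtain ⟨pp, hpp1, hpp2, hpp3⟩ : ∃ p, H s0 p ≤ k ∧ M ≤ inner ℝ v p ∧ g (s0, p) ≤ 0 := by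
    refine lim53 H hT v M k s0 g hgc fun δ hδ => ?_
    obtain ⟨s, p, h1, h2, h3, h4⟩ := (hseq δ hδ).1
    obtain ⟨c, hc, hc2⟩ := exists_hasDerivAt_eq_slope (fun r => H r p) (fun r => g (r, p)) h1
      (fun x _ => (hder x p).continuousAt.continuousWithinAt) (fun x _ => hder x p)
    refine ⟨s, p, c, ?_, ?_, h3, h4, ?_⟩
    · rw [abs_lt]; constructor <;> linarith
    · have := hc.1; have := hc.2
      rw [abs_lt]; constructor <;> linarith
    · have h5 := hlow p h4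
      show g (c, p) ≤ 0
      rw [hc2]
      exact div_nonpos_of_nonpos_of_nonneg (by linarith) (by linarith)
  obtain ⟨pm, hpm1, hpm2, hpm3⟩ : ∃ p, H s0 p ≤ k ∧ M ≤ inner ℝ v p ∧ -g (s0, p) ≤ 0 := by
    refine lim53 H hT v M k s0 (fun z => -g z) hgc.neg fun δ hδ => ?_
    obtain ⟨s, p, h1, h2, h3, h4⟩ := (hseq δ hδ).2
    obtain ⟨c, hc, hc2⟩ := exists_hasDerivAt_eq_slope (fun r => H r p) (fun r => g (r, p)) h2
      (fun x _ => (hder x p).continuousAt.continuousWithinAt) (fun x _ => hder x p)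
    refine ⟨s, p, c, ?_, ?_, h3, h4, ?_⟩
    · rw [abs_lt]; constructor <;> linarith
    · have := hc.1; have := hc.2
      rw [abs_lt]; constructor <;> linarith
    · have h5 := hlow p h4
      show -g (c, p) ≤ 0
      rw [hc2]
      have : 0 ≤ (H s0 p - H s p) / (s0 - s) := div_nonneg (by linarith) (by linarith)
      linarith
  have hconv : Convex ℝ {p : EN n | H s0 p ≤ k ∧ M ≤ inner ℝ v p} := by
    have h1 : Convex ℝ {p : EN n | p ∈ Set.univ ∧ H s0 p ≤ k} := (hT.2.1 s0).convex_le k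
    have h2 : Convex ℝ {p : EN n | M ≤ inner ℝ v p} :=
      convex_halfSpace_ge (f := fun p : EN n => (inner ℝ v p : ℝ))
        ⟨fun x y => inner_add_right v x y, fun c x => by
          simp [inner_smul_right]⟩ M
    have h3 := h1.inter h2
    have e : {p : EN n | H s0 p ≤ k ∧ M ≤ inner ℝ v p} =
        {p : EN n | p ∈ Set.univ ∧ H s0 p ≤ k} ∩ {p : EN n | M ≤ inner ℝ v p} := by
      ext p
      simp
    rw [e]
    exact h3
  have hcont : ContinuousOn (fun p => g (s0, p)) {p : EN n | H s0 p ≤ k ∧ M ≤ inner ℝ v p} :=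
    (hgc.comp (continuous_const.prodMk continuous_id)).continuousOn
  obtain ⟨p, hp, hp0⟩ := hconv.isPreconnected.intermediate_value (a := pp) (b := pm)
    ⟨hpp1, hpp2⟩ ⟨hpm1, hpm2⟩ hcont
    (show (0 : ℝ) ∈ Set.Icc (g (s0, pp)) (g (s0, pm)) from ⟨hpp3, by linarith⟩)
  refine ⟨p, le_antisymm hp.1 (hlow p hp.2), hp.2, ?_⟩
  have h6 := hder s0 p
  simp only at hp0
  rwa [hp0] at h6

end Pool.Agent.Lib.TorN.CORE53
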