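import Mathlib
import Pool.Agent.Lib.MP_fe6961_an.TorN53

/-! Torus bundles: row CORE. -/

open Filter Matrix Topology

namespace Pool.Agent.Lib.TorN.CN40

open Pool.Agent.Lib.TorN

variable {d : ℕ} {H : ℝ → EN d → ℝ}

/-- the derivative in the first variable -/
noncomputable def dd (H : ℝ → EN d → ℝ) (z : ℝ × EN d) : ℝ :=
  fderiv ℝ (fun z : ℝ × EN d => H z.1 z.2) z (1, 0)

theorem dd_cont (hH : TonN H) : Continuous (dd H) :=
  (hH.1.continuous_fderiv one_ne_zero).clm_apply continuous_const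

theorem dd_deriv (hH : TonN H) (s : ℝ) (p : EN d) : HasDerivAt (fun r => H r p) (dd H (s, p)) s := by
  have h1 : HasFDerivAt (fun z : ℝ × EN d => H z.1 z.2)
      (fderiv ℝ (fun z : ℝ × EN d => H z.1 z.2) (s, p)) (s, p) :=
    (hH.1.differentiable one_ne_zero (s, p)).hasFDerivAt
  have h2 : HasDerivAt (fun r : ℝ => (r, p)) ((1 : ℝ), (0 : EN d)) s :=
    (hasDerivAt_id s).prodMk (hasDerivAt_const s p)
  exact h1.comp_hasDerivAt s h2

theorem side (hH : TonN H) (v : EN d) (M k s0 σ : ℝ)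
    (h : ∀ n : ℕ, ∃ (θ s : ℝ) (p : EN d), |θ - s0| ≤ 1 / ((n : ℝ) + 1) ∧
      |s - s0| ≤ 1 / ((n : ℝ) + 1) ∧ H s p ≤ k ∧ M ≤ inner ℝ v p ∧ 0 ≤ σ * dd H (θ, p)) :
    ∃ p, H s0 p ≤ k ∧ M ≤ inner ℝ v p ∧ 0 ≤ σ * dd H (s0, p) := by
  choose θ s p h1 h2 h3 h4 h5 using h
  have hK := hH.2.2 (s0 - 1) (s0 + 1) k
  have hn : ∀ n : ℕ, 1 / ((n : ℝ) + 1) ≤ 1 := by
    intro n
    rw [div_le_one (by positivity)]
    have : (0 : ℝ) ≤ n := Nat.cast_nonneg n
    linarith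
  have hmem : ∀ n, (s n, p n) ∈
      {z : ℝ × EN d | s0 - 1 ≤ z.1 ∧ z.1 ≤ s0 + 1 ∧ H z.1 z.2 ≤ k} := by
    intro n
    have h6 := abs_le.1 ((h2 n).trans (hn n))
    exact ⟨by linarith [h6.1], by linarith [h6.2], h3 n⟩
  obtain ⟨z, hz, φ, hφ, hlim⟩ := hK.tendsto_subseq hmem
  have t0 : Tendsto (fun n : ℕ => 1 / ((n : ℝ) + 1)) atTop (𝓝 0) :=
    tendsto_one_div_add_atTop_nhds_zero_nat
  have tz : ∀ a : ℕ → ℝ, (∀ n, |a n - s0| ≤ 1 / ((n : ℝ) + 1)) → Tendsto a atTop (𝓝 s0) := by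
    intro a ha
    rw [tendsto_iff_dist_tendsto_zero]
    exact squeeze_zero (fun n => dist_nonneg) (fun n => by rw [Real.dist_eq]; exact ha n) t0
  have hs : Tendsto (s ∘ φ) atTop (𝓝 s0) := (tz s h2).comp hφ.tendsto_atTop
  have hθ : Tendsto (θ ∘ φ) atTop (𝓝 s0) := (tz θ h1).comp hφ.tendsto_atTop
  have hz1 : Tendsto (s ∘ φ) atTop (𝓝 z.1) := (continuous_fst.tendsto z).comp hlim
  have hz2 : Tendsto (p ∘ φ) atTop (𝓝 z.2) := (continuous_snd.tendsto z).comp hlim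
  have e1 : z.1 = s0 := tendsto_nhds_unique hz1 hs
  refine ⟨z.2, ?_, ?_, ?_⟩
  · have := hz.2.2
    rwa [e1] at this
  · exact ge_of_tendsto' ((continuous_const.inner continuous_id).tendsto z.2 |>.comp hz2)
      fun n => h4 (φ n)
  · have h6 : Tendsto (fun n => σ * dd H (θ (φ n), p (φ n))) atTop (𝓝 (σ * dd H (s0, z.2))) :=
      (((dd_cont hH).tendsto (s0, z.2)).comp (hθ.prodMk_nhds hz2)).const_mul σ
    exact ge_of_tendsto' h6 fun n => h5 (φ n)

end Pool.Agent.Lib.TorN.CN40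

namespace Pool.Agent.Lib.TorN

open CN40

theorem coreN40 : StCORE := by
  intro d H hH v M k s0 hne hge hδ
  have hpos : ∀ n : ℕ, (0 : ℝ) < 1 / ((n : ℝ) + 1) := fun n => by positivity
  obtain ⟨p₁, a1, a2, a3⟩ := side hH v M k s0 (-1) (by
    intro n
    obtain ⟨s, p, h1, h2, h3, h4⟩ := (hδ _ (hpos n)).1
    obtain ⟨θ, hθ, he⟩ := exists_hasDerivAt_eq_slope (fun r => H r p) (fun r => dd H (r, p)) h1
      (fun r _ => (dd_deriv hH r p).continuousAt.continuousWithinAt)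
      (fun r _ => dd_deriv hH r p)
    refine ⟨θ, s, p, ?_, ?_, h3, h4, ?_⟩
    · rw [abs_le]; constructor <;> linarith [hθ.1, hθ.2, hpos n]
    · rw [abs_le]; constructor <;> linarith [hpos n]
    · have h5 : (H s p - H s0 p) / (s - s0) ≤ 0 :=
        div_nonpos_of_nonpos_of_nonneg (by linarith [hge p h4]) (by linarith)
      have h6 : dd H (θ, p) = (H s p - H s0 p) / (s - s0) := he
      rw [h6]
      linarith)
  obtain ⟨p₂, b1, b2, b3⟩ := side hH v M k s0 1 (by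
    intro n
    obtain ⟨s, p, h1, h2, h3, h4⟩ := (hδ _ (hpos n)).2
    obtain ⟨θ, hθ, he⟩ := exists_hasDerivAt_eq_slope (fun r => H r p) (fun r => dd H (r, p)) h2
      (fun r _ => (dd_deriv hH r p).continuousAt.continuousWithinAt)
      (fun r _ => dd_deriv hH r p)
    refine ⟨θ, s, p, ?_, ?_, h3, h4, ?_⟩
    · rw [abs_le]; constructor <;> linarith [hθ.1, hθ.2, hpos n]
    · rw [abs_le]; constructor <;> linarith [hpos n]
    · have h5 : 0 ≤ (H s0 p - H s p) / (s0 - s) :=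
        div_nonneg (by linarith [hge p h4]) (by linarith)
      have h6 : dd H (θ, p) = (H s0 p - H s p) / (s0 - s) := he
      rw [h6]
      linarith)
  set F : Set (EN d) := {p | H s0 p ≤ k} ∩ {p | M ≤ inner ℝ v p} with hF
  have hconv : Convex ℝ F := by
    refine Convex.inter ?_ ?_
    · have := (hH.2.1 s0).convex_le k
      simpa using this
    · exact convex_halfSpace_ge (f := fun p : EN d => inner ℝ v p)
        ⟨fun x y => inner_add_right _ _ _, fun c x => by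
          rw [real_inner_smul_right]; rfl⟩ M
  have hcont : Continuous (fun p : EN d => dd H (s0, p)) :=
    (dd_cont hH).comp (Continuous.prodMk_right s0)
  obtain ⟨p, hp, hp0⟩ := hconv.isPreconnected.intermediate_value (a := p₁) (b := p₂)
    ⟨a1, a2⟩ ⟨b1, b2⟩ hcont.continuousOn
    (show (0 : ℝ) ∈ Set.Icc _ _ from ⟨by linarith, by linarith⟩)
  refine ⟨p, le_antisymm hp.1 (hge p hp.2), hp.2, ?_⟩
  have := dd_deriv hH s0 p
  have e : dd H (s0, p) = 0 := hp0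
  rwa [e] at this

end Pool.Agent.Lib.TorN
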