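import Mathlib
import Pool.Agent.Lib.MP_fe6961_an.TorN53

/-! The directions of a two-sided orbit with opposite signs at both ends: row DIR. -/

open Filter Topology Matrix

namespace Pool.Agent.Lib.TorN.DIR53

section gen

variable {V : Type*} [NormedAddCommGroup V] [InnerProductSpace ℝ V]

/-- two unit vectors with the same sign against every vector are equal -/
theorem eq_of_sgn {a b : V} (ha : ‖a‖ = 1) (hb : ‖b‖ = 1)
    (h : ∀ x : V, 0 ≤ inner ℝ x a * inner ℝ x b) : a = b := by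
  have h1 := h (a - b)
  rw [inner_sub_left, inner_sub_left, real_inner_self_eq_norm_sq, real_inner_self_eq_norm_sq,
    ha, hb, real_inner_comm a b] at h1
  have h2 : (inner ℝ a b : ℝ) = 1 := by nlinarith
  exact (inner_eq_one_iff_of_norm_eq_one ha hb).1 h2

/-- the direction -/
noncomputable def dr (U : ℕ → V) (j : ℕ) : V := ‖U j‖⁻¹ • U j

theorem norm_top (U : ℕ → V) (w : V) (h : Tendsto (fun j => inner ℝ w (U j)) atTop atTop ∨
    Tendsto (fun j => inner ℝ w (U j)) atTop atBot) :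
    Tendsto (fun j => ‖U j‖) atTop atTop := by
  have key : ∀ w : V, Tendsto (fun j => (inner ℝ w (U j) : ℝ)) atTop atTop →
      Tendsto (fun j => ‖U j‖) atTop atTop := by
    intro w h
    have h1 : Tendsto (fun j => ‖w‖ * ‖U j‖) atTop atTop :=
      tendsto_atTop_mono (fun j => real_inner_le_norm w (U j)) h
    have hw : 0 < ‖w‖ := by
      rcases (norm_nonneg w).lt_or_eq with h2 | h2
      · exact h2
      · exfalso
        rw [← h2] at h1
        simp only [zero_mul] at h1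
        obtain ⟨j, hj⟩ := (h1.eventually_gt_atTop 0).exists
        exact lt_irrefl _ hj
    exact (tendsto_const_mul_atTop_of_pos hw).1 h1
  rcases h with h | h
  · exact key w h
  · refine key (-w) ?_
    have : (fun j => (inner ℝ (-w) (U j) : ℝ)) = fun j => -(inner ℝ w (U j) : ℝ) := by
      funext j
      rw [inner_neg_left]
    rw [this]
    exact tendsto_neg_atBot_atTop.comp h

theorem sg_pos (U : ℕ → V) (w a : V) (ns : ℕ → ℕ) (hns : Tendsto ns atTop atTop)
    (ha : Tendsto (fun n => dr U (ns n)) atTop (𝓝 a))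
    (h : Tendsto (fun j => (inner ℝ w (U j) : ℝ)) atTop atTop) : 0 ≤ (inner ℝ w a : ℝ) := by
  have h1 : Tendsto (fun n => (inner ℝ w (dr U (ns n)) : ℝ)) atTop (𝓝 (inner ℝ w a)) :=
    ((continuous_const.inner continuous_id).tendsto a).comp ha
  refine ge_of_tendsto h1 ?_
  filter_upwards [(h.comp hns).eventually_ge_atTop 0] with n hn
  unfold dr
  rw [inner_smul_right]
  exact mul_nonneg (inv_nonneg.2 (norm_nonneg _)) hn

theorem sg_neg (U : ℕ → V) (w a : V) (ns : ℕ → ℕ) (hns : Tendsto ns atTop atTop)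
    (ha : Tendsto (fun n => dr U (ns n)) atTop (𝓝 a))
    (h : Tendsto (fun j => (inner ℝ w (U j) : ℝ)) atTop atBot) : (inner ℝ w a : ℝ) ≤ 0 := by
  have h1 : Tendsto (fun n => (inner ℝ w (dr U (ns n)) : ℝ)) atTop (𝓝 (inner ℝ w a)) :=
    ((continuous_const.inner continuous_id).tendsto a).comp ha
  refine le_of_tendsto h1 ?_
  filter_upwards [(h.comp hns).eventually_le_atBot 0] with n hn
  unfold dr
  rw [inner_smul_right]
  exact mul_nonpos_of_nonneg_of_nonpos (inv_nonneg.2 (norm_nonneg _)) hn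

theorem dr_le (U : ℕ → V) (j : ℕ) : dr U j ∈ Metric.closedBall (0 : V) 1 := by
  rw [mem_closedBall_zero_iff]
  unfold dr
  rw [norm_smul, norm_inv, norm_norm]
  exact inv_mul_le_one

theorem norm_lim (U : ℕ → V) (hU : Tendsto (fun j => ‖U j‖) atTop atTop) (a : V) (ns : ℕ → ℕ)
    (hns : Tendsto ns atTop atTop) (ha : Tendsto (fun n => dr U (ns n)) atTop (𝓝 a)) :
    ‖a‖ = 1 := by
  have h1 : Tendsto (fun n => ‖dr U (ns n)‖) atTop (𝓝 ‖a‖) := ha.norm
  have h2 : Tendsto (fun n => ‖dr U (ns n)‖) atTop (𝓝 1) := by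
    refine tendsto_const_nhds.congr' ?_
    filter_upwards [(hU.comp hns).eventually_gt_atTop 0] with n hn
    have hn' : ‖U (ns n)‖ ≠ 0 := ne_of_gt hn
    unfold dr
    rw [norm_smul, norm_inv, norm_norm, inv_mul_cancel₀ hn']
  exact tendsto_nhds_unique h1 h2

theorem dirV [FiniteDimensional ℝ V] (T : V →L[ℝ] V) (U W : ℕ → V) (G : Set V) (hG : G.Nonempty)
    (hdens : ∀ a b : V, (∀ w ∈ G, 0 ≤ (inner ℝ w a : ℝ) * inner ℝ w b) →
      ∀ x : V, 0 ≤ (inner ℝ x a : ℝ) * inner ℝ x b)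
    (hfix : ∀ x, T x = x → x = 0) (hU : ∀ j, U (j + 1) = T (U j)) (hW : ∀ j, T (W (j + 1)) = W j)
    (hs : ∀ w ∈ G, (Tendsto (fun j => (inner ℝ w (U j) : ℝ)) atTop atTop ∧
        Tendsto (fun j => (inner ℝ w (W j) : ℝ)) atTop atBot) ∨
      (Tendsto (fun j => (inner ℝ w (U j) : ℝ)) atTop atBot ∧
        Tendsto (fun j => (inner ℝ w (W j) : ℝ)) atTop atTop)) : False := by
  obtain ⟨w0, hw0⟩ := hG
  have hUn : Tendsto (fun j => ‖U j‖) atTop atTop := by
    rcases hs w0 hw0 with h | h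
    · exact norm_top U w0 (Or.inl h.1)
    · exact norm_top U w0 (Or.inr h.1)
  have hWn : Tendsto (fun j => ‖W j‖) atTop atTop := by
    rcases hs w0 hw0 with h | h
    · exact norm_top W w0 (Or.inr h.2)
    · exact norm_top W w0 (Or.inl h.2)
  -- opposite cluster points
  have hopp : ∀ (a c : V) (ns ms : ℕ → ℕ), Tendsto ns atTop atTop → Tendsto ms atTop atTop →
      Tendsto (fun n => dr U (ns n)) atTop (𝓝 a) → Tendsto (fun n => dr W (ms n)) atTop (𝓝 c) →
      a = -c := by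
    intro a c ns ms hns hms ha hc
    have ha1 := norm_lim U hUn a ns hns ha
    have hc1 := norm_lim W hWn c ms hms hc
    refine eq_of_sgn ha1 (by rw [norm_neg]; exact hc1) (hdens a (-c) fun w hw => ?_)
    rw [inner_neg_right]
    rcases hs w hw with h | h
    · have h1 := sg_pos U w a ns hns ha h.1
      have h2 := sg_neg W w c ms hms hc h.2
      exact mul_nonneg h1 (by linarith)
    · have h1 := sg_neg U w a ns hns ha h.1
      have h2 := sg_pos W w c ms hms hc h.2
      exact mul_nonneg_of_nonpos_of_nonpos h1 (by linarith)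
  haveI : ProperSpace V := FiniteDimensional.proper ℝ V
  have hcpt : IsCompact (Metric.closedBall (0 : V) 1) := isCompact_closedBall 0 1
  obtain ⟨c, -, χ, hχ, hc⟩ := hcpt.tendsto_subseq (x := dr W) (fun j => dr_le W j)
  have hUlim : Tendsto (dr U) atTop (𝓝 (-c)) := by
    refine tendsto_of_subseq_tendsto fun ns hns => ?_
    obtain ⟨a, -, ψ, hψ, ha⟩ := hcpt.tendsto_subseq (x := fun n => dr U (ns n))
      (fun j => dr_le U _)
    refine ⟨ψ, ?_⟩
    have : a = -c := hopp a c (fun n => ns (ψ n)) χ (hns.comp hψ.tendsto_atTop) hχ.tendsto_atTop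
      ha hc
    rw [← this]
    exact ha
  have hWlim : Tendsto (dr W) atTop (𝓝 c) := by
    refine tendsto_of_subseq_tendsto fun ns hns => ?_
    obtain ⟨a, -, ψ, hψ, ha⟩ := hcpt.tendsto_subseq (x := fun n => dr W (ns n))
      (fun j => dr_le W _)
    refine ⟨ψ, ?_⟩
    have : -c = -a := hopp (-c) a id (fun n => ns (ψ n)) tendsto_id
      (hns.comp hψ.tendsto_atTop) hUlim ha
    have h2 : a = c := (neg_injective this).symm
    rw [← h2]
    exact ha
  have hc1 : ‖c‖ = 1 := norm_lim W hWn c id tendsto_id hWlim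
  -- the ratios
  have hTU : Tendsto (fun j => T (dr U j)) atTop (𝓝 (T (-c))) :=
    (T.continuous.tendsto _).comp hUlim
  have hTUn : Tendsto (fun j => ‖T (dr U j)‖) atTop (𝓝 ‖T c‖) := by
    have := hTU.norm
    rwa [map_neg, norm_neg] at this
  have hTW : Tendsto (fun j => ‖T (dr W (j + 1))‖) atTop (𝓝 ‖T c‖) :=
    ((T.continuous.tendsto _).comp (hWlim.comp (tendsto_add_atTop_nat 1))).norm
  have eU : ∀ j, T (dr U j) = ‖U j‖⁻¹ • U (j + 1) := by
    intro j
    unfold dr
    rw [map_smul, hU]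
  have eW : ∀ j, T (dr W (j + 1)) = ‖W (j + 1)‖⁻¹ • W j := by
    intro j
    unfold dr
    rw [map_smul, hW]
  have hbd : ∀ X : ℕ → V, Tendsto (fun j => ‖X j‖) atTop atTop →
      (∀ᶠ j in atTop, ‖X (j + 1)‖ ≤ ‖X j‖) → False := by
    intro X hX hev
    obtain ⟨N, hN⟩ := eventually_atTop.1 hev
    have hle : ∀ d, ‖X (N + d)‖ ≤ ‖X N‖ := by
      intro d
      induction d with
      | zero => exact le_rfl
      | succ d ih => exact (hN (N + d) (Nat.le_add_right N d)).trans ih
    obtain ⟨j, hj1, hj2⟩ := ((hX.eventually_gt_atTop ‖X N‖).and (eventually_ge_atTop N)).exists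
    have := hle (j - N)
    rw [Nat.add_sub_cancel' hj2] at this
    linarith
  rcases lt_trichotomy ‖T c‖ 1 with hl | hl | hl
  · refine hbd U hUn ?_
    filter_upwards [hTUn.eventually (gt_mem_nhds hl), hUn.eventually_gt_atTop 0] with j h1 h2
    rw [eU, norm_smul, norm_inv, norm_norm] at h1
    have h3 : ‖U (j + 1)‖ = ‖U j‖ * (‖U j‖⁻¹ * ‖U (j + 1)‖) := by
      rw [← mul_assoc, mul_inv_cancel₀ h2.ne', one_mul]
    rw [h3]
    nlinarith
  · -- the fixed direction
    have h1 : Tendsto (fun j => ‖T (dr U j)‖ • dr U (j + 1)) atTop (𝓝 (‖T c‖ • (-c))) :=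
      hTUn.smul (hUlim.comp (tendsto_add_atTop_nat 1))
    have h2 : Tendsto (fun j => ‖T (dr U j)‖ • dr U (j + 1)) atTop (𝓝 (T (-c))) := by
      refine hTU.congr' ?_
      filter_upwards [(hUn.comp (tendsto_add_atTop_nat 1)).eventually_gt_atTop 0] with j h3
      have h3' : ‖U (j + 1)‖ ≠ 0 := ne_of_gt h3
      rw [eU, norm_smul, norm_inv, norm_norm]
      unfold dr
      rw [smul_smul, mul_assoc, mul_inv_cancel₀ h3', mul_one]
    have h3 := tendsto_nhds_unique h1 h2
    rw [hl, one_smul] at h3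
    have h4 := hfix (-c) h3.symm
    rw [neg_eq_zero] at h4
    rw [h4, norm_zero] at hc1
    exact zero_ne_one hc1
  · refine hbd W hWn ?_
    filter_upwards [hTW.eventually (lt_mem_nhds hl),
      (hWn.comp (tendsto_add_atTop_nat 1)).eventually_gt_atTop 0] with j h1 h2
    rw [eW, norm_smul, norm_inv, norm_norm] at h1
    have h2' : 0 < ‖W (j + 1)‖ := h2
    have h3 : ‖W j‖ = ‖W (j + 1)‖ * (‖W (j + 1)‖⁻¹ * ‖W j‖) := by
      rw [← mul_assoc, mul_inv_cancel₀ h2'.ne', one_mul]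
    rw [h3]
    nlinarith

end gen

/-- integer vectors are dense up to scaling -/
theorem dens (n : ℕ) (a b : EuclideanSpace ℝ (Fin n))
    (h : ∀ w : Fin n → ℤ, w ≠ 0 →
      0 ≤ (inner ℝ (WithLp.toLp 2 (fun i => (w i : ℝ)) : EuclideanSpace ℝ (Fin n)) a : ℝ) *
        inner ℝ (WithLp.toLp 2 (fun i => (w i : ℝ)) : EuclideanSpace ℝ (Fin n)) b)
    (x : EuclideanSpace ℝ (Fin n)) : 0 ≤ (inner ℝ x a : ℝ) * inner ℝ x b := by
  have h' : ∀ w : Fin n → ℤ,
      0 ≤ (inner ℝ (WithLp.toLp 2 (fun i => (w i : ℝ)) : EuclideanSpace ℝ (Fin n)) a : ℝ) *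
        inner ℝ (WithLp.toLp 2 (fun i => (w i : ℝ)) : EuclideanSpace ℝ (Fin n)) b := by
    intro w
    by_cases hw : w = 0
    · subst hw
      have : (WithLp.toLp 2 (fun i => (((0 : Fin n → ℤ) i : ℤ) : ℝ)) : EuclideanSpace ℝ (Fin n)) =
          0 := by
        ext i
        simp
      rw [this, inner_zero_left, zero_mul]
    · exact h w hw
  let y : ℕ → EuclideanSpace ℝ (Fin n) := fun N =>
    WithLp.toLp 2 (fun i => ((⌊((N : ℝ) + 1) * x i⌋ : ℤ) : ℝ))
  have hx : Tendsto (fun N : ℕ => (1 / ((N : ℝ) + 1)) • y N) atTop (𝓝 x) := by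
    have h1 : Tendsto (fun N : ℕ => fun i => (1 / ((N : ℝ) + 1)) *
        ((⌊((N : ℝ) + 1) * x i⌋ : ℤ) : ℝ)) atTop (𝓝 (fun i => x i)) := by
      rw [tendsto_pi_nhds]
      intro i
      have h2 : Tendsto (fun N : ℕ => x i - 1 / ((N : ℝ) + 1)) atTop (𝓝 (x i)) := by
        have := (tendsto_const_nhds (x := x i)).sub
          (tendsto_one_div_add_atTop_nhds_zero_nat (𝕜 := ℝ))
        simpa using this
      refine tendsto_of_tendsto_of_tendsto_of_le_of_le h2 tendsto_const_nhds (fun N => ?_)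
        (fun N => ?_)
      · have hN : (0 : ℝ) < (N : ℝ) + 1 := by positivity
        have h3 := Int.sub_one_lt_floor (((N : ℝ) + 1) * x i)
        have h4 : (1 / ((N : ℝ) + 1)) * (((N : ℝ) + 1) * x i - 1) = x i - 1 / ((N : ℝ) + 1) := by
          field_simp
        show x i - 1 / ((N : ℝ) + 1) ≤ _
        rw [← h4]
        exact mul_le_mul_of_nonneg_left h3.le (by positivity)
      · have hN : (0 : ℝ) < (N : ℝ) + 1 := by positivity
        have h3 := Int.floor_le (((N : ℝ) + 1) * x i)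
        have h4 : (1 / ((N : ℝ) + 1)) * (((N : ℝ) + 1) * x i) = x i := by
          field_simp
        show (1 / ((N : ℝ) + 1)) * _ ≤ x i
        calc (1 / ((N : ℝ) + 1)) * ((⌊((N : ℝ) + 1) * x i⌋ : ℤ) : ℝ) ≤
            (1 / ((N : ℝ) + 1)) * (((N : ℝ) + 1) * x i) :=
              mul_le_mul_of_nonneg_left h3 (by positivity)
          _ = x i := h4
    have h5 := ((PiLp.continuous_toLp 2 (fun _ : Fin n => ℝ)).tendsto _).comp h1
    exact h5
  have hc : Continuous (fun z : EuclideanSpace ℝ (Fin n) => (inner ℝ z a : ℝ) * inner ℝ z b) :=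
    (continuous_id.inner continuous_const).mul (continuous_id.inner continuous_const)
  refine ge_of_tendsto' ((hc.tendsto x).comp hx) fun N => ?_
  show 0 ≤ (inner ℝ ((1 / ((N : ℝ) + 1)) • y N) a : ℝ) * inner ℝ ((1 / ((N : ℝ) + 1)) • y N) b
  rw [real_inner_smul_left, real_inner_smul_left]
  have h6 := h' (fun i => ⌊((N : ℝ) + 1) * x i⌋)
  have h7 : (0 : ℝ) ≤ (1 / ((N : ℝ) + 1)) * (1 / ((N : ℝ) + 1)) := by positivity
  have h8 := mul_nonneg h7 h6
  calc (0 : ℝ) ≤ _ := h8
    _ = _ := by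
      simp only [y]
      ring

theorem dir53 : StDIR := by
  intro n A u v hn hfix hu hv hs
  have hin : ∀ (w : Fin n → ℝ) (x : Fin n → ℝ),
      (inner ℝ (WithLp.toLp 2 w : EuclideanSpace ℝ (Fin n)) (WithLp.toLp 2 x) : ℝ) =
        ∑ i, w i * x i := by
    intro w x
    rw [PiLp.inner_apply]
    refine Finset.sum_congr rfl fun i _ => ?_
    simp [mul_comm]
  refine dirV (V := EuclideanSpace ℝ (Fin n))
    (LinearMap.toContinuousLinearMap (Matrix.toEuclideanLin A))
    (fun j => WithLp.toLp 2 (u j)) (fun j => WithLp.toLp 2 (v j))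
    {x | ∃ w : Fin n → ℤ, w ≠ 0 ∧ x = WithLp.toLp 2 (fun i => (w i : ℝ))} ?_ ?_ ?_ ?_ ?_ ?_
  · refine ⟨_, fun _ => 1, ?_, rfl⟩
    intro h
    have := congrFun h ⟨0, hn⟩
    simp at this
  · intro a b h x
    exact dens n a b (fun w hw => h _ ⟨w, hw, rfl⟩) x
  · intro x hx
    have h1 : A *ᵥ (WithLp.ofLp x) = WithLp.ofLp x := by
      have := congrArg WithLp.ofLp hx
      simpa using this
    have h2 := hfix _ h1
    ext i
    exact congrFun h2 i
  · intro j
    simp [hu]
  · intro j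
    simp [hv]
  · rintro _ ⟨w, hw, rfl⟩
    simp only [hin]
    exact hs w hw

end Pool.Agent.Lib.TorN.DIR53
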