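import Pool.Agent.Lib.MP_fe6961_an.TorN10

/-! Row EIG (helper45). -/

open Filter Matrix Topology

namespace Pool.Agent.Lib.TorN.EIG45

variable {n : ℕ}

/-- real part -/
def R (z : Fin n → ℂ) : Fin n → ℝ := fun i => (z i).re

/-- imaginary part -/
def I (z : Fin n → ℂ) : Fin n → ℝ := fun i => (z i).im

theorem mulR (A : Matrix (Fin n) (Fin n) ℝ) (z : Fin n → ℂ) :
    A *ᵥ R z = R ((A.map (fun m => (m : ℂ))) *ᵥ z) := by
  ext i
  simp [R, Matrix.mulVec, dotProduct, Complex.re_sum]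

theorem mulI (A : Matrix (Fin n) (Fin n) ℝ) (z : Fin n → ℂ) :
    A *ᵥ I z = I ((A.map (fun m => (m : ℂ))) *ᵥ z) := by
  ext i
  simp [I, Matrix.mulVec, dotProduct, Complex.im_sum]

theorem eig_pow (A : Matrix (Fin n) (Fin n) ℝ) (l : ℂ) (z : Fin n → ℂ)
    (h : (A.map (fun m => (m : ℂ))) *ᵥ z = l • z) (P : (Fin n → ℂ) → (Fin n → ℝ))
    (hP : ∀ w, A *ᵥ P w = P ((A.map (fun m => (m : ℂ))) *ᵥ w)) (j : ℕ) :
    (A ^ j) *ᵥ P z = P (l ^ j • z) := by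
  induction j with
  | zero => simp
  | succ j ih =>
    rw [pow_succ', ← Matrix.mulVec_mulVec, ih, hP, Matrix.mulVec_smul, h, smul_smul, pow_succ]

theorem eig_inv (A : Matrix (Fin n) (Fin n) ℝ) (hA : IsUnit A.det) (l : ℂ) (hl : l ≠ 0)
    (z : Fin n → ℂ)
    (h : (A.map (fun m => (m : ℂ))) *ᵥ z = l • z) (P : (Fin n → ℂ) → (Fin n → ℝ))
    (hP : ∀ w, A *ᵥ P w = P ((A.map (fun m => (m : ℂ))) *ᵥ w)) (j : ℕ) :
    ((A⁻¹) ^ j) *ᵥ P z = P ((l⁻¹) ^ j • z) := by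
  induction j with
  | zero => simp
  | succ j ih =>
    rw [pow_succ', ← Matrix.mulVec_mulVec, ih]
    have h1 : P ((l⁻¹) ^ j • z) = A *ᵥ P ((l⁻¹) ^ (j + 1) • z) := by
      rw [hP, Matrix.mulVec_smul, h, smul_smul]
      congr 2
      rw [pow_succ, mul_assoc, inv_mul_cancel₀ hl, mul_one]
    rw [h1, Matrix.mulVec_mulVec, Matrix.nonsing_inv_mul A hA, Matrix.one_mulVec]

theorem to0 (l : ℂ) (hl : 1 < ‖l‖) (z : Fin n → ℂ) :
    Tendsto (fun j : ℕ => (l⁻¹) ^ j • z) atTop (𝓝 0) := by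
  have h1 : ‖l⁻¹‖ < 1 := by
    rw [norm_inv]
    exact inv_lt_one_of_one_lt₀ hl
  have h2 := (tendsto_pow_atTop_nhds_zero_of_norm_lt_one h1).smul_const z
  simpa using h2

theorem contR : Continuous (R : (Fin n → ℂ) → (Fin n → ℝ)) :=
  continuous_pi fun i => Complex.continuous_re.comp (continuous_apply i)

theorem contI : Continuous (I : (Fin n → ℂ) → (Fin n → ℝ)) :=
  continuous_pi fun i => Complex.continuous_im.comp (continuous_apply i)

theorem eig45 : StEIG := by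
  intro n A hA hz
  obtain ⟨l, hl, z, hz0, h⟩ := hz
  have hl0 : l ≠ 0 := by
    intro h0
    rw [h0, norm_zero] at hl
    linarith
  have tR : Tendsto (fun j : ℕ => ((A⁻¹) ^ j) *ᵥ R z) atTop (𝓝 0) := by
    have h1 := (contR.tendsto (0 : Fin n → ℂ)).comp (to0 l hl z)
    have h2 : R (0 : Fin n → ℂ) = 0 := by ext i; simp [R]
    rw [h2] at h1
    refine h1.congr fun j => ?_
    exact (eig_inv A hA l hl0 z h R (mulR A) j).symm
  have tI : Tendsto (fun j : ℕ => ((A⁻¹) ^ j) *ᵥ I z) atTop (𝓝 0) := by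
    have h1 := (contI.tendsto (0 : Fin n → ℂ)).comp (to0 l hl z)
    have h2 : I (0 : Fin n → ℂ) = 0 := by ext i; simp [I]
    rw [h2] at h1
    refine h1.congr fun j => ?_
    exact (eig_inv A hA l hl0 z h I (mulI A) j).symm
  by_cases hR : ∀ C : ℝ, ∃ j : ℕ, C < ‖(A ^ j) *ᵥ R z‖
  · exact ⟨R z, tR, hR⟩
  by_cases hI : ∀ C : ℝ, ∃ j : ℕ, C < ‖(A ^ j) *ᵥ I z‖
  · exact ⟨I z, tI, hI⟩
  exfalso
  push Not at hR hI
  obtain ⟨C1, hC1⟩ := hR
  obtain ⟨C2, hC2⟩ := hI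
  obtain ⟨i, hi⟩ : ∃ i, z i ≠ 0 := by
    by_contra hc
    push Not at hc
    exact hz0 (funext hc)
  have hi' : 0 < ‖z i‖ := norm_pos_iff.2 hi
  have hb : ∀ j : ℕ, ‖l‖ ^ j * ‖z i‖ ≤ C1 + C2 := by
    intro j
    have h1 := hC1 j
    have h2 := hC2 j
    rw [eig_pow A l z h R (mulR A) j] at h1
    rw [eig_pow A l z h I (mulI A) j] at h2
    have h3 := norm_le_pi_norm (R (l ^ j • z)) i
    have h4 := norm_le_pi_norm (I (l ^ j • z)) i
    have h5 : ‖(l ^ j • z) i‖ ≤ |((l ^ j • z) i).re| + |((l ^ j • z) i).im| :=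
      Complex.norm_le_abs_re_add_abs_im _
    have h6 : ‖(l ^ j • z) i‖ = ‖l‖ ^ j * ‖z i‖ := by
      simp
    have h7 : ‖R (l ^ j • z) i‖ = |((l ^ j • z) i).re| := rfl
    have h8 : ‖I (l ^ j • z) i‖ = |((l ^ j • z) i).im| := rfl
    rw [h7] at h3
    rw [h8] at h4
    rw [h6] at h5
    linarith
  obtain ⟨j, hj⟩ := pow_unbounded_of_one_lt ((C1 + C2) / ‖z i‖) hl
  have h1 := hb j
  rw [div_lt_iff₀ hi'] at hj
  linarith

end Pool.Agent.Lib.TorN.EIG45
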