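import Pool.Agent.Lib.MP_fe6961_an.MR10

/-! Row EX (helper21). -/

open Filter Matrix Topology

namespace Pool.Agent.Lib.MR.E21

variable {n m : ℕ}

/-- the Casimir function -/
noncomputable def P (p : F n m) : ℝ := ∏ l : Fin n, p (Sum.inl l)

/-- coordinate -/
noncomputable def cL (l : Fin n ⊕ Fin m) : F n m →L[ℝ] ℝ := EuclideanSpace.proj l

theorem cL_apply (l : Fin n ⊕ Fin m) (p : F n m) : cL l p = p l := rfl

/-- its derivative -/
noncomputable def dP (p : F n m) : F n m →L[ℝ] ℝ :=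
  ∑ l : Fin n, (∏ i ∈ Finset.univ.erase l, p (Sum.inl i)) • cL (Sum.inl l)

theorem hdP (p : F n m) : HasStrictFDerivAt (P : F n m → ℝ) (dP p) p := by
  have := HasStrictFDerivAt.finsetProd (u := (Finset.univ : Finset (Fin n))) (x := p)
    (g := fun (l : Fin n) (q : F n m) => q (Sum.inl l)) (g' := fun l => cL (Sum.inl l))
    (fun l _ => (cL (m := m) (Sum.inl l)).hasStrictFDerivAt)
  exact this

/-- the square -/
noncomputable def f (p : F n m) : ℝ := P p * P p

theorem hdf (p : F n m) :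
    HasStrictFDerivAt (f : F n m → ℝ) ((2 * P p) • dP p) p := by
  have h := (hdP p).mul (hdP p)
  refine h.congr_fderiv ?_
  ext v
  simp only [_root_.add_apply, _root_.smul_apply, smul_eq_mul]
  ring

theorem f_cont : Continuous (f : F n m → ℝ) := by
  rw [continuous_iff_continuousAt]
  exact fun p => (hdf p).hasFDerivAt.continuousAt

theorem dP_single_inl (p : F n m) (l : Fin n) :
    dP p (EuclideanSpace.single (Sum.inl l) 1) = ∏ i ∈ Finset.univ.erase l, p (Sum.inl i) := by
  unfold dP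
  rw [_root_.sum_apply, Finset.sum_eq_single l]
  · simp [cL_apply]
  · intro b _ hb
    simp [cL_apply, hb]
  · simp

theorem dP_single_inr (p : F n m) (j : Fin m) :
    dP p (EuclideanSpace.single (Sum.inr j) 1) = 0 := by
  unfold dP
  rw [_root_.sum_apply]
  apply Finset.sum_eq_zero
  intro b _
  simp [cL_apply]

theorem P_erase (p : F n m) (l : Fin n) :
    p (Sum.inl l) * ∏ i ∈ Finset.univ.erase l, p (Sum.inl i) = P p := by
  unfold P
  rw [Finset.mul_prod_erase _ (fun i => p (Sum.inl i)) (Finset.mem_univ l)]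

theorem grad_apply (h : F n m → ℝ) (p : F n m) (i : Fin n ⊕ Fin m) :
    gradient h p i = fderiv ℝ h p (EuclideanSpace.single i 1) := by
  have h1 : inner ℝ (gradient h p) (EuclideanSpace.single i 1) =
      fderiv ℝ h p (EuclideanSpace.single i 1) := by
    unfold gradient
    rw [InnerProductSpace.toDual_symm_apply]
  rw [← h1, EuclideanSpace.inner_single_right]
  simp

theorem lvl_cpt (h : F n m → ℝ) (hT : TonF h) (k : ℝ) : IsCompact {p | h p = k} := by
  obtain ⟨h1, -, h3⟩ := hT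
  have h4 : ∀ᶠ p in cocompact (F n m), k + 1 ≤ h p := h3.eventually_ge_atTop (k + 1)
  rw [Filter.Eventually, Filter.mem_cocompact] at h4
  obtain ⟨C, hC, hC2⟩ := h4
  refine hC.of_isClosed_subset (isClosed_eq h1.continuous continuous_const) ?_
  intro p hp
  by_contra hc
  have := hC2 hc
  simp only [Set.mem_ofPred_eq] at this hp
  linarith

theorem ray (h : F n m → ℝ) (hT : TonF h) (k : ℝ) (p : F n m) (hp : h p < k) (h0 : p ≠ 0) :
    ∃ t : ℝ, 1 ≤ t ∧ h (t • p) = k := by
  obtain ⟨h1, -, h3⟩ := hT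
  have h4 : Tendsto (fun t : ℝ => t • p) atTop (cocompact (F n m)) := by
    rw [← Metric.cobounded_eq_cocompact, ← tendsto_norm_atTop_iff_cobounded]
    have : (fun t : ℝ => ‖t • p‖) = fun t : ℝ => |t| * ‖p‖ := by
      funext t; rw [norm_smul, Real.norm_eq_abs]
    rw [this]
    exact (tendsto_abs_atTop_atTop).atTop_mul_const (norm_pos_iff.2 h0)
  have h5 : Tendsto (fun t : ℝ => h (t • p)) atTop atTop := h3.comp h4
  obtain ⟨t, ht1, ht⟩ := ((h5.eventually_ge_atTop k).and (eventually_ge_atTop 1)).exists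
  have hc : ContinuousOn (fun t : ℝ => h (t • p)) (Set.Icc 1 t) :=
    (h1.continuous.comp (continuous_id.smul continuous_const)).continuousOn
  have := intermediate_value_Icc ht hc
  obtain ⟨s, hs, hs2⟩ := this ⟨by simpa using hp.le, ht1⟩
  exact ⟨s, hs.1, hs2⟩

theorem dh_ne (h : F n m → ℝ) (hT : TonF h) (p p0 : F n m) (hp : h p0 < h p) :
    fderiv ℝ h p ≠ 0 := by
  intro h0
  have hd : DifferentiableAt ℝ h p := (hT.1.differentiable (by norm_num)).differentiableAt
  have h1 : HasDerivAt (fun t : ℝ => h (p + t • (p0 - p))) 0 0 := by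
    have h2 : HasDerivAt (fun t : ℝ => p + t • (p0 - p)) (p0 - p) 0 := by
      simpa using ((hasDerivAt_id (0 : ℝ)).smul_const (p0 - p)).const_add p
    have h3 : HasFDerivAt h (fderiv ℝ h p) (p + (0 : ℝ) • (p0 - p)) := by
      simpa using hd.hasFDerivAt
    have h4 := h3.comp_hasDerivAt (0 : ℝ) h2
    rw [h0] at h4
    have h5 : HasDerivAt (fun t : ℝ => h (p + t • (p0 - p)))
      ((0 : F n m →L[ℝ] ℝ) (p0 - p)) 0 := h4
    rwa [show (0 : F n m →L[ℝ] ℝ) (p0 - p) = 0 from rfl] at h5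
  rw [hasDerivAt_iff_tendsto_slope] at h1
  have h5 : Tendsto (slope (fun t : ℝ => h (p + t • (p0 - p))) 0) (𝓝[>] 0) (𝓝 0) :=
    h1.mono_left (nhdsWithin_mono _ (fun x (hx : 0 < x) => ne_of_gt hx))
  have h6 : ∀ᶠ t : ℝ in 𝓝[>] 0, slope (fun t : ℝ => h (p + t • (p0 - p))) 0 t ≤ h p0 - h p := by
    have : ∀ᶠ t : ℝ in 𝓝[>] 0, t ∈ Set.Ioc (0 : ℝ) 1 :=
      Ioc_mem_nhdsGT (by norm_num)
    filter_upwards [this] with t ht
    have hcv := hT.2.1.2 (Set.mem_univ p) (Set.mem_univ p0) (sub_nonneg.2 ht.2) ht.1.le (by ring)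
    have e1 : (1 - t) • p + t • p0 = p + t • (p0 - p) := by
      rw [sub_smul, smul_sub, one_smul]; abel
    rw [e1] at hcv
    rw [slope_def_field]
    simp only [zero_smul, add_zero, sub_zero]
    rw [div_le_iff₀ ht.1]
    simp only [smul_eq_mul] at hcv
    nlinarith
  have h7 := le_of_tendsto h5 h6
  linarith

theorem near (h : F n m → ℝ) (hT : TonF h) (k : ℝ) (p0 : F n m) (hp0 : h p0 < k) :
    ∃ p : F n m, h p < k ∧ ∀ l : Fin n, p (Sum.inl l) ≠ 0 := by
  have hcont : Continuous (fun e : ℝ => h (p0 + e • vec (fun _ => 1) (fun _ => 1))) :=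
    hT.1.continuous.comp (continuous_const.add (continuous_id.smul continuous_const))
  have h2 : ∀ᶠ e : ℝ in 𝓝 0, h (p0 + e • vec (fun _ => 1) (fun _ => 1)) < k := by
    apply (hcont.tendsto 0).eventually_lt_const
    simpa using hp0
  have h3 : ∀ᶠ e : ℝ in 𝓝[≠] 0, ∀ l : Fin n, p0 (Sum.inl l) + e ≠ 0 := by
    rw [eventually_all]
    intro l
    by_cases h0 : p0 (Sum.inl l) = 0
    · filter_upwards [self_mem_nhdsWithin] with e he
      rw [h0, zero_add]
      exact he
    · have : Continuous (fun e : ℝ => p0 (Sum.inl l) + e) := by fun_prop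
      have h5 : p0 (Sum.inl l) + (0 : ℝ) ≠ 0 := by rw [add_zero]; exact h0
      have h4 : ∀ᶠ e : ℝ in 𝓝 0, p0 (Sum.inl l) + e ≠ 0 := this.continuousAt.eventually_ne h5
      exact h4.filter_mono nhdsWithin_le_nhds
  obtain ⟨e, he1, he2⟩ := ((h2.filter_mono nhdsWithin_le_nhds).and h3).exists
  refine ⟨_, he1, fun l => ?_⟩
  have := he2 l
  simpa [vec] using this

theorem ex21 : StEX := by
  intro n m h hn hT k hk
  obtain ⟨p0, hp0⟩ := hk
  obtain ⟨p1, hp1, hq1⟩ := near h hT k p0 hp0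
  have hne1 : p1 ≠ 0 := by
    intro h0
    apply hq1 ⟨0, hn⟩
    rw [h0]; rfl
  obtain ⟨t, ht, ht2⟩ := ray h hT k p1 hp1 hne1
  have hP2 : P (t • p1) ≠ 0 := by
    unfold P
    rw [Finset.prod_ne_zero_iff]
    intro l _
    have : (t • p1) (Sum.inl l) = t * p1 (Sum.inl l) := rfl
    rw [this]
    exact mul_ne_zero (by linarith) (hq1 l)
  obtain ⟨p, hp, hmax⟩ := (lvl_cpt h hT k).exists_isMaxOn ⟨t • p1, ht2⟩ f_cont.continuousOn
  have hp : h p = k := hp
  have hfp : 0 < f p := by
    have h1 : f (t • p1) ≤ f p := hmax ht2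
    have h2 : 0 < f (t • p1) := mul_self_pos.2 hP2
    linarith
  have hPp : P p ≠ 0 := by
    intro h0
    unfold f at hfp
    rw [h0] at hfp
    simp at hfp
  have hpl : ∀ l, p (Sum.inl l) ≠ 0 := by
    intro l h0
    apply hPp
    unfold P
    exact Finset.prod_eq_zero (Finset.mem_univ l) h0
  have hl : IsLocalExtrOn (f : F n m → ℝ) {x | h x = h p} p := by
    rw [hp]
    exact hmax.isExtr.localize
  have hd : HasStrictFDerivAt h (fderiv ℝ h p) p :=
    (hT.1.contDiffAt).hasStrictFDerivAt (by norm_num)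
  obtain ⟨a, b, hab, h1⟩ := hl.exists_multipliers_of_hasStrictFDerivAt_1d hd (hdf p)
  have hne := dh_ne h hT p p0 (by rw [hp]; exact hp0)
  have hL : ∀ l : Fin n, a * gradient h p (Sum.inl l) + b * (2 * P p *
      ∏ i ∈ Finset.univ.erase l, p (Sum.inl i)) = 0 := by
    intro l
    have h2 := congrArg (fun L : F n m →L[ℝ] ℝ => L (EuclideanSpace.single (Sum.inl l) 1)) h1
    simp only [_root_.add_apply, _root_.smul_apply, smul_eq_mul, _root_.zero_apply,
      dP_single_inl] at h2
    rw [grad_apply]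
    exact h2
  have hR : ∀ j : Fin m, a * gradient h p (Sum.inr j) = 0 := by
    intro j
    have h2 := congrArg (fun L : F n m →L[ℝ] ℝ => L (EuclideanSpace.single (Sum.inr j) 1)) h1
    simp only [_root_.add_apply, _root_.smul_apply, smul_eq_mul, _root_.zero_apply,
      dP_single_inr, mul_zero, add_zero] at h2
    rw [grad_apply]
    exact h2
  have hE : ∀ l : Fin n, (∏ i ∈ Finset.univ.erase l, p (Sum.inl i)) = P p / p (Sum.inl l) := by
    intro l
    rw [eq_div_iff (hpl l), mul_comm]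
    exact P_erase p l
  have ha : a ≠ 0 := by
    intro ha
    have hb : b ≠ 0 := by
      intro hb
      exact hab (by rw [ha, hb]; rfl)
    have h2 := hL ⟨0, hn⟩
    rw [ha, zero_mul, zero_add, hE] at h2
    have : b * (2 * P p * (P p / p (Sum.inl ⟨0, hn⟩))) ≠ 0 :=
      mul_ne_zero hb (mul_ne_zero (mul_ne_zero two_ne_zero hPp) (div_ne_zero hPp (hpl _)))
    exact this h2
  have hb : b ≠ 0 := by
    intro hb
    rw [hb, zero_smul, add_zero] at h1
    exact hne ((smul_eq_zero.1 h1).resolve_left ha)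
  refine ⟨p, -(b / a) * (2 * P p * P p), hp, ?_, hpl, ?_, ?_⟩
  · exact mul_ne_zero (neg_ne_zero.2 (div_ne_zero hb ha))
      (mul_ne_zero (mul_ne_zero two_ne_zero hPp) hPp)
  · intro l
    have h2 := hL l
    rw [hE] at h2
    have h3 := hpl l
    field_simp
    field_simp at h2
    linarith
  · intro j
    exact (mul_eq_zero.1 (hR j)).resolve_left ha

end Pool.Agent.Lib.MR.E21
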