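import Pool.Agent.Lib.MP_fe6961_an.MR10

/-! Row EX (helper45). -/

open Filter Matrix Topology

namespace Pool.Agent.Lib.MR.EX45

variable {n m : ℕ}

/-- the Casimir function -/
noncomputable def Q (p : F n m) : ℝ := ∏ l : Fin n, p (Sum.inl l)

/-- the coordinate -/
noncomputable def pr (n m : ℕ) (l : Fin n) : F n m →L[ℝ] ℝ := EuclideanSpace.proj (Sum.inl l)

theorem pr_apply (l : Fin n) (p : F n m) : pr n m l p = p (Sum.inl l) := rfl

/-- the derivative -/
noncomputable def dQ (p : F n m) : F n m →L[ℝ] ℝ :=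
  ∑ l : Fin n, (∏ j ∈ Finset.univ.erase l, p (Sum.inl j)) • pr n m l

theorem hasQ (p : F n m) : HasStrictFDerivAt (Q : F n m → ℝ) (dQ p) p := by
  have h := HasStrictFDerivAt.finsetProd (u := (Finset.univ : Finset (Fin n)))
    (g := fun l (p : F n m) => pr n m l p) (g' := fun l => pr n m l) (x := p)
    (fun i _ => (pr n m i).hasStrictFDerivAt)
  exact h

theorem dQ_apply (p v : F n m) :
    dQ p v = ∑ l : Fin n, (∏ j ∈ Finset.univ.erase l, p (Sum.inl j)) * v (Sum.inl l) := by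
  unfold dQ
  rw [_root_.sum_apply]
  rfl

theorem dQ_self (p : F n m) : dQ p p = n * Q p := by
  rw [dQ_apply]
  have : ∀ l ∈ (Finset.univ : Finset (Fin n)),
      (∏ j ∈ Finset.univ.erase l, p (Sum.inl j)) * p (Sum.inl l) = Q p := by
    intro l hl
    exact Finset.prod_erase_mul _ _ hl
  rw [Finset.sum_congr rfl this]
  simp

theorem contQ : Continuous (Q : F n m → ℝ) :=
  continuous_finsetProd _ fun l _ => (pr n m l).continuous

theorem lvl_cpt (h : F n m → ℝ) (hT : TonF h) (k : ℝ) : IsCompact {p | h p = k} := by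
  obtain ⟨h1, -, h3⟩ := hT
  have h4 : ∀ᶠ p in cocompact (F n m), k + 1 ≤ h p := h3.eventually_ge_atTop (k + 1)
  rw [Filter.Eventually, Filter.mem_cocompact] at h4
  obtain ⟨C, hC, hC2⟩ := h4
  refine hC.of_isClosed_subset (isClosed_eq h1.continuous continuous_const) ?_
  intro p hp
  by_contra hc
  have := hC2 hc
  simp only [Set.mem_ofPred_eq] at this hp
  linarith

theorem ray (h : F n m → ℝ) (hT : TonF h) (k : ℝ) (p : F n m) (hp : h p < k) (h0 : p ≠ 0) :
    ∃ t : ℝ, 1 ≤ t ∧ h (t • p) = k := by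
  obtain ⟨h1, -, h3⟩ := hT
  have h4 : Tendsto (fun t : ℝ => t • p) atTop (cocompact (F n m)) := by
    rw [← Metric.cobounded_eq_cocompact, ← tendsto_norm_atTop_iff_cobounded]
    have : (fun t : ℝ => ‖t • p‖) = fun t : ℝ => |t| * ‖p‖ := by
      funext t; rw [norm_smul, Real.norm_eq_abs]
    rw [this]
    exact (tendsto_abs_atTop_atTop).atTop_mul_const (norm_pos_iff.2 h0)
  have h5 : Tendsto (fun t : ℝ => h (t • p)) atTop atTop := h3.comp h4
  obtain ⟨t, ht1, ht⟩ := ((h5.eventually_ge_atTop k).and (eventually_ge_atTop 1)).exists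
  have hc : ContinuousOn (fun t : ℝ => h (t • p)) (Set.Icc 1 t) :=
    (h1.continuous.comp (continuous_id.smul continuous_const)).continuousOn
  have := intermediate_value_Icc ht hc
  obtain ⟨s, hs, hs2⟩ := this ⟨by simpa using hp.le, ht1⟩
  exact ⟨s, hs.1, hs2⟩

theorem dh_ne (h : F n m → ℝ) (hT : TonF h) (p p0 : F n m) (hp : h p0 < h p) :
    fderiv ℝ h p ≠ 0 := by
  intro h0
  have hd : DifferentiableAt ℝ h p := (hT.1.differentiable (by norm_num)).differentiableAt
  have h1 : HasDerivAt (fun t : ℝ => h (p + t • (p0 - p))) 0 0 := by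
    have h2 : HasDerivAt (fun t : ℝ => p + t • (p0 - p)) (p0 - p) 0 := by
      simpa using ((hasDerivAt_id (0 : ℝ)).smul_const (p0 - p)).const_add p
    have h3 : HasFDerivAt h (fderiv ℝ h p) (p + (0 : ℝ) • (p0 - p)) := by
      simpa using hd.hasFDerivAt
    have h4 := h3.comp_hasDerivAt (0 : ℝ) h2
    rw [h0] at h4
    have h5 : HasDerivAt (fun t : ℝ => h (p + t • (p0 - p)))
      ((0 : F n m →L[ℝ] ℝ) (p0 - p)) 0 := h4
    rwa [show (0 : F n m →L[ℝ] ℝ) (p0 - p) = 0 from rfl] at h5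
  rw [hasDerivAt_iff_tendsto_slope] at h1
  have h5 : Tendsto (slope (fun t : ℝ => h (p + t • (p0 - p))) 0) (𝓝[>] 0) (𝓝 0) :=
    h1.mono_left (nhdsWithin_mono _ (fun x (hx : 0 < x) => ne_of_gt hx))
  have h6 : ∀ᶠ t : ℝ in 𝓝[>] 0, slope (fun t : ℝ => h (p + t • (p0 - p))) 0 t ≤ h p0 - h p := by
    have : ∀ᶠ t : ℝ in 𝓝[>] 0, t ∈ Set.Ioc (0 : ℝ) 1 :=
      Ioc_mem_nhdsGT (by norm_num)
    filter_upwards [this] with t ht
    have hcv := hT.2.1.2 (Set.mem_univ p) (Set.mem_univ p0) (sub_nonneg.2 ht.2) ht.1.le (by ring)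
    have e1 : (1 - t) • p + t • p0 = p + t • (p0 - p) := by
      rw [sub_smul, smul_sub, one_smul]; abel
    rw [e1] at hcv
    rw [slope_def_field]
    simp only [zero_smul, add_zero, sub_zero]
    rw [div_le_iff₀ ht.1]
    simp only [smul_eq_mul] at hcv
    nlinarith
  have h7 := le_of_tendsto h5 h6
  linarith

theorem ex_ne (h : F n m → ℝ) (hn : 0 < n) (hT : TonF h) (k : ℝ) (hk : ∃ p, h p < k) :
    ∃ p, h p = k ∧ Q p ≠ 0 := by
  obtain ⟨p0, hp0⟩ := hk
  set v : F n m := WithLp.toLp 2 (fun _ => (1 : ℝ)) with hv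
  have hcont : Continuous (fun e : ℝ => h (p0 + e • v)) :=
    hT.1.continuous.comp (continuous_const.add (continuous_id.smul continuous_const))
  have h2 : ∀ᶠ e : ℝ in 𝓝[≠] 0, h (p0 + e • v) < k := by
    have : ∀ᶠ e : ℝ in 𝓝 0, h (p0 + e • v) < k := by
      apply (hcont.tendsto 0).eventually_lt_const
      simpa using hp0
    exact this.filter_mono nhdsWithin_le_nhds
  have h3 : ∀ᶠ e : ℝ in 𝓝[≠] 0, ∀ l : Fin n, (p0 + e • v) (Sum.inl l) ≠ 0 := by
    rw [eventually_all]
    intro l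
    have e1 : ∀ e : ℝ, (p0 + e • v) (Sum.inl l) = p0 (Sum.inl l) + e := by
      intro e
      simp [hv]
    by_cases h0 : p0 (Sum.inl l) = 0
    · filter_upwards [self_mem_nhdsWithin] with e he
      rw [e1, h0, zero_add]
      exact he
    · have h4 : Tendsto (fun e : ℝ => p0 (Sum.inl l) + e) (𝓝 0) (𝓝 (p0 (Sum.inl l) + 0)) :=
        (continuous_const.add continuous_id).tendsto 0
      rw [add_zero] at h4
      have h5 := (h4.eventually_ne h0).filter_mono
        (nhdsWithin_le_nhds : 𝓝[≠] (0 : ℝ) ≤ 𝓝 0)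
      filter_upwards [h5] with e he
      rw [e1]
      exact he
  obtain ⟨e, he1, he2⟩ := (h2.and h3).exists
  set p1 := p0 + e • v with hp1
  have hne : p1 ≠ 0 := by
    intro h0
    apply he2 ⟨0, hn⟩
    rw [h0]
    rfl
  obtain ⟨t, ht, ht2⟩ := ray h hT k p1 he1 hne
  refine ⟨t • p1, ht2, ?_⟩
  unfold Q
  rw [Finset.prod_ne_zero_iff]
  intro l _
  have : (t • p1) (Sum.inl l) = t * p1 (Sum.inl l) := rfl
  rw [this]
  exact mul_ne_zero (by positivity) (he2 l)

theorem grad_coord (h : F n m → ℝ) (p : F n m) (i : Fin n ⊕ Fin m) :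
    gradient h p i = fderiv ℝ h p (EuclideanSpace.single i 1) := by
  have h1 : inner ℝ (gradient h p) (EuclideanSpace.single i (1 : ℝ)) =
      fderiv ℝ h p (EuclideanSpace.single i 1) := by
    unfold gradient
    exact InnerProductSpace.toDual_symm_apply
  rw [← h1, EuclideanSpace.inner_single_right]
  simp

theorem ex45 : StEX := by
  intro n m h hn hT k hk
  obtain ⟨p1, hp1, hq1⟩ := ex_ne h hn hT k hk
  obtain ⟨p0, hp0⟩ := hk
  have hK := lvl_cpt h hT k
  obtain ⟨p, hp, hmax⟩ := hK.exists_isMaxOn ⟨p1, hp1⟩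
    ((contQ (n := n) (m := m)).abs).continuousOn
  have hp' : h p = k := hp
  have hq : Q p ≠ 0 := by
    have h1 : |Q p1| ≤ |Q p| := hmax hp1
    have h2 : 0 < |Q p1| := abs_pos.2 hq1
    exact abs_pos.1 (lt_of_lt_of_le h2 h1)
  have hl : IsLocalExtrOn (Q : F n m → ℝ) {x | h x = h p} p := by
    rw [hp']
    rcases lt_or_gt_of_ne hq with hlt | hgt
    · refine Or.inl (IsMinOn.localize ?_)
      intro x hx
      have h1 : |Q x| ≤ |Q p| := hmax hx
      rw [abs_of_neg hlt] at h1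
      have h2 := neg_abs_le (Q x)
      show Q p ≤ Q x
      linarith
    · refine Or.inr (IsMaxOn.localize ?_)
      intro x hx
      have h1 : |Q x| ≤ |Q p| := hmax hx
      rw [abs_of_pos hgt] at h1
      show Q x ≤ Q p
      exact (le_abs_self _).trans h1
  have hd : HasStrictFDerivAt h (fderiv ℝ h p) p :=
    (hT.1.contDiffAt).hasStrictFDerivAt (by norm_num)
  obtain ⟨a, b, hab, h1⟩ := hl.exists_multipliers_of_hasStrictFDerivAt_1d hd (hasQ p)
  have hne := dh_ne h hT p p0 (by rw [hp']; exact hp0)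
  have ha : a ≠ 0 := by
    intro ha
    have hb : b ≠ 0 := by
      intro hb
      exact hab (by rw [ha, hb]; rfl)
    rw [ha, zero_smul, zero_add] at h1
    have h2 := congrArg (fun L : F n m →L[ℝ] ℝ => L p) h1
    have h3 : b * (n * Q p) = 0 := by
      rw [← dQ_self]
      exact h2
    have hn' : (n : ℝ) ≠ 0 := by exact_mod_cast hn.ne'
    exact mul_ne_zero hb (mul_ne_zero hn' hq) h3
  have hb : b ≠ 0 := by
    intro hb
    rw [hb, zero_smul, add_zero] at h1
    exact hne ((smul_eq_zero.1 h1).resolve_left ha)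
  have hcoord : ∀ l : Fin n, p (Sum.inl l) ≠ 0 := fun l =>
    (Finset.prod_ne_zero_iff.1 hq) l (Finset.mem_univ l)
  have hval : ∀ v, fderiv ℝ h p v = -(b / a) * dQ p v := by
    intro v
    have h2 : a * fderiv ℝ h p v + b * dQ p v = 0 :=
      congrArg (fun L : F n m →L[ℝ] ℝ => L v) h1
    field_simp
    linarith
  refine ⟨p, -(b / a) * Q p, hp', mul_ne_zero (neg_ne_zero.2 (div_ne_zero hb ha)) hq, hcoord,
    ?_, ?_⟩
  · intro l
    rw [grad_coord, hval, dQ_apply]
    have h3 : ∑ l' : Fin n, (∏ j ∈ Finset.univ.erase l', p (Sum.inl j)) *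
        (EuclideanSpace.single (Sum.inl l : Fin n ⊕ Fin m) (1 : ℝ)) (Sum.inl l') =
        ∏ j ∈ Finset.univ.erase l, p (Sum.inl j) := by
      rw [Finset.sum_eq_single l]
      · simp
      · intro l' _ hll
        have : (EuclideanSpace.single (Sum.inl l : Fin n ⊕ Fin m) (1 : ℝ)) (Sum.inl l') = 0 := by
          simp [hll]
        rw [this, mul_zero]
      · intro hc
        exact absurd (Finset.mem_univ l) hc
    rw [h3]
    have h4 : (∏ j ∈ Finset.univ.erase l, p (Sum.inl j)) * p (Sum.inl l) = Q p :=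
      Finset.prod_erase_mul _ _ (Finset.mem_univ l)
    rw [← h4]
    have := hcoord l
    field_simp
  · intro j
    rw [grad_coord, hval, dQ_apply]
    have : ∑ l' : Fin n, (∏ j ∈ Finset.univ.erase l', p (Sum.inl j)) *
        (EuclideanSpace.single (Sum.inr j : Fin n ⊕ Fin m) (1 : ℝ)) (Sum.inl l') = 0 := by
      apply Finset.sum_eq_zero
      intro l' _
      have : (EuclideanSpace.single (Sum.inr j : Fin n ⊕ Fin m) (1 : ℝ)) (Sum.inl l') = 0 := by
        simp
      rw [this, mul_zero]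
    rw [this, mul_zero]

end Pool.Agent.Lib.MR.EX45
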