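import Pool.Agent.Lib.MP_fe6961_an.MR10

/-! Row EX (5). -/

set_option autoImplicit false

open Filter Matrix

namespace Pool.Agent.Lib.MR

variable {n m : ℕ}

theorem compact_le5 {h : F n m → ℝ} (hc : Continuous h) (ht : Tendsto h (cocompact (F n m)) atTop)
    (k : ℝ) : IsCompact {p | h p ≤ k} := by
  have h1 := ht.eventually (eventually_gt_atTop k)
  obtain ⟨K, hK, hsub⟩ := mem_cocompact.1 h1
  refine hK.of_isClosed_subset (isClosed_le hc continuous_const) ?_
  intro p hp
  by_contra hn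
  have := hsub hn
  simp only [Set.mem_ofPred_eq] at this hp
  linarith

theorem ray5 {h : F n m → ℝ} (hc : Continuous h) (ht : Tendsto h (cocompact (F n m)) atTop) {k : ℝ}
    {p : F n m} (hp : h p < k) (h0 : p ≠ 0) : ∃ t : ℝ, t ≠ 0 ∧ h (t • p) = k := by
  obtain ⟨C, hC⟩ := (compact_le5 hc ht k).isBounded.exists_norm_le
  have hn : 0 < ‖p‖ := norm_pos_iff.2 h0
  have hC0 : 0 ≤ C := (norm_nonneg p).trans (hC p hp.le)
  set T : ℝ := (C + 1) / ‖p‖ + 1 with hT
  have hT1 : 1 ≤ T := by
    have : 0 ≤ (C + 1) / ‖p‖ := by positivity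
    linarith
  have h2 : k ≤ h (T • p) := by
    by_contra hlt
    push Not at hlt
    have := hC (T • p) hlt.le
    rw [norm_smul, Real.norm_eq_abs, abs_of_nonneg (by linarith), hT, add_mul,
      div_mul_cancel₀ _ hn.ne'] at this
    linarith
  have hcont : ContinuousOn (fun t : ℝ => h (t • p)) (Set.Icc 1 T) := by
    apply Continuous.continuousOn
    fun_prop
  have := intermediate_value_Icc hT1 hcont
  obtain ⟨t, ht, he⟩ := this ⟨by simpa using hp.le, h2⟩
  exact ⟨t, by linarith [ht.1], he⟩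

theorem min_of_grad5 {h : F n m → ℝ} (hd : ContDiff ℝ 1 h) (hv : ConvexOn ℝ Set.univ h) {p : F n m}
    (hp : fderiv ℝ h p = 0) (p0 : F n m) : h p ≤ h p0 := by
  have hg : ConvexOn ℝ Set.univ (fun t : ℝ => h (AffineMap.lineMap p p0 t)) := by
    have := hv.comp_affineMap (AffineMap.lineMap p p0 : ℝ →ᵃ[ℝ] F n m)
    rw [Set.preimage_univ] at this
    exact this
  have hdiff : DifferentiableAt ℝ h (AffineMap.lineMap p p0 (0 : ℝ)) :=
    (hd.differentiable (by norm_num)).differentiableAt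
  have h1 : HasDerivAt (fun t : ℝ => h (AffineMap.lineMap p p0 t)) 0 0 := by
    have h2 : HasDerivAt (fun t : ℝ => (AffineMap.lineMap p p0 t : F n m)) (p0 - p) 0 :=
      AffineMap.hasDerivAt_lineMap
    have h3 := hdiff.hasFDerivAt.comp_hasDerivAt (0 : ℝ) h2
    have h4 : fderiv ℝ h (AffineMap.lineMap p p0 (0 : ℝ)) = 0 := by simpa using hp
    exact h3.congr_deriv (by rw [h4]; simp)
  have h5 := hg.le_slope_of_hasDerivAt (Set.mem_univ 0) (Set.mem_univ 1) zero_lt_one h1
  rw [slope_def_field] at h5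
  simp at h5
  linarith

/-- the Casimir function -/
noncomputable def cas5 (p : F n m) : ℝ := ∏ l : Fin n, p (Sum.inl l)

theorem cas5_cont : Continuous (cas5 : F n m → ℝ) := by
  unfold cas5
  fun_prop

theorem cas5_ne {p : F n m} : cas5 p ≠ 0 ↔ ∀ l, p (Sum.inl l) ≠ 0 := by
  unfold cas5
  rw [Finset.prod_ne_zero_iff]
  simp

theorem dense5 {U : Set (F n m)} (hU : IsOpen U) {p0 : F n m} (hp : p0 ∈ U) :
    ∃ v ∈ U, ∀ l, v (Sum.inl l) ≠ 0 := by
  set e : F n m := WithLp.toLp 2 (fun _ => (1 : ℝ)) with he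
  have hc : Tendsto (fun ε : ℝ => p0 + ε • e) (nhds 0) (nhds p0) := by
    have : Continuous fun ε : ℝ => p0 + ε • e := by fun_prop
    simpa using this.tendsto 0
  have h1 := hc (hU.mem_nhds hp)
  rw [mem_map] at h1
  have h2 : Set.Infinite ((fun ε : ℝ => p0 + ε • e) ⁻¹' U) := infinite_of_mem_nhds 0 h1
  have h3 : (Set.range fun l : Fin n => -(p0 (Sum.inl l))).Finite := Set.finite_range _
  obtain ⟨ε, hε, hn⟩ := h2.exists_notMem_finite h3
  refine ⟨p0 + ε • e, hε, fun l hl => hn ⟨l, ?_⟩⟩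
  have : p0 (Sum.inl l) + ε = 0 := by simpa [he] using hl
  show -(p0 (Sum.inl l)) = ε
  linarith

theorem exM5 : StEX := by
  intro n m h hn hT k hk
  obtain ⟨hd, hv, hco⟩ := hT
  obtain ⟨p0, hp0⟩ := hk
  have hc : Continuous h := hd.continuous
  have hex : ∃ p1, h p1 = k ∧ cas5 p1 ≠ 0 := by
    obtain ⟨v, hvU, hvn⟩ := dense5 (U := {p | h p < k}) (isOpen_lt hc continuous_const) hp0
    have hv0 : v ≠ 0 := by
      intro h0
      exact hvn ⟨0, hn⟩ (by rw [h0]; rfl)
    obtain ⟨t, ht, he⟩ := ray5 hc hco hvU hv0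
    refine ⟨t • v, he, cas5_ne.2 fun l => ?_⟩
    show (t • v) (Sum.inl l) ≠ 0
    simp only [PiLp.smul_apply, smul_eq_mul]
    exact mul_ne_zero ht (hvn l)
  obtain ⟨p1, hp1, hq1⟩ := hex
  have hcomp : IsCompact {p | h p = k} :=
    (compact_le5 hc hco k).of_isClosed_subset (isClosed_eq hc continuous_const)
      (fun p hp => le_of_eq hp)
  have hne : Set.Nonempty {p | h p = k} := ⟨p1, hp1⟩
  have hext : ∃ p, h p = k ∧ cas5 p ≠ 0 ∧ IsLocalExtrOn cas5 {x | h x = h p} p := by
    rcases lt_or_gt_of_ne hq1 with hneg | hpos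
    · obtain ⟨p, hp, hmin⟩ := hcomp.exists_isMinOn hne cas5_cont.continuousOn
      refine ⟨p, hp, ?_, ?_⟩
      · have : cas5 p ≤ cas5 p1 := hmin hp1
        intro h0; rw [h0] at this; linarith
      · have hpk : h p = k := hp
        rw [hpk]
        exact (hmin.localize).isExtr
    · obtain ⟨p, hp, hmax⟩ := hcomp.exists_isMaxOn hne cas5_cont.continuousOn
      refine ⟨p, hp, ?_, ?_⟩
      · have : cas5 p1 ≤ cas5 p := hmax hp1
        intro h0; rw [h0] at this; linarith
      · have hpk : h p = k := hp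
        rw [hpk]
        exact (hmax.localize).isExtr
  obtain ⟨p, hpk, hq, hloc⟩ := hext
  have hpl := cas5_ne.1 hq
  have hf' : HasStrictFDerivAt h (fderiv ℝ h p) p :=
    hd.contDiffAt.hasStrictFDerivAt (by norm_num)
  have hφ' : HasStrictFDerivAt (cas5 : F n m → ℝ) (∑ l : Fin n,
      (∏ j ∈ Finset.univ.erase l, p (Sum.inl j)) •
        (EuclideanSpace.proj (Sum.inl l) : F n m →L[ℝ] ℝ)) p := by
    unfold cas5
    exact HasStrictFDerivAt.finset_prod (fun l _ =>
      (EuclideanSpace.proj (Sum.inl l) : F n m →L[ℝ] ℝ).hasStrictFDerivAt)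
  obtain ⟨a, b, hab, heq⟩ := hloc.exists_multipliers_of_hasStrictFDerivAt_1d hf' hφ'
  have hgr : ∀ i, gradient h p i = fderiv ℝ h p (EuclideanSpace.single i (1 : ℝ)) := by
    intro i
    have h2 : inner ℝ (gradient h p) (EuclideanSpace.single i (1 : ℝ)) =
        fderiv ℝ h p (EuclideanSpace.single i (1 : ℝ)) := by
      rw [gradient, InnerProductSpace.toDual_symm_apply]
    rw [← h2, EuclideanSpace.inner_single_right]
    simp
  have hL : ∀ l, a * gradient h p (Sum.inl l) + b * ∏ j ∈ Finset.univ.erase l, p (Sum.inl j) = 0 := by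
    intro l
    have := DFunLike.congr_fun heq (EuclideanSpace.single (Sum.inl l) (1 : ℝ))
    rw [hgr]
    simpa [ContinuousLinearMap.sum_apply, Pi.single_apply, Finset.sum_ite_eq] using this
  have hR : ∀ j, a * gradient h p (Sum.inr j) = 0 := by
    intro j
    have := DFunLike.congr_fun heq (EuclideanSpace.single (Sum.inr j) (1 : ℝ))
    rw [hgr]
    simpa [ContinuousLinearMap.sum_apply, Pi.single_apply, Finset.sum_ite_eq] using this
  have hprod : ∀ l, (∏ j ∈ Finset.univ.erase l, p (Sum.inl j)) = cas5 p / p (Sum.inl l) := by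
    intro l
    rw [eq_div_iff (hpl l), cas5, mul_comm]
    exact Finset.mul_prod_erase Finset.univ (fun j => p (Sum.inl j)) (Finset.mem_univ l)
  have ha : a ≠ 0 := by
    intro ha
    have h1 := hL ⟨0, hn⟩
    rw [ha, zero_mul, zero_add, hprod, mul_eq_zero] at h1
    rcases h1 with h1 | h1
    · apply hab
      rw [ha, h1]; rfl
    · exact div_ne_zero hq (hpl _) h1
  have hgL : ∀ l, gradient h p (Sum.inl l) = (-(b / a) * cas5 p) / p (Sum.inl l) := by
    intro l
    have h1 := hL l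
    rw [hprod] at h1
    have h2 : p (Sum.inl l) ≠ 0 := hpl l
    field_simp
    field_simp at h1
    linarith
  have hgR : ∀ j, gradient h p (Sum.inr j) = 0 := by
    intro j
    rcases mul_eq_zero.1 (hR j) with h1 | h1
    · exact absurd h1 ha
    · exact h1
  have hb : b ≠ 0 := by
    intro hb
    have hz : gradient h p = 0 := by
      ext i
      rcases i with l | j
      · rw [hgL l, hb]; simp
      · rw [hgR j]; rfl
    have h3 : fderiv ℝ h p = 0 := by
      rw [gradient] at hz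
      simpa using hz
    have := min_of_grad5 hd hv h3 p0
    rw [hpk] at this
    linarith
  exact ⟨p, -(b / a) * cas5 p, hpk, mul_ne_zero (neg_ne_zero.2 (div_ne_zero hb ha)) hq, hpl, hgL,
    hgR⟩

end Pool.Agent.Lib.MR
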