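import Pool.Agent.Lib.MP_fe6961_an.Hom10

/-! Row EXT (helper45). -/

open Filter Matrix Topology

namespace Pool.Agent.Lib.Hom.E45

/-- the map `p ↦ N p` -/
noncomputable def T (N : Matrix (Fin 3) (Fin 3) ℝ) : E3 →L[ℝ] E3 :=
  Matrix.toEuclideanCLM (𝕜 := ℝ) N

theorem T_apply (N : Matrix (Fin 3) (Fin 3) ℝ) (p : E3) : T N p = app N p := by
  rfl

theorem inn (x y : E3) : inner ℝ x y = x 0 * y 0 + x 1 * y 1 + x 2 * y 2 := by
  simp [PiLp.inner_apply, Fin.sum_univ_three, mul_comm]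

theorem app_i (N : Matrix (Fin 3) (Fin 3) ℝ) (p : E3) (i : Fin 3) :
    app N p i = N i 0 * p 0 + N i 1 * p 1 + N i 2 * p 2 := by
  simp [app, Matrix.mulVec, dotProduct, Fin.sum_univ_three]

/-- the Casimir function -/
noncomputable def q (N : Matrix (Fin 3) (Fin 3) ℝ) (p : E3) : ℝ := inner ℝ p (T N p)

theorem sym (N : Matrix (Fin 3) (Fin 3) ℝ) (hN : Nᵀ = N) (i j : Fin 3) : N i j = N j i := by
  conv_lhs => rw [← hN]
  rfl

theorem sa (N : Matrix (Fin 3) (Fin 3) ℝ) (hN : Nᵀ = N) (x y : E3) :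
    inner ℝ x (T N y) = inner ℝ y (T N x) := by
  rw [T_apply, T_apply, inn, inn]
  simp only [app_i]
  rw [sym N hN 1 0, sym N hN 2 0, sym N hN 2 1]
  ring

theorem q_smul (N : Matrix (Fin 3) (Fin 3) ℝ) (t : ℝ) (p : E3) : q N (t • p) = t ^ 2 * q N p := by
  unfold q
  rw [map_smul, inner_smul_left, inner_smul_right]
  simp
  ring

theorem q_add (N : Matrix (Fin 3) (Fin 3) ℝ) (hN : Nᵀ = N) (x y : E3) :
    q N (x + y) = q N x + 2 * inner ℝ y (T N x) + q N y := by
  unfold q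
  rw [map_add, inner_add_left, inner_add_right, inner_add_right, sa N hN x y]
  ring

theorem q_dq (N : Matrix (Fin 3) (Fin 3) ℝ) (hN : Nᵀ = N) (p : E3) :
    HasStrictFDerivAt (q N) ((2 : ℝ) • (InnerProductSpace.toDual ℝ E3) (T N p)) p := by
  have h1 : HasStrictFDerivAt (fun x : E3 => inner ℝ x (T N x)) _ p :=
    (hasStrictFDerivAt_id p).inner ℝ ((T N).hasStrictFDerivAt (x := p))
  refine h1.congr_fderiv ?_
  ext v
  simp only [ContinuousLinearMap.comp_apply, ContinuousLinearMap.prod_apply, fderivInnerCLM_apply,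
    _root_.smul_apply, InnerProductSpace.toDual_apply_apply, smul_eq_mul, id]
  have := sa N hN p v
  simp only [ContinuousLinearMap.id_apply]
  rw [this, real_inner_comm (T N p) v]
  ring

theorem q_zero_all (N : Matrix (Fin 3) (Fin 3) ℝ) (hN : Nᵀ = N) (h : ∀ p, q N p = 0) : N = 0 := by
  have hT : ∀ x, T N x = 0 := by
    intro x
    have h1 := q_add N hN x (T N x)
    rw [h, h, h] at h1
    have h2 : inner ℝ (T N x) (T N x) = 0 := by linarith
    exact inner_self_eq_zero.1 h2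
  ext i j
  have h2 := hT (EuclideanSpace.single j 1)
  rw [T_apply] at h2
  have h3 : app N (EuclideanSpace.single j 1) i = 0 := by rw [h2]; rfl
  rw [app_i] at h3
  fin_cases j <;> simpa using h3

theorem lvl_cpt (h : E3 → ℝ) (hT : Ton h) (k : ℝ) : IsCompact {p | h p = k} := by
  obtain ⟨h1, -, h3⟩ := hT
  have h4 : ∀ᶠ p in cocompact E3, k + 1 ≤ h p := h3.eventually_ge_atTop (k + 1)
  rw [Filter.Eventually, Filter.mem_cocompact] at h4
  obtain ⟨C, hC, hC2⟩ := h4
  refine hC.of_isClosed_subset (isClosed_eq h1.continuous continuous_const) ?_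
  intro p hp
  by_contra hc
  have := hC2 hc
  simp only [Set.mem_ofPred_eq] at this hp
  linarith

theorem ray (h : E3 → ℝ) (hT : Ton h) (k : ℝ) (p : E3) (hp : h p < k) (h0 : p ≠ 0) :
    ∃ t : ℝ, 1 ≤ t ∧ h (t • p) = k := by
  obtain ⟨h1, -, h3⟩ := hT
  have h4 : Tendsto (fun t : ℝ => t • p) atTop (cocompact E3) := by
    rw [← Metric.cobounded_eq_cocompact, ← tendsto_norm_atTop_iff_cobounded]
    have : (fun t : ℝ => ‖t • p‖) = fun t : ℝ => |t| * ‖p‖ := by
      funext t; rw [norm_smul, Real.norm_eq_abs]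
    rw [this]
    exact (tendsto_abs_atTop_atTop).atTop_mul_const (norm_pos_iff.2 h0)
  have h5 : Tendsto (fun t : ℝ => h (t • p)) atTop atTop := h3.comp h4
  obtain ⟨t, ht1, ht⟩ := ((h5.eventually_ge_atTop k).and (eventually_ge_atTop 1)).exists
  have hc : ContinuousOn (fun t : ℝ => h (t • p)) (Set.Icc 1 t) :=
    (h1.continuous.comp (continuous_id.smul continuous_const)).continuousOn
  have := intermediate_value_Icc ht hc
  obtain ⟨s, hs, hs2⟩ := this ⟨by simpa using hp.le, ht1⟩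
  exact ⟨s, hs.1, hs2⟩

theorem ex_ne (h : E3 → ℝ) (hT : Ton h) (N : Matrix (Fin 3) (Fin 3) ℝ) (hN : Nᵀ = N) (hN0 : N ≠ 0)
    (k : ℝ) (hk : ∃ p, h p < k) : ∃ p, h p = k ∧ q N p ≠ 0 := by
  by_contra hc
  push Not at hc
  obtain ⟨p0, hp0⟩ := hk
  have h1 : ∀ p, h p < k → q N p = 0 := by
    intro p hp
    by_cases h0 : p = 0
    · rw [h0]; simp [q]
    · obtain ⟨t, ht, ht2⟩ := ray h hT k p hp h0
      have h2 := hc _ ht2
      rw [q_smul] at h2
      have h3 : t ^ 2 ≠ 0 := by positivity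
      exact (mul_eq_zero.1 h2).resolve_left h3
  apply hN0
  apply q_zero_all N hN
  intro v
  have hcont : Continuous (fun e : ℝ => h (p0 + e • v)) :=
    hT.1.continuous.comp (continuous_const.add (continuous_id.smul continuous_const))
  have h2 : ∀ᶠ e : ℝ in 𝓝 0, h (p0 + e • v) < k := by
    apply (hcont.tendsto 0).eventually_lt_const
    simpa using hp0
  have h3 : ∀ᶠ e : ℝ in 𝓝 0, h (p0 + (-e) • v) < k := by
    have : Tendsto (fun e : ℝ => -e) (𝓝 0) (𝓝 0) := by
      simpa using (continuous_neg.tendsto (0 : ℝ))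
    exact this.eventually h2
  have h4 : ∀ᶠ e : ℝ in 𝓝[>] 0, h (p0 + e • v) < k ∧ h (p0 + (-e) • v) < k :=
    (h2.and h3).filter_mono nhdsWithin_le_nhds
  obtain ⟨e, ⟨he1, he2⟩, he⟩ := (h4.and self_mem_nhdsWithin).exists
  have he : 0 < e := he
  have a1 := h1 _ he1
  have a2 := h1 _ he2
  have a3 := h1 _ hp0
  rw [q_add N hN, q_smul, inner_smul_left] at a1 a2
  simp only [conj_trivial] at a1 a2
  have h5 : e ^ 2 * q N v = 0 := by nlinarith
  exact (mul_eq_zero.1 h5).resolve_left (by positivity)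

theorem dh_ne (h : E3 → ℝ) (hT : Ton h) (p p0 : E3) (hp : h p0 < h p) : fderiv ℝ h p ≠ 0 := by
  intro h0
  have hd : DifferentiableAt ℝ h p := (hT.1.differentiable (by norm_num)).differentiableAt
  have h1 : HasDerivAt (fun t : ℝ => h (p + t • (p0 - p))) 0 0 := by
    have h2 : HasDerivAt (fun t : ℝ => p + t • (p0 - p)) (p0 - p) 0 := by
      simpa using ((hasDerivAt_id (0 : ℝ)).smul_const (p0 - p)).const_add p
    have h3 : HasFDerivAt h (fderiv ℝ h p) (p + (0 : ℝ) • (p0 - p)) := by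
      simpa using hd.hasFDerivAt
    have h4 := h3.comp_hasDerivAt (0 : ℝ) h2
    rw [h0] at h4
    have h5 : HasDerivAt (fun t : ℝ => h (p + t • (p0 - p))) ((0 : E3 →L[ℝ] ℝ) (p0 - p)) 0 := h4
    rwa [show (0 : E3 →L[ℝ] ℝ) (p0 - p) = 0 from rfl] at h5
  rw [hasDerivAt_iff_tendsto_slope] at h1
  have h5 : Tendsto (slope (fun t : ℝ => h (p + t • (p0 - p))) 0) (𝓝[>] 0) (𝓝 0) :=
    h1.mono_left (nhdsWithin_mono _ (fun x (hx : 0 < x) => ne_of_gt hx))
  have h6 : ∀ᶠ t : ℝ in 𝓝[>] 0, slope (fun t : ℝ => h (p + t • (p0 - p))) 0 t ≤ h p0 - h p := by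
    have : ∀ᶠ t : ℝ in 𝓝[>] 0, t ∈ Set.Ioc (0 : ℝ) 1 :=
      Ioc_mem_nhdsGT (by norm_num)
    filter_upwards [this] with t ht
    have hcv := hT.2.1.2 (Set.mem_univ p) (Set.mem_univ p0) (sub_nonneg.2 ht.2) ht.1.le (by ring)
    have e1 : (1 - t) • p + t • p0 = p + t • (p0 - p) := by
      rw [sub_smul, smul_sub, one_smul]; abel
    rw [e1] at hcv
    rw [slope_def_field]
    simp only [zero_smul, add_zero, sub_zero]
    rw [div_le_iff₀ ht.1]
    simp only [smul_eq_mul] at hcv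
    nlinarith
  have h7 := le_of_tendsto h5 h6
  linarith

theorem fin (h : E3 → ℝ) (hT : Ton h) (N : Matrix (Fin 3) (Fin 3) ℝ) (hN : Nᵀ = N)
    (k : ℝ) (p0 p : E3) (hp0 : h p0 < k) (hp : h p = k) (hq : q N p ≠ 0)
    (hext : IsExtrOn (q N) {x | h x = k} p) :
    ∃ μ : ℝ, μ ≠ 0 ∧ gradient h p = μ • app N p := by
  have hl : IsLocalExtrOn (q N) {x | h x = h p} p := by
    rw [hp]
    exact hext.localize
  have hd : HasStrictFDerivAt h (fderiv ℝ h p) p :=
    (hT.1.contDiffAt).hasStrictFDerivAt (by norm_num)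
  obtain ⟨a, b, hab, h1⟩ := hl.exists_multipliers_of_hasStrictFDerivAt_1d hd (q_dq N hN p)
  have hne := dh_ne h hT p p0 (by rw [hp]; exact hp0)
  have hTp : (InnerProductSpace.toDual ℝ E3) (T N p) p = q N p := by
    rw [InnerProductSpace.toDual_apply_apply, real_inner_comm]; rfl
  have ha : a ≠ 0 := by
    intro ha
    have hb : b ≠ 0 := by
      intro hb
      exact hab (by rw [ha, hb]; rfl)
    rw [ha, zero_smul, zero_add] at h1
    have h2 := congrArg (fun L : E3 →L[ℝ] ℝ => L p) h1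
    simp only [_root_.smul_apply, hTp, smul_eq_mul, _root_.zero_apply]
      at h2
    have : b * (2 * q N p) ≠ 0 := mul_ne_zero hb (mul_ne_zero two_ne_zero hq)
    exact this h2
  have hb : b ≠ 0 := by
    intro hb
    rw [hb, zero_smul, add_zero] at h1
    exact hne ((smul_eq_zero.1 h1).resolve_left ha)
  refine ⟨-(b / a) * 2, mul_ne_zero (neg_ne_zero.2 (div_ne_zero hb ha)) two_ne_zero, ?_⟩
  have h3 : fderiv ℝ h p = (InnerProductSpace.toDual ℝ E3) ((-(b / a) * 2) • app N p) := by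
    ext v
    have h2 := congrArg (fun L : E3 →L[ℝ] ℝ => L v) h1
    simp only [_root_.add_apply, _root_.smul_apply, smul_eq_mul,
      _root_.zero_apply, InnerProductSpace.toDual_apply_apply, T_apply] at h2
    rw [InnerProductSpace.toDual_apply_apply, inner_smul_left]
    simp only [conj_trivial]
    field_simp
    linarith
  unfold gradient
  rw [h3]
  simp

theorem ext45 : StEXT := by
  intro h hT N hN hN0 k hk
  obtain ⟨p1, hp1, hq1⟩ := ex_ne h hT N hN hN0 k hk
  obtain ⟨p0, hp0⟩ := hk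
  have hK := lvl_cpt h hT k
  have hqc : Continuous (q N) := by
    unfold q
    exact continuous_id.inner (T N).continuous
  rcases lt_or_gt_of_ne hq1 with hlt | hgt
  · obtain ⟨p, hp, hmin⟩ := hK.exists_isMinOn ⟨p1, hp1⟩ hqc.continuousOn
    have hqp : q N p < 0 := lt_of_le_of_lt (hmin hp1) hlt
    obtain ⟨μ, hμ, hg⟩ := fin h hT N hN k p0 p hp0 hp hqp.ne hmin.isExtr
    exact ⟨p, μ, hp, hμ, hqp.ne, hg⟩
  · obtain ⟨p, hp, hmax⟩ := hK.exists_isMaxOn ⟨p1, hp1⟩ hqc.continuousOn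
    have hqp : 0 < q N p := lt_of_lt_of_le hgt (hmax hp1)
    obtain ⟨μ, hμ, hg⟩ := fin h hT N hN k p0 p hp0 hp hqp.ne' hmax.isExtr
    exact ⟨p, μ, hp, hμ, hqp.ne', hg⟩

theorem min45 : StMIN := by
  intro h hT p hp
  have h1 : IsLocalMin h p := Filter.Eventually.of_forall hp
  unfold gradient
  rw [h1.fderiv_eq_zero]
  simp

end Pool.Agent.Lib.Hom.E45
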