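import Pool.Agent.Lib.MP_fe6961_an.Hom10

set_option autoImplicit false

open Filter Matrix

namespace Pool.Agent.Lib.Hom

/-- `app N` as a linear map -/
noncomputable def appL5 (N : Matrix (Fin 3) (Fin 3) ℝ) : E3 →ₗ[ℝ] E3 where
  toFun := app N
  map_add' x y := by
    ext i
    simp [app, Matrix.mulVec, dotProduct, mul_add, Finset.sum_add_distrib]
  map_smul' c x := by
    ext i
    simp only [app, Matrix.mulVec, dotProduct, PiLp.smul_apply, smul_eq_mul, RingHom.id_apply,
      Finset.mul_sum]
    exact Finset.sum_congr rfl fun j _ => by ring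

noncomputable def appC5 (N : Matrix (Fin 3) (Fin 3) ℝ) : E3 →L[ℝ] E3 :=
  LinearMap.toContinuousLinearMap (appL5 N)

theorem appC5_apply (N : Matrix (Fin 3) (Fin 3) ℝ) (p : E3) : appC5 N p = app N p := rfl

theorem app_inner5 (N : Matrix (Fin 3) (Fin 3) ℝ) (x y : E3) :
    inner ℝ x (app N y) = ∑ i, ∑ j, x i * N i j * y j := by
  simp only [app, PiLp.inner_apply, Matrix.mulVec, dotProduct]
  refine Finset.sum_congr rfl fun i _ => ?_
  simp only [RCLike.inner_apply, conj_trivial, Finset.sum_mul]
  exact Finset.sum_congr rfl fun j _ => by ring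

theorem app_symm5 {N : Matrix (Fin 3) (Fin 3) ℝ} (hN : Nᵀ = N) (x y : E3) :
    inner ℝ x (app N y) = inner ℝ y (app N x) := by
  rw [app_inner5, app_inner5, Finset.sum_comm]
  refine Finset.sum_congr rfl fun i _ => Finset.sum_congr rfl fun j _ => ?_
  have : N j i = N i j := by
    conv_lhs => rw [← hN]
    rfl
  rw [this]; ring

noncomputable def q5 (N : Matrix (Fin 3) (Fin 3) ℝ) (p : E3) : ℝ := inner ℝ p (app N p)

theorem q5_smul (N : Matrix (Fin 3) (Fin 3) ℝ) (t : ℝ) (p : E3) : q5 N (t • p) = t ^ 2 * q5 N p := by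
  unfold q5
  rw [show app N (t • p) = t • app N p from (appL5 N).map_smul t p, inner_smul_left,
    inner_smul_right]
  simp only [conj_trivial]
  ring

theorem q5_add {N : Matrix (Fin 3) (Fin 3) ℝ} (hN : Nᵀ = N) (x y : E3) :
    q5 N (x + y) = q5 N x + 2 * inner ℝ x (app N y) + q5 N y := by
  unfold q5
  rw [show app N (x + y) = app N x + app N y from (appL5 N).map_add x y, inner_add_left,
    inner_add_right, inner_add_right, app_symm5 hN y x]
  ring

theorem q5_zero_N {N : Matrix (Fin 3) (Fin 3) ℝ} (hN : Nᵀ = N) (h : ∀ v, q5 N v = 0) : N = 0 := by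
  ext i j
  have h1 := q5_add hN (EuclideanSpace.single i (1 : ℝ)) (EuclideanSpace.single j (1 : ℝ))
  rw [h, h, h] at h1
  have h2 : inner ℝ (EuclideanSpace.single i (1 : ℝ) : E3) (app N (EuclideanSpace.single j 1)) =
      N i j := by
    rw [app_inner5]
    rw [Finset.sum_eq_single i, Finset.sum_eq_single j]
    · simp
    · intro b _ hb; simp [hb]
    · simp
    · intro b _ hb; simp [hb]
    · simp
  rw [h2] at h1
  simp only [Matrix.zero_apply]
  linarith

theorem q5_of_open {N : Matrix (Fin 3) (Fin 3) ℝ} (hN : Nᵀ = N) {U : Set E3} (hU : IsOpen U)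
    {p0 : E3} (hp : p0 ∈ U) (h : ∀ v ∈ U, q5 N v = 0) (v : E3) : q5 N v = 0 := by
  have hc : Tendsto (fun ε : ℝ => p0 + ε • v) (nhds 0) (nhds p0) := by
    have : Continuous fun ε : ℝ => p0 + ε • v := by fun_prop
    simpa using this.tendsto 0
  have h1 := hc (hU.mem_nhds hp)
  rw [mem_map, Metric.mem_nhds_iff] at h1
  obtain ⟨δ, hδ, hb⟩ := h1
  have ha : p0 + (δ / 2) • v ∈ U := hb (by
    rw [Metric.mem_ball, dist_zero_right, Real.norm_eq_abs, abs_of_pos (by linarith)]; linarith)
  have hb' : p0 + (-(δ / 2)) • v ∈ U := hb (by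
    rw [Metric.mem_ball, dist_zero_right, Real.norm_eq_abs, abs_neg, abs_of_pos (by linarith)]
    linarith)
  have e1 := q5_add hN p0 ((δ / 2) • v)
  have e2 := q5_add hN p0 ((-(δ / 2)) • v)
  rw [h _ ha, h _ hp, q5_smul] at e1
  rw [h _ hb', h _ hp, q5_smul] at e2
  have e3 : inner ℝ p0 (app N ((-(δ / 2)) • v)) = - inner ℝ p0 (app N ((δ / 2) • v)) := by
    rw [show app N ((-(δ / 2)) • v) = (-(δ / 2)) • app N v from (appL5 N).map_smul _ v,
      show app N ((δ / 2) • v) = (δ / 2) • app N v from (appL5 N).map_smul _ v, neg_smul,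
      inner_neg_right]
  rw [e3] at e2
  have e4 : (δ / 2) ^ 2 * q5 N v = 0 := by
    have : (-(δ / 2)) ^ 2 = (δ / 2) ^ 2 := by ring
    rw [this] at e2
    linarith
  rcases mul_eq_zero.1 e4 with h | h
  · exfalso; have : (0 : ℝ) < (δ / 2) ^ 2 := by positivity
    linarith
  · exact h

theorem compact_le5 {h : E3 → ℝ} (hc : Continuous h) (ht : Tendsto h (cocompact E3) atTop) (k : ℝ) :
    IsCompact {p | h p ≤ k} := by
  have h1 := ht.eventually (eventually_gt_atTop k)
  obtain ⟨K, hK, hsub⟩ := mem_cocompact.1 h1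
  refine hK.of_isClosed_subset (isClosed_le hc continuous_const) ?_
  intro p hp
  by_contra hn
  have := hsub hn
  simp only [Set.mem_ofPred_eq] at this hp
  linarith

/-- a ray out of a point with `h < k` meets the level -/
theorem ray5 {h : E3 → ℝ} (hc : Continuous h) (ht : Tendsto h (cocompact E3) atTop) {k : ℝ}
    {p : E3} (hp : h p < k) (h0 : p ≠ 0) : ∃ t : ℝ, t ≠ 0 ∧ h (t • p) = k := by
  obtain ⟨C, hC⟩ := (compact_le5 hc ht k).isBounded.exists_norm_le
  have hn : 0 < ‖p‖ := norm_pos_iff.2 h0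
  have hC0 : 0 ≤ C := (norm_nonneg p).trans (hC p hp.le)
  set T : ℝ := (C + 1) / ‖p‖ + 1 with hT
  have hT1 : 1 ≤ T := by
    have : 0 ≤ (C + 1) / ‖p‖ := by positivity
    linarith
  have h2 : k ≤ h (T • p) := by
    by_contra hlt
    push Not at hlt
    have := hC (T • p) hlt.le
    rw [norm_smul, Real.norm_eq_abs, abs_of_nonneg (by linarith), hT, add_mul,
      div_mul_cancel₀ _ hn.ne'] at this
    linarith
  have hcont : ContinuousOn (fun t : ℝ => h (t • p)) (Set.Icc 1 T) := by
    apply Continuous.continuousOn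
    fun_prop
  have := intermediate_value_Icc hT1 hcont
  obtain ⟨t, ht, he⟩ := this ⟨by simpa using hp.le, h2⟩
  exact ⟨t, by linarith [ht.1], he⟩

theorem min_of_grad5 {h : E3 → ℝ} (hd : ContDiff ℝ 1 h) (hv : ConvexOn ℝ Set.univ h) {p : E3}
    (hp : fderiv ℝ h p = 0) (p0 : E3) : h p ≤ h p0 := by
  have hg : ConvexOn ℝ Set.univ (fun t : ℝ => h (AffineMap.lineMap p p0 t)) := by
    have := hv.comp_affineMap (AffineMap.lineMap p p0 : ℝ →ᵃ[ℝ] E3)
    rw [Set.preimage_univ] at this
    exact this
  have hdiff : DifferentiableAt ℝ h (AffineMap.lineMap p p0 (0 : ℝ)) :=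
    (hd.differentiable (by norm_num)).differentiableAt
  have h1 : HasDerivAt (fun t : ℝ => h (AffineMap.lineMap p p0 t)) 0 0 := by
    have h2 : HasDerivAt (fun t : ℝ => (AffineMap.lineMap p p0 t : E3)) (p0 - p) 0 :=
      AffineMap.hasDerivAt_lineMap
    have h3 := hdiff.hasFDerivAt.comp_hasDerivAt (0 : ℝ) h2
    have h4 : fderiv ℝ h (AffineMap.lineMap p p0 (0 : ℝ)) = 0 := by simpa using hp
    exact h3.congr_deriv (by rw [h4]; simp)
  have h5 := hg.le_slope_of_hasDerivAt (Set.mem_univ 0) (Set.mem_univ 1) zero_lt_one h1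
  rw [slope_def_field] at h5
  simp at h5
  linarith

theorem ext5 : StEXT := by
  intro h hT N hN hN0 k hk
  obtain ⟨hd, hv, hco⟩ := hT
  obtain ⟨p0, hp0⟩ := hk
  have hc : Continuous h := hd.continuous
  have hqc : Continuous (q5 N) := by
    have : Continuous (fun p : E3 => inner ℝ p (appC5 N p)) := by fun_prop
    exact this
  -- a point of the level with q ≠ 0
  have hex : ∃ p1, h p1 = k ∧ q5 N p1 ≠ 0 := by
    by_contra hcon
    push Not at hcon
    refine hN0 (q5_zero_N hN (q5_of_open hN (U := {p | h p < k}) (isOpen_lt hc continuous_const)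
      hp0 ?_))
    intro v hvk
    by_cases hv0 : v = 0
    · rw [hv0]; simp [q5]
    · obtain ⟨t, ht, he⟩ := ray5 hc hco hvk hv0
      have := hcon _ he
      rw [q5_smul] at this
      rcases mul_eq_zero.1 this with h1 | h1
      · exact absurd (pow_eq_zero_iff (by norm_num) |>.1 h1) ht
      · exact h1
  obtain ⟨p1, hp1, hq1⟩ := hex
  have hcomp : IsCompact {p | h p = k} :=
    (compact_le5 hc hco k).of_isClosed_subset (isClosed_eq hc continuous_const)
      (fun p hp => le_of_eq hp)
  have hne : Set.Nonempty {p | h p = k} := ⟨p1, hp1⟩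
  have hext : ∃ p, h p = k ∧ q5 N p ≠ 0 ∧ IsLocalExtrOn (q5 N) {x | h x = h p} p := by
    rcases lt_or_gt_of_ne hq1 with hneg | hpos
    · obtain ⟨p, hp, hmin⟩ := hcomp.exists_isMinOn hne hqc.continuousOn
      refine ⟨p, hp, ?_, ?_⟩
      · have : q5 N p ≤ q5 N p1 := hmin hp1
        intro h0; rw [h0] at this; linarith
      · have hpk : h p = k := hp
        rw [hpk]
        exact (hmin.localize).isExtr
    · obtain ⟨p, hp, hmax⟩ := hcomp.exists_isMaxOn hne hqc.continuousOn
      refine ⟨p, hp, ?_, ?_⟩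
      · have : q5 N p1 ≤ q5 N p := hmax hp1
        intro h0; rw [h0] at this; linarith
      · have hpk : h p = k := hp
        rw [hpk]
        exact (hmax.localize).isExtr
  obtain ⟨p, hpk, hq, hloc⟩ := hext
  have hf' : HasStrictFDerivAt h (fderiv ℝ h p) p :=
    hd.contDiffAt.hasStrictFDerivAt (by norm_num)
  have hφ' : HasStrictFDerivAt (q5 N) ((2 : ℝ) • innerSL ℝ (app N p)) p := by
    have h1 : HasStrictFDerivAt (fun x : E3 => inner ℝ x (appC5 N x)) _ p :=
      (hasStrictFDerivAt_id p).inner ℝ (appC5 N).hasStrictFDerivAt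
    refine h1.congr_fderiv ?_
    ext v
    simp [fderivInnerCLM_apply, appC5_apply]
    rw [app_symm5 hN p v, real_inner_comm (app N p) v]
    ring
  obtain ⟨a, b, hab, heq⟩ := hloc.exists_multipliers_of_hasStrictFDerivAt_1d hf' hφ'
  have hgrad : ∀ v, a * inner ℝ (gradient h p) v + b * (2 * inner ℝ (app N p) v) = 0 := by
    intro v
    have := DFunLike.congr_fun heq v
    have h2 : inner ℝ (gradient h p) v = fderiv ℝ h p v := by
      have := (hd.differentiable (by norm_num)).differentiableAt (x := p)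
      rw [gradient, InnerProductSpace.toDual_symm_apply]
    rw [h2]
    simpa using this
  have happ : app N p ≠ 0 := by
    intro h0
    apply hq
    show inner ℝ p (app N p) = 0
    rw [h0, inner_zero_right]
  have hvec : a • gradient h p + (b * 2) • app N p = 0 := by
    refine ext_inner_right ℝ fun v => ?_
    rw [inner_add_left, inner_smul_left, inner_smul_left, inner_zero_left]
    simp only [conj_trivial]
    linarith [hgrad v]
  have ha : a ≠ 0 := by
    intro ha
    rw [ha, zero_smul, zero_add, smul_eq_zero] at hvec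
    rcases hvec with h1 | h1
    · apply hab
      rw [ha]
      have : b = 0 := by linarith
      rw [this]; rfl
    · exact happ h1
  have hg : gradient h p = (-(b * 2) / a) • app N p := by
    have h1 : a • gradient h p = (-(b * 2)) • app N p := by
      rw [neg_smul]
      exact eq_neg_of_add_eq_zero_left hvec
    rw [div_eq_inv_mul, mul_smul, ← h1, smul_smul, inv_mul_cancel₀ ha, one_smul]
  have hb : b ≠ 0 := by
    intro hb
    rw [hb] at hg
    simp at hg
    have h3 : fderiv ℝ h p = 0 := by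
      have := hg
      rw [gradient] at this
      simpa using this
    have := min_of_grad5 hd hv h3 p0
    rw [hpk] at this
    linarith
  refine ⟨p, -(b * 2) / a, hpk, ?_, hq, hg⟩
  apply div_ne_zero _ ha
  simpa using hb

end Pool.Agent.Lib.Hom
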