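import Mathlib
import Pool.Agent.Lib.MP_fe6961_an.TorN53

/-! Row GROW (helper84): an infinite orbit of integer vectors is unbounded. -/

open Filter Matrix

namespace Pool.Agent.Lib.TorN.GROW84

open Pool.Agent.Lib.TorN

variable {n : ℕ}

theorem coord (w : Fin n → ℤ) (i : Fin n) : |(w i : ℝ)| ≤ ‖(iv w : EN n)‖ := by
  have h1 := PiLp.norm_apply_le (iv w : EN n) (Fin.castSucc i)
  have h2 : (iv w : EN n) (Fin.castSucc i) = (w i : ℝ) := by simp [iv]
  rw [h2] at h1
  exact h1

theorem grow84 : StGROW := by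
  intro n B hB hfix w hw
  have hinj : Function.Injective (fun j : ℕ => (B ^ j) *ᵥ w) := by
    have key : ∀ i m : ℕ, (B ^ (i + (m + 1))) *ᵥ w ≠ (B ^ i) *ᵥ w := by
      intro i m h
      rw [pow_add, ← Matrix.mulVec_mulVec] at h
      have hu : IsUnit (B ^ i) := ((Matrix.isUnit_iff_isUnit_det B).mpr hB).pow i
      have h2 := Matrix.mulVec_injective_of_isUnit hu h
      exact hfix w hw (m + 1) (Nat.succ_pos m) h2
    intro i j hij
    rcases lt_trichotomy i j with h | h | h
    · obtain ⟨m, rfl⟩ := Nat.exists_eq_add_of_lt h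
      exact absurd hij.symm (by rw [add_assoc]; exact key i m)
    · exact h
    · obtain ⟨m, rfl⟩ := Nat.exists_eq_add_of_lt h
      exact absurd hij (by rw [add_assoc]; exact key j m)
  have hnorm : Tendsto (fun w' : Fin n → ℤ => ‖(iv w' : EN n)‖) cofinite atTop := by
    rw [tendsto_atTop]
    intro R
    rw [Filter.eventually_cofinite]
    refine Set.Finite.subset (Set.finite_Icc (fun _ : Fin n => -⌈R⌉) (fun _ : Fin n => ⌈R⌉)) ?_
    intro w' hw'
    have h1 : ‖(iv w' : EN n)‖ < R := not_le.mp hw'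
    have h2 : ∀ i, |w' i| ≤ ⌈R⌉ := by
      intro i
      have h3 : |(w' i : ℝ)| ≤ ⌈R⌉ := ((coord w' i).trans h1.le).trans (Int.le_ceil R)
      exact_mod_cast h3
    exact ⟨fun i => (abs_le.mp (h2 i)).1, fun i => (abs_le.mp (h2 i)).2⟩
  have h := hnorm.comp hinj.tendsto_cofinite
  rw [Nat.cofinite_eq_atTop] at h
  exact h

end Pool.Agent.Lib.TorN.GROW84
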