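import Mathlib
import Pool.Agent.Lib.MP_fe6961_an.TorN53

/-! Row KEY (helper84): the integer vector whose support function has an interior minimum. -/

open Filter Matrix Topology

namespace Pool.Agent.Lib.TorN.KEY84

open Pool.Agent.Lib.TorN

variable {n : ℕ}

theorem inv_fix {B : Matrix (Fin n) (Fin n) ℤ} (hB : IsUnit B.det)
    (h : ∀ w : Fin n → ℤ, w ≠ 0 → ∀ m : ℕ, 0 < m → (B ^ m) *ᵥ w ≠ w) :
    ∀ w : Fin n → ℤ, w ≠ 0 → ∀ m : ℕ, 0 < m → (B⁻¹ ^ m) *ᵥ w ≠ w := by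
  intro w hw m hm h1
  apply h w hw m hm
  have h2 : B ^ m * B⁻¹ ^ m = 1 := by
    have hc : Commute B B⁻¹ := by
      show B * B⁻¹ = B⁻¹ * B
      rw [Matrix.mul_nonsing_inv B hB, Matrix.nonsing_inv_mul B hB]
    rw [← hc.mul_pow, Matrix.mul_nonsing_inv B hB, one_pow]
  calc (B ^ m) *ᵥ w = (B ^ m) *ᵥ ((B⁻¹ ^ m) *ᵥ w) := by rw [h1]
    _ = w := by rw [Matrix.mulVec_mulVec, h2, Matrix.one_mulVec]

/-- if the values on `O` are bounded above along vectors of norm tending to infinity, then the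
values at an interior point tend to `-∞` -/
theorem to_bot {O : Set (EN n)} (hO : IsOpen O) {η : EN n} (hη : η ∈ O) (g : ℕ → EN n)
    (hg : Tendsto (fun j => ‖g j‖) atTop atTop) (C : ℝ)
    (h : ∀ j : ℕ, 0 < j → ∀ ζ ∈ O, inner ℝ (g j) ζ ≤ C) :
    Tendsto (fun j => inner ℝ (g j) η) atTop atBot := by
  obtain ⟨ε, hε, hball⟩ := Metric.isOpen_iff.mp hO η hη
  have h1 : ∀ j : ℕ, 0 < j → inner ℝ (g j) η ≤ C - ε / 2 * ‖g j‖ := by
    intro j hj
    by_cases h0 : g j = 0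
    · have := h j hj η hη
      rw [h0] at this ⊢
      simpa using this
    have hn : 0 < ‖g j‖ := norm_pos_iff.mpr h0
    have h2 : η + (ε / 2 / ‖g j‖) • g j ∈ O := by
      apply hball
      rw [Metric.mem_ball, dist_eq_norm, add_sub_cancel_left, norm_smul, Real.norm_eq_abs,
        abs_of_pos (by positivity), div_mul_cancel₀ _ hn.ne']
      linarith
    have h3 := h j hj _ h2
    rw [inner_add_right, inner_smul_right, real_inner_self_eq_norm_sq] at h3
    have h4 : ε / 2 / ‖g j‖ * ‖g j‖ ^ 2 = ε / 2 * ‖g j‖ := by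
      field_simp
    linarith
  have h2 : Tendsto (fun j => C - ε / 2 * ‖g j‖) atTop atBot := by
    have h3 : Tendsto (fun j => ε / 2 * ‖g j‖) atTop atTop :=
      hg.const_mul_atTop (by linarith)
    have h4 : Tendsto (fun j => C + -(ε / 2 * ‖g j‖)) atTop atBot :=
      tendsto_atBot_add_const_left atTop C (tendsto_neg_atTop_atBot.comp h3)
    simpa [sub_eq_add_neg] using h4
  exact tendsto_atBot_mono' atTop ((eventually_gt_atTop 0).mono fun j hj => h1 j hj) h2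

theorem iv_neg (w : Fin n → ℤ) (M : Matrix (Fin n) (Fin n) ℤ) (η : EN n)
    (h4 : ∀ (w : Fin n → ℤ) (ξ : EN n), inner ℝ (iv w) ξ = ∑ i, (w i : ℝ) * ξ (Fin.castSucc i)) :
    inner ℝ (iv (M *ᵥ (-w))) η = -inner ℝ (iv (M *ᵥ w)) η := by
  rw [h4, h4, Matrix.mulVec_neg, ← Finset.sum_neg_distrib]
  refine Finset.sum_congr rfl fun i _ => ?_
  rw [Pi.neg_apply]
  push_cast
  ring

theorem key84 (hDIR : StDIR) (hGROW : StGROW) (hPUL : StPUL) : StKEY := by
  intro n B hn hB hfix O hO hne C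
  by_contra hcon
  push Not at hcon
  obtain ⟨η, hη⟩ := hne
  obtain ⟨p1, p2, p3, p4, -⟩ := hPUL n
  have hBi : IsUnit (B⁻¹).det := by
    rw [Matrix.det_nonsing_inv]
    exact hB.ringInverse
  have hfix' := inv_fix hB hfix
  have g1 := hGROW n B hB hfix
  have g2 := hGROW n B⁻¹ hBi hfix'
  -- the two alternatives
  have alt : ∀ w : Fin n → ℤ, w ≠ 0 →
      Tendsto (fun j : ℕ => inner ℝ (iv ((B⁻¹ ^ j) *ᵥ w)) η) atTop atBot ∨
      Tendsto (fun j : ℕ => inner ℝ (iv ((B ^ j) *ᵥ w)) η) atTop atBot := by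
    intro w hw
    by_cases h1 : ∃ j : ℕ, 0 < j ∧ ∃ ζ ∈ O, C w < inner ℝ (iv ((B⁻¹ ^ j) *ᵥ w)) ζ
    · right
      obtain ⟨j, hj, ζ, hζ, hlt⟩ := h1
      have h2 := hcon w hw ⟨j, hj, ζ, hζ, hlt⟩
      exact to_bot hO hη _ (g1 w hw) (C w) fun j hj ζ hζ => h2 j hj ζ hζ
    · left
      push Not at h1
      exact to_bot hO hη _ (g2 w hw) (C w) fun j hj ζ hζ => h1 j hj ζ hζ
  have hneg : ∀ (M : ℕ → Matrix (Fin n) (Fin n) ℤ) (w : Fin n → ℤ),
      Tendsto (fun j : ℕ => inner ℝ (iv (M j *ᵥ (-w))) η) atTop atBot →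
      Tendsto (fun j : ℕ => inner ℝ (iv (M j *ᵥ w)) η) atTop atTop := by
    intro M w h
    have h1 := tendsto_neg_atBot_atTop.comp h
    refine h1.congr fun j => ?_
    show -inner ℝ (iv (M j *ᵥ (-w))) η = inner ℝ (iv (M j *ᵥ w)) η
    rw [iv_neg w (M j) η p4, neg_neg]
  have hno : ∀ f : ℕ → ℝ, Tendsto f atTop atBot → Tendsto f atTop atTop → False := by
    intro f h1 h2
    obtain ⟨j, h3, h4⟩ := ((h1.eventually (eventually_lt_atBot (0 : ℝ))).and
      (h2.eventually (eventually_gt_atTop (0 : ℝ)))).exists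
    linarith
  let A : Matrix (Fin n) (Fin n) ℝ := (B.map (fun m : ℤ => (m : ℝ)))ᵀ
  have hpull : ∀ ξ : EN n, (fun i => pull B ξ (Fin.castSucc i)) =
      A *ᵥ (fun i => ξ (Fin.castSucc i)) := by
    intro ξ
    funext i
    simp [pull, A, Matrix.mulVec, dotProduct]
  refine hDIR n A (fun j i => pull (B ^ j) η (Fin.castSucc i))
    (fun j i => pull (B⁻¹ ^ j) η (Fin.castSucc i)) hn ?_ ?_ ?_ ?_
  · intro x hx
    by_contra hx0
    have h1 : (A - 1) *ᵥ x = 0 := by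
      rw [Matrix.sub_mulVec, Matrix.one_mulVec, hx, sub_self]
    have h2 : (A - 1).det = 0 := Matrix.exists_mulVec_eq_zero_iff.mp ⟨x, hx0, h1⟩
    have h3 : A - 1 = ((B - 1).map (fun m : ℤ => (m : ℝ)))ᵀ := by
      ext i j
      by_cases hij : i = j
      · subst hij
        simp [A]
      · simp [A, Matrix.one_apply, hij, Ne.symm hij, eq_comm]
    rw [h3, Matrix.det_transpose] at h2
    have h4 : (((B - 1).det : ℤ) : ℝ) = 0 := by
      have := (Int.castRingHom ℝ).map_det (B - 1)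
      rw [eq_intCast] at this
      rw [this]
      exact h2
    have h5 : (B - 1).det = 0 := by exact_mod_cast h4
    obtain ⟨w, hw, h6⟩ := Matrix.exists_mulVec_eq_zero_iff.mpr h5
    rw [Matrix.sub_mulVec, Matrix.one_mulVec, sub_eq_zero] at h6
    exact hfix w hw 1 one_pos (by rw [pow_one]; exact h6)
  · intro j
    show (fun i => pull (B ^ (j + 1)) η (Fin.castSucc i)) = _
    rw [pow_succ, ← p2, hpull]
  · intro j
    show A *ᵥ (fun i => pull (B⁻¹ ^ (j + 1)) η (Fin.castSucc i)) = _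
    rw [← hpull, p2, pow_succ, Matrix.mul_assoc, Matrix.nonsing_inv_mul B hB, Matrix.mul_one]
  · intro w hw
    have e1 : (fun j : ℕ => ∑ i, (w i : ℝ) * pull (B ^ j) η (Fin.castSucc i)) =
        fun j => inner ℝ (iv ((B ^ j) *ᵥ w)) η := by
      funext j
      rw [← p3, p4]
    have e2 : (fun j : ℕ => ∑ i, (w i : ℝ) * pull (B⁻¹ ^ j) η (Fin.castSucc i)) =
        fun j => inner ℝ (iv ((B⁻¹ ^ j) *ᵥ w)) η := by
      funext j
      rw [← p3, p4]
    rw [e1, e2]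
    have hw' : -w ≠ 0 := neg_ne_zero.mpr hw
    rcases alt w hw with h1 | h1
    · rcases alt (-w) hw' with h2 | h2
      · exact (hno _ h1 (hneg _ w h2)).elim
      · exact Or.inl ⟨hneg _ w h2, h1⟩
    · rcases alt (-w) hw' with h2 | h2
      · exact Or.inr ⟨h1, hneg _ w h2⟩
      · exact (hno _ h1 (hneg _ w h2)).elim

end Pool.Agent.Lib.TorN.KEY84
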