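import Mathlib
import Pool.Agent.Lib.MP_fe6961_an.TorN53

/-! Row ORB in every dimension (helper40, after helper84's row in dimension three). -/

open Filter Matrix

namespace Pool.Agent.Lib.TorN.ORBN40

open Pool.Agent.Lib.TorN

variable {n : ℕ}

/-- the base point -/
noncomputable def bp (n : ℕ) (s : ℝ) : EN n := WithLp.toLp 2 (Fin.snoc (fun _ => (0 : ℝ)) s)

theorem bp_last (s : ℝ) : (bp n s) (Fin.last n) = s := by
  simp [bp]

theorem iv_last (w : Fin n → ℤ) : (iv w : EN n) (Fin.last n) = 0 := by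
  simp [iv]

theorem third (w : Fin n → ℤ) (s t μ : ℝ) :
    (bp n s + t • (μ • iv w) : EN n) (Fin.last n) = s := by
  simp [bp_last, iv_last]

theorem orbit (H : ℝ → EN n → ℝ) (w : Fin n → ℤ) (s μ : ℝ) (p : EN n)
    (h1 : HasDerivAt (fun r => H r p) 0 s) (h2 : gradient (H s) p = μ • iv w) :
    IsOrbit (HT H) (fun t => bp n s + t • (μ • iv w)) (fun _ => p) := by
  intro t
  obtain ⟨y0, hy0⟩ : ∃ y0 : EN n, y0 = bp n s + t • (μ • iv w) := ⟨_, rfl⟩
  have hy2 : y0 (Fin.last n) = s := by rw [hy0, third]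
  refine ⟨?_, ?_⟩
  · show HasDerivAt (fun t : ℝ => (bp n s + t • (μ • iv w) : EN n))
      (gradient (HT H (bp n s + t • (μ • iv w))) p) t
    have h3 : HT H (bp n s + t • (μ • iv w)) = H s := by
      funext ξ
      show H ((bp n s + t • (μ • iv w) : EN n) (Fin.last n)) ξ = H s ξ
      rw [third]
    rw [h3, h2]
    have h4 : HasDerivAt (fun t : ℝ => t • (μ • iv w)) ((1 : ℝ) • (μ • iv w)) t :=
      (hasDerivAt_id t).smul_const (μ • iv w)
    rw [one_smul] at h4
    exact h4.const_add _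
  · have hproj : HasFDerivAt (fun y : EN n => y (Fin.last n))
        (EuclideanSpace.proj (𝕜 := ℝ) (Fin.last n)) y0 :=
      (EuclideanSpace.proj (𝕜 := ℝ) (Fin.last n) : EN n →L[ℝ] ℝ).hasFDerivAt
    have hfin : HasFDerivAt (fun y : EN n => HT H y p) (0 : EN n →L[ℝ] ℝ) y0 := by
      have h10 : HasDerivAt (fun r : ℝ => H r p) 0 (y0 (Fin.last n)) := by
        rw [hy2]; exact h1
      have h11 := h10.comp_hasFDerivAt y0 hproj
      rw [zero_smul] at h11
      exact h11
    have hgr : gradient (fun y : EN n => HT H y p) y0 = 0 := by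
      rw [gradient, hfin.fderiv, map_zero]
    show HasDerivAt (fun _ : ℝ => p) (-gradient (fun y : EN n => HT H y p)
      (bp n s + t • (μ • iv w))) t
    rw [← hy0, hgr, neg_zero]
    exact hasDerivAt_const t p

theorem ivneg (w : Fin n → ℤ) : (iv (-w) : EN n) = -iv w := by
  ext i
  refine Fin.lastCases ?_ (fun i => ?_) i
  · simp [iv]
  · simp [iv]

theorem orbN40 : StORB := by
  intro n H _ w hw s μ p h1 h2
  have ho := orbit H w s μ p h1 h2
  have hv : ∀ t : ℝ, HT H (bp n s + t • (μ • iv w)) p = H s p := by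
    intro t
    show H ((bp n s + t • (μ • iv w) : EN n) (Fin.last n)) p = H s p
    rw [third]
  by_cases hμ : μ = 0
  · left
    refine ⟨bp n s, p, ?_, ?_⟩
    · have := hv 0
      rwa [zero_smul, add_zero] at this
    · rw [hμ] at ho
      simpa using ho
  · right
    refine ⟨fun t => bp n s + t • (μ • iv w), fun _ => p, ho, hv, 1 / |μ|,
      by positivity, ?_⟩
    rcases lt_or_gt_of_ne hμ with h | h
    · refine ⟨-w, neg_ne_zero.mpr hw, fun t => ⟨?_, rfl⟩⟩
      show (bp n s + (t + 1 / |μ|) • (μ • iv w) : EN n) =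
        bp n s + t • (μ • iv w) + iv (-w)
      rw [ivneg, abs_of_neg h, add_smul, smul_smul (1 / -μ) μ]
      have h3 : 1 / -μ * μ = -1 := by field_simp
      rw [h3, neg_one_smul, add_assoc]
    · refine ⟨w, hw, fun t => ⟨?_, rfl⟩⟩
      show (bp n s + (t + 1 / |μ|) • (μ • iv w) : EN n) =
        bp n s + t • (μ • iv w) + iv w
      rw [abs_of_pos h, add_smul, smul_smul (1 / μ) μ]
      have h3 : 1 / μ * μ = 1 := by field_simp
      rw [h3, one_smul, add_assoc]

end Pool.Agent.Lib.TorN.ORBN40
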