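import Mathlib
import Pool.Agent.Lib.MP_fe6961_an.TorN53

/-! Row PUL (helper40): the calculus of `pull`. -/

open Filter Matrix

namespace Pool.Agent.Lib.TorN.PULN40

open Pool.Agent.Lib.TorN

variable {n : ℕ}

theorem pull_last (B : Matrix (Fin n) (Fin n) ℤ) (ξ : EN n) :
    (pull B ξ) (Fin.last n) = ξ (Fin.last n) := by
  simp [pull]

theorem pull_cast (B : Matrix (Fin n) (Fin n) ℤ) (ξ : EN n) (i : Fin n) :
    (pull B ξ) (Fin.castSucc i) = ∑ j, (B j i : ℝ) * ξ (Fin.castSucc j) := by
  simp [pull]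

theorem iv_last (w : Fin n → ℤ) : (iv w : EN n) (Fin.last n) = 0 := by
  simp [iv]

theorem iv_cast (w : Fin n → ℤ) (i : Fin n) : (iv w : EN n) (Fin.castSucc i) = (w i : ℝ) := by
  simp [iv]

theorem inner_iv (w : Fin n → ℤ) (ξ : EN n) :
    inner ℝ (iv w) ξ = ∑ i, (w i : ℝ) * ξ (Fin.castSucc i) := by
  rw [PiLp.inner_apply, Fin.sum_univ_castSucc]
  simp only [iv_last, iv_cast]
  simp [mul_comm]

theorem puln40 : StPUL := by
  intro n
  refine ⟨?_, ?_, ?_, inner_iv, ?_⟩
  · intro ξ
    ext i
    refine Fin.lastCases ?_ (fun i => ?_) i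
    · exact pull_last _ _
    · rw [pull_cast]
      simp [Matrix.one_apply]
  · intro M N ξ
    ext i
    refine Fin.lastCases ?_ (fun i => ?_) i
    · rw [pull_last, pull_last, pull_last]
    · rw [pull_cast, pull_cast]
      simp only [pull_cast, Finset.mul_sum, Matrix.mul_apply, Int.cast_sum, Int.cast_mul,
        Finset.sum_mul]
      rw [Finset.sum_comm]
      refine Finset.sum_congr rfl fun j _ => Finset.sum_congr rfl fun l _ => by ring
  · intro M w ξ
    rw [inner_iv, inner_iv]
    simp only [pull_cast, Matrix.mulVec, dotProduct, Int.cast_sum, Int.cast_mul, Finset.mul_sum,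
      Finset.sum_mul]
    rw [Finset.sum_comm]
    refine Finset.sum_congr rfl fun j _ => Finset.sum_congr rfl fun l _ => by ring
  · intro w hw h
    apply hw
    funext i
    have h1 := iv_cast w i
    rw [h] at h1
    have h2 : ((w i : ℤ) : ℝ) = 0 := by rw [← h1]; simp
    exact_mod_cast h2

end Pool.Agent.Lib.TorN.PULN40
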