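import Pool.Agent.Lib.MP_fe6961_an.AsmN40
import Pool.Agent.Lib.MP_fe6961_an.LagMaxN40
import Pool.Agent.Lib.MP_fe6961_an.CoreN40
import Pool.Agent.Lib.MP_fe6961_an.AttN40
import Pool.Agent.Lib.MP_fe6961_an.ORBN40
import Pool.Agent.Lib.MP_fe6961_an.PULN40
import Pool.Agent.Lib.MP_fe6961_an.KEY84
import Pool.Agent.Lib.MP_fe6961_an.DIR53
import Pool.Agent.Lib.MP_fe6961_an.GROW84

/-! The theorem in every dimension (rows of helpers 5, 10, 40, 44, 53, 84). -/

namespace Pool.Agent.Lib.TorN.FinN40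

open Pool.Agent.Lib.TorN

theorem key : StKEY := KEY84.key84 (by exact DIR53.dir53) (by exact GROW84.grow84) PULN40.puln40

theorem finN40 : StTORN :=
  AsmN40.asm40 LM40.lagN40 LM40.maxN40 coreN40 ATN40.attN40 ORBN40.orbN40 PULN40.puln40 key

end Pool.Agent.Lib.TorN.FinN40
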