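import Mathlib
import Pool.Agent.Lib.MP_fe6961_an.Hom10

/-! Row HAM (helper53): the orbit through an equilibrium of the reduced equation. -/

open Filter Matrix

namespace Pool.Agent.Lib.Hom.HAM53

theorem inner3 (p q : E3) : inner ℝ p q = p 0 * q 0 + p 1 * q 1 + p 2 * q 2 := by
  simp only [PiLp.inner_apply, Fin.sum_univ_three, RCLike.inner_apply, conj_trivial]
  ring

/-- `pull M` as a continuous linear map -/
noncomputable def pullL (M : Matrix (Fin 2) (Fin 2) ℝ) : E3 →L[ℝ] E3 :=
  LinearMap.toContinuousLinearMap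
    { toFun := pull M
      map_add' := fun x y => by
        ext i
        fin_cases i <;> simp [pull] <;> ring
      map_smul' := fun c x => by
        ext i
        fin_cases i <;> simp [pull] <;> ring }

theorem deriv3 {f : ℝ → E3} {f' : E3} {s : ℝ}
    (hf : ∀ i, HasDerivAt (fun r => f r i) (f' i) s) : HasDerivAt f f' s := by
  rw [hasDerivAt_iff_hasFDerivAt, ← hasFDerivWithinAt_univ, hasFDerivWithinAt_euclidean]
  intro i
  rw [hasFDerivWithinAt_univ]
  refine (hf i).hasFDerivAt.congr_fderiv ?_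
  ext
  simp

theorem ham53 : StHAM := by
  rintro R D h ⟨hR0, hdet, hder⟩ ⟨hC, -, -⟩ p s u hg2 hcas
  have hdiff : HasFDerivAt h (fderiv ℝ h p) p := (hC.differentiable (by simp) p).hasFDerivAt
  obtain ⟨g, hg⟩ : ∃ g, g = gradient h p := ⟨_, rfl⟩
  rw [← hg] at hg2 hcas
  have hgv : ∀ v : E3, fderiv ℝ h p v = g 0 * v 0 + g 1 * v 1 + g 2 * v 2 := by
    intro v
    rw [← inner3, hg, gradient]
    exact (InnerProductSpace.toDual_symm_apply).symm
  have hd := hdet s
  rw [Matrix.det_fin_two] at hd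
  obtain ⟨ξ0, hξ0⟩ : ∃ ξ0 : E3, ξ0 = !₂[R s 1 1 * p 0 - R s 1 0 * p 1,
    R s 0 0 * p 1 - R s 0 1 * p 0, p 2] := ⟨_, rfl⟩
  have hpull : pull (R s) ξ0 = p := by
    rw [hξ0]
    ext i
    fin_cases i
    · simp [pull]
      linear_combination (p 0) * hd
    · simp [pull]
      linear_combination (p 1) * hd
    · simp [pull]
  obtain ⟨V, hV⟩ : ∃ V : E3, V = !₂[R s 0 0 * g 0 + R s 0 1 * g 1,
    R s 1 0 * g 0 + R s 1 1 * g 1, 0] := ⟨_, rfl⟩
  have hx2 : ∀ t : ℝ, (!₂[u 0, u 1, s] + t • V : E3) 2 = s := by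
    intro t
    rw [hV]
    simp
  refine ⟨fun t => !₂[u 0, u 1, s] + t • V, fun _ => ξ0, ?_, ?_, fun _ _ => rfl, fun t => ?_⟩
  · intro t
    refine ⟨?_, ?_⟩
    · have h1 : HasFDerivAt (fun ξ : E3 => h (pullL (R s) ξ))
          ((fderiv ℝ h p).comp (pullL (R s))) ξ0 := by
        refine HasFDerivAt.comp ξ0 ?_ (pullL (R s)).hasFDerivAt
        have : pullL (R s) ξ0 = p := hpull
        rw [this]
        exact hdiff
      have h2 : HSol R h (!₂[u 0, u 1, s] + t • V) = fun ξ : E3 => h (pullL (R s) ξ) := by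
        funext ξ
        unfold HSol
        rw [hx2]
        rfl
      have h3 : gradient (HSol R h (!₂[u 0, u 1, s] + t • V)) ξ0 = V := by
        rw [h2, gradient, h1.fderiv]
        refine ext_inner_right ℝ fun v => ?_
        rw [InnerProductSpace.toDual_symm_apply, ContinuousLinearMap.comp_apply]
        have : pullL (R s) v = pull (R s) v := rfl
        rw [this, hgv, inner3, hV, hg2]
        simp [pull]
        ring
      show HasDerivAt (fun t : ℝ => !₂[u 0, u 1, s] + t • V)
        (gradient (HSol R h (!₂[u 0, u 1, s] + t • V)) ξ0) t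
      rw [h3]
      have h4 : HasDerivAt (fun t : ℝ => t • V) ((1 : ℝ) • V) t :=
        (hasDerivAt_id t).smul_const V
      rw [one_smul] at h4
      exact h4.const_add _
    · obtain ⟨y0, hy0⟩ : ∃ y0 : E3, y0 = !₂[u 0, u 1, s] + t • V := ⟨_, rfl⟩
      have hy2 : y0 2 = s := by rw [hy0, hx2]
      have hφ : HasDerivAt (fun r : ℝ => pull (R r) ξ0)
          (!₂[D 0 0 * p 0 + D 1 0 * p 1, D 0 1 * p 0 + D 1 1 * p 1, 0] : E3) s := by
        refine deriv3 ?_
        have hp0 : R s 0 0 * ξ0 0 + R s 1 0 * ξ0 1 = p 0 := by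
          have := congrArg (fun z : E3 => z 0) hpull
          simpa [pull] using this
        have hp1 : R s 0 1 * ξ0 0 + R s 1 1 * ξ0 1 = p 1 := by
          have := congrArg (fun z : E3 => z 1) hpull
          simpa [pull] using this
        intro i
        fin_cases i
        · have h5 := ((hder s 0 0).mul_const (ξ0 0)).add ((hder s 1 0).mul_const (ξ0 1))
          have h6 : (R s * D) 0 0 * ξ0 0 + (R s * D) 1 0 * ξ0 1 =
              D 0 0 * p 0 + D 1 0 * p 1 := by
            rw [Matrix.mul_apply, Matrix.mul_apply, Fin.sum_univ_two, Fin.sum_univ_two]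
            linear_combination (D 0 0) * hp0 + (D 1 0) * hp1
          rw [h6] at h5
          have h7 : HasDerivAt (fun r => R r 0 0 * ξ0 0 + R r 1 0 * ξ0 1)
            (D 0 0 * p 0 + D 1 0 * p 1) s := h5
          simpa [pull] using h7
        · have h5 := ((hder s 0 1).mul_const (ξ0 0)).add ((hder s 1 1).mul_const (ξ0 1))
          have h6 : (R s * D) 0 1 * ξ0 0 + (R s * D) 1 1 * ξ0 1 =
              D 0 1 * p 0 + D 1 1 * p 1 := by
            rw [Matrix.mul_apply, Matrix.mul_apply, Fin.sum_univ_two, Fin.sum_univ_two]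
            linear_combination (D 0 1) * hp0 + (D 1 1) * hp1
          rw [h6] at h5
          have h7 : HasDerivAt (fun r => R r 0 1 * ξ0 0 + R r 1 1 * ξ0 1)
            (D 0 1 * p 0 + D 1 1 * p 1) s := h5
          simpa [pull] using h7
        · simpa [pull] using hasDerivAt_const s (ξ0 2)
      have hcomp : HasDerivAt (fun r : ℝ => h (pull (R r) ξ0)) 0 s := by
        have h7 : HasFDerivAt h (fderiv ℝ h p) (pull (R s) ξ0) := by rw [hpull]; exact hdiff
        have h8 := h7.comp_hasDerivAt s hφ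
        have h9 : fderiv ℝ h p (!₂[D 0 0 * p 0 + D 1 0 * p 1,
            D 0 1 * p 0 + D 1 1 * p 1, 0] : E3) = 0 := by
          rw [hgv]
          simp
          linarith
        rw [h9] at h8
        exact h8
      have hproj : HasFDerivAt (fun y : E3 => y 2) (EuclideanSpace.proj (𝕜 := ℝ) (2 : Fin 3)) y0 :=
        (EuclideanSpace.proj (𝕜 := ℝ) (2 : Fin 3) : E3 →L[ℝ] ℝ).hasFDerivAt
      have hfin : HasFDerivAt (fun y : E3 => HSol R h y ξ0) (0 : E3 →L[ℝ] ℝ) y0 := by
        have h10 : HasDerivAt (fun r : ℝ => h (pull (R r) ξ0)) 0 (y0 2) := by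
          rw [hy2]; exact hcomp
        have h11 := h10.comp_hasFDerivAt y0 hproj
        rw [zero_smul] at h11
        exact h11
      have hgr : gradient (fun y : E3 => HSol R h y ξ0) y0 = 0 := by
        rw [gradient, hfin.fderiv, map_zero]
      show HasDerivAt (fun _ : ℝ => ξ0) (-gradient (fun y : E3 => HSol R h y ξ0)
        (!₂[u 0, u 1, s] + t • V)) t
      rw [← hy0, hgr, neg_zero]
      exact hasDerivAt_const t ξ0
  · intro t
    show h (pull (R ((!₂[u 0, u 1, s] + t • V : E3) 2)) ξ0) = h p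
    rw [hx2, hpull]
  · show (!₂[u 0, u 1, s] + t • V : E3) = _
    rw [hV, hg]

end Pool.Agent.Lib.Hom.HAM53
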