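import Mathlib
import Pool.Agent.Lib.MP_fe6961_an.Hom10

/-!
Traceless real 2 x 2 matrices and their one-parameter groups (helper53): elliptic ones are
periodic, hyperbolic ones meet every hyperbolic conjugacy class of positive trace.
-/

namespace Pool.Agent.Lib.MP_fe6961_an.Hyp53

open Matrix Real

abbrev M2 := Matrix (Fin 2) (Fin 2) ℝ

/-- the square of a traceless matrix -/
theorem sq_eq (X : M2) (hX : X.trace = 0) : X * X = (-X.det) • (1 : M2) := by
  rw [Matrix.trace_fin_two] at hX
  have h : X 1 1 = -X 0 0 := by linarith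
  ext i j
  fin_cases i <;> fin_cases j <;>
    simp [Matrix.mul_apply, Fin.sum_univ_two, Matrix.det_fin_two, h] <;> ring

/-- the one-parameter group of a hyperbolic matrix -/
noncomputable def EH (X : M2) (t : ℝ) : M2 :=
  cosh (√(-X.det) * t) • (1 : M2) + (sinh (√(-X.det) * t) / √(-X.det)) • X

/-- the one-parameter group of an elliptic matrix -/
noncomputable def EE (X : M2) (t : ℝ) : M2 :=
  cos (√(X.det) * t) • (1 : M2) + (sin (√(X.det) * t) / √(X.det)) • X

theorem EH_zero (X : M2) : EH X 0 = 1 := by simp [EH]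

theorem EE_zero (X : M2) : EE X 0 = 1 := by simp [EE]

theorem EH_add (X : M2) (hX : X.trace = 0) (hd : X.det < 0) (s t : ℝ) :
    EH X (s + t) = EH X s * EH X t := by
  have ha : 0 < √(-X.det) := Real.sqrt_pos.2 (by linarith)
  have hsq : √(-X.det) * √(-X.det) = -X.det := Real.mul_self_sqrt (by linarith)
  unfold EH
  rw [mul_add, cosh_add, sinh_add, Matrix.add_mul, Matrix.mul_add, Matrix.mul_add]
  simp only [Matrix.smul_mul, Matrix.mul_smul, Matrix.one_mul, Matrix.mul_one, sq_eq X hX]
  generalize √(-X.det) = a at *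
  rw [← hsq]
  ext i j
  simp only [Matrix.add_apply, Matrix.smul_apply, smul_eq_mul]
  field_simp
  ring

theorem EE_add (X : M2) (hX : X.trace = 0) (hd : 0 < X.det) (s t : ℝ) :
    EE X (s + t) = EE X s * EE X t := by
  have ha : 0 < √(X.det) := Real.sqrt_pos.2 (by linarith)
  have hsq : √(X.det) * √(X.det) = X.det := Real.mul_self_sqrt (by linarith)
  unfold EE
  rw [mul_add, cos_add, sin_add, Matrix.add_mul, Matrix.mul_add, Matrix.mul_add]
  simp only [Matrix.smul_mul, Matrix.mul_smul, Matrix.one_mul, Matrix.mul_one, sq_eq X hX]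
  generalize √(X.det) = a at *
  rw [← hsq]
  ext i j
  simp only [Matrix.add_apply, Matrix.smul_apply, smul_eq_mul]
  field_simp
  ring

/-- periodicity in the elliptic case -/
theorem EE_period (X : M2) (hd : 0 < X.det) : EE X (2 * π / √(X.det)) = 1 := by
  have ha : 0 < √(X.det) := Real.sqrt_pos.2 (by linarith)
  have h : √(X.det) * (2 * π / √(X.det)) = 2 * π := by field_simp
  unfold EE
  rw [h, cos_two_pi, sin_two_pi]
  simp

theorem EH_det (X : M2) (hX : X.trace = 0) (hd : X.det < 0) (t : ℝ) : (EH X t).det = 1 := by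
  have ha : 0 < √(-X.det) := Real.sqrt_pos.2 (by linarith)
  have hsq : √(-X.det) * √(-X.det) = -X.det := Real.mul_self_sqrt (by linarith)
  have hch := cosh_sq' (√(-X.det) * t)
  unfold EH
  generalize √(-X.det) = a at *
  rw [Matrix.trace_fin_two] at hX
  have h : X 1 1 = -X 0 0 := by linarith
  rw [Matrix.det_fin_two] at hsq ⊢
  simp only [Matrix.add_apply, Matrix.smul_apply, smul_eq_mul, Matrix.one_apply_eq, h,
    Matrix.one_apply_ne (show (0 : Fin 2) ≠ 1 by decide),
    Matrix.one_apply_ne (show (1 : Fin 2) ≠ 0 by decide)] at hsq ⊢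
  have hs : (sinh (a * t) / a) ^ 2 * (a * a) = sinh (a * t) ^ 2 := by
    field_simp
  rw [hsq] at hs
  nlinarith

theorem EH_trace (X : M2) (hX : X.trace = 0) (t : ℝ) :
    (EH X t).trace = 2 * cosh (√(-X.det) * t) := by
  unfold EH
  rw [Matrix.trace_add, Matrix.trace_smul, Matrix.trace_smul, hX]
  simp [Matrix.trace_one]
  ring

/-- a non-scalar matrix has a cyclic vector -/
theorem cyclic (A : M2) (hA : ∀ c : ℝ, A ≠ c • (1 : M2)) :
    ∃ x y : ℝ, x * (A 1 0 * x + A 1 1 * y) - y * (A 0 0 * x + A 0 1 * y) ≠ 0 := by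
  by_contra h
  push Not at h
  have h1 := h 1 0
  have h2 := h 0 1
  have h3 := h 1 1
  refine hA (A 0 0) ?_
  ext i j
  fin_cases i <;> fin_cases j <;> simp <;> linarith

/-- two non-scalar unimodular matrices with the same trace are conjugate over `GL_2(R)` -/
theorem conj_gl (A B : M2) (hA : ∀ c : ℝ, A ≠ c • (1 : M2)) (hB : ∀ c : ℝ, B ≠ c • (1 : M2))
    (dA : A.det = 1) (dB : B.det = 1) (ht : A.trace = B.trace) :
    ∃ g : M2, g.det ≠ 0 ∧ g * A = B * g := by
  obtain ⟨x, y, hxy⟩ := cyclic A hA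
  obtain ⟨u, v, huv⟩ := cyclic B hB
  -- columns
  let P : M2 := !![x, A 0 0 * x + A 0 1 * y; y, A 1 0 * x + A 1 1 * y]
  let Q : M2 := !![u, B 0 0 * u + B 0 1 * v; v, B 1 0 * u + B 1 1 * v]
  have hP : P.det ≠ 0 := by
    intro h0
    apply hxy
    have h1 : P.det = x * (A 1 0 * x + A 1 1 * y) - (A 0 0 * x + A 0 1 * y) * y :=
      Matrix.det_fin_two_of _ _ _ _
    linarith
  have hQ : Q.det ≠ 0 := by
    intro h0
    apply huv
    have h1 : Q.det = u * (B 1 0 * u + B 1 1 * v) - (B 0 0 * u + B 0 1 * v) * v :=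
      Matrix.det_fin_two_of _ _ _ _
    linarith
  let C : M2 := !![0, -1; 1, A.trace]
  have hAP : A * P = P * C := by
    rw [Matrix.det_fin_two] at dA
    ext i j
    fin_cases i <;> fin_cases j <;>
      simp [P, C, Matrix.mul_apply, Fin.sum_univ_two, Matrix.trace_fin_two]
    · linear_combination (-x) * dA
    · linear_combination (-y) * dA
  have hBQ : B * Q = Q * C := by
    rw [Matrix.det_fin_two] at dB
    have hC : C = !![0, -1; 1, B.trace] := by simp only [C, ht]
    rw [hC]
    ext i j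
    fin_cases i <;> fin_cases j <;>
      simp [Q, Matrix.mul_apply, Fin.sum_univ_two, Matrix.trace_fin_two]
    · linear_combination (-u) * dB
    · linear_combination (-v) * dB
  have hPu : IsUnit P.det := isUnit_iff_ne_zero.2 hP
  refine ⟨Q * P⁻¹, ?_, ?_⟩
  · rw [Matrix.det_mul, Matrix.det_nonsing_inv]
    simp only [Ring.inverse_eq_inv']
    exact mul_ne_zero hQ (inv_ne_zero hP)
  · have h1 : P⁻¹ * A = C * P⁻¹ := by
      calc P⁻¹ * A = P⁻¹ * (A * P) * P⁻¹ := by
            rw [Matrix.mul_assoc, Matrix.mul_assoc, Matrix.mul_nonsing_inv P hPu, Matrix.mul_one]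
        _ = P⁻¹ * (P * C) * P⁻¹ := by rw [hAP]
        _ = C * P⁻¹ := by
            rw [← Matrix.mul_assoc P⁻¹ P C, Matrix.nonsing_inv_mul P hPu, Matrix.one_mul]
    rw [Matrix.mul_assoc, h1, ← Matrix.mul_assoc, ← hBQ, Matrix.mul_assoc]

/-- HYP: the one-parameter group of a hyperbolic matrix meets the conjugacy class of every
unimodular matrix of trace larger than 2 -/
theorem hyp (X : M2) (hX : X.trace = 0) (hd : X.det < 0) (B : M2) (dB : B.det = 1)
    (ht : 2 < B.trace) : ∃ T > 0, ∃ g : M2, g.det = 1 ∧ g * EH X T = B * g := by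
  have ha : 0 < √(-X.det) := Real.sqrt_pos.2 (by linarith)
  obtain ⟨T, hT, hc⟩ : ∃ T > 0, 2 * cosh (√(-X.det) * T) = B.trace := by
    have hc1 : 1 < B.trace / 2 := by linarith
    refine ⟨arcosh (B.trace / 2) / √(-X.det), ?_, ?_⟩
    · exact div_pos (Real.arcosh_pos hc1) ha
    · rw [mul_div_cancel₀ _ ha.ne', Real.cosh_arcosh hc1.le]
      ring
  have hne : ∀ c : ℝ, EH X T ≠ c • (1 : M2) := by
    intro c h
    have h1 := EH_trace X hX T
    have h2 := EH_det X hX hd T
    rw [h] at h1 h2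
    rw [hc] at h1
    have h3 : 2 < c * 2 := by
      have h4 : (c • (1 : M2)).trace = c * 2 := by
        rw [Matrix.trace_smul, Matrix.trace_one]
        simp
      rw [h4] at h1
      rw [h1]
      exact ht
    simp at h2
    rcases h2 with h2 | h2 <;> rw [h2] at h3 <;> norm_num at h3
  have hneB : ∀ c : ℝ, B ≠ c • (1 : M2) := by
    intro c h
    have h3 : 2 < c * 2 := by
      have h4 : (c • (1 : M2)).trace = c * 2 := by
        rw [Matrix.trace_smul, Matrix.trace_one]
        simp
      rw [h, h4] at ht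
      exact ht
    rw [h] at dB
    simp at dB
    rcases dB with h2 | h2 <;> rw [h2] at h3 <;> norm_num at h3
  obtain ⟨g, hg0, hg⟩ := conj_gl (EH X T) B hne hneB (EH_det X hX hd T) dB
    ((EH_trace X hX T).trans hc)
  -- positive determinant
  have hcomm : X * EH X T = EH X T * X := by
    unfold EH
    simp only [Matrix.mul_add, Matrix.add_mul, Matrix.smul_mul, Matrix.mul_smul, Matrix.one_mul,
      Matrix.mul_one]
  obtain ⟨h, hh0, hh⟩ : ∃ h : M2, 0 < h.det ∧ h * EH X T = B * h := by
    rcases lt_or_gt_of_ne hg0 with hneg | hpos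
    · refine ⟨g * X, ?_, ?_⟩
      · rw [Matrix.det_mul]
        exact mul_pos_of_neg_of_neg hneg hd
      · rw [Matrix.mul_assoc, hcomm, ← Matrix.mul_assoc, hg, Matrix.mul_assoc]
    · exact ⟨g, hpos, hg⟩
  refine ⟨T, hT, (1 / √h.det) • h, ?_, ?_⟩
  · rw [Matrix.det_smul]
    have hs : 0 < √h.det := Real.sqrt_pos.2 hh0
    have hss : √h.det * √h.det = h.det := Real.mul_self_sqrt hh0.le
    simp only [Fintype.card_fin]
    field_simp
    nlinarith
  · rw [Matrix.smul_mul, hh, Matrix.mul_smul]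

theorem EH_deriv (X : M2) (hX : X.trace = 0) (hd : X.det < 0) (t : ℝ) (i j : Fin 2) :
    HasDerivAt (fun t => EH X t i j) ((EH X t * X) i j) t := by
  have ha : 0 < √(-X.det) := Real.sqrt_pos.2 (by linarith)
  have hsq : √(-X.det) * √(-X.det) = -X.det := Real.mul_self_sqrt (by linarith)
  have h1 : EH X t * X = cosh (√(-X.det) * t) • X +
      (sinh (√(-X.det) * t) / √(-X.det) * (√(-X.det) * √(-X.det))) • (1 : M2) := by
    unfold EH
    rw [Matrix.add_mul, Matrix.smul_mul, Matrix.smul_mul, Matrix.one_mul, sq_eq X hX, hsq,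
      smul_smul]
  rw [h1]
  unfold EH
  generalize √(-X.det) = a at *
  have hlin : HasDerivAt (fun t : ℝ => a * t) a t := by
    simpa using (hasDerivAt_id t).const_mul a
  have hc := hlin.cosh
  have hs := hlin.sinh
  have h2 := (hc.mul_const ((1 : M2) i j)).add ((hs.div_const a).mul_const (X i j))
  simp only [Matrix.add_apply, Matrix.smul_apply, smul_eq_mul]
  refine h2.congr_deriv ?_
  field_simp
  ring

theorem EE_deriv (X : M2) (hX : X.trace = 0) (hd : 0 < X.det) (t : ℝ) (i j : Fin 2) :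
    HasDerivAt (fun t => EE X t i j) ((EE X t * X) i j) t := by
  have ha : 0 < √(X.det) := Real.sqrt_pos.2 (by linarith)
  have hsq : √(X.det) * √(X.det) = X.det := Real.mul_self_sqrt (by linarith)
  have h1 : EE X t * X = cos (√(X.det) * t) • X +
      (sin (√(X.det) * t) / √(X.det) * (-(√(X.det) * √(X.det)))) • (1 : M2) := by
    unfold EE
    rw [Matrix.add_mul, Matrix.smul_mul, Matrix.smul_mul, Matrix.one_mul, sq_eq X hX, hsq,
      smul_smul]
  rw [h1]
  unfold EE
  generalize √(X.det) = a at *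
  have hlin : HasDerivAt (fun t : ℝ => a * t) a t := by
    simpa using (hasDerivAt_id t).const_mul a
  have hc := hlin.cos
  have hs := hlin.sin
  have h2 := (hc.mul_const ((1 : M2) i j)).add ((hs.div_const a).mul_const (X i j))
  simp only [Matrix.add_apply, Matrix.smul_apply, smul_eq_mul]
  refine h2.congr_deriv ?_
  field_simp
  ring

theorem EE_det (X : M2) (hX : X.trace = 0) (hd : 0 < X.det) (t : ℝ) : (EE X t).det = 1 := by
  have ha : 0 < √(X.det) := Real.sqrt_pos.2 (by linarith)
  have hsq : √(X.det) * √(X.det) = X.det := Real.mul_self_sqrt (by linarith)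
  have hch := sin_sq_add_cos_sq (√(X.det) * t)
  unfold EE
  generalize √(X.det) = a at *
  rw [Matrix.trace_fin_two] at hX
  have h : X 1 1 = -X 0 0 := by linarith
  rw [Matrix.det_fin_two] at hsq ⊢
  simp only [Matrix.add_apply, Matrix.smul_apply, smul_eq_mul, Matrix.one_apply_eq, h,
    Matrix.one_apply_ne (show (0 : Fin 2) ≠ 1 by decide),
    Matrix.one_apply_ne (show (1 : Fin 2) ≠ 0 by decide)] at hsq ⊢
  have hs : (sin (a * t) / a) ^ 2 * (a * a) = sin (a * t) ^ 2 := by
    field_simp
  rw [hsq] at hs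
  nlinarith

/-- row HYP -/
theorem hyp53 : Hom.StHYP := by
  intro v γ dγ tγ hv
  have hX : (Hom.X v).trace = 0 := by
    rw [Matrix.trace_fin_two]
    simp [Hom.X]
  generalize Hom.X v = Y at *
  rcases lt_or_gt_of_ne hv with hneg | hpos
  · obtain ⟨T, hT, g, hg, hgT⟩ := hyp Y hX hneg γ dγ tγ
    refine ⟨fun t => g * EH Y t, T, hT, fun t => ?_, fun t i j => ?_, Or.inl fun t => ?_⟩
    · rw [Matrix.det_mul, hg, EH_det Y hX hneg, one_mul]
    · have h1 := ((EH_deriv Y hX hneg t 0 j).const_mul (g i 0)).add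
        ((EH_deriv Y hX hneg t 1 j).const_mul (g i 1))
      have h2 : (fun t => (g * EH Y t) i j) =
          fun t => g i 0 * EH Y t 0 j + g i 1 * EH Y t 1 j := by
        funext t
        rw [Matrix.mul_apply, Fin.sum_univ_two]
      have h3 : (g * EH Y t * Y) i j = g i 0 * (EH Y t * Y) 0 j + g i 1 * (EH Y t * Y) 1 j := by
        rw [Matrix.mul_assoc, Matrix.mul_apply, Fin.sum_univ_two]
      show HasDerivAt (fun t => (g * EH Y t) i j) ((g * EH Y t * Y) i j) t
      rw [h2, h3]
      exact h1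
    · show g * EH Y (t + T) = γ * (g * EH Y t)
      rw [add_comm, EH_add Y hX hneg, ← Matrix.mul_assoc, hgT, Matrix.mul_assoc]
  · refine ⟨EE Y, 2 * π / √(Y.det), ?_, EE_det Y hX hpos, EE_deriv Y hX hpos,
      Or.inr fun t => ?_⟩
    · have : 0 < √(Y.det) := Real.sqrt_pos.2 hpos
      positivity
    · rw [EE_add Y hX hpos, EE_period Y hpos, Matrix.mul_one]

end Pool.Agent.Lib.MP_fe6961_an.Hyp53
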