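import Pool.Agent.Lib.MP_fe6961_an.TorN53

/-! Mapping tori of all linear automorphisms of the torus: row KEY (helper81). -/

open Filter Matrix

namespace Pool.Agent.Lib.TorN

namespace K81

/-- the integer matrix as a real one -/
noncomputable def R {n : ℕ} (M : Matrix (Fin n) (Fin n) ℤ) : Matrix (Fin n) (Fin n) ℝ :=
  (Int.castRingHom ℝ).mapMatrix M

theorem R_mul {n : ℕ} (M N : Matrix (Fin n) (Fin n) ℤ) : R (M * N) = R M * R N := by
  unfold R
  exact map_mul _ _ _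

theorem R_apply {n : ℕ} (M : Matrix (Fin n) (Fin n) ℤ) (i j : Fin n) :
    R M i j = (M i j : ℝ) := rfl

theorem sum_eq {n : ℕ} (M : Matrix (Fin n) (Fin n) ℤ) (w : Fin n → ℤ) (q : Fin n → ℝ) :
    ∑ i, (w i : ℝ) * ((R M)ᵀ *ᵥ q) i = ∑ k, (((M *ᵥ w) k : ℤ) : ℝ) * q k := by
  simp only [Matrix.mulVec, dotProduct, Matrix.transpose_apply, R_apply, Finset.mul_sum,
    Int.cast_sum, Int.cast_mul, Finset.sum_mul]
  rw [Finset.sum_comm]
  refine Finset.sum_congr rfl fun k _ => Finset.sum_congr rfl fun i _ => ?_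
  ring

theorem push {n : ℕ} {O : Set (EN n)} {p : EN n} {ε : ℝ} (hε : 0 < ε)
    (hO : Metric.ball p ε ⊆ O) (u : EN n) (c : ℝ) (h : ∀ η ∈ O, inner ℝ u η ≤ c) :
    inner ℝ u p ≤ c - ε / 2 * ‖u‖ := by
  have hp := h p (hO (Metric.mem_ball_self hε))
  by_cases hu : u = 0
  · subst hu
    simpa using hp
  · have hn : 0 < ‖u‖ := norm_pos_iff.2 hu
    have h1 : p + (ε / 2 / ‖u‖) • u ∈ O := by
      apply hO
      rw [Metric.mem_ball, dist_eq_norm, add_sub_cancel_left, norm_smul, Real.norm_eq_abs,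
        abs_of_pos (by positivity), div_mul_cancel₀ _ hn.ne']
      linarith
    have h2 := h _ h1
    rw [inner_add_right, inner_smul_right, real_inner_self_eq_norm_sq] at h2
    have h3 : ε / 2 / ‖u‖ * ‖u‖ ^ 2 = ε / 2 * ‖u‖ := by
      field_simp
    rw [h3] at h2
    linarith

theorem bot {n : ℕ} {O : Set (EN n)} {p : EN n} {ε : ℝ} (hε : 0 < ε)
    (hO : Metric.ball p ε ⊆ O) (u : ℕ → EN n) (c : ℝ)
    (h : ∀ j : ℕ, 0 < j → ∀ η ∈ O, inner ℝ (u j) η ≤ c)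
    (hu : Tendsto (fun j => ‖u j‖) atTop atTop) :
    Tendsto (fun j => inner ℝ (u j) p) atTop atBot := by
  have h1 : Tendsto (fun j => c - ε / 2 * ‖u j‖) atTop atBot := by
    have h2 : Tendsto (fun j => ε / 2 * ‖u j‖) atTop atTop :=
      hu.const_mul_atTop (by positivity)
    have h3 := tendsto_atBot_add_const_left atTop c (tendsto_neg_atTop_atBot.comp h2)
    refine h3.congr fun j => ?_
    simp only [Function.comp]
    ring
  refine tendsto_atBot_mono' atTop ?_ h1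
  filter_upwards [eventually_gt_atTop 0] with j hj
  exact push hε hO _ _ (h j hj)

end K81

open K81

theorem key81 : StDIR → StGROW → StPUL → StKEY := by
  intro hDIR hGROW hPUL n B hn hdet hB O hO hne C
  obtain ⟨-, -, -, inn, -⟩ := hPUL n
  obtain ⟨p, hp⟩ := hne
  obtain ⟨ε, hε, hball⟩ := Metric.isOpen_iff.1 hO p hp
  have hBB : B * B⁻¹ = 1 := Matrix.mul_nonsing_inv B hdet
  have hBB' : B⁻¹ * B = 1 := Matrix.nonsing_inv_mul B hdet
  have hdet' : IsUnit (B⁻¹).det := by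
    have h1 : B.det * (B⁻¹).det = 1 := by rw [← Matrix.det_mul, hBB, Matrix.det_one]
    exact IsUnit.of_mul_eq_one_right _ h1
  have hcomm : Commute B B⁻¹ := by
    unfold Commute SemiconjBy
    rw [hBB, hBB']
  have hpow : ∀ m : ℕ, B ^ m * B⁻¹ ^ m = 1 := by
    intro m
    rw [← hcomm.mul_pow, hBB, one_pow]
  have hB' : ∀ w : Fin n → ℤ, w ≠ 0 → ∀ m : ℕ, 0 < m → (B⁻¹ ^ m) *ᵥ w ≠ w := by
    intro w hw m hm h
    apply hB w hw m hm
    have h1 : (B ^ m) *ᵥ ((B⁻¹ ^ m) *ᵥ w) = w := by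
      rw [Matrix.mulVec_mulVec, hpow, Matrix.one_mulVec]
    rwa [h] at h1
  by_contra hcon
  push Not at hcon
  -- one end of the orbit of every integer vector is bounded above
  have hPQ : ∀ w : Fin n → ℤ, w ≠ 0 →
      Tendsto (fun j : ℕ => inner ℝ (iv ((B⁻¹ ^ j) *ᵥ w)) p) atTop atBot ∨
      Tendsto (fun j : ℕ => inner ℝ (iv ((B ^ j) *ᵥ w)) p) atTop atBot := by
    intro w hw
    by_cases h : ∃ j : ℕ, 0 < j ∧ ∃ η ∈ O, C w < inner ℝ (iv ((B⁻¹ ^ j) *ᵥ w)) η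
    · right
      exact bot hε hball _ (C w) (fun j hj η hη => hcon w hw h j hj η hη)
        (hGROW n B hdet hB w hw)
    · left
      push Not at h
      exact bot hε hball _ (C w) (fun j hj η hη => h j hj η hη)
        (hGROW n B⁻¹ hdet' hB' w hw)
  set q : Fin n → ℝ := fun i => p (Fin.castSucc i) with hq
  have hsum : ∀ (M : Matrix (Fin n) (Fin n) ℤ) (w : Fin n → ℤ),
      inner ℝ (iv (M *ᵥ w)) p = ∑ i, (w i : ℝ) * ((R M)ᵀ *ᵥ q) i := by
    intro M w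
    rw [inn, sum_eq]
  have hneg : ∀ (M : Matrix (Fin n) (Fin n) ℤ) (w : Fin n → ℤ),
      inner ℝ (iv (M *ᵥ (-w))) p = -inner ℝ (iv (M *ᵥ w)) p := by
    intro M w
    rw [hsum, hsum, ← Finset.sum_neg_distrib]
    refine Finset.sum_congr rfl fun i _ => ?_
    simp
  refine hDIR n (R B⁻¹)ᵀ (fun j => (R (B⁻¹ ^ j))ᵀ *ᵥ q) (fun j => (R (B ^ j))ᵀ *ᵥ q) hn ?_ ?_ ?_ ?_
  · intro x hx
    by_contra hx0
    have h1 : ((R B⁻¹)ᵀ - 1) *ᵥ x = 0 := by
      rw [Matrix.sub_mulVec, hx, Matrix.one_mulVec, sub_self]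
    have h2 : ((R B⁻¹)ᵀ - 1).det = 0 := Matrix.exists_mulVec_eq_zero_iff.1 ⟨x, hx0, h1⟩
    have h3 : ((R B⁻¹)ᵀ - 1) = (R (B⁻¹ - 1))ᵀ := by
      unfold R
      rw [map_sub, map_one, Matrix.transpose_sub, Matrix.transpose_one]
    rw [h3, Matrix.det_transpose] at h2
    have h4 : (R (B⁻¹ - 1)).det = (((B⁻¹ - 1).det : ℤ) : ℝ) := by
      unfold R
      rw [← RingHom.map_det]
      rfl
    rw [h4] at h2
    have h5 : (B⁻¹ - 1).det = 0 := by exact_mod_cast h2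
    obtain ⟨w, hw, h6⟩ := Matrix.exists_mulVec_eq_zero_iff.2 h5
    rw [Matrix.sub_mulVec, Matrix.one_mulVec, sub_eq_zero] at h6
    exact hB' w hw 1 one_pos (by rw [pow_one]; exact h6)
  · intro j
    rw [pow_succ, R_mul, Matrix.transpose_mul, Matrix.mulVec_mulVec]
  · intro j
    rw [Matrix.mulVec_mulVec, ← Matrix.transpose_mul, ← R_mul, pow_succ, mul_assoc, hBB, mul_one]
  · intro w hw
    have e1 : ∀ j : ℕ, ∑ i, (w i : ℝ) * ((R (B⁻¹ ^ j))ᵀ *ᵥ q) i =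
        inner ℝ (iv ((B⁻¹ ^ j) *ᵥ w)) p := fun j => (hsum _ _).symm
    have e2 : ∀ j : ℕ, ∑ i, (w i : ℝ) * ((R (B ^ j))ᵀ *ᵥ q) i =
        inner ℝ (iv ((B ^ j) *ᵥ w)) p := fun j => (hsum _ _).symm
    simp only [e1, e2]
    have hw' : -w ≠ 0 := neg_ne_zero.2 hw
    have t1 := hPQ w hw
    have t2 := hPQ (-w) hw'
    simp only [hneg] at t2
    have t3 : Tendsto (fun j : ℕ => inner ℝ (iv ((B⁻¹ ^ j) *ᵥ w)) p) atTop atTop ∨
        Tendsto (fun j : ℕ => inner ℝ (iv ((B ^ j) *ᵥ w)) p) atTop atTop := by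
      rcases t2 with t | t
      · left
        exact (tendsto_neg_atBot_atTop.comp t).congr fun j => neg_neg _
      · right
        exact (tendsto_neg_atBot_atTop.comp t).congr fun j => neg_neg _
    rcases t1 with t1 | t1 <;> rcases t3 with t3 | t3
    · exact absurd t3 (t1.not_tendsto (disjoint_atBot_atTop))
    · exact Or.inr ⟨t1, t3⟩
    · exact Or.inl ⟨t3, t1⟩
    · exact absurd t3 (t1.not_tendsto (disjoint_atBot_atTop))

end Pool.Agent.Lib.TorN
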