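import Pool.Agent.Lib.MP_fe6961_an.PUL95

/-! Torus bundles of every dimension, row KEY: the integer vector whose support function has an
interior minimum. -/

open Filter Matrix

namespace Pool.Agent.Lib.TorN

theorem key95 (hDIR : StDIR) (hGROW : StGROW) (hPUL : StPUL) : StKEY := by
  intro n B hn hB hfix O hO hOn C
  by_contra hcon
  obtain ⟨h1, h2, h3, h4, -⟩ := hPUL n
  obtain ⟨p0, hp0⟩ := hOn
  obtain ⟨ε, hε, hball⟩ := Metric.isOpen_iff.mp hO p0 hp0
  have hη : ∀ w' : Fin n → ℤ, ∃ η ∈ O,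
      inner ℝ (iv w') η = inner ℝ (iv w') p0 + ε / 2 * ‖iv w'‖ := by
    intro w'
    by_cases h0 : iv w' = 0
    · exact ⟨p0, hp0, by rw [h0]; simp⟩
    · have hn0 : ‖iv w'‖ ≠ 0 := norm_ne_zero_iff.mpr h0
      refine ⟨p0 + (ε / 2 / ‖iv w'‖) • iv w', hball ?_, ?_⟩
      · rw [Metric.mem_ball, dist_eq_norm, add_sub_cancel_left, norm_smul,
          Real.norm_of_nonneg (by positivity), div_mul_cancel₀ _ hn0]
        linarith
      · rw [inner_add_right, inner_smul_right, real_inner_self_eq_norm_sq]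
        field_simp
  have hdown : ∀ (M : ℕ → Fin n → ℤ) (c : ℝ),
      (∀ j, 0 < j → ∀ η ∈ O, inner ℝ (iv (M j)) η ≤ c) →
      Tendsto (fun j => ‖iv (M j)‖) atTop atTop →
      Tendsto (fun j => inner ℝ (iv (M j)) p0) atTop atBot := by
    intro M c hc hM
    have e1 : Tendsto (fun j => ε / 2 * ‖iv (M j)‖) atTop atTop :=
      hM.const_mul_atTop (by positivity)
    have e : Tendsto (fun j => c + -(ε / 2 * ‖iv (M j)‖)) atTop atBot :=
      tendsto_atBot_add_const_left atTop c (tendsto_neg_atTop_atBot.comp e1)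
    refine tendsto_atBot_mono' atTop ?_ e
    filter_upwards [eventually_gt_atTop 0] with j hj
    obtain ⟨η, hη1, hη2⟩ := hη (M j)
    have h := hc j hj η hη1
    rw [hη2] at h
    linarith
  have hBB : B * B⁻¹ = 1 := Matrix.mul_nonsing_inv B hB
  have hBB' : B⁻¹ * B = 1 := Matrix.nonsing_inv_mul B hB
  have hpow : ∀ m : ℕ, B ^ m * B⁻¹ ^ m = 1 := by
    intro m
    have hc : Commute B B⁻¹ := by
      show B * B⁻¹ = B⁻¹ * B
      rw [hBB, hBB']
    rw [← hc.mul_pow, hBB, one_pow]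
  have hfix' : ∀ w : Fin n → ℤ, w ≠ 0 → ∀ m : ℕ, 0 < m → (B⁻¹ ^ m) *ᵥ w ≠ w := by
    intro w hw m hm h
    apply hfix w hw m hm
    have h' : (B ^ m) *ᵥ ((B⁻¹ ^ m) *ᵥ w) = w := by
      rw [Matrix.mulVec_mulVec, hpow, Matrix.one_mulVec]
    rwa [h] at h'
  have hg := hGROW n B hB hfix
  have hg' := hGROW n B⁻¹ (Matrix.isUnit_nonsing_inv_det B hB) hfix'
  have hneg : ∀ (M : Matrix (Fin n) (Fin n) ℤ) (w : Fin n → ℤ),
      inner ℝ (iv (M *ᵥ (-w))) p0 = -inner ℝ (iv (M *ᵥ w)) p0 := by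
    intro M w
    rw [h4, h4, Matrix.mulVec_neg, ← Finset.sum_neg_distrib]
    refine Finset.sum_congr rfl fun i _ => ?_
    rw [Pi.neg_apply]
    push_cast
    ring
  have hPQ : ∀ w : Fin n → ℤ, w ≠ 0 →
      Tendsto (fun j : ℕ => inner ℝ (iv ((B⁻¹ ^ j) *ᵥ w)) p0) atTop atBot ∨
      Tendsto (fun j : ℕ => inner ℝ (iv ((B ^ j) *ᵥ w)) p0) atTop atBot := by
    intro w hw
    by_cases hw1 : ∃ j : ℕ, 0 < j ∧ ∃ η ∈ O, C w < inner ℝ (iv ((B⁻¹ ^ j) *ᵥ w)) η
    · right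
      refine hdown (fun j => (B ^ j) *ᵥ w) (C w) (fun j hj η hη => ?_) (hg w hw)
      by_contra hlt
      exact hcon ⟨w, hw, hw1, j, hj, η, hη, not_le.mp hlt⟩
    · left
      refine hdown (fun j => (B⁻¹ ^ j) *ᵥ w) (C w) (fun j hj η hη => ?_) (hg' w hw)
      by_contra hlt
      exact hw1 ⟨j, hj, η, hη, not_le.mp hlt⟩
  have hup : ∀ (M : ℕ → Matrix (Fin n) (Fin n) ℤ) (w : Fin n → ℤ),
      Tendsto (fun j : ℕ => inner ℝ (iv ((M j) *ᵥ (-w))) p0) atTop atBot →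
      Tendsto (fun j : ℕ => inner ℝ (iv ((M j) *ᵥ w)) p0) atTop atTop := by
    intro M w h
    have h' := tendsto_neg_atBot_atTop.comp h
    refine h'.congr fun j => ?_
    show -inner ℝ (iv ((M j) *ᵥ (-w))) p0 = _
    rw [hneg, neg_neg]
  have hnot : ∀ f : ℕ → ℝ, Tendsto f atTop atBot → Tendsto f atTop atTop → False := by
    intro f ha hb
    obtain ⟨j, hj1, hj2⟩ :=
      ((ha.eventually (eventually_lt_atBot 0)).and (hb.eventually (eventually_gt_atTop 0))).exists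
    linarith
  have hAv : ∀ x : Fin n → ℝ, (B.map (fun z : ℤ => (z : ℝ)))ᵀ *ᵥ x = x → x = 0 := by
    have hdet : (B - 1).det ≠ 0 := by
      intro hd
      obtain ⟨w, hw, hw0⟩ := Matrix.exists_mulVec_eq_zero_iff.mpr hd
      apply hfix w hw 1 one_pos
      rw [Matrix.sub_mulVec, Matrix.one_mulVec, sub_eq_zero] at hw0
      rw [pow_one, hw0]
    intro x hx
    have hd : ((B.map (fun z : ℤ => (z : ℝ)))ᵀ - 1).det ≠ 0 := by
      have e : (B.map (fun z : ℤ => (z : ℝ)))ᵀ - 1 =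
          ((B - 1).map (fun z : ℤ => (z : ℝ)))ᵀ := by
        ext i j
        by_cases h : i = j
        · subst h
          simp
        · simp [Matrix.one_apply_ne h, Matrix.one_apply_ne (Ne.symm h)]
      rw [e, Matrix.det_transpose, ← Int.cast_det]
      exact_mod_cast hdet
    refine Matrix.eq_zero_of_mulVec_eq_zero hd ?_
    rw [Matrix.sub_mulVec, Matrix.one_mulVec, hx, sub_self]
  have hstep : ∀ ξ : EN n, (fun i : Fin n => pull B ξ (Fin.castSucc i)) =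
      (B.map (fun z : ℤ => (z : ℝ)))ᵀ *ᵥ fun i : Fin n => ξ (Fin.castSucc i) := by
    intro ξ
    funext i
    rw [pull_castSucc]
    rfl
  have hsum : ∀ (M : Matrix (Fin n) (Fin n) ℤ) (w : Fin n → ℤ),
      ∑ i, (w i : ℝ) * (fun i : Fin n => pull M p0 (Fin.castSucc i)) i =
        inner ℝ (iv (M *ᵥ w)) p0 := by
    intro M w
    rw [← h3, h4]
  refine hDIR n (B.map (fun z : ℤ => (z : ℝ)))ᵀ
    (fun j i => pull (B ^ j) p0 (Fin.castSucc i)) (fun j i => pull (B⁻¹ ^ j) p0 (Fin.castSucc i))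
    hn hAv ?_ ?_ ?_
  · intro j
    rw [← hstep, h2, ← pow_succ]
  · intro j
    rw [← hstep, h2]
    have e : B⁻¹ ^ (j + 1) * B = B⁻¹ ^ j := by
      rw [pow_succ, Matrix.mul_assoc, hBB', Matrix.mul_one]
    rw [e]
  · intro w hw
    have hw' : -w ≠ 0 := neg_ne_zero.mpr hw
    have e1 : (fun j : ℕ => ∑ i, (w i : ℝ) * (fun i : Fin n => pull (B ^ j) p0 (Fin.castSucc i)) i) =
        fun j : ℕ => inner ℝ (iv ((B ^ j) *ᵥ w)) p0 := funext fun j => hsum _ _
    have e2 : (fun j : ℕ =>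
        ∑ i, (w i : ℝ) * (fun i : Fin n => pull (B⁻¹ ^ j) p0 (Fin.castSucc i)) i) =
        fun j : ℕ => inner ℝ (iv ((B⁻¹ ^ j) *ᵥ w)) p0 := funext fun j => hsum _ _
    show (Tendsto (fun j : ℕ =>
        ∑ i, (w i : ℝ) * (fun i : Fin n => pull (B ^ j) p0 (Fin.castSucc i)) i) atTop atTop ∧
      Tendsto (fun j : ℕ =>
        ∑ i, (w i : ℝ) * (fun i : Fin n => pull (B⁻¹ ^ j) p0 (Fin.castSucc i)) i) atTop atBot) ∨
      (Tendsto (fun j : ℕ =>
        ∑ i, (w i : ℝ) * (fun i : Fin n => pull (B ^ j) p0 (Fin.castSucc i)) i) atTop atBot ∧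
      Tendsto (fun j : ℕ =>
        ∑ i, (w i : ℝ) * (fun i : Fin n => pull (B⁻¹ ^ j) p0 (Fin.castSucc i)) i) atTop atTop)
    rw [e1, e2]
    rcases hPQ w hw with h | h
    · left
      refine ⟨?_, h⟩
      rcases hPQ (-w) hw' with h' | h'
      · exact (hnot _ h (hup (fun j => B⁻¹ ^ j) w h')).elim
      · exact hup (fun j => B ^ j) w h'
    · right
      refine ⟨h, ?_⟩
      rcases hPQ (-w) hw' with h' | h'
      · exact hup (fun j => B⁻¹ ^ j) w h'
      · exact (hnot _ h (hup (fun j => B ^ j) w h')).elim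

end Pool.Agent.Lib.TorN
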