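import Pool.Agent.Lib.MP_fe6961_an.Tor10

/-! Rows LAG and MAX (helper45). -/

open Filter Matrix Topology

namespace Pool.Agent.Lib.Tor.L45

open Pool.Agent.Lib.Hom Pool.Agent.Lib.Tor

theorem lag45 : StLAG := by
  intro h hC v p k hv hp hmax
  have hl : IsLocalExtrOn (fun x : E3 => (innerSL ℝ v) x) {x | h x = h p} p := by
    refine Or.inr ?_
    refine IsMaxOn.localize ?_
    intro x hx
    have hx' : h x = h p := hx
    simpa using hmax x (by rw [hx', hp])
  have hd : HasStrictFDerivAt h (fderiv ℝ h p) p := (hC.contDiffAt).hasStrictFDerivAt (by norm_num)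
  obtain ⟨a, b, hab, h1⟩ := hl.exists_multipliers_of_hasStrictFDerivAt_1d hd
    (innerSL ℝ v).hasStrictFDerivAt
  have ha : a ≠ 0 := by
    intro ha
    have hb : b ≠ 0 := by
      intro hb
      exact hab (by rw [ha, hb]; rfl)
    have h2 := congrArg (fun L : E3 →L[ℝ] ℝ => L v) h1
    simp only [ha, zero_smul, zero_add, _root_.smul_apply, _root_.zero_apply, innerSL_apply_apply,
      smul_eq_mul] at h2
    rcases mul_eq_zero.1 h2 with h3 | h3
    · exact hb h3
    · exact hv (inner_self_eq_zero.1 h3)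
  refine ⟨-(b / a), ?_⟩
  have h3 : fderiv ℝ h p = (InnerProductSpace.toDual ℝ E3) ((-(b / a)) • v) := by
    ext x
    have h2 := congrArg (fun L : E3 →L[ℝ] ℝ => L x) h1
    simp only [_root_.add_apply, _root_.smul_apply, smul_eq_mul,
      _root_.zero_apply, innerSL_apply_apply] at h2
    rw [InnerProductSpace.toDual_apply_apply, inner_smul_left]
    simp only [conj_trivial]
    field_simp
    linarith
  unfold gradient
  rw [h3]
  simp

theorem max45 : StMAX := by
  intro H hT v hv k a b s p has hsb hle hmax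
  obtain ⟨hC, -, -⟩ := hT
  have hslice : ContDiff ℝ 1 (H s) := by
    have : H s = (fun z : ℝ × E3 => H z.1 z.2) ∘ fun q : E3 => (s, q) := rfl
    rw [this]
    exact hC.comp (contDiff_const.prodMk contDiff_id)
  have hk : H s p = k := by
    by_contra hne
    have hlt : H s p < k := lt_of_le_of_ne hle hne
    have hcont : Continuous (fun e : ℝ => H s (p + e • v)) :=
      hslice.continuous.comp (continuous_const.add (continuous_id.smul continuous_const))
    have h2 : ∀ᶠ e : ℝ in 𝓝 0, H s (p + e • v) < k := by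
      apply (hcont.tendsto 0).eventually_lt_const
      simpa using hlt
    have h4 : ∀ᶠ e : ℝ in 𝓝[>] 0, H s (p + e • v) < k := h2.filter_mono nhdsWithin_le_nhds
    obtain ⟨e, he1, he⟩ := (h4.and self_mem_nhdsWithin).exists
    have he : 0 < e := he
    have h5 := hmax s (p + e • v) has.le hsb.le he1.le
    rw [inner_add_right, inner_smul_right] at h5
    have h6 : 0 < inner ℝ v v := by
      rw [real_inner_self_eq_norm_sq]
      exact pow_pos (norm_pos_iff.2 hv) 2
    have h7 : 0 < e * inner ℝ v v := mul_pos he h6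
    linarith
  refine ⟨hk, ?_, lag45 (H s) hslice v p k hv hk (fun p' hp' => hmax s p' has.le hsb.le hp')⟩
  set f : ℝ × E3 → ℝ := fun z => H z.1 z.2 with hf
  set L : ℝ × E3 →L[ℝ] ℝ := (innerSL ℝ v).comp (ContinuousLinearMap.snd ℝ ℝ E3) with hL
  have hl : IsLocalExtrOn (fun z : ℝ × E3 => L z) {z | f z = f (s, p)} (s, p) := by
    refine Or.inr ?_
    have h1 : ∀ᶠ z : ℝ × E3 in 𝓝[{z | f z = f (s, p)}] (s, p), a < z.1 ∧ z.1 < b := by
      apply Filter.Eventually.filter_mono nhdsWithin_le_nhds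
      have h2 : Tendsto (fun z : ℝ × E3 => z.1) (𝓝 (s, p)) (𝓝 s) := continuous_fst.tendsto _
      exact (h2.eventually_const_lt has).and (h2.eventually_lt_const hsb)
    filter_upwards [h1, self_mem_nhdsWithin] with z hz hz2
    have hz3 : H z.1 z.2 = H s p := hz2
    have h3 := hmax z.1 z.2 hz.1.le hz.2.le (by rw [hz3, hk])
    simpa [hL] using h3
  have hd : HasStrictFDerivAt f (fderiv ℝ f (s, p)) (s, p) :=
    (hC.contDiffAt).hasStrictFDerivAt (by norm_num)
  obtain ⟨α, β, hab, h1⟩ := hl.exists_multipliers_of_hasStrictFDerivAt_1d hd L.hasStrictFDerivAt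
  have ha : α ≠ 0 := by
    intro ha
    have hb : β ≠ 0 := by
      intro hb
      exact hab (by rw [ha, hb]; rfl)
    have h2 := congrArg (fun M : ℝ × E3 →L[ℝ] ℝ => M (0, v)) h1
    have h2' : β * inner ℝ v v = 0 := by simpa [ha, hL] using h2
    rcases mul_eq_zero.1 h2' with h3 | h3
    · exact hb h3
    · exact hv (inner_self_eq_zero.1 h3)
  have h0 : fderiv ℝ f (s, p) (1, 0) = 0 := by
    have h2 := congrArg (fun M : ℝ × E3 →L[ℝ] ℝ => M (1, 0)) h1
    have h2' : α * fderiv ℝ f (s, p) (1, 0) = 0 := by simpa [hL] using h2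
    exact (mul_eq_zero.1 h2').resolve_left ha
  have hc : HasDerivAt (fun r : ℝ => (r, p)) ((1 : ℝ), (0 : E3)) s :=
    (hasDerivAt_id s).prodMk (hasDerivAt_const s p)
  have h5 := hd.hasFDerivAt.comp_hasDerivAt s hc
  rw [h0] at h5
  exact h5

end Pool.Agent.Lib.Tor.L45
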