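import Pool.Agent.Lib.MP_fe6961_an.Tor10

/-! Rows LAG and MAX (helper21). -/

open Filter Matrix Topology

namespace Pool.Agent.Lib.Tor

open Pool.Agent.Lib.Hom

theorem lag21 : StLAG := by
  intro h hh v p k hv hp hmax
  have hd : HasStrictFDerivAt h (fderiv ℝ h p) p :=
    hh.contDiffAt.hasStrictFDerivAt (by norm_num)
  have hφ : HasStrictFDerivAt (fun x : E3 => inner ℝ v x) (innerSL ℝ v) p :=
    (innerSL ℝ v).hasStrictFDerivAt
  have hext : IsLocalExtrOn (fun x : E3 => inner ℝ v x) {x | h x = h p} p := by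
    right
    refine Filter.eventually_of_mem self_mem_nhdsWithin ?_
    intro x hx
    exact hmax x (by rw [show h x = h p from hx, hp])
  obtain ⟨a, b, hab, h0⟩ := hext.exists_multipliers_of_hasStrictFDerivAt_1d hd hφ
  have hgr : ∀ u, inner ℝ (gradient h p) u = fderiv ℝ h p u := by
    intro u
    rw [gradient, InnerProductSpace.toDual_symm_apply]
  have hall : ∀ u, a * inner ℝ (gradient h p) u + b * inner ℝ v u = 0 := by
    intro u
    have := DFunLike.congr_fun h0 u
    rw [hgr]
    simpa using this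
  have ha : a ≠ 0 := by
    rintro rfl
    have hb : b ≠ 0 := by
      rintro rfl
      exact hab rfl
    have h1 := hall v
    rw [zero_mul, zero_add] at h1
    exact hv (inner_self_eq_zero.1 ((mul_eq_zero.1 h1).resolve_left hb))
  refine ⟨-(b / a), ?_⟩
  refine ext_inner_right ℝ fun u => ?_
  rw [inner_smul_left]
  have h1 := hall u
  have : inner ℝ (gradient h p) u = -(b / a) * inner ℝ v u := by
    field_simp
    linarith
  rw [this]
  simp

theorem lt_inc (H : ℝ → E3 → ℝ) (hH : Continuous fun z : ℝ × E3 => H z.1 z.2) (v : E3)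
    (hv : v ≠ 0) (k s : ℝ) (p : E3) (hlt : H s p < k) :
    ∃ p', H s p' ≤ k ∧ inner ℝ v p < inner ℝ v p' := by
  have hc : Continuous fun t : ℝ => H s (p + t • v) :=
    hH.comp (continuous_const.prodMk (continuous_const.add (continuous_id.smul continuous_const)))
  have h0 : H s (p + (0 : ℝ) • v) < k := by simpa using hlt
  have h1 : ∀ᶠ t in 𝓝 (0 : ℝ), H s (p + t • v) < k := (hc.tendsto 0).eventually_lt_const h0
  have h2 : ∀ᶠ t in 𝓝[>] (0 : ℝ), H s (p + t • v) < k := h1.filter_mono nhdsWithin_le_nhds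
  obtain ⟨t, ht, ht0⟩ := (h2.and self_mem_nhdsWithin).exists
  refine ⟨p + t • v, ht.le, ?_⟩
  rw [inner_add_right, inner_smul_right]
  have : 0 < inner ℝ v v := real_inner_self_pos.2 hv
  have ht1 : (0 : ℝ) < t := ht0
  nlinarith [mul_pos ht1 this]

theorem max21 : StMAX := by
  intro H hT v hv k a b s p has hsb hle hmax
  have hcont : Continuous fun z : ℝ × E3 => H z.1 z.2 := hT.1.continuous
  have key : ∀ r, a ≤ r → r ≤ b → ¬ H r p < k := by
    intro r h1 h2 h3
    obtain ⟨p', h4, h5⟩ := lt_inc H hcont v hv k r p h3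
    exact absurd (hmax r p' h1 h2 h4) (not_le.2 h5)
  have hk : H s p = k := le_antisymm hle (not_lt.1 (key s has.le hsb.le))
  refine ⟨hk, ?_, ?_⟩
  · have hdiff : DifferentiableAt ℝ (fun r => H r p) s := by
      have h1 : DifferentiableAt ℝ (fun z : ℝ × E3 => H z.1 z.2) (s, p) :=
        (hT.1.differentiable (by norm_num)).differentiableAt
      exact DifferentiableAt.comp (f := fun r : ℝ => (r, p)) s h1
        (differentiableAt_id.prodMk (differentiableAt_const p))
    have hmin : IsLocalMin (fun r => H r p) s := by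
      have h1 : ∀ᶠ r in 𝓝 s, r ∈ Set.Ioo a b := Ioo_mem_nhds has hsb
      filter_upwards [h1] with r hr
      rw [hk]
      exact not_lt.1 (key r hr.1.le hr.2.le)
    have := hmin.deriv_eq_zero
    rw [← this]
    exact hdiff.hasDerivAt
  · have hC : ContDiff ℝ 1 (H s) := by
      exact hT.1.comp (contDiff_const.prodMk contDiff_id)
    exact lag21 (H s) hC v p k hv hk fun p' hp' => hmax s p' has.le hsb.le hp'

end Pool.Agent.Lib.Tor
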