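import Mathlib
import Pool.Agent.Lib.MP_fe6961_an.TorN53

/-! Rows LAG, MAX (10), CORE (44), ATT (5) in every dimension. -/

open Filter Matrix Topology

open Pool.Agent.Lib.TorN

namespace Pool.Agent.Lib.TorN.LM10

variable {dim : ℕ}

lemma fderiv_eq_inner_grad (h : (EN dim) → ℝ) (p y : (EN dim)) :
    fderiv ℝ h p y = inner ℝ (gradient h p) y := by
  unfold gradient
  rw [← InnerProductSpace.toDual_apply_apply]
  simp

theorem lagN : StLAG := by
  intro dim h hh v p k hv hp hmax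
  have hd : HasStrictFDerivAt h (fderiv ℝ h p) p :=
    (hh.contDiffAt).hasStrictFDerivAt (by norm_num)
  have hφ : HasStrictFDerivAt (fun x : (EN dim) => inner ℝ v x) (innerSL ℝ v) p :=
    (innerSL ℝ v).hasStrictFDerivAt
  have hl : IsLocalExtrOn (fun x : (EN dim) => inner ℝ v x) {x | h x = h p} p := by
    right
    have : IsMaxOn (fun x : (EN dim) => inner ℝ v x) {x | h x = h p} p := by
      intro x hx
      exact hmax x (by rw [← hp]; exact le_of_eq hx)
    exact this.localize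
  obtain ⟨a, b, hab, h1⟩ := hl.exists_multipliers_of_hasStrictFDerivAt_1d hd hφ
  have key : ∀ y, a * inner ℝ (gradient h p) y + b * inner ℝ v y = 0 := by
    intro y
    have h2 := congrArg (fun L : (EN dim) →L[ℝ] ℝ => L y) h1
    have h3 : a * fderiv ℝ h p y + b * inner ℝ v y = 0 := h2
    rw [fderiv_eq_inner_grad] at h3
    exact h3
  have ha : a ≠ 0 := by
    intro ha
    have h2 := key v
    rw [ha, zero_mul, zero_add] at h2
    rcases mul_eq_zero.mp h2 with hb | hb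
    · exact hab (by rw [ha, hb]; rfl)
    · exact hv (inner_self_eq_zero.mp hb)
  refine ⟨-b / a, ?_⟩
  apply ext_inner_right ℝ
  intro y
  rw [inner_smul_left, conj_trivial]
  have := key y
  field_simp
  linarith

theorem maxN : StMAX := by
  intro dim H hT v hv k a b s p has hsb hle hmax
  obtain ⟨hC, -, -⟩ := hT
  let G : ℝ × (EN dim) → ℝ := fun z => H z.1 z.2
  have hk : H s p = k := by
    rcases lt_or_eq_of_le hle with hlt | h
    swap
    · exact h
    exfalso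
    have hc1 : Continuous (fun ε : ℝ => G (s, p + ε • v)) :=
      hC.continuous.comp (continuous_const.prodMk
        (continuous_const.add (continuous_id.smul continuous_const)))
    have ho : ∀ᶠ ε in 𝓝 (0 : ℝ), G (s, p + ε • v) < k := by
      apply (hc1.tendsto 0).eventually_lt_const
      simpa [G] using hlt
    have ho' : ∀ᶠ ε in 𝓝[>] (0 : ℝ), G (s, p + ε • v) < k := nhdsWithin_le_nhds ho
    obtain ⟨ε, hε, hε0⟩ := (ho'.and self_mem_nhdsWithin).exists
    have h3 := hmax s (p + ε • v) has.le hsb.le (le_of_lt hε)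
    rw [inner_add_right, inner_smul_right, real_inner_self_eq_norm_sq] at h3
    have hε0 : 0 < ε := hε0
    have h4 : 0 < ε * ‖v‖ ^ 2 := mul_pos hε0 (pow_pos (norm_pos_iff.mpr hv) 2)
    linarith
  have hd : HasStrictFDerivAt G (fderiv ℝ G (s, p)) (s, p) :=
    (hC.contDiffAt).hasStrictFDerivAt (by norm_num)
  let φ : ℝ × (EN dim) →L[ℝ] ℝ := (innerSL ℝ v).comp (ContinuousLinearMap.snd ℝ ℝ (EN dim))
  have hφ : HasStrictFDerivAt (fun z : ℝ × (EN dim) => φ z) φ (s, p) := φ.hasStrictFDerivAt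
  have hφa : ∀ z, φ z = inner ℝ v z.2 := fun z => rfl
  have hl : IsLocalExtrOn (fun z : ℝ × (EN dim) => φ z) {z | G z = G (s, p)} (s, p) := by
    right
    have h5 : ∀ᶠ z : ℝ × (EN dim) in 𝓝 (s, p), a < z.1 ∧ z.1 < b := by
      have c1 : Continuous (fun z : ℝ × (EN dim) => z.1) := continuous_fst
      exact ((c1.tendsto (s, p)).eventually_const_lt has).and
        ((c1.tendsto (s, p)).eventually_lt_const hsb)
    have h6 : ∀ᶠ z : ℝ × (EN dim) in 𝓝[{z | G z = G (s, p)}] (s, p), a < z.1 ∧ z.1 < b :=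
      nhdsWithin_le_nhds h5
    show ∀ᶠ z in 𝓝[{z | G z = G (s, p)}] (s, p), φ z ≤ φ (s, p)
    filter_upwards [h6, self_mem_nhdsWithin] with z hz hz2
    rw [hφa, hφa]
    refine hmax z.1 z.2 hz.1.le hz.2.le ?_
    have : H z.1 z.2 = H s p := hz2
    rw [this]; exact hle
  obtain ⟨c, d, hcd, h1⟩ := hl.exists_multipliers_of_hasStrictFDerivAt_1d hd hφ
  have hGs : HasDerivAt (fun r => H r p) (fderiv ℝ G (s, p) (1, 0)) s := by
    have e : HasDerivAt (fun r : ℝ => (r, p)) ((1 : ℝ), (0 : (EN dim))) s :=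
      (hasDerivAt_id s).prodMk (hasDerivAt_const s p)
    exact (hd.hasFDerivAt).comp_hasDerivAt s e
  have hGp : HasFDerivAt (H s) ((fderiv ℝ G (s, p)).comp (ContinuousLinearMap.inr ℝ ℝ (EN dim))) p := by
    have e : HasFDerivAt (fun q : (EN dim) => (s, q)) (ContinuousLinearMap.inr ℝ ℝ (EN dim)) p :=
      hasFDerivAt_prodMk_right s p
    exact (hd.hasFDerivAt).comp p e
  have key : ∀ z : ℝ × (EN dim), c * fderiv ℝ G (s, p) z + d * inner ℝ v z.2 = 0 := by
    intro z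
    have h2 := congrArg (fun L : ℝ × (EN dim) →L[ℝ] ℝ => L z) h1
    exact h2
  have hc : c ≠ 0 := by
    intro hc
    have h2 := key (0, v)
    rw [hc, zero_mul, zero_add] at h2
    rcases mul_eq_zero.mp h2 with hb | hb
    · exact hcd (by rw [hc, hb]; rfl)
    · exact hv (inner_self_eq_zero.mp hb)
  refine ⟨hk, ?_, -d / c, ?_⟩
  · have h2 := key (1, 0)
    rw [inner_zero_right, mul_zero, add_zero] at h2
    have h3 := (mul_eq_zero.mp h2).resolve_left hc
    rw [h3] at hGs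
    exact hGs
  · apply ext_inner_right ℝ
    intro y
    rw [← fderiv_eq_inner_grad, hGp.fderiv, inner_smul_left, conj_trivial]
    have h2 := key (0, y)
    have h3 : ((fderiv ℝ G (s, p)).comp (ContinuousLinearMap.inr ℝ ℝ (EN dim))) y
        = fderiv ℝ G (s, p) (0, y) := rfl
    rw [h3]
    have h2' : c * fderiv ℝ G (s, p) (0, y) + d * inner ℝ v y = 0 := h2
    field_simp
    linarith


variable {H : ℝ → EN dim → ℝ}

/-- the derivative in the first variable -/
noncomputable def dd (H : ℝ → (EN dim) → ℝ) (z : ℝ × (EN dim)) : ℝ :=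
  fderiv ℝ (fun z : ℝ × (EN dim) => H z.1 z.2) z (1, 0)

theorem dd_cont (hH : TonN H) : Continuous (dd H) :=
  (hH.1.continuous_fderiv one_ne_zero).clm_apply continuous_const

theorem dd_deriv (hH : TonN H) (s : ℝ) (p : (EN dim)) : HasDerivAt (fun r => H r p) (dd H (s, p)) s := by
  have h1 : HasFDerivAt (fun z : ℝ × (EN dim) => H z.1 z.2)
      (fderiv ℝ (fun z : ℝ × (EN dim) => H z.1 z.2) (s, p)) (s, p) :=
    (hH.1.differentiable one_ne_zero (s, p)).hasFDerivAt
  have h2 : HasDerivAt (fun r : ℝ => (r, p)) ((1 : ℝ), (0 : (EN dim))) s :=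
    (hasDerivAt_id s).prodMk (hasDerivAt_const s p)
  exact h1.comp_hasDerivAt s h2

theorem side (hH : TonN H) (v : (EN dim)) (M k s0 σ : ℝ)
    (h : ∀ n : ℕ, ∃ (θ s : ℝ) (p : (EN dim)), |θ - s0| ≤ 1 / ((n : ℝ) + 1) ∧
      |s - s0| ≤ 1 / ((n : ℝ) + 1) ∧ H s p ≤ k ∧ M ≤ inner ℝ v p ∧ 0 ≤ σ * dd H (θ, p)) :
    ∃ p, H s0 p ≤ k ∧ M ≤ inner ℝ v p ∧ 0 ≤ σ * dd H (s0, p) := by
  choose θ s p h1 h2 h3 h4 h5 using h
  have hK := hH.2.2 (s0 - 1) (s0 + 1) k
  have hn : ∀ n : ℕ, 1 / ((n : ℝ) + 1) ≤ 1 := by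
    intro n
    rw [div_le_one (by positivity)]
    have : (0 : ℝ) ≤ n := Nat.cast_nonneg n
    linarith
  have hmem : ∀ n, (s n, p n) ∈
      {z : ℝ × (EN dim) | s0 - 1 ≤ z.1 ∧ z.1 ≤ s0 + 1 ∧ H z.1 z.2 ≤ k} := by
    intro n
    have h6 := abs_le.1 ((h2 n).trans (hn n))
    exact ⟨by linarith [h6.1], by linarith [h6.2], h3 n⟩
  obtain ⟨z, hz, φ, hφ, hlim⟩ := hK.tendsto_subseq hmem
  have t0 : Tendsto (fun n : ℕ => 1 / ((n : ℝ) + 1)) atTop (𝓝 0) :=
    tendsto_one_div_add_atTop_nhds_zero_nat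
  have tz : ∀ a : ℕ → ℝ, (∀ n, |a n - s0| ≤ 1 / ((n : ℝ) + 1)) → Tendsto a atTop (𝓝 s0) := by
    intro a ha
    rw [tendsto_iff_dist_tendsto_zero]
    exact squeeze_zero (fun n => dist_nonneg) (fun n => by rw [Real.dist_eq]; exact ha n) t0
  have hs : Tendsto (s ∘ φ) atTop (𝓝 s0) := (tz s h2).comp hφ.tendsto_atTop
  have hθ : Tendsto (θ ∘ φ) atTop (𝓝 s0) := (tz θ h1).comp hφ.tendsto_atTop
  have hz1 : Tendsto (s ∘ φ) atTop (𝓝 z.1) := (continuous_fst.tendsto z).comp hlim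
  have hz2 : Tendsto (p ∘ φ) atTop (𝓝 z.2) := (continuous_snd.tendsto z).comp hlim
  have e1 : z.1 = s0 := tendsto_nhds_unique hz1 hs
  refine ⟨z.2, ?_, ?_, ?_⟩
  · have := hz.2.2
    rwa [e1] at this
  · exact ge_of_tendsto' ((continuous_const.inner continuous_id).tendsto z.2 |>.comp hz2)
      fun n => h4 (φ n)
  · have h6 : Tendsto (fun n => σ * dd H (θ (φ n), p (φ n))) atTop (𝓝 (σ * dd H (s0, z.2))) :=
      (((dd_cont hH).tendsto (s0, z.2)).comp (hθ.prodMk_nhds hz2)).const_mul σ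
    exact ge_of_tendsto' h6 fun n => h5 (φ n)

theorem coreN : StCORE := by
  intro dim H hH v M k s0 hne hge hδ
  have hpos : ∀ n : ℕ, (0 : ℝ) < 1 / ((n : ℝ) + 1) := fun n => by positivity
  obtain ⟨p₁, a1, a2, a3⟩ := side hH v M k s0 (-1) (by
    intro n
    obtain ⟨s, p, h1, h2, h3, h4⟩ := (hδ _ (hpos n)).1
    obtain ⟨θ, hθ, he⟩ := exists_hasDerivAt_eq_slope (fun r => H r p) (fun r => dd H (r, p)) h1
      (fun r _ => (dd_deriv hH r p).continuousAt.continuousWithinAt)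
      (fun r _ => dd_deriv hH r p)
    refine ⟨θ, s, p, ?_, ?_, h3, h4, ?_⟩
    · rw [abs_le]; constructor <;> linarith [hθ.1, hθ.2, hpos n]
    · rw [abs_le]; constructor <;> linarith [hpos n]
    · have h5 : (H s p - H s0 p) / (s - s0) ≤ 0 :=
        div_nonpos_of_nonpos_of_nonneg (by linarith [hge p h4]) (by linarith)
      have h6 : dd H (θ, p) = (H s p - H s0 p) / (s - s0) := he
      rw [h6]
      linarith)
  obtain ⟨p₂, b1, b2, b3⟩ := side hH v M k s0 1 (by
    intro n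
    obtain ⟨s, p, h1, h2, h3, h4⟩ := (hδ _ (hpos n)).2
    obtain ⟨θ, hθ, he⟩ := exists_hasDerivAt_eq_slope (fun r => H r p) (fun r => dd H (r, p)) h2
      (fun r _ => (dd_deriv hH r p).continuousAt.continuousWithinAt)
      (fun r _ => dd_deriv hH r p)
    refine ⟨θ, s, p, ?_, ?_, h3, h4, ?_⟩
    · rw [abs_le]; constructor <;> linarith [hθ.1, hθ.2, hpos n]
    · rw [abs_le]; constructor <;> linarith [hpos n]
    · have h5 : 0 ≤ (H s0 p - H s p) / (s0 - s) :=
        div_nonneg (by linarith [hge p h4]) (by linarith)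
      have h6 : dd H (θ, p) = (H s0 p - H s p) / (s0 - s) := he
      rw [h6]
      linarith)
  set F : Set (EN dim) := {p | H s0 p ≤ k} ∩ {p | M ≤ inner ℝ v p} with hF
  have hconv : Convex ℝ F := by
    refine Convex.inter ?_ ?_
    · have := (hH.2.1 s0).convex_le k
      simpa using this
    · exact convex_halfSpace_ge (f := fun p : (EN dim) => inner ℝ v p)
        ⟨fun x y => inner_add_right _ _ _, fun c x => by
          rw [real_inner_smul_right]; rfl⟩ M
  have hcont : Continuous (fun p : (EN dim) => dd H (s0, p)) :=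
    (dd_cont hH).comp (Continuous.prodMk_right s0)
  obtain ⟨p, hp, hp0⟩ := hconv.isPreconnected.intermediate_value (a := p₁) (b := p₂)
    ⟨a1, a2⟩ ⟨b1, b2⟩ hcont.continuousOn
    (show (0 : ℝ) ∈ Set.Icc _ _ from ⟨by linarith, by linarith⟩)
  refine ⟨p, le_antisymm hp.1 (hge p hp.2), hp.2, ?_⟩
  have := dd_deriv hH s0 p
  have e : dd H (s0, p) = 0 := hp0
  rwa [e] at this

theorem slice_compact {H : ℝ → (EN dim) → ℝ} (hT : TonN H) (s k : ℝ) : IsCompact {p : (EN dim) | H s p ≤ k} := by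
  have h1 := (hT.2.2 s s k).image continuous_snd
  have h2 : (Prod.snd '' {z : ℝ × (EN dim) | s ≤ z.1 ∧ z.1 ≤ s ∧ H z.1 z.2 ≤ k}) = {p : (EN dim) | H s p ≤ k} := by
    ext p
    constructor
    · rintro ⟨z, ⟨h1, h2, h3⟩, rfl⟩
      have : z.1 = s := le_antisymm h2 h1
      rw [this] at h3
      exact h3
    · intro hp
      exact ⟨(s, p), ⟨le_refl _, le_refl _, hp⟩, rfl⟩
  rwa [h2] at h1

theorem exists_max {H : ℝ → (EN dim) → ℝ} (hT : TonN H) (v : (EN dim)) (s k : ℝ) (hne : ∃ p, H s p < k) :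
    ∃ p, H s p ≤ k ∧ ∀ p', H s p' ≤ k → inner ℝ v p' ≤ inner ℝ v p := by
  obtain ⟨q, hq⟩ := hne
  obtain ⟨p, hp, hmax⟩ := (slice_compact hT s k).exists_isMaxOn ⟨q, hq.le⟩
    (f := fun p : (EN dim) => inner ℝ v p) (by fun_prop)
  exact ⟨p, hp, fun p' hp' => hmax hp'⟩

theorem attN : StATT := by
  intro dim H hT v k a b c hac hcb hne hC
  obtain ⟨C, hC1, ⟨pa, hpa, hCa⟩, ⟨pb, hpb, hCb⟩⟩ := hC
  have hex := fun s => exists_max hT v s k (hne s)
  choose P hP1 hP2 using hex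
  have hcont : Continuous (fun z : ℝ × (EN dim) => H z.1 z.2) := hT.1.continuous
  have hlsc : LowerSemicontinuousOn (fun s => (inner ℝ v (P s) : ℝ)) (Set.Icc a b) := by
    intro s0 _ y hy
    obtain ⟨q, hq⟩ := hne s0
    have hpath : Continuous (fun t : ℝ => (1 - t) • P s0 + t • q) := by fun_prop
    have h1 : Tendsto (fun t : ℝ => (inner ℝ v ((1 - t) • P s0 + t • q) : ℝ)) (𝓝[>] 0)
        (𝓝 (inner ℝ v (P s0))) := by
      have h2 : Continuous (fun t : ℝ => (inner ℝ v ((1 - t) • P s0 + t • q) : ℝ)) := by fun_prop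
      have h3 := h2.tendsto 0
      simp only [sub_zero, one_smul, zero_smul, add_zero] at h3
      exact h3.mono_left nhdsWithin_le_nhds
    have h4 : ∀ᶠ t : ℝ in 𝓝[>] 0, y < inner ℝ v ((1 - t) • P s0 + t • q) ∧ 0 < t ∧ t < 1 := by
      refine (h1.eventually (lt_mem_nhds hy)).and ?_
      exact Ioo_mem_nhdsGT one_pos
    obtain ⟨t, ht1, ht2, ht3⟩ := h4.exists
    set p := (1 - t) • P s0 + t • q with hp
    have h5 : H s0 p < k := by
      have h6 := (hT.2.1 s0).2 (Set.mem_univ (P s0)) (Set.mem_univ q) (by linarith : 0 ≤ 1 - t)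
        ht2.le (by ring)
      rw [← hp] at h6
      simp only [smul_eq_mul] at h6
      have h7 := hP1 s0
      have h8 : (1 - t) * H s0 (P s0) ≤ (1 - t) * k := mul_le_mul_of_nonneg_left h7 (by linarith)
      have h9 : t * H s0 q < t * k := mul_lt_mul_of_pos_left hq ht2
      linarith
    have h10 : Continuous (fun s : ℝ => H s p) :=
      hcont.comp (by fun_prop : Continuous fun s : ℝ => (s, p))
    have h11 : ∀ᶠ s in 𝓝 s0, H s p < k := h10.continuousAt.eventually (gt_mem_nhds h5)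
    filter_upwards [mem_nhdsWithin_of_mem_nhds h11] with s hs
    exact lt_of_lt_of_le ht1 (hP2 s p hs.le)
  obtain ⟨s0, hs0, hmin⟩ := LowerSemicontinuousOn.exists_isMinOn
    (Set.nonempty_Icc.2 (hac.trans hcb).le) isCompact_Icc hlsc
  have hm : ∀ s, a ≤ s → s ≤ b → inner ℝ v (P s0) ≤ inner ℝ v (P s) := fun s h1 h2 =>
    hmin (show s ∈ Set.Icc a b from ⟨h1, h2⟩)
  have hc := hm c hac.le hcb.le
  have hc2 := hC1 (P c) (hP1 c)
  have hne_a : s0 ≠ a := by
    rintro rfl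
    have := hP2 s0 pa hpa
    linarith
  have hne_b : s0 ≠ b := by
    rintro rfl
    have := hP2 s0 pb hpb
    linarith
  refine ⟨s0, inner ℝ v (P s0), lt_of_le_of_ne hs0.1 (Ne.symm hne_a), lt_of_le_of_ne hs0.2 hne_b,
    ⟨P s0, hP1 s0, rfl⟩, hP2 s0, fun s h1 h2 => ⟨P s, hP1 s, hm s h1 h2⟩⟩


end Pool.Agent.Lib.TorN.LM10
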