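import Mathlib
import Pool.Agent.Lib.MP_fe6961_an.Tor10

/-! Rows LAG and MAX. -/

open Filter Matrix Topology

namespace Pool.Agent.Lib.Tor

open Pool.Agent.Lib.Hom

lemma fderiv_eq_inner_grad (h : E3 → ℝ) (p y : E3) :
    fderiv ℝ h p y = inner ℝ (gradient h p) y := by
  unfold gradient
  rw [← InnerProductSpace.toDual_apply_apply]
  simp

theorem lag_10 : StLAG := by
  intro h hh v p k hv hp hmax
  have hd : HasStrictFDerivAt h (fderiv ℝ h p) p :=
    (hh.contDiffAt).hasStrictFDerivAt (by norm_num)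
  have hφ : HasStrictFDerivAt (fun x : E3 => inner ℝ v x) (innerSL ℝ v) p :=
    (innerSL ℝ v).hasStrictFDerivAt
  have hl : IsLocalExtrOn (fun x : E3 => inner ℝ v x) {x | h x = h p} p := by
    right
    have : IsMaxOn (fun x : E3 => inner ℝ v x) {x | h x = h p} p := by
      intro x hx
      exact hmax x (by rw [← hp]; exact le_of_eq hx)
    exact this.localize
  obtain ⟨a, b, hab, h1⟩ := hl.exists_multipliers_of_hasStrictFDerivAt_1d hd hφ
  have key : ∀ y, a * inner ℝ (gradient h p) y + b * inner ℝ v y = 0 := by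
    intro y
    have h2 := congrArg (fun L : E3 →L[ℝ] ℝ => L y) h1
    have h3 : a * fderiv ℝ h p y + b * inner ℝ v y = 0 := h2
    rw [fderiv_eq_inner_grad] at h3
    exact h3
  have ha : a ≠ 0 := by
    intro ha
    have h2 := key v
    rw [ha, zero_mul, zero_add] at h2
    rcases mul_eq_zero.mp h2 with hb | hb
    · exact hab (by rw [ha, hb]; rfl)
    · exact hv (inner_self_eq_zero.mp hb)
  refine ⟨-b / a, ?_⟩
  apply ext_inner_right ℝ
  intro y
  rw [inner_smul_left, conj_trivial]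
  have := key y
  field_simp
  linarith

theorem max_10 : StMAX := by
  intro H hT v hv k a b s p has hsb hle hmax
  obtain ⟨hC, -, -⟩ := hT
  let G : ℝ × E3 → ℝ := fun z => H z.1 z.2
  have hk : H s p = k := by
    rcases lt_or_eq_of_le hle with hlt | h
    swap
    · exact h
    exfalso
    have hc1 : Continuous (fun ε : ℝ => G (s, p + ε • v)) :=
      hC.continuous.comp (continuous_const.prodMk
        (continuous_const.add (continuous_id.smul continuous_const)))
    have ho : ∀ᶠ ε in 𝓝 (0 : ℝ), G (s, p + ε • v) < k := by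
      apply (hc1.tendsto 0).eventually_lt_const
      simpa [G] using hlt
    have ho' : ∀ᶠ ε in 𝓝[>] (0 : ℝ), G (s, p + ε • v) < k := nhdsWithin_le_nhds ho
    obtain ⟨ε, hε, hε0⟩ := (ho'.and self_mem_nhdsWithin).exists
    have h3 := hmax s (p + ε • v) has.le hsb.le (le_of_lt hε)
    rw [inner_add_right, inner_smul_right, real_inner_self_eq_norm_sq] at h3
    have hε0 : 0 < ε := hε0
    have h4 : 0 < ε * ‖v‖ ^ 2 := mul_pos hε0 (pow_pos (norm_pos_iff.mpr hv) 2)
    linarith
  have hd : HasStrictFDerivAt G (fderiv ℝ G (s, p)) (s, p) :=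
    (hC.contDiffAt).hasStrictFDerivAt (by norm_num)
  let φ : ℝ × E3 →L[ℝ] ℝ := (innerSL ℝ v).comp (ContinuousLinearMap.snd ℝ ℝ E3)
  have hφ : HasStrictFDerivAt (fun z : ℝ × E3 => φ z) φ (s, p) := φ.hasStrictFDerivAt
  have hφa : ∀ z, φ z = inner ℝ v z.2 := fun z => rfl
  have hl : IsLocalExtrOn (fun z : ℝ × E3 => φ z) {z | G z = G (s, p)} (s, p) := by
    right
    have h5 : ∀ᶠ z : ℝ × E3 in 𝓝 (s, p), a < z.1 ∧ z.1 < b := by
      have c1 : Continuous (fun z : ℝ × E3 => z.1) := continuous_fst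
      exact ((c1.tendsto (s, p)).eventually_const_lt has).and
        ((c1.tendsto (s, p)).eventually_lt_const hsb)
    have h6 : ∀ᶠ z : ℝ × E3 in 𝓝[{z | G z = G (s, p)}] (s, p), a < z.1 ∧ z.1 < b :=
      nhdsWithin_le_nhds h5
    show ∀ᶠ z in 𝓝[{z | G z = G (s, p)}] (s, p), φ z ≤ φ (s, p)
    filter_upwards [h6, self_mem_nhdsWithin] with z hz hz2
    rw [hφa, hφa]
    refine hmax z.1 z.2 hz.1.le hz.2.le ?_
    have : H z.1 z.2 = H s p := hz2
    rw [this]; exact hle
  obtain ⟨c, d, hcd, h1⟩ := hl.exists_multipliers_of_hasStrictFDerivAt_1d hd hφ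
  have hGs : HasDerivAt (fun r => H r p) (fderiv ℝ G (s, p) (1, 0)) s := by
    have e : HasDerivAt (fun r : ℝ => (r, p)) ((1 : ℝ), (0 : E3)) s :=
      (hasDerivAt_id s).prodMk (hasDerivAt_const s p)
    exact (hd.hasFDerivAt).comp_hasDerivAt s e
  have hGp : HasFDerivAt (H s) ((fderiv ℝ G (s, p)).comp (ContinuousLinearMap.inr ℝ ℝ E3)) p := by
    have e : HasFDerivAt (fun q : E3 => (s, q)) (ContinuousLinearMap.inr ℝ ℝ E3) p :=
      hasFDerivAt_prodMk_right s p
    exact (hd.hasFDerivAt).comp p e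
  have key : ∀ z : ℝ × E3, c * fderiv ℝ G (s, p) z + d * inner ℝ v z.2 = 0 := by
    intro z
    have h2 := congrArg (fun L : ℝ × E3 →L[ℝ] ℝ => L z) h1
    exact h2
  have hc : c ≠ 0 := by
    intro hc
    have h2 := key (0, v)
    rw [hc, zero_mul, zero_add] at h2
    rcases mul_eq_zero.mp h2 with hb | hb
    · exact hcd (by rw [hc, hb]; rfl)
    · exact hv (inner_self_eq_zero.mp hb)
  refine ⟨hk, ?_, -d / c, ?_⟩
  · have h2 := key (1, 0)
    rw [inner_zero_right, mul_zero, add_zero] at h2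
    have h3 := (mul_eq_zero.mp h2).resolve_left hc
    rw [h3] at hGs
    exact hGs
  · apply ext_inner_right ℝ
    intro y
    rw [← fderiv_eq_inner_grad, hGp.fderiv, inner_smul_left, conj_trivial]
    have h2 := key (0, y)
    have h3 : ((fderiv ℝ G (s, p)).comp (ContinuousLinearMap.inr ℝ ℝ E3)) y
        = fderiv ℝ G (s, p) (0, y) := rfl
    rw [h3]
    have h2' : c * fderiv ℝ G (s, p) (0, y) + d * inner ℝ v y = 0 := h2
    field_simp
    linarith

end Pool.Agent.Lib.Tor
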