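import Pool.Agent.Lib.MP_fe6961_an.Hom10

/-! Row MIN (helper84). -/

open Filter

namespace Pool.Agent.Lib.Hom

theorem min84 : StMIN := by
  intro h _ p hp
  have h1 : IsLocalMin h p := Filter.Eventually.of_forall hp
  have h2 : fderiv ℝ h p = 0 := h1.fderiv_eq_zero
  unfold gradient
  rw [h2, map_zero]

end Pool.Agent.Lib.Hom
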