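import Pool.Agent.Lib.MP_fe6961_an.MR10

/-! Maximal rank, row MN: the minimum gives a constant orbit. -/

open Filter Matrix

namespace Pool.Agent.Lib.MR

theorem gradient_zero95 {n m : ℕ} {f : F n m → ℝ} {x : F n m} (hf : ∀ y, f x ≤ f y) :
    gradient f x = 0 := by
  have h1 : IsLocalMin f x := Filter.Eventually.of_forall hf
  have h2 := h1.fderiv_eq_zero
  unfold gradient
  rw [h2, map_zero]

theorem mn95 : StMN := by
  intro n m X h _ p0 hp0
  have e : HX X h 0 p0 = h p0 := by
    unfold HX
    congr 1
    ext i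
    rcases i with l | j
    · simp [vec]
    · simp [vec]
  have a1 : gradient (HX X h 0) p0 = 0 := by
    apply gradient_zero95
    intro y
    rw [e]
    exact hp0 _
  have a2 : gradient (fun y => HX X h y p0) 0 = 0 := by
    apply gradient_zero95
    intro y
    rw [e]
    exact hp0 _
  refine ⟨fun t => ?_, e⟩
  rw [a1, a2, neg_zero]
  exact ⟨hasDerivAt_const _ _, hasDerivAt_const _ _⟩

end Pool.Agent.Lib.MR
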