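import Mathlib

/-! Left invariant Tonelli Hamiltonians on `ℝⁿ ⋊ ℝᵐ`, real diagonal action of maximal rank:
definitions and rows. -/

open Filter Matrix

namespace Pool.Agent.Lib.MR

/-- the Euclidean space with the coordinates `u` (left) and `s` (right) -/
abbrev F (n m : ℕ) := EuclideanSpace ℝ (Fin n ⊕ Fin m)

/-- a Tonelli function (less is asked): `C^1`, convex, coercive -/
def TonF {n m : ℕ} (h : F n m → ℝ) : Prop :=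
  ContDiff ℝ 1 h ∧ ConvexOn ℝ Set.univ h ∧ Tendsto h (cocompact (F n m)) atTop

/-- the vector `(u, s)` -/
noncomputable def vec {n m : ℕ} (u : Fin n → ℝ) (s : Fin m → ℝ) : F n m :=
  WithLp.toLp 2 (Sum.elim u s)

/-- the left invariant Hamiltonian of `h` on the cotangent bundle of `ℝⁿ ⋊ ℝᵐ`, where `s` acts on
`ℝⁿ` by the diagonal matrix with the entries `exp (X s)_l` -/
noncomputable def HX {n m : ℕ} (X : Matrix (Fin n) (Fin m) ℝ) (h : F n m → ℝ) (x ξ : F n m) : ℝ :=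
  h (vec (fun l => Real.exp (∑ j, X l j * x (Sum.inr j)) * ξ (Sum.inl l)) (fun j => ξ (Sum.inr j)))

/-- Hamilton's equations -/
def IsOrb {n m : ℕ} (H : F n m → F n m → ℝ) (x ξ : ℝ → F n m) : Prop :=
  ∀ t, HasDerivAt x (gradient (H (x t)) (ξ t)) t ∧
    HasDerivAt ξ (-gradient (fun y => H y (ξ t)) (x t)) t

/-- MN: the minimum gives a constant orbit -/
def StMN : Prop := ∀ (n m : ℕ) (X : Matrix (Fin n) (Fin m) ℝ) (h : F n m → ℝ), TonF h →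
  ∀ p0, (∀ p, h p0 ≤ h p) → IsOrb (HX X h) (fun _ => 0) (fun _ => p0) ∧ HX X h 0 p0 = h p0

/-- EX: the maximum of the square of the Casimir function -/
def StEX : Prop := ∀ (n m : ℕ) (h : F n m → ℝ), 0 < n → TonF h → ∀ k : ℝ, (∃ p, h p < k) →
  ∃ (p : F n m) (κ : ℝ), h p = k ∧ κ ≠ 0 ∧ (∀ l, p (Sum.inl l) ≠ 0) ∧
    (∀ l, gradient h p (Sum.inl l) = κ / p (Sum.inl l)) ∧ ∀ j, gradient h p (Sum.inr j) = 0

/-- SL: the integer vector and the place -/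
def StSL : Prop := ∀ (n m : ℕ) (X : Matrix (Fin n) (Fin m) ℝ) (P : Matrix (Fin n) (Fin n) ℝ),
  0 < n → (∀ y : Fin n → ℝ, ∑ l, y l = 0 → ∃ s : Fin m → ℝ, X *ᵥ s = y) → P.det ≠ 0 →
  ∀ (p : Fin n → ℝ) (κ : ℝ), κ ≠ 0 → (∀ l, p l ≠ 0) →
  ∃ (w : Fin n → ℤ) (μ : ℝ) (s : Fin m → ℝ), w ≠ 0 ∧ 0 < μ ∧
    ∀ l, Real.exp (∑ j, X l j * s j) * (κ / p l) = μ * (P *ᵥ (fun i => (w i : ℝ))) l

/-- OB: the closed orbit -/
def StOB : Prop := ∀ (n m : ℕ) (X : Matrix (Fin n) (Fin m) ℝ) (h : F n m → ℝ), TonF h →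
  (∀ j, ∑ l, X l j = 0) → ∀ (p : F n m) (κ : ℝ), (∀ l, p (Sum.inl l) ≠ 0) →
  (∀ l, gradient h p (Sum.inl l) = κ / p (Sum.inl l)) → (∀ j, gradient h p (Sum.inr j) = 0) →
  ∀ (b : Fin n → ℝ) (μ : ℝ) (s : Fin m → ℝ), 0 < μ →
  (∀ l, Real.exp (∑ j, X l j * s j) * (κ / p (Sum.inl l)) = μ * b l) →
  ∃ (x ξ : ℝ → F n m), IsOrb (HX X h) x ξ ∧ (∀ t, HX X h (x t) (ξ t) = h p) ∧
    ∀ t, x (t + 1 / μ) = x t + vec b 0 ∧ ξ (t + 1 / μ) = ξ t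

/-- MR: the result -/
def StMR : Prop := ∀ (n m : ℕ) (X : Matrix (Fin n) (Fin m) ℝ) (P : Matrix (Fin n) (Fin n) ℝ)
  (h : F n m → ℝ), 0 < n → (∀ j, ∑ l, X l j = 0) →
  (∀ y : Fin n → ℝ, ∑ l, y l = 0 → ∃ s : Fin m → ℝ, X *ᵥ s = y) → P.det ≠ 0 → TonF h →
  ∀ k, (∃ p, h p = k) →
  (∃ x ξ, HX X h x ξ = k ∧ IsOrb (HX X h) (fun _ => x) (fun _ => ξ)) ∨
  ∃ (x ξ : ℝ → F n m), IsOrb (HX X h) x ξ ∧ (∀ t, HX X h (x t) (ξ t) = k) ∧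
    ∃ T > 0, ∃ w : Fin n → ℤ, w ≠ 0 ∧
      ∀ t, x (t + T) = x t + vec (P *ᵥ (fun i => (w i : ℝ))) 0 ∧ ξ (t + T) = ξ t

theorem mr_10 (h1 : StMN) (h2 : StEX) (h3 : StSL) (h4 : StOB) : StMR := by
  intro n m X P h hn hX hs hP hT k hk
  obtain ⟨p0, hp0⟩ := hk
  by_cases hmin : ∃ p, h p < k
  · right
    obtain ⟨p, κ, e1, e2, e3, e4, e5⟩ := h2 n m h hn hT k hmin
    obtain ⟨w, μ, s, f1, f2, f3⟩ := h3 n m X P hn hs hP (fun l => p (Sum.inl l)) κ e2 e3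
    obtain ⟨x, ξ, g1, g2, g3⟩ := h4 n m X h hT hX p κ e3 e4 e5 _ μ s f2 f3
    exact ⟨x, ξ, g1, fun t => by rw [g2, e1], 1 / μ, by positivity, w, f1, g3⟩
  · left
    push Not at hmin
    obtain ⟨a, b⟩ := h1 n m X h hT p0 (fun p => by rw [hp0]; exact hmin p)
    exact ⟨0, p0, by rw [b, hp0], a⟩

end Pool.Agent.Lib.MR
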