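import Mathlib
import Pool.Agent.Lib.MP_fe6961_an.MR10

/-! Rows MN and OB. -/

open Filter Matrix

namespace Pool.Agent.Lib.MR.MO10

open Pool.Agent.Lib.MR

variable {n m : ℕ}

lemma gradient_eq_zero_of_isMin {f : F n m → ℝ} {x : F n m} (hf : ∀ y, f x ≤ f y) :
    gradient f x = 0 := by
  have h1 : IsLocalMin f x := Filter.Eventually.of_forall hf
  have h2 := h1.fderiv_eq_zero
  unfold gradient
  rw [h2, map_zero]

theorem mn10 : StMN := by
  intro n m X h hT p0 hmin
  have e : ∀ ξ, HX X h 0 ξ = h ξ := by
    intro ξ
    unfold HX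
    congr 1
    ext i
    rcases i with i | i <;> simp [vec]
  refine ⟨fun t => ?_, e p0⟩
  have a1 : gradient (HX X h 0) p0 = 0 := by
    apply gradient_eq_zero_of_isMin
    intro y
    rw [e, e]
    exact hmin y
  have a2 : gradient (fun y => HX X h y p0) 0 = 0 := by
    apply gradient_eq_zero_of_isMin
    intro y
    rw [e]
    exact hmin _
  show HasDerivAt (fun _ => (0 : F n m)) (gradient (HX X h 0) p0) t ∧
    HasDerivAt (fun _ => p0) (-gradient (fun y => HX X h y p0) 0) t
  rw [a1, a2, neg_zero]
  exact ⟨hasDerivAt_const _ _, hasDerivAt_const _ _⟩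

lemma hasGrad_iff {f : F n m → ℝ} {x v : F n m} {f' : F n m →L[ℝ] ℝ} (hf : HasFDerivAt f f' x)
    (h : ∀ y, f' y = inner ℝ v y) : gradient f x = v := by
  have h1 : f' = InnerProductSpace.toDual ℝ (F n m) v := by
    ext y
    rw [InnerProductSpace.toDual_apply_apply]
    exact h y
  unfold gradient
  rw [hf.fderiv, h1]
  simp

lemma fderiv_eq_inner_grad (h : F n m → ℝ) (p y : F n m) :
    fderiv ℝ h p y = inner ℝ (gradient h p) y := by
  unfold gradient
  rw [← InnerProductSpace.toDual_apply_apply]
  simp

lemma inner_sum (x y : F n m) : inner ℝ x y =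
    ∑ l, x (Sum.inl l) * y (Sum.inl l) + ∑ j, x (Sum.inr j) * y (Sum.inr j) := by
  simp only [PiLp.inner_apply, Fintype.sum_sum_type, RCLike.inner_apply, conj_trivial]
  congr 1 <;> exact Finset.sum_congr rfl fun _ _ => mul_comm _ _

theorem ob10 : StOB := by
  intro n m X h hT hX p κ hp hg hg' b μ s hμ hb
  have hd : Differentiable ℝ h := hT.1.differentiable (by norm_num)
  have hfd : HasFDerivAt h (fderiv ℝ h p) p := (hd p).hasFDerivAt
  let c : F n m → Fin n → ℝ := fun x l => Real.exp (∑ j, X l j * x (Sum.inr j))
  let E : Fin n → ℝ := fun l => Real.exp (∑ j, X l j * s j)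
  have hE : ∀ l, E l ≠ 0 := fun l => Real.exp_ne_zero _
  let V : F n m := vec b 0
  let x : ℝ → F n m := fun t => vec 0 s + (t * μ) • V
  let ξ0 : F n m := vec (fun l => (E l)⁻¹ * p (Sum.inl l)) (fun j => p (Sum.inr j))
  have hx : ∀ t j, x t (Sum.inr j) = s j := by
    intro t j
    show s j + (t * μ) * 0 = s j
    ring
  have hcx : ∀ t l, c (x t) l = E l := by
    intro t l
    show Real.exp (∑ j, X l j * x t (Sum.inr j)) = Real.exp (∑ j, X l j * s j)
    congr 1
    exact Finset.sum_congr rfl fun j _ => by rw [hx]
  -- the inner point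
  let Φ : F n m → F n m → F n m := fun y ξ =>
    vec (fun l => Real.exp (∑ j, X l j * y (Sum.inr j)) * ξ (Sum.inl l)) (fun j => ξ (Sum.inr j))
  have hΦ : ∀ t, Φ (x t) ξ0 = p := by
    intro t
    ext i
    rcases i with l | j
    · show c (x t) l * ((E l)⁻¹ * p (Sum.inl l)) = p (Sum.inl l)
      rw [hcx, ← mul_assoc, mul_inv_cancel₀ (hE l), one_mul]
    · rfl
  refine ⟨x, fun _ => ξ0, ?_, ?_, ?_⟩
  · intro t
    have h1 : gradient (HX X h (x t)) ξ0 = μ • V := by
      let A : F n m →ₗ[ℝ] F n m :=
        { toFun := Φ (x t)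
          map_add' := by
            intro y z
            ext i
            rcases i with l | j
            · show _ * (y (Sum.inl l) + z (Sum.inl l)) = _ * y (Sum.inl l) + _ * z (Sum.inl l)
              rw [mul_add]
            · rfl
          map_smul' := by
            intro a y
            ext i
            rcases i with l | j
            · show _ * (a * y (Sum.inl l)) = a * (_ * y (Sum.inl l))
              ring
            · rfl }
      have hA : HasFDerivAt (Φ (x t)) (LinearMap.toContinuousLinearMap A) ξ0 :=
        (LinearMap.toContinuousLinearMap A).hasFDerivAt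
      have hf : HasFDerivAt (HX X h (x t)) ((fderiv ℝ h p).comp (LinearMap.toContinuousLinearMap A))
          ξ0 := by
        have h3 : HasFDerivAt h (fderiv ℝ h p) (Φ (x t) ξ0) := by rw [hΦ]; exact hfd
        exact h3.comp ξ0 hA
      refine hasGrad_iff hf fun y => ?_
      have e1 : ((fderiv ℝ h p).comp (LinearMap.toContinuousLinearMap A)) y
          = fderiv ℝ h p (Φ (x t) y) := rfl
      rw [e1, fderiv_eq_inner_grad, inner_sum, inner_sum]
      congr 1
      · refine Finset.sum_congr rfl fun l _ => ?_
        have e2 : Φ (x t) y (Sum.inl l) = c (x t) l * y (Sum.inl l) := rfl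
        have e3 : (μ • V) (Sum.inl l) = μ * b l := rfl
        rw [e2, e3, hcx, hg, ← hb l]
        ring
      · refine Finset.sum_congr rfl fun j _ => ?_
        have e3 : (μ • V) (Sum.inr j) = μ * 0 := rfl
        rw [e3, hg']
        ring
    have h2 : gradient (fun y => HX X h y ξ0) (x t) = 0 := by
      -- the derivative of y ↦ Φ y ξ0
      let D : F n m →ₗ[ℝ] F n m :=
        { toFun := fun y => vec (fun l => (∑ j, X l j * y (Sum.inr j)) * p (Sum.inl l)) 0
          map_add' := by
            intro y z
            ext i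
            rcases i with l | j
            · show (∑ j, X l j * (y (Sum.inr j) + z (Sum.inr j))) * p (Sum.inl l)
                = (∑ j, X l j * y (Sum.inr j)) * p (Sum.inl l)
                  + (∑ j, X l j * z (Sum.inr j)) * p (Sum.inl l)
              rw [← add_mul, ← Finset.sum_add_distrib]
              congr 1
              exact Finset.sum_congr rfl fun _ _ => by ring
            · show (0 : ℝ) = 0 + 0
              ring
          map_smul' := by
            intro a y
            ext i
            rcases i with l | j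
            · show (∑ j, X l j * (a * y (Sum.inr j))) * p (Sum.inl l)
                = a * ((∑ j, X l j * y (Sum.inr j)) * p (Sum.inl l))
              rw [← mul_assoc, Finset.mul_sum]
              congr 1
              exact Finset.sum_congr rfl fun _ _ => by ring
            · show (0 : ℝ) = a * 0
              ring }
      have hD : HasFDerivAt (fun y => Φ y ξ0) (LinearMap.toContinuousLinearMap D) (x t) := by
        rw [← hasFDerivWithinAt_univ, hasFDerivWithinAt_euclidean]
        intro i
        rw [hasFDerivWithinAt_univ]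
        rcases i with l | j
        · have g1 : HasFDerivAt (fun y : F n m => ∑ j, X l j * y (Sum.inr j))
              (∑ j, X l j • (EuclideanSpace.proj (Sum.inr j) : F n m →L[ℝ] ℝ)) (x t) := by
            have := HasFDerivAt.fun_sum (u := Finset.univ)
              (A := fun (j : Fin m) (y : F n m) => X l j * y (Sum.inr j))
              (A' := fun j => X l j • (EuclideanSpace.proj (Sum.inr j) : F n m →L[ℝ] ℝ))
              (x := x t) (fun j _ =>
                ((EuclideanSpace.proj (Sum.inr j) : F n m →L[ℝ] ℝ).hasFDerivAt).const_mul (X l j))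
            exact this
          have g2 := (g1.exp).mul_const (ξ0 (Sum.inl l))
          have g3 : HasFDerivAt (fun y : F n m => Φ y ξ0 (Sum.inl l))
              (ξ0 (Sum.inl l) • (Real.exp (∑ j, X l j * x t (Sum.inr j)) •
                ∑ j, X l j • (EuclideanSpace.proj (Sum.inr j) : F n m →L[ℝ] ℝ))) (x t) := g2
          refine g3.congr_fderiv (ContinuousLinearMap.ext fun y => ?_)
          have k1 : ((PiLp.proj 2 (fun _ => ℝ) (Sum.inl l)) ∘L (LinearMap.toContinuousLinearMap D)) y
              = (∑ j, X l j * y (Sum.inr j)) * p (Sum.inl l) := rfl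
          have k2 : (ξ0 (Sum.inl l) • (Real.exp (∑ j, X l j * x t (Sum.inr j)) •
                ∑ j, X l j • (EuclideanSpace.proj (Sum.inr j) : F n m →L[ℝ] ℝ))) y
              = ξ0 (Sum.inl l) * (c (x t) l * ∑ j, X l j * y (Sum.inr j)) := by
            simp [c, ContinuousLinearMap.sum_apply]
          have k3 : ξ0 (Sum.inl l) = (E l)⁻¹ * p (Sum.inl l) := rfl
          refine Eq.trans k2 (Eq.trans ?_ k1.symm)
          rw [hcx, k3]
          have := hE l
          field_simp
        · have g3 : HasFDerivAt (fun y : F n m => Φ y ξ0 (Sum.inr j)) (0 : F n m →L[ℝ] ℝ) (x t) :=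
            hasFDerivAt_const _ _
          exact g3.congr_fderiv (ContinuousLinearMap.ext fun y => rfl)
      have hf : HasFDerivAt (fun y => HX X h y ξ0)
          ((fderiv ℝ h p).comp (LinearMap.toContinuousLinearMap D)) (x t) := by
        have h3 : HasFDerivAt h (fderiv ℝ h p) (Φ (x t) ξ0) := by rw [hΦ]; exact hfd
        exact h3.comp (x t) hD
      refine hasGrad_iff hf fun y => ?_
      have e1 : ((fderiv ℝ h p).comp (LinearMap.toContinuousLinearMap D)) y
          = fderiv ℝ h p (vec (fun l => (∑ j, X l j * y (Sum.inr j)) * p (Sum.inl l)) 0) := rfl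
      rw [e1, fderiv_eq_inner_grad, inner_sum, inner_zero_left]
      have e2 : ∑ l, gradient h p (Sum.inl l) *
          (vec (fun l => (∑ j, X l j * y (Sum.inr j)) * p (Sum.inl l)) (0 : Fin m → ℝ)) (Sum.inl l)
          = κ * ∑ l, ∑ j, X l j * y (Sum.inr j) := by
        rw [Finset.mul_sum]
        refine Finset.sum_congr rfl fun l _ => ?_
        show gradient h p (Sum.inl l) * ((∑ j, X l j * y (Sum.inr j)) * p (Sum.inl l)) = _
        rw [hg]
        have := hp l
        field_simp
      have e3 : ∑ j, gradient h p (Sum.inr j) *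
          (vec (fun l => (∑ j, X l j * y (Sum.inr j)) * p (Sum.inl l)) (0 : Fin m → ℝ)) (Sum.inr j)
          = 0 := by
        refine Finset.sum_eq_zero fun j _ => ?_
        rw [hg', zero_mul]
      rw [e2, e3, Finset.sum_comm]
      have e4 : ∑ j, ∑ l, X l j * y (Sum.inr j) = 0 := by
        refine Finset.sum_eq_zero fun j _ => ?_
        rw [← Finset.sum_mul, hX, zero_mul]
      rw [e4]
      ring
    rw [h1, h2, neg_zero]
    refine ⟨?_, hasDerivAt_const _ _⟩
    have := (((hasDerivAt_id t).mul_const μ).smul_const V).const_add (vec (0 : Fin n → ℝ) s)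
    simpa [x] using this
  · intro t
    show h (Φ (x t) ξ0) = h p
    rw [hΦ]
  · intro t
    refine ⟨?_, rfl⟩
    show vec 0 s + ((t + 1 / μ) * μ) • V = vec 0 s + (t * μ) • V + V
    have : (t + 1 / μ) * μ = t * μ + 1 := by field_simp
    rw [this, add_smul, one_smul, add_assoc]

end Pool.Agent.Lib.MR.MO10
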