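import Mathlib
import Pool.Agent.Lib.MP_fe6961_an.MR10

/-! Row OB: the closed orbit (helper40). -/

open Filter Matrix

namespace Pool.Agent.Lib.MR.OB40

open Pool.Agent.Lib.MR

variable {n m : ℕ}

theorem vec_inl (u : Fin n → ℝ) (s : Fin m → ℝ) (l : Fin n) : (vec u s) (Sum.inl l) = u l := by
  simp [vec]

theorem vec_inr (u : Fin n → ℝ) (s : Fin m → ℝ) (j : Fin m) : (vec u s) (Sum.inr j) = s j := by
  simp [vec]

theorem inner_sum (v w : F n m) : inner ℝ v w =
    ∑ l, v (Sum.inl l) * w (Sum.inl l) + ∑ j, v (Sum.inr j) * w (Sum.inr j) := by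
  rw [PiLp.inner_apply, Fintype.sum_sum_type]
  simp only [RCLike.inner_apply, conj_trivial]
  congr 1
  · exact Finset.sum_congr rfl fun l _ => mul_comm _ _
  · exact Finset.sum_congr rfl fun l _ => mul_comm _ _

/-- the linear map `ξ ↦ (c ξ_l, ξ_r)` -/
noncomputable def BL (c : Fin n → ℝ) : F n m →ₗ[ℝ] F n m where
  toFun ξ := vec (fun l => c l * ξ (Sum.inl l)) (fun j => ξ (Sum.inr j))
  map_add' a b := by
    ext i
    rcases i with l | j
    · simp [vec, mul_add]
    · simp [vec]
  map_smul' a b := by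
    ext i
    rcases i with l | j
    · simp [vec]; ring
    · simp [vec]

theorem grad_of {f : F n m → ℝ} {x : F n m} {L : F n m →L[ℝ] ℝ} (h : HasFDerivAt f L x)
    {v : F n m} (hv : ∀ w, L w = inner ℝ v w) : gradient f x = v := by
  have h1 : HasGradientAt f v x := by
    rw [hasGradientAt_iff_hasFDerivAt]
    have h2 : (InnerProductSpace.toDual ℝ (F n m)) v = L := by
      ext w
      rw [InnerProductSpace.toDual_apply_apply, hv]
    rw [h2]
    exact h
  exact h1.gradient

theorem fder {h : F n m → ℝ} (hh : ContDiff ℝ 1 h) (p : F n m) :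
    ∃ L : F n m →L[ℝ] ℝ, HasFDerivAt h L p ∧ ∀ w, L w = inner ℝ (gradient h p) w := by
  have hd : DifferentiableAt ℝ h p := (hh.differentiable (by norm_num)) p
  refine ⟨fderiv ℝ h p, hd.hasFDerivAt, fun w => ?_⟩
  have h1 := hd.hasGradientAt
  rw [hasGradientAt_iff_hasFDerivAt] at h1
  rw [h1.fderiv, InnerProductSpace.toDual_apply_apply]

/-- the derivative in the position -/
noncomputable def AL (X : Matrix (Fin n) (Fin m) ℝ) (q : Fin n → ℝ) : F n m →ₗ[ℝ] F n m where
  toFun y := vec (fun l => (∑ j, X l j * y (Sum.inr j)) * q l) (fun _ => 0)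
  map_add' a b := by
    ext i
    rcases i with l | j
    · simp [vec, mul_add, Finset.sum_add_distrib, add_mul]
    · simp [vec]
  map_smul' a b := by
    ext i
    rcases i with l | j
    · simp only [vec, PiLp.smul_apply, smul_eq_mul, RingHom.id_apply, Sum.elim_inl]
      rw [← mul_assoc, Finset.mul_sum]
      congr 1
      exact Finset.sum_congr rfl fun j _ => by ring
    · simp [vec]

theorem hasA (X : Matrix (Fin n) (Fin m) ℝ) (q : Fin n → ℝ) (r : Fin m → ℝ) (x : F n m)
    (q' : Fin n → ℝ) (hq : ∀ l, Real.exp (∑ j, X l j * x (Sum.inr j)) * q l = q' l) :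
    HasFDerivAt (fun y : F n m =>
      vec (fun l => Real.exp (∑ j, X l j * y (Sum.inr j)) * q l) r)
      (LinearMap.toContinuousLinearMap (AL X q')) x := by
  rw [← hasFDerivWithinAt_univ, hasFDerivWithinAt_euclidean]
  intro i
  rw [hasFDerivWithinAt_univ]
  rcases i with l | j
  · simp only [vec_inl]
    have h1 : ∀ j, HasFDerivAt (fun y : F n m => X l j * y (Sum.inr j))
        (X l j • (EuclideanSpace.proj (𝕜 := ℝ) (Sum.inr j) : F n m →L[ℝ] ℝ)) x := fun j =>
      ((EuclideanSpace.proj (𝕜 := ℝ) (Sum.inr j) : F n m →L[ℝ] ℝ).hasFDerivAt).const_mul _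
    have h2 : HasFDerivAt (fun y : F n m => ∑ j, X l j * y (Sum.inr j))
        (∑ j, X l j • (EuclideanSpace.proj (𝕜 := ℝ) (Sum.inr j) : F n m →L[ℝ] ℝ)) x :=
      HasFDerivAt.fun_sum fun j _ => h1 j
    have h3 := (h2.exp).mul_const (q l)
    have h5 : (PiLp.proj 2 (fun _ : Fin n ⊕ Fin m => ℝ) (Sum.inl l) : F n m →L[ℝ] ℝ) ∘L
        (LinearMap.toContinuousLinearMap (AL X q')) =
        q l • Real.exp (∑ j, X l j * x (Sum.inr j)) •
          ∑ j, X l j • (EuclideanSpace.proj (𝕜 := ℝ) (Sum.inr j) : F n m →L[ℝ] ℝ) := by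
      refine ContinuousLinearMap.ext fun w => ?_
      have e1 : (∑ j, X l j • (EuclideanSpace.proj (𝕜 := ℝ) (Sum.inr j) : F n m →L[ℝ] ℝ)) w =
          ∑ j, X l j * w (Sum.inr j) := by
        simp
      show (vec (fun l => (∑ j, X l j * w (Sum.inr j)) * q' l) (fun _ => 0) : F n m) (Sum.inl l) =
        q l * (Real.exp (∑ j, X l j * x (Sum.inr j)) *
          (∑ j, X l j • (EuclideanSpace.proj (𝕜 := ℝ) (Sum.inr j) : F n m →L[ℝ] ℝ)) w)
      rw [vec_inl, ← hq l, e1]
      ring
    exact h5 ▸ h3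
  · simp only [vec_inr]
    have h4 : (EuclideanSpace.proj (𝕜 := ℝ) (Sum.inr j) : F n m →L[ℝ] ℝ) ∘L
        (LinearMap.toContinuousLinearMap (AL X q')) = 0 := by
      ext w
      show (vec (fun l => (∑ j, X l j * w (Sum.inr j)) * q' l) (fun _ => 0) : F n m)
        (Sum.inr j) = 0
      rw [vec_inr]
    rw [h4]
    exact hasFDerivAt_const _ _

theorem oB40 : StOB := by
  intro n m X h hT hX p κ hp hg1 hg2 b μ s hμ hs
  obtain ⟨L, hL, hLw⟩ := fder hT.1 p
  obtain ⟨c, hc⟩ : ∃ c : Fin n → ℝ, ∀ l, c l = Real.exp (∑ j, X l j * s j) :=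
    ⟨_, fun _ => rfl⟩
  have hc0 : ∀ l, c l ≠ 0 := fun l => by rw [hc]; exact (Real.exp_pos _).ne'
  obtain ⟨ξ0, hξ0⟩ : ∃ ξ0 : F n m, ξ0 = vec (fun l => p (Sum.inl l) / c l)
    (fun j => p (Sum.inr j)) := ⟨_, rfl⟩
  have hxr : ∀ (t : ℝ) (j : Fin m), (vec 0 s + t • (μ • vec b 0) : F n m) (Sum.inr j) = s j := by
    intro t j
    simp [vec]
  have hp' : vec (fun l => c l * ξ0 (Sum.inl l)) (fun j => ξ0 (Sum.inr j)) = p := by
    ext i
    rcases i with l | j
    · rw [vec_inl, hξ0, vec_inl]
      field_simp [hc0 l]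
    · rw [vec_inr, hξ0, vec_inr]
  have hH : ∀ t : ℝ, HX X h (vec 0 s + t • (μ • vec b 0)) = fun ξ =>
      h (vec (fun l => c l * ξ (Sum.inl l)) (fun j => ξ (Sum.inr j))) := by
    intro t
    funext ξ
    simp only [HX, hxr, ← hc]
  refine ⟨fun t => vec 0 s + t • (μ • vec b 0), fun _ => ξ0, ?_, ?_, ?_⟩
  · intro t
    refine ⟨?_, ?_⟩
    · have hgr : gradient (HX X h (vec 0 s + t • (μ • vec b 0))) ξ0 = μ • vec b 0 := by
        rw [hH]
        have h1 : HasFDerivAt (fun ξ : F n m => LinearMap.toContinuousLinearMap (BL c) ξ)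
            (LinearMap.toContinuousLinearMap (BL c)) ξ0 :=
          (LinearMap.toContinuousLinearMap (BL c)).hasFDerivAt
        have h2 : LinearMap.toContinuousLinearMap (BL c) ξ0 = p := hp'
        have h3 : HasFDerivAt h L (LinearMap.toContinuousLinearMap (BL c) ξ0) := by
          rw [h2]; exact hL
        have h4 := h3.comp ξ0 h1
        refine grad_of h4 fun w => ?_
        show L (vec (fun l => c l * w (Sum.inl l)) (fun j => w (Sum.inr j))) = _
        rw [hLw, inner_sum, inner_sum]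
        simp only [vec_inl, vec_inr, hg1, hg2, PiLp.smul_apply, smul_eq_mul, Pi.zero_apply,
          mul_zero, zero_mul, Finset.sum_const_zero, add_zero]
        refine Finset.sum_congr rfl fun l _ => ?_
        have := hs l
        rw [← hc] at this
        rw [← this]
        ring
      show HasDerivAt (fun t : ℝ => (vec 0 s + t • (μ • vec b 0) : F n m))
        (gradient (HX X h (vec 0 s + t • (μ • vec b 0))) ξ0) t
      rw [hgr]
      have h4 : HasDerivAt (fun t : ℝ => t • (μ • (vec b 0 : F n m))) ((1 : ℝ) • (μ • vec b 0)) t :=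
        (hasDerivAt_id t).smul_const (μ • (vec b 0 : F n m))
      rw [one_smul] at h4
      exact h4.const_add _
    · have hgr : gradient (fun y : F n m => HX X h y ξ0) (vec 0 s + t • (μ • vec b 0)) = 0 := by
        obtain ⟨y0, hy0⟩ : ∃ y0 : F n m, y0 = vec 0 s + t • (μ • vec b 0) := ⟨_, rfl⟩
        rw [← hy0]
        have hyr : ∀ j, y0 (Sum.inr j) = s j := fun j => by rw [hy0]; exact hxr t j
        have h1 := hasA X (fun l => ξ0 (Sum.inl l)) (fun j => ξ0 (Sum.inr j)) y0
          (fun l => p (Sum.inl l)) (by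
            intro l
            simp only [hyr, ← hc]
            rw [hξ0, vec_inl]
            field_simp [hc0 l])
        have h2 : (vec (fun l => Real.exp (∑ j, X l j * y0 (Sum.inr j)) * ξ0 (Sum.inl l))
            (fun j => ξ0 (Sum.inr j)) : F n m) = p := by
          simp only [hyr, ← hc]
          exact hp'
        have h3 : HasFDerivAt h L (vec (fun l => Real.exp (∑ j, X l j * y0 (Sum.inr j)) *
            ξ0 (Sum.inl l)) (fun j => ξ0 (Sum.inr j)) : F n m) := by
          rw [h2]; exact hL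
        have h4 := h3.comp y0 h1
        refine grad_of h4 fun w => ?_
        show L (vec (fun l => (∑ j, X l j * w (Sum.inr j)) * p (Sum.inl l)) (fun _ => 0)) = _
        rw [hLw, inner_sum, inner_zero_left]
        simp only [vec_inl, vec_inr, hg1, hg2, mul_zero, Finset.sum_const_zero, add_zero]
        have e1 : ∀ l, κ / p (Sum.inl l) * ((∑ j, X l j * w (Sum.inr j)) * p (Sum.inl l)) =
            ∑ j, κ * (X l j * w (Sum.inr j)) := by
          intro l
          rw [← Finset.mul_sum]
          have := hp l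
          field_simp
        rw [Finset.sum_congr rfl fun l _ => e1 l, Finset.sum_comm]
        refine Finset.sum_eq_zero fun j _ => ?_
        rw [← Finset.mul_sum, ← Finset.sum_mul, hX j, zero_mul, mul_zero]
      show HasDerivAt (fun _ : ℝ => ξ0) (-gradient (fun y : F n m => HX X h y ξ0)
        (vec 0 s + t • (μ • vec b 0))) t
      rw [hgr, neg_zero]
      exact hasDerivAt_const t ξ0
  · intro t
    show HX X h (vec 0 s + t • (μ • vec b 0)) ξ0 = h p
    rw [hH]
    show h (vec (fun l => c l * ξ0 (Sum.inl l)) (fun j => ξ0 (Sum.inr j))) = h p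
    rw [hp']
  · intro t
    refine ⟨?_, rfl⟩
    show (vec 0 s + (t + 1 / μ) • (μ • vec b 0) : F n m) =
      vec 0 s + t • (μ • vec b 0) + vec b 0
    rw [add_smul, smul_smul (1 / μ) μ]
    have h3 : 1 / μ * μ = 1 := by field_simp
    rw [h3, one_smul, add_assoc]

end Pool.Agent.Lib.MR.OB40
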