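import Mathlib
import Pool.Agent.Lib.MP_fe6961_an.MR10

/-! Row OB (helper84): the closed orbit. -/

open Filter Matrix

namespace Pool.Agent.Lib.MR.OB84

open Pool.Agent.Lib.MR

variable {n m : ℕ}

theorem inner_eq (x y : F n m) : inner ℝ x y =
    ∑ l, x (Sum.inl l) * y (Sum.inl l) + ∑ j, x (Sum.inr j) * y (Sum.inr j) := by
  simp only [PiLp.inner_apply, RCLike.inner_apply, conj_trivial, Fintype.sum_sum_type]
  congr 1
  · exact Finset.sum_congr rfl fun i _ => mul_comm _ _
  · exact Finset.sum_congr rfl fun i _ => mul_comm _ _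

theorem vec_inl (u : Fin n → ℝ) (s : Fin m → ℝ) (l : Fin n) : (vec u s) (Sum.inl l) = u l := rfl

theorem vec_inr (u : Fin n → ℝ) (s : Fin m → ℝ) (j : Fin m) : (vec u s) (Sum.inr j) = s j := rfl

/-- a diagonal map -/
noncomputable def diag (e : Fin n → ℝ) : F n m →L[ℝ] F n m :=
  LinearMap.toContinuousLinearMap
    { toFun := fun ξ => vec (fun l => e l * ξ (Sum.inl l)) (fun j => ξ (Sum.inr j))
      map_add' := fun x y => by
        ext i
        rcases i with l | j
        · show e l * (x (Sum.inl l) + y (Sum.inl l)) = e l * x (Sum.inl l) + e l * y (Sum.inl l)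
          ring
        · rfl
      map_smul' := fun c x => by
        ext i
        rcases i with l | j
        · show e l * (c * x (Sum.inl l)) = c * (e l * x (Sum.inl l))
          ring
        · rfl }

/-- the linear form `x ↦ (X x)_l` -/
noncomputable def lin (X : Matrix (Fin n) (Fin m) ℝ) (l : Fin n) : F n m →L[ℝ] ℝ :=
  ∑ j, X l j • (EuclideanSpace.proj (𝕜 := ℝ) (Sum.inr j : Fin n ⊕ Fin m) : F n m →L[ℝ] ℝ)

theorem lin_apply (X : Matrix (Fin n) (Fin m) ℝ) (l : Fin n) (x : F n m) :
    lin X l x = ∑ j, X l j * x (Sum.inr j) := by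
  simp [lin, ContinuousLinearMap.sum_apply]

/-- the derivative of the momentum in the direction of the place -/
noncomputable def der (X : Matrix (Fin n) (Fin m) ℝ) (c : Fin n → ℝ) : F n m →L[ℝ] F n m :=
  LinearMap.toContinuousLinearMap
    { toFun := fun y => vec (fun l => c l * lin X l y) (fun _ => 0)
      map_add' := fun x y => by
        ext i
        rcases i with l | j
        · show c l * lin X l (x + y) = c l * lin X l x + c l * lin X l y
          rw [map_add]
          ring
        · show (0 : ℝ) = 0 + 0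
          ring
      map_smul' := fun a x => by
        ext i
        rcases i with l | j
        · show c l * lin X l (a • x) = a * (c l * lin X l x)
          rw [map_smul, smul_eq_mul]
          ring
        · show (0 : ℝ) = a * 0
          ring }

theorem hasder (X : Matrix (Fin n) (Fin m) ℝ) (ξ x : F n m) :
    HasFDerivAt (fun y : F n m => vec (fun l => Real.exp (∑ j, X l j * y (Sum.inr j)) *
      ξ (Sum.inl l)) (fun j => ξ (Sum.inr j)))
      (der X (fun l => Real.exp (∑ j, X l j * x (Sum.inr j)) * ξ (Sum.inl l))) x := by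
  rw [← hasFDerivWithinAt_univ, hasFDerivWithinAt_euclidean]
  intro i
  rw [hasFDerivWithinAt_univ]
  rcases i with l | j
  · have h1 : HasFDerivAt (fun y : F n m => lin X l y) (lin X l) x := (lin X l).hasFDerivAt
    have h2 := (h1.exp).mul_const (ξ (Sum.inl l))
    have h3 : (fun y : F n m => (vec (fun l => Real.exp (∑ j, X l j * y (Sum.inr j)) *
        ξ (Sum.inl l)) (fun j => ξ (Sum.inr j))) (Sum.inl l)) =
        fun y : F n m => Real.exp (lin X l y) * ξ (Sum.inl l) := by
      funext y
      rw [vec_inl, lin_apply]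
    rw [h3]
    refine h2.congr_fderiv ?_
    ext y
    show ξ (Sum.inl l) * (Real.exp (lin X l x) * lin X l y) =
      Real.exp (∑ j, X l j * x (Sum.inr j)) * ξ (Sum.inl l) * lin X l y
    rw [← lin_apply]
    ring
  · refine (hasFDerivAt_const (ξ (Sum.inr j)) x).congr_fderiv ?_
    ext y
    rfl

theorem ob84 : StOB := by
  intro n m X h hT hX p κ hp hg hg0 b μ s hμ hb
  have hdiff : HasFDerivAt h (fderiv ℝ h p) p := (hT.1.differentiable (by simp) p).hasFDerivAt
  have hgv : ∀ v : F n m, fderiv ℝ h p v = ∑ l, κ / p (Sum.inl l) * v (Sum.inl l) := by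
    intro v
    have h1 : fderiv ℝ h p v = inner ℝ (gradient h p) v := by
      rw [gradient]
      exact (InnerProductSpace.toDual_symm_apply).symm
    rw [h1, inner_eq]
    have h2 : ∑ j, gradient h p (Sum.inr j) * v (Sum.inr j) = 0 :=
      Finset.sum_eq_zero fun j _ => by rw [hg0, zero_mul]
    rw [h2, add_zero]
    exact Finset.sum_congr rfl fun l _ => by rw [hg]
  set e : Fin n → ℝ := fun l => Real.exp (∑ j, X l j * s j) with he
  have hepos : ∀ l, 0 < e l := fun l => Real.exp_pos _
  obtain ⟨ξ0, hξ0⟩ : ∃ ξ0 : F n m, ξ0 = vec (fun l => p (Sum.inl l) / e l)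
    (fun j => p (Sum.inr j)) := ⟨_, rfl⟩
  have hL : diag e ξ0 = p := by
    ext i
    rcases i with l | j
    · show e l * ξ0 (Sum.inl l) = p (Sum.inl l)
      rw [hξ0, vec_inl, mul_div_cancel₀ _ (hepos l).ne']
    · show ξ0 (Sum.inr j) = p (Sum.inr j)
      rw [hξ0, vec_inr]
  obtain ⟨V, hV⟩ : ∃ V : F n m, V = μ • vec b 0 := ⟨_, rfl⟩
  have hx : ∀ t : ℝ, ∀ j, (vec 0 s + t • V : F n m) (Sum.inr j) = s j := by
    intro t j
    rw [hV]
    show s j + t * (μ * 0) = s j
    ring
  have hmom : ∀ t : ℝ, ∀ ξ : F n m, HX X h (vec 0 s + t • V) ξ = h (diag e ξ) := by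
    intro t ξ
    unfold HX
    congr 1
    ext i
    rcases i with l | j
    · show Real.exp (∑ j, X l j * (vec 0 s + t • V : F n m) (Sum.inr j)) * ξ (Sum.inl l) =
        e l * ξ (Sum.inl l)
      rw [he]
      simp only [hx]
    · rfl
  refine ⟨fun t => vec 0 s + t • V, fun _ => ξ0, ?_, ?_, fun t => ⟨?_, rfl⟩⟩
  · intro t
    obtain ⟨y0, hy0⟩ : ∃ y0 : F n m, y0 = vec 0 s + t • V := ⟨_, rfl⟩
    refine ⟨?_, ?_⟩
    · have h1 : HasFDerivAt (fun ξ : F n m => h (diag e ξ))
          ((fderiv ℝ h p).comp (diag e)) ξ0 := by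
        refine HasFDerivAt.comp ξ0 ?_ (diag e).hasFDerivAt
        rw [hL]
        exact hdiff
      have h2 : HX X h (vec 0 s + t • V) = fun ξ : F n m => h (diag e ξ) := funext (hmom t)
      have h3 : gradient (HX X h (vec 0 s + t • V)) ξ0 = V := by
        rw [h2, gradient, h1.fderiv]
        refine ext_inner_right ℝ fun v => ?_
        rw [InnerProductSpace.toDual_symm_apply, ContinuousLinearMap.comp_apply, hgv, inner_eq, hV]
        have h4 : ∑ j, (μ • vec b 0 : F n m) (Sum.inr j) * v (Sum.inr j) = 0 :=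
          Finset.sum_eq_zero fun j _ => by
            show (μ * 0) * v (Sum.inr j) = 0
            ring
        rw [h4, add_zero]
        refine Finset.sum_congr rfl fun l _ => ?_
        show κ / p (Sum.inl l) * (e l * v (Sum.inl l)) = μ * b l * v (Sum.inl l)
        rw [← hb l]
        ring
      show HasDerivAt (fun t : ℝ => (vec 0 s + t • V : F n m))
        (gradient (HX X h (vec 0 s + t • V)) ξ0) t
      rw [h3]
      have h4 : HasDerivAt (fun t : ℝ => t • V) ((1 : ℝ) • V) t :=
        (hasDerivAt_id t).smul_const V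
      rw [one_smul] at h4
      exact h4.const_add _
    · have h1 := hasder X ξ0 y0
      have h2 : vec (fun l => Real.exp (∑ j, X l j * y0 (Sum.inr j)) * ξ0 (Sum.inl l))
          (fun j => ξ0 (Sum.inr j)) = p := by
        rw [← hL]
        ext i
        rcases i with l | j
        · show Real.exp (∑ j, X l j * y0 (Sum.inr j)) * ξ0 (Sum.inl l) = e l * ξ0 (Sum.inl l)
          rw [he, hy0]
          simp only [hx]
        · rfl
      have h3 : HasFDerivAt h (fderiv ℝ h p) (vec (fun l => Real.exp (∑ j, X l j *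
          y0 (Sum.inr j)) * ξ0 (Sum.inl l)) (fun j => ξ0 (Sum.inr j))) := by
        rw [h2]
        exact hdiff
      have h4 := h3.comp y0 h1
      have h5 : (fderiv ℝ h p).comp (der X (fun l => Real.exp (∑ j, X l j *
          y0 (Sum.inr j)) * ξ0 (Sum.inl l))) = 0 := by
        ext y
        rw [ContinuousLinearMap.comp_apply, hgv]
        have h6 : ∀ l, κ / p (Sum.inl l) * (der X (fun l => Real.exp (∑ j, X l j *
            y0 (Sum.inr j)) * ξ0 (Sum.inl l)) y) (Sum.inl l) = κ * lin X l y := by
          intro l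
          show κ / p (Sum.inl l) * (Real.exp (∑ j, X l j * y0 (Sum.inr j)) * ξ0 (Sum.inl l) *
            lin X l y) = κ * lin X l y
          have h7 : Real.exp (∑ j, X l j * y0 (Sum.inr j)) * ξ0 (Sum.inl l) = p (Sum.inl l) := by
            have := congrArg (fun z : F n m => z (Sum.inl l)) h2
            exact this
          rw [h7]
          field_simp [hp l]
        rw [Finset.sum_congr rfl fun l _ => h6 l, ← Finset.mul_sum]
        have h8 : ∑ l, lin X l y = 0 := by
          simp only [lin_apply]
          rw [Finset.sum_comm]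
          refine Finset.sum_eq_zero fun j _ => ?_
          rw [← Finset.sum_mul, hX j, zero_mul]
        rw [h8, mul_zero]
        rfl
      rw [h5] at h4
      have hgr : gradient (fun y : F n m => HX X h y ξ0) y0 = 0 := by
        have h9 : HasFDerivAt (fun y : F n m => HX X h y ξ0) (0 : F n m →L[ℝ] ℝ) y0 := h4
        rw [gradient, h9.fderiv, map_zero]
      show HasDerivAt (fun _ : ℝ => ξ0) (-gradient (fun y : F n m => HX X h y ξ0)
        (vec 0 s + t • V)) t
      rw [← hy0, hgr, neg_zero]
      exact hasDerivAt_const t ξ0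
  · intro t
    show HX X h (vec 0 s + t • V) ξ0 = h p
    rw [hmom, hL]
  · show (vec 0 s + (t + 1 / μ) • V : F n m) = vec 0 s + t • V + vec b 0
    have h1 : (1 / μ) • V = vec b 0 := by
      rw [hV, smul_smul, one_div, inv_mul_cancel₀ hμ.ne', one_smul]
    rw [add_smul, h1, add_assoc]

end Pool.Agent.Lib.MR.OB84
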