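import Mathlib
import Pool.Agent.Lib.MP_fe6961_an.TorN53

/-! Row ORB (helper84) in every dimension: the relative equilibrium gives a singularity or a
periodic orbit. -/

open Filter Matrix

namespace Pool.Agent.Lib.TorN.ORB84

open Pool.Agent.Lib.TorN

variable {n : ℕ}

/-- the point `(0, s)` -/
noncomputable def base (n : ℕ) (s : ℝ) : EN n := WithLp.toLp 2 (Fin.snoc (fun _ => (0 : ℝ)) s)

theorem iv_last (w : Fin n → ℤ) : (iv w : EN n) (Fin.last n) = 0 := by
  simp [iv]

theorem last (w : Fin n → ℤ) (s t μ : ℝ) :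
    (base n s + t • (μ • iv w) : EN n) (Fin.last n) = s := by
  have h1 : (base n s : EN n) (Fin.last n) = s := by simp [base]
  rw [PiLp.add_apply, PiLp.smul_apply, PiLp.smul_apply, iv_last, h1]
  simp

theorem orbit (H : ℝ → EN n → ℝ) (w : Fin n → ℤ) (s μ : ℝ) (p : EN n)
    (h1 : HasDerivAt (fun r => H r p) 0 s) (h2 : gradient (H s) p = μ • iv w) :
    IsOrbit (HT H) (fun t => base n s + t • (μ • iv w)) (fun _ => p) := by
  intro t
  obtain ⟨y0, hy0⟩ : ∃ y0 : EN n, y0 = base n s + t • (μ • iv w) := ⟨_, rfl⟩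
  have hy2 : y0 (Fin.last n) = s := by rw [hy0, last]
  refine ⟨?_, ?_⟩
  · show HasDerivAt (fun t : ℝ => (base n s + t • (μ • iv w) : EN n))
      (gradient (HT H (base n s + t • (μ • iv w))) p) t
    have h3 : HT H (base n s + t • (μ • iv w)) = H s := by
      funext ξ
      show H ((base n s + t • (μ • iv w) : EN n) (Fin.last n)) ξ = H s ξ
      rw [last]
    rw [h3, h2]
    have h4 : HasDerivAt (fun t : ℝ => t • (μ • (iv w : EN n))) ((1 : ℝ) • (μ • iv w)) t :=
      (hasDerivAt_id t).smul_const (μ • iv w)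
    rw [one_smul] at h4
    exact h4.const_add _
  · have hproj : HasFDerivAt (fun y : EN n => y (Fin.last n))
        (EuclideanSpace.proj (𝕜 := ℝ) (Fin.last n) : EN n →L[ℝ] ℝ) y0 :=
      (EuclideanSpace.proj (𝕜 := ℝ) (Fin.last n) : EN n →L[ℝ] ℝ).hasFDerivAt
    have hfin : HasFDerivAt (fun y : EN n => HT H y p) (0 : EN n →L[ℝ] ℝ) y0 := by
      have h10 : HasDerivAt (fun r : ℝ => H r p) 0 (y0 (Fin.last n)) := by
        rw [hy2]; exact h1
      have h11 := h10.comp_hasFDerivAt y0 hproj
      rw [zero_smul] at h11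
      exact h11
    have hgr : gradient (fun y : EN n => HT H y p) y0 = 0 := by
      rw [gradient, hfin.fderiv, map_zero]
    show HasDerivAt (fun _ : ℝ => p) (-gradient (fun y : EN n => HT H y p)
      (base n s + t • (μ • iv w))) t
    rw [← hy0, hgr, neg_zero]
    exact hasDerivAt_const t p

theorem ivneg (w : Fin n → ℤ) : (iv (-w) : EN n) = -iv w := by
  ext i
  rw [PiLp.neg_apply]
  refine Fin.lastCases ?_ (fun j => ?_) i
  · rw [iv_last, iv_last, neg_zero]
  · simp [iv]

theorem orbN84 : StORB := by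
  intro n H _ w hw s μ p h1 h2
  have ho := orbit H w s μ p h1 h2
  have hv : ∀ t : ℝ, HT H (base n s + t • (μ • iv w)) p = H s p := by
    intro t
    show H ((base n s + t • (μ • iv w) : EN n) (Fin.last n)) p = H s p
    rw [last]
  by_cases hμ : μ = 0
  · left
    refine ⟨base n s, p, ?_, ?_⟩
    · have := hv 0
      rwa [zero_smul, add_zero] at this
    · rw [hμ] at ho
      simpa using ho
  · right
    refine ⟨fun t => base n s + t • (μ • iv w), fun _ => p, ho, hv, 1 / |μ|,
      by positivity, ?_⟩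
    rcases lt_or_gt_of_ne hμ with h | h
    · refine ⟨-w, neg_ne_zero.mpr hw, fun t => ⟨?_, rfl⟩⟩
      show (base n s + (t + 1 / |μ|) • (μ • iv w) : EN n) =
        base n s + t • (μ • iv w) + iv (-w)
      rw [ivneg, abs_of_neg h, add_smul, smul_smul (1 / -μ) μ]
      have h3 : 1 / -μ * μ = -1 := by field_simp
      rw [h3, neg_one_smul, add_assoc]
    · refine ⟨w, hw, fun t => ⟨?_, rfl⟩⟩
      show (base n s + (t + 1 / |μ|) • (μ • iv w) : EN n) =
        base n s + t • (μ • iv w) + iv w
      rw [abs_of_pos h, add_smul, smul_smul (1 / μ) μ]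
      have h3 : 1 / μ * μ = 1 := by field_simp
      rw [h3, one_smul, add_assoc]

end Pool.Agent.Lib.TorN.ORB84
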