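import Mathlib
import Pool.Agent.Lib.MP_fe6961_an.Tor10

/-! Row POW (helper84): some power of a matrix in `GL(2, ℤ)` has determinant one and is hyperbolic
with positive trace or has a fixed integer vector. -/

open Matrix

namespace Pool.Agent.Lib.Tor.POW84

open Pool.Agent.Lib.Hom Pool.Agent.Lib.Tor

/-- the condition of the theorem on torus bundles -/
def Cond (B : Matrix (Fin 2) (Fin 2) ℤ) : Prop :=
  B.det = 1 ∧ (2 < B.trace ∨ ∃ w : Fin 2 → ℤ, w ≠ 0 ∧ B *ᵥ w = w)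

theorem cayley (B : Matrix (Fin 2) (Fin 2) ℤ) : B ^ 2 = B.trace • B - B.det • 1 := by
  rw [pow_two]
  ext i j
  revert i j
  simp only [Fin.forall_fin_two, Matrix.mul_apply, Fin.sum_univ_two, Matrix.sub_apply,
    Matrix.smul_apply, smul_eq_mul, Matrix.trace_fin_two, Matrix.det_fin_two,
    Matrix.one_apply_eq, Matrix.one_apply_ne (show (0 : Fin 2) ≠ 1 by decide),
    Matrix.one_apply_ne (show (1 : Fin 2) ≠ 0 by decide)]
  refine ⟨⟨?_, ?_⟩, ⟨?_, ?_⟩⟩ <;> ring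

theorem trace_sq (B : Matrix (Fin 2) (Fin 2) ℤ) : (B ^ 2).trace = B.trace ^ 2 - 2 * B.det := by
  rw [pow_two, Matrix.trace_fin_two, Matrix.trace_fin_two, Matrix.det_fin_two, Matrix.mul_apply,
    Matrix.mul_apply, Fin.sum_univ_two, Fin.sum_univ_two]
  ring

/-- trace two: a fixed vector -/
theorem fixed (B : Matrix (Fin 2) (Fin 2) ℤ) (hd : B.det = 1) (ht : B.trace = 2) :
    ∃ w : Fin 2 → ℤ, w ≠ 0 ∧ B *ᵥ w = w := by
  have h1 : (B - 1).det = 0 := by
    rw [Matrix.det_fin_two] at hd ⊢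
    rw [Matrix.trace_fin_two] at ht
    simp only [Matrix.sub_apply, Matrix.one_apply_eq, Matrix.one_apply_ne (show (0 : Fin 2) ≠ 1 by decide),
      Matrix.one_apply_ne (show (1 : Fin 2) ≠ 0 by decide)]
    linear_combination hd - ht
  obtain ⟨w, hw, h2⟩ := Matrix.exists_mulVec_eq_zero_iff.mpr h1
  refine ⟨w, hw, ?_⟩
  rw [Matrix.sub_mulVec, Matrix.one_mulVec, sub_eq_zero] at h2
  exact h2

theorem sl (B : Matrix (Fin 2) (Fin 2) ℤ) (hd : B.det = 1) : ∃ n > 0, Cond (B ^ n) := by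
  have one : ∀ n > 0, B ^ n = 1 → ∃ n > 0, Cond (B ^ n) := by
    intro n hn h
    refine ⟨n, hn, ?_, Or.inr ⟨fun _ => 1, ?_, ?_⟩⟩
    · rw [h, Matrix.det_one]
    · intro h0
      have := congrFun h0 0
      simp at this
    · rw [h, Matrix.one_mulVec]
  have hc := cayley B
  rw [hd, one_smul] at hc
  rcases lt_or_ge 2 B.trace with h | h
  · exact ⟨1, one_pos, by rw [pow_one]; exact ⟨hd, Or.inl h⟩⟩
  rcases lt_or_ge B.trace (-2) with h' | h'
  · refine ⟨2, two_pos, by rw [Matrix.det_pow, hd, one_pow], Or.inl ?_⟩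
    rw [trace_sq, hd]
    nlinarith
  have hcases : B.trace = 2 ∨ B.trace = 1 ∨ B.trace = 0 ∨ B.trace = -1 ∨ B.trace = -2 := by omega
  rcases hcases with h0 | h0 | h0 | h0 | h0
  · exact ⟨1, one_pos, by rw [pow_one]; exact ⟨hd, Or.inr (fixed B hd h0)⟩⟩
  · refine one 6 (by norm_num) ?_
    rw [h0, one_smul] at hc
    have h3 : B ^ 3 = -1 := by
      have : B ^ 3 = B ^ 2 * B := by rw [pow_succ]
      rw [this, hc, sub_mul, one_mul, ← pow_two, hc]
      abel
    have h6 : B ^ 6 = B ^ 3 * B ^ 3 := by rw [← pow_add]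
    rw [h6, h3]
    simp
  · refine one 4 (by norm_num) ?_
    rw [h0, zero_smul, zero_sub] at hc
    have h4 : B ^ 4 = B ^ 2 * B ^ 2 := by rw [← pow_add]
    rw [h4, hc]
    simp
  · refine one 3 (by norm_num) ?_
    rw [h0, neg_smul, one_smul] at hc
    have : B ^ 3 = B ^ 2 * B := by rw [pow_succ]
    rw [this, hc, sub_mul, one_mul, neg_mul, ← pow_two, hc]
    abel
  · refine ⟨2, two_pos, by rw [Matrix.det_pow, hd, one_pow], Or.inr (fixed _ ?_ ?_)⟩
    · rw [Matrix.det_pow, hd, one_pow]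
    · rw [trace_sq, hd, h0]
      norm_num

theorem pow84 (B : Matrix (Fin 2) (Fin 2) ℤ) (hd : B.det = 1 ∨ B.det = -1) :
    ∃ n > 0, (B ^ n).det = 1 ∧
      (2 < (B ^ n).trace ∨ ∃ w : Fin 2 → ℤ, w ≠ 0 ∧ (B ^ n) *ᵥ w = w) := by
  rcases hd with hd | hd
  · exact sl B hd
  · obtain ⟨n, hn, h⟩ := sl (B ^ 2) (by rw [Matrix.det_pow, hd]; norm_num)
    rw [← pow_mul] at h
    exact ⟨2 * n, by positivity, h⟩

theorem re_mul (A B : Matrix (Fin 2) (Fin 2) ℤ) : re (A * B) = re A * re B := by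
  unfold re
  ext i j
  simp [Matrix.mul_apply, Matrix.map_apply]

theorem re_one : re 1 = 1 := by
  unfold re
  ext i j
  fin_cases i <;> fin_cases j <;> simp

theorem pull_mul (M N : Matrix (Fin 2) (Fin 2) ℝ) (ξ : E3) :
    pull N (pull M ξ) = pull (M * N) ξ := by
  ext i
  fin_cases i <;> simp [pull, Matrix.mul_apply, Fin.sum_univ_two] <;> ring

theorem pull_one (ξ : E3) : pull 1 ξ = ξ := by
  ext i
  fin_cases i <;> simp [pull]

theorem iter84 (H : ℝ → E3 → ℝ) (B : Matrix (Fin 2) (Fin 2) ℤ)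
    (h : ∀ s ξ, H (s + 1) ξ = H s (pull (re B) ξ)) (n : ℕ) (s : ℝ) (ξ : E3) :
    H (s + n) ξ = H s (pull (re (B ^ n)) ξ) := by
  induction n generalizing s ξ with
  | zero => simp [re_one, pull_one]
  | succ n ih =>
    have h1 : s + ((n + 1 : ℕ) : ℝ) = (s + n) + 1 := by push_cast; ring
    rw [h1, h, ih, pull_mul, ← re_mul, pow_succ']

end Pool.Agent.Lib.Tor.POW84
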