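import Pool.Agent.Lib.MP_fe6961_an.TorN53

/-! Torus bundles of every dimension, row PUL: the calculus of `pull`. -/

open Filter Matrix

namespace Pool.Agent.Lib.TorN

theorem iv_castSucc {n : ℕ} (w : Fin n → ℤ) (i : Fin n) : iv w (Fin.castSucc i) = (w i : ℝ) := by
  simp [iv]

theorem iv_last {n : ℕ} (w : Fin n → ℤ) : iv w (Fin.last n) = 0 := by
  simp [iv]

theorem pull_castSucc {n : ℕ} (B : Matrix (Fin n) (Fin n) ℤ) (ξ : EN n) (i : Fin n) :
    pull B ξ (Fin.castSucc i) = ∑ j, (B j i : ℝ) * ξ (Fin.castSucc j) := by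
  simp [pull]

theorem pull_last {n : ℕ} (B : Matrix (Fin n) (Fin n) ℤ) (ξ : EN n) :
    pull B ξ (Fin.last n) = ξ (Fin.last n) := by
  simp [pull]

theorem inner_iv95 {n : ℕ} (w : Fin n → ℤ) (ξ : EN n) :
    inner ℝ (iv w) ξ = ∑ i, (w i : ℝ) * ξ (Fin.castSucc i) := by
  rw [PiLp.inner_apply, Fin.sum_univ_castSucc]
  simp only [iv_castSucc, iv_last, RCLike.inner_apply, conj_trivial, mul_zero, add_zero]
  exact Finset.sum_congr rfl fun i _ => mul_comm _ _

theorem pul95 : StPUL := by
  intro n
  refine ⟨?_, ?_, ?_, inner_iv95, ?_⟩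
  · intro ξ
    ext i
    refine Fin.lastCases ?_ (fun i => ?_) i
    · exact pull_last 1 ξ
    · rw [pull_castSucc, Finset.sum_eq_single i]
      · rw [Matrix.one_apply_eq]
        push_cast
        ring
      · intro j _ hj
        rw [Matrix.one_apply_ne hj]
        push_cast
        ring
      · intro h
        exact absurd (Finset.mem_univ i) h
  · intro M N ξ
    ext i
    refine Fin.lastCases ?_ (fun i => ?_) i
    · rw [pull_last, pull_last, pull_last]
    · rw [pull_castSucc, pull_castSucc]
      simp only [pull_castSucc, Matrix.mul_apply]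
      push_cast
      simp only [Finset.mul_sum, Finset.sum_mul]
      rw [Finset.sum_comm]
      exact Finset.sum_congr rfl fun l _ => Finset.sum_congr rfl fun j _ => by ring
  · intro M w ξ
    rw [inner_iv95, inner_iv95]
    simp only [pull_castSucc, Matrix.mulVec, dotProduct]
    push_cast
    simp only [Finset.mul_sum, Finset.sum_mul]
    rw [Finset.sum_comm]
    exact Finset.sum_congr rfl fun l _ => Finset.sum_congr rfl fun j _ => by ring
  · intro w hw h
    apply hw
    funext i
    have h1 : (w i : ℝ) = (0 : ℝ) := by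
      rw [← iv_castSucc, h]
      rfl
    exact Int.cast_eq_zero.mp h1

end Pool.Agent.Lib.TorN
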