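import Mathlib
import Pool.Agent.Lib.MP_fe6961_an.Hom10

/-! Row RAT (helper53): a rational direction. -/

open Filter Matrix

namespace Pool.Agent.Lib.Hom.RAT53

theorem rat53 : StRAT := by
  rintro R D ⟨hR0, hdet, hder⟩ v hv
  -- the function omega(v, R s v)
  have hF : ∃ s0, v 0 * (R s0 1 0 * v 0 + R s0 1 1 * v 1) -
      v 1 * (R s0 0 0 * v 0 + R s0 0 1 * v 1) ≠ 0 := by
    by_contra hcon
    push Not at hcon
    have h1 : HasDerivAt (fun s => v 0 * (R s 1 0 * v 0 + R s 1 1 * v 1) -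
        v 1 * (R s 0 0 * v 0 + R s 0 1 * v 1))
        (v 0 * ((R 0 * D) 1 0 * v 0 + (R 0 * D) 1 1 * v 1) -
        v 1 * ((R 0 * D) 0 0 * v 0 + (R 0 * D) 0 1 * v 1)) 0 :=
      ((((hder 0 1 0).mul_const _).add ((hder 0 1 1).mul_const _)).const_mul _).sub
        ((((hder 0 0 0).mul_const _).add ((hder 0 0 1).mul_const _)).const_mul _)
    have h2 : (fun s => v 0 * (R s 1 0 * v 0 + R s 1 1 * v 1) -
        v 1 * (R s 0 0 * v 0 + R s 0 1 * v 1)) = fun _ => (0 : ℝ) := funext hcon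
    rw [h2, hR0, Matrix.one_mul] at h1
    have h3 := h1.unique (hasDerivAt_const (0 : ℝ) (0 : ℝ))
    apply hv
    simp only [Matrix.mulVec, dotProduct, Fin.sum_univ_two]
    exact h3
  obtain ⟨s0, hs0⟩ := hF
  obtain ⟨a, ha⟩ : ∃ a, a = R s0 0 0 * v 0 + R s0 0 1 * v 1 := ⟨_, rfl⟩
  obtain ⟨b, hb⟩ : ∃ b, b = R s0 1 0 * v 0 + R s0 1 1 * v 1 := ⟨_, rfl⟩
  rw [← ha, ← hb] at hs0
  obtain ⟨F, hFd⟩ : ∃ F, F = v 0 * b - v 1 * a := ⟨_, rfl⟩
  rw [← hFd] at hs0
  -- the integer vector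
  obtain ⟨N, hN⟩ := exists_nat_gt ((|v 0| + |v 1| + |a| + |b|) / |F|)
  have hFpos : 0 < |F| := abs_pos.2 hs0
  rw [div_lt_iff₀ hFpos] at hN
  obtain ⟨e0, he0, he0'⟩ : ∃ e0 : ℝ, (round (N * (v 0 + a)) : ℝ) = N * (v 0 + a) + e0 ∧
      |e0| ≤ 1 := ⟨(round (N * (v 0 + a)) : ℝ) - N * (v 0 + a), by ring, by
        rw [abs_sub_comm]
        exact (abs_sub_round _).trans (by norm_num)⟩
  obtain ⟨e1, he1, he1'⟩ : ∃ e1 : ℝ, (round (N * (v 1 + b)) : ℝ) = N * (v 1 + b) + e1 ∧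
      |e1| ≤ 1 := ⟨(round (N * (v 1 + b)) : ℝ) - N * (v 1 + b), by ring, by
        rw [abs_sub_comm]
        exact (abs_sub_round _).trans (by norm_num)⟩
  set w0 : ℤ := round (N * (v 0 + a)) with hw0
  set w1 : ℤ := round (N * (v 1 + b)) with hw1
  have hb1 : |v 0 * e1 - v 1 * e0| ≤ |v 0| + |v 1| := by
    calc |v 0 * e1 - v 1 * e0| ≤ |v 0 * e1| + |v 1 * e0| := abs_sub _ _
      _ ≤ |v 0| + |v 1| := by
          rw [abs_mul, abs_mul]
          exact add_le_add (mul_le_of_le_one_right (abs_nonneg _) he1')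
            (mul_le_of_le_one_right (abs_nonneg _) he0')
  have hb2 : |a * e1 - b * e0| ≤ |a| + |b| := by
    calc |a * e1 - b * e0| ≤ |a * e1| + |b * e0| := abs_sub _ _
      _ ≤ |a| + |b| := by
          rw [abs_mul, abs_mul]
          exact add_le_add (mul_le_of_le_one_right (abs_nonneg _) he1')
            (mul_le_of_le_one_right (abs_nonneg _) he0')
  have hA : v 0 * (w1 : ℝ) - v 1 * w0 = N * F + (v 0 * e1 - v 1 * e0) := by
    rw [he0, he1, hFd]; ring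
  have hB : a * (w1 : ℝ) - b * w0 = -(N * F) + (a * e1 - b * e0) := by
    rw [he0, he1, hFd]; ring
  -- the function G
  have hcont : ∀ i j, Continuous fun s => R s i j := fun i j =>
    continuous_iff_continuousAt.2 fun s => (hder s i j).continuousAt
  have hG : Continuous fun s => (R s 0 0 * v 0 + R s 0 1 * v 1) * (w1 : ℝ) -
      (R s 1 0 * v 0 + R s 1 1 * v 1) * w0 := by
    have h00 := hcont 0 0
    have h01 := hcont 0 1
    have h10 := hcont 1 0
    have h11 := hcont 1 1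
    fun_prop
  have hG0 : (R 0 0 0 * v 0 + R 0 0 1 * v 1) * (w1 : ℝ) -
      (R 0 1 0 * v 0 + R 0 1 1 * v 1) * w0 = v 0 * (w1 : ℝ) - v 1 * w0 := by
    rw [hR0]
    simp
  have hGs : (R s0 0 0 * v 0 + R s0 0 1 * v 1) * (w1 : ℝ) -
      (R s0 1 0 * v 0 + R s0 1 1 * v 1) * w0 = a * (w1 : ℝ) - b * w0 := by
    rw [← ha, ← hb]
  have hb1' := abs_le.1 hb1
  have hb2' := abs_le.1 hb2
  have habs1 := abs_nonneg a
  have habs2 := abs_nonneg b
  have habs3 := abs_nonneg (v 0)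
  have habs4 := abs_nonneg (v 1)
  have hne : v 0 * (w1 : ℝ) - v 1 * w0 ≠ 0 := by
    rw [hA]
    intro h
    rcases abs_cases F with ⟨hc, -⟩ | ⟨hc, -⟩ <;> rw [hc] at hN <;> nlinarith
  have hroot : ∃ s, (R s 0 0 * v 0 + R s 0 1 * v 1) * (w1 : ℝ) -
      (R s 1 0 * v 0 + R s 1 1 * v 1) * w0 = 0 := by
    have hmem : (0 : ℝ) ∈ Set.range fun s => (R s 0 0 * v 0 + R s 0 1 * v 1) * (w1 : ℝ) -
        (R s 1 0 * v 0 + R s 1 1 * v 1) * w0 := by
      rcases abs_cases F with ⟨hc, -⟩ | ⟨hc, -⟩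
      · rw [hc] at hN
        refine mem_range_of_exists_le_of_exists_ge hG ⟨s0, ?_⟩ ⟨0, ?_⟩
        · rw [hGs, hB]; nlinarith
        · rw [hG0, hA]; nlinarith
      · rw [hc] at hN
        refine mem_range_of_exists_le_of_exists_ge hG ⟨0, ?_⟩ ⟨s0, ?_⟩
        · rw [hG0, hA]; nlinarith
        · rw [hGs, hB]; nlinarith
    obtain ⟨s, hs⟩ := hmem
    exact ⟨s, hs⟩
  obtain ⟨s, hs⟩ := hroot
  have hw : (![w0, w1] : Fin 2 → ℤ) ≠ 0 := by
    intro h
    have h0 : w0 = 0 := by simpa using congrFun h 0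
    have h1 : w1 = 0 := by simpa using congrFun h 1
    apply hne
    rw [h0, h1]
    simp
  obtain ⟨x, hx⟩ : ∃ x, x = R s 0 0 * v 0 + R s 0 1 * v 1 := ⟨_, rfl⟩
  obtain ⟨y, hy⟩ : ∃ y, y = R s 1 0 * v 0 + R s 1 1 * v 1 := ⟨_, rfl⟩
  rw [← hx, ← hy] at hs
  have hxy : ¬ (x = 0 ∧ y = 0) := by
    rintro ⟨h0, h1⟩
    have hd := hdet s
    rw [Matrix.det_fin_two] at hd
    have hv0 : v 0 = 0 := by
      have : v 0 = (R s 0 0 * R s 1 1 - R s 0 1 * R s 1 0) * v 0 := by rw [hd, one_mul]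
      rw [this]
      linear_combination (R s 1 1) * (h0 - hx) - (R s 0 1) * (h1 - hy)
    have hv1 : v 1 = 0 := by
      have : v 1 = (R s 0 0 * R s 1 1 - R s 0 1 * R s 1 0) * v 1 := by rw [hd, one_mul]
      rw [this]
      linear_combination (R s 0 0) * (h1 - hy) - (R s 1 0) * (h0 - hx)
    apply hs0
    rw [hFd, hv0, hv1]
    ring
  have hfin : ∃ c : ℝ, x = c * w0 ∧ y = c * w1 := by
    by_cases h0 : w0 = 0
    · have h1 : (w1 : ℝ) ≠ 0 := by
        intro h1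
        apply hw
        have : w1 = 0 := by exact_mod_cast h1
        rw [h0, this]
        ext i
        fin_cases i <;> rfl
      rw [h0] at hs ⊢
      refine ⟨y / w1, ?_, ?_⟩
      · have : x * (w1 : ℝ) = 0 := by simpa using hs
        rcases mul_eq_zero.1 this with h2 | h2
        · simp [h2]
        · exact absurd h2 h1
      · field_simp
    · have h1 : (w0 : ℝ) ≠ 0 := by exact_mod_cast h0
      refine ⟨x / w0, ?_, ?_⟩
      · field_simp
      · field_simp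
        linarith
  obtain ⟨c, hc0, hc1⟩ := hfin
  refine ⟨s, c, ![w0, w1], ?_, hw, ?_⟩
  · rintro rfl
    exact hxy ⟨by rw [hc0]; ring, by rw [hc1]; ring⟩
  · ext i
    fin_cases i
    · simp only [Matrix.mulVec, dotProduct, Fin.sum_univ_two]
      simpa [← hx] using hc0
    · simp only [Matrix.mulVec, dotProduct, Fin.sum_univ_two]
      simpa [← hy] using hc1

end Pool.Agent.Lib.Hom.RAT53
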