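import Pool.Agent.Lib.MP_fe6961_an.Tor10

/-! Torus bundles: row SA (helper81). -/

open Filter Matrix

namespace Pool.Agent.Lib.Tor

open Pool.Agent.Lib.Hom

namespace S81

theorem inn (w : Fin 2 → ℤ) (ξ : E3) :
    inner ℝ (iv w) ξ = (w 0 : ℝ) * ξ 0 + (w 1 : ℝ) * ξ 1 := by
  simp [PiLp.inner_apply, Fin.sum_univ_three, iv]
  ring

theorem pull0 (M : Matrix (Fin 2) (Fin 2) ℝ) (ξ : E3) :
    pull M ξ 0 = M 0 0 * ξ 0 + M 1 0 * ξ 1 := by simp [pull]

theorem pull1 (M : Matrix (Fin 2) (Fin 2) ℝ) (ξ : E3) :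
    pull M ξ 1 = M 0 1 * ξ 0 + M 1 1 * ξ 1 := by simp [pull]

end S81

open S81

theorem sa81 : StSA := by
  intro B hdet htr O hO hne
  obtain ⟨ξ₀, hξ₀⟩ := hne
  set p : ℝ := (B 0 0 : ℝ) with hp
  set q : ℝ := (B 0 1 : ℝ) with hq
  set r : ℝ := (B 1 0 : ℝ) with hr
  set u : ℝ := (B 1 1 : ℝ) with hu
  have hdetZ : B 0 0 * B 1 1 - B 0 1 * B 1 0 = 1 := by
    rw [← hdet, Matrix.det_fin_two]
  have htrZ : 2 < B 0 0 + B 1 1 := by
    have := htr
    rwa [Matrix.trace_fin_two] at this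
  have ht3 : (3 : ℝ) ≤ p + u := by
    have h1 : (3 : ℤ) ≤ B 0 0 + B 1 1 := by omega
    rw [hp, hu]
    exact_mod_cast h1
  have hd : p * u - q * r = 1 := by
    rw [hp, hq, hr, hu]
    exact_mod_cast hdetZ
  -- a direction on which the quadratic form does not vanish
  obtain ⟨e0, e1, he⟩ : ∃ e0 e1 : ℝ, q * e0 ^ 2 + (u - p) * (e0 * e1) - r * e1 ^ 2 ≠ 0 := by
    by_contra hcon
    push Not at hcon
    have h1 := hcon 1 0
    have h2 := hcon 0 1
    have h3 := hcon 1 1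
    have h4 : q = 0 := by linarith
    have h5 : r = 0 := by linarith
    have h6 : u = p := by rw [h4, h5] at h3; linarith
    rw [h4, h6] at hd
    have h7 : (3 : ℝ) ≤ p + p := by rw [h6] at ht3; exact ht3
    nlinarith
  set e : E3 := !₂[e0, e1, 0] with hedef
  have hcont : Continuous fun t : ℝ => ξ₀ + t • e := by fun_prop
  obtain ⟨ε, hε, hball⟩ := Metric.isOpen_iff.1 (hO.preimage hcont) 0
    (by simpa using hξ₀)
  have hin : ∀ t : ℝ, |t| < ε → ξ₀ + t • e ∈ O := by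
    intro t ht
    apply hball
    simpa [Metric.mem_ball, Real.dist_eq] using ht
  set Q : E3 → ℝ := fun ξ => q * ξ 0 ^ 2 + (u - p) * (ξ 0 * ξ 1) - r * ξ 1 ^ 2 with hQ
  obtain ⟨ξ, hξO, hξ⟩ : ∃ ξ ∈ O, Q ξ ≠ 0 := by
    by_contra hcon
    push Not at hcon
    have h0 := hcon _ (hin 0 (by simpa using hε))
    have h1 := hcon _ (hin (ε / 4) (by rw [abs_of_pos (by positivity)]; linarith))
    have h2 := hcon _ (hin (ε / 2) (by rw [abs_of_pos (by positivity)]; linarith))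
    simp only [hQ, hedef, PiLp.add_apply, PiLp.smul_apply, smul_eq_mul, Matrix.cons_val_zero,
      Matrix.cons_val_one] at h0 h1 h2
    apply he
    have h3 : (ε / 4) ^ 2 * (2 * (q * e0 ^ 2 + (u - p) * (e0 * e1) - r * e1 ^ 2)) = 0 := by
      linear_combination h0 - 2 * h1 + h2
    have h4 : (ε / 4) ^ 2 ≠ 0 := by positivity
    rcases mul_eq_zero.1 h3 with h5 | h5
    · exact absurd h5 h4
    · linarith
  set α0 : ℝ := ξ 0 with hα0
  set α1 : ℝ := ξ 1 with hα1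
  set β0 : ℝ := p * α0 + r * α1 with hβ0
  set β1 : ℝ := q * α0 + u * α1 with hβ1
  set t : ℝ := p + u with ht
  have hD : α0 * β1 - α1 * β0 ≠ 0 := by
    have h1 : Q ξ = α0 * β1 - α1 * β0 := by
      simp only [hQ, hβ0, hβ1]
      ring
    rwa [h1] at hξ
  set D : ℝ := α0 * β1 - α1 * β0 with hDdef
  set v0 : ℝ := (2 * β1 - t * α1) / D with hv0
  set v1 : ℝ := (t * α0 - 2 * β0) / D with hv1
  have hva : v0 * α0 + v1 * α1 = 2 := by
    rw [hv0, hv1]
    field_simp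
    rw [hDdef]
    ring
  have hvb : v0 * β0 + v1 * β1 = t := by
    rw [hv0, hv1]
    field_simp
    rw [hDdef]
    ring
  set N : ℝ := t * (|α0| + |α1|) + (|β0| + |β1|) + 1 with hN
  set w : Fin 2 → ℤ := ![round (N * v0), round (N * v1)] with hw
  have hw0 : |N * v0 - (w 0 : ℝ)| ≤ 1 / 2 := by simpa [hw] using abs_sub_round (N * v0)
  have hw1 : |N * v1 - (w 1 : ℝ)| ≤ 1 / 2 := by simpa [hw] using abs_sub_round (N * v1)
  have bd : ∀ x y : ℝ, |((w 0 : ℝ) * x + (w 1 : ℝ) * y) - N * (v0 * x + v1 * y)| ≤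
      (|x| + |y|) / 2 := by
    intro x y
    have h1 : ((w 0 : ℝ) * x + (w 1 : ℝ) * y) - N * (v0 * x + v1 * y) =
        -((N * v0 - (w 0 : ℝ)) * x + (N * v1 - (w 1 : ℝ)) * y) := by ring
    rw [h1, abs_neg]
    refine (abs_add_le _ _).trans ?_
    rw [abs_mul, abs_mul]
    have h2 := mul_le_mul_of_nonneg_right hw0 (abs_nonneg x)
    have h3 := mul_le_mul_of_nonneg_right hw1 (abs_nonneg y)
    linarith
  have ba := bd α0 α1
  have bb := bd β0 β1
  rw [hva] at ba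
  rw [hvb] at bb
  rw [abs_le] at ba bb
  have hapos : 0 ≤ |α0| + |α1| := by positivity
  have hbpos : 0 ≤ |β0| + |β1| := by positivity
  set a : ℝ := |α0| + |α1| with ha
  set b : ℝ := |β0| + |β1| with hb
  set y0 : ℝ := (w 0 : ℝ) * α0 + (w 1 : ℝ) * α1 with hy0
  set y1 : ℝ := (w 0 : ℝ) * β0 + (w 1 : ℝ) * β1 with hy1
  have hta : 3 * a ≤ t * a := mul_le_mul_of_nonneg_right ht3 hapos
  have hNpos : 0 < N := by rw [hN]; nlinarith
  have hNt : N ≤ N * (t - 2) := by nlinarith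
  have g0 : 0 < y0 := by linarith [ba.1]
  have g1 : y0 < y1 := by
    have h1 : N * t - N * 2 = N * (t - 2) := by ring
    have := ba.2
    have := bb.1
    nlinarith
  have g2 : y0 < t * y0 - y1 := by
    have h1 := ba.1
    have h2 := bb.2
    have h3 : (t - 1) * (N * 2 - a / 2) ≤ (t - 1) * y0 :=
      mul_le_mul_of_nonneg_left (by linarith) (by linarith)
    have h4 : (t - 1) * (N * 2 - a / 2) = 2 * N * (t - 2) + 2 * N - (t * a - a) / 2 := by ring
    have h5 : N * t = N * (t - 2) + 2 * N := by ring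
    have h6 : (t - 1) * y0 = t * y0 - y0 := by ring
    have h7 : 2 * N * (t - 2) = N * (t - 2) + N * (t - 2) := by ring
    linarith
  refine ⟨ξ, hξO, w, ?_, ?_, ?_, ?_⟩
  · rintro h
    rw [hy0, h] at g0
    simp at g0
  · rw [inn]
    exact g0
  · rw [inn, inn, pull0, pull1]
    have h1 : (re B) 0 0 = p := rfl
    have h2 : (re B) 1 0 = r := rfl
    have h3 : (re B) 0 1 = q := rfl
    have h4 : (re B) 1 1 = u := rfl
    rw [h1, h2, h3, h4]
    exact g1
  · rw [inn, inn, pull0, pull1]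
    have h1 : (re B.adjugate) 0 0 = u := by simp [re, Matrix.adjugate_fin_two, hu]
    have h2 : (re B.adjugate) 1 0 = -r := by simp [re, Matrix.adjugate_fin_two, hr]
    have h3 : (re B.adjugate) 0 1 = -q := by simp [re, Matrix.adjugate_fin_two, hq]
    have h4 : (re B.adjugate) 1 1 = p := by simp [re, Matrix.adjugate_fin_two, hp]
    rw [h1, h2, h3, h4]
    have h5 : (w 0 : ℝ) * (u * ξ 0 + -r * ξ 1) + (w 1 : ℝ) * (-q * ξ 0 + p * ξ 1) =
        t * y0 - y1 := by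
      rw [hy0, hy1, hβ0, hβ1, ht]
      ring
    rw [h5]
    exact g2

end Pool.Agent.Lib.Tor
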