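import Mathlib
import Pool.Agent.Lib.MP_fe6961_an.Tor10

/-! SA: choice of the integer vector for a hyperbolic matrix. -/

open Filter Matrix

namespace Pool.Agent.Lib.Tor

open Pool.Agent.Lib.Hom

theorem inner_iv82 (w : Fin 2 → ℤ) (η : E3) :
    inner ℝ (iv w) η = (w 0 : ℝ) * η 0 + (w 1 : ℝ) * η 1 := by
  simp [iv, PiLp.inner_apply, Fin.sum_univ_three]
  ring

theorem pull0_82 (M : Matrix (Fin 2) (Fin 2) ℝ) (ξ : E3) :
    pull M ξ 0 = M 0 0 * ξ 0 + M 1 0 * ξ 1 := by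
  simp [pull]

theorem pull1_82 (M : Matrix (Fin 2) (Fin 2) ℝ) (ξ : E3) :
    pull M ξ 1 = M 0 1 * ξ 0 + M 1 1 * ξ 1 := by
  simp [pull]

theorem round82 (v0 v1 a0 a1 : ℝ) :
    |((round v0 : ℤ) : ℝ) * a0 + ((round v1 : ℤ) : ℝ) * a1 - (v0 * a0 + v1 * a1)|
      ≤ |a0| + |a1| := by
  have h0 := abs_sub_round v0
  have h1 := abs_sub_round v1
  have e : ((round v0 : ℤ) : ℝ) * a0 + ((round v1 : ℤ) : ℝ) * a1 - (v0 * a0 + v1 * a1)
      = -((v0 - ((round v0 : ℤ) : ℝ)) * a0) + -((v1 - ((round v1 : ℤ) : ℝ)) * a1) := by ring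
  rw [e]
  refine (abs_add_le _ _).trans ?_
  rw [abs_neg, abs_neg, abs_mul, abs_mul]
  have := abs_nonneg a0
  have := abs_nonneg a1
  nlinarith [abs_nonneg a0, abs_nonneg a1]

theorem SA82 : StSA := by
  intro B hdet htr O hO hne
  obtain ⟨ξs, hξs⟩ := hne
  obtain ⟨ε, hε, hball⟩ := Metric.isOpen_iff.mp hO ξs hξs
  have hd : B 0 0 * B 1 1 - B 0 1 * B 1 0 = 1 := by rw [← Matrix.det_fin_two]; exact hdet
  have ht : 3 ≤ B 0 0 + B 1 1 := by
    have := htr
    rw [Matrix.trace_fin_two] at this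
    omega
  have hb : B 0 1 ≠ 0 := by
    intro h0
    rw [h0] at hd
    have h1 : B 0 0 * B 1 1 = 1 := by linarith
    rcases Int.mul_eq_one_iff_eq_one_or_neg_one.mp h1 with ⟨h2, h3⟩ | ⟨h2, h3⟩ <;> omega
  have hbr : ((B 0 1 : ℤ) : ℝ) ≠ 0 := by exact_mod_cast hb
  have htr' : (3 : ℝ) ≤ ((B 0 0 : ℤ) : ℝ) + ((B 1 1 : ℤ) : ℝ) := by exact_mod_cast ht
  -- the quadratic form
  obtain ⟨ξ, hξO, hq⟩ : ∃ ξ ∈ O, ξ 0 * ((B 0 1 : ℝ) * ξ 0 + (B 1 1 : ℝ) * ξ 1)
      - ξ 1 * ((B 0 0 : ℝ) * ξ 0 + (B 1 0 : ℝ) * ξ 1) ≠ 0 := by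
    by_contra hcon
    push Not at hcon
    have hmem : ∀ τ : ℝ, |τ| < ε → ξs + EuclideanSpace.single (0 : Fin 3) τ ∈ O := by
      intro τ hτ
      apply hball
      rw [Metric.mem_ball, dist_eq_norm, add_sub_cancel_left]
      simpa using hτ
    have hτ1 : |ε / 2| < ε := by rw [abs_of_pos (by linarith)]; linarith
    have hτ2 : |-(ε / 2)| < ε := by rw [abs_neg]; exact hτ1
    have h0 := hcon ξs hξs
    have h1 := hcon _ (hmem _ hτ1)
    have h2 := hcon _ (hmem _ hτ2)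
    simp at h1 h2
    have h3 : 2 * (B 0 1 : ℝ) * (ε / 2) ^ 2 = 0 := by linear_combination h1 + h2 - 2 * h0
    have h4 : (ε / 2) ^ 2 ≠ 0 := by positivity
    exact hbr (by
      rcases mul_eq_zero.mp h3 with h | h
      · linarith
      · exact absurd h h4)
  -- the real vector
  set p : ℝ := ((B 0 0 : ℤ) : ℝ) with hp
  set q : ℝ := ((B 0 1 : ℤ) : ℝ) with hqq
  set r : ℝ := ((B 1 0 : ℤ) : ℝ) with hr
  set s : ℝ := ((B 1 1 : ℤ) : ℝ) with hs
  set a0 := ξ 0 with ha0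
  set a1 := ξ 1 with ha1
  set b0 := p * a0 + r * a1 with hb0
  set b1 := q * a0 + s * a1 with hb1
  set c0 := s * a0 - r * a1 with hc0
  set c1 := -q * a0 + p * a1 with hc1
  set D := a0 * b1 - a1 * b0 with hD
  set K := |a0| + |a1| + (|b0| + |b1|) + (|c0| + |c1|) + 1 with hK
  have hK1 : 1 ≤ K := by
    have := abs_nonneg a0
    have := abs_nonneg a1
    have := abs_nonneg b0
    have := abs_nonneg b1
    have := abs_nonneg c0
    have := abs_nonneg c1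
    linarith
  set v0 := K * ((2 * b1 - (p + s) * a1) / D) with hv0
  set v1 := K * ((-2 * b0 + (p + s) * a0) / D) with hv1
  have ea : v0 * a0 + v1 * a1 = 2 * K := by
    rw [hv0, hv1]
    field_simp
    rw [hD]
    ring
  have eb : v0 * b0 + v1 * b1 = (p + s) * K := by
    rw [hv0, hv1]
    field_simp
    rw [hD]
    ring
  have ec : v0 * c0 + v1 * c1 = (p + s) * K := by
    have h1 : c0 = (p + s) * a0 - b0 := by rw [hc0, hb0]; ring
    have h2 : c1 = (p + s) * a1 - b1 := by rw [hc1, hb1]; ring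
    rw [h1, h2]
    linear_combination (p + s) * ea - eb
  have ra := abs_le.mp (round82 v0 v1 a0 a1)
  have rb := abs_le.mp (round82 v0 v1 b0 b1)
  have rc := abs_le.mp (round82 v0 v1 c0 c1)
  rw [ea] at ra
  rw [eb] at rb
  rw [ec] at rc
  have hnn : 0 ≤ |a0| ∧ 0 ≤ |a1| ∧ 0 ≤ |b0| ∧ 0 ≤ |b1| ∧ 0 ≤ |c0| ∧ 0 ≤ |c1| :=
    ⟨abs_nonneg _, abs_nonneg _, abs_nonneg _, abs_nonneg _, abs_nonneg _, abs_nonneg _⟩
  obtain ⟨n1, n2, n3, n4, n5, n6⟩ := hnn
  have hmul : 3 * K ≤ (p + s) * K := mul_le_mul_of_nonneg_right htr' (by linarith)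
  refine ⟨ξ, hξO, ![round v0, round v1], ?_, ?_, ?_, ?_⟩
  · intro hw
    have h1 : round v0 = 0 := by simpa using congrFun hw 0
    have h2 : round v1 = 0 := by simpa using congrFun hw 1
    rw [h1, h2] at ra
    simp at ra
    linarith [ra.1, ra.2]
  · rw [inner_iv82]
    simp only [Matrix.cons_val_zero, Matrix.cons_val_one]
    linarith [ra.1]
  · rw [inner_iv82, inner_iv82, pull0_82, pull1_82]
    simp only [Matrix.cons_val_zero, Matrix.cons_val_one, re, Matrix.map_apply]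
    have h := rb.1
    have h' := ra.2
    linarith
  · rw [inner_iv82, inner_iv82, pull0_82, pull1_82]
    simp only [Matrix.cons_val_zero, Matrix.cons_val_one, re, Matrix.map_apply,
      Matrix.adjugate_fin_two, Matrix.of_apply, Matrix.cons_val', Matrix.cons_val_fin_one]
    push_cast
    have h := rc.1
    have h' := ra.2
    have e0 : s * a0 + -r * a1 = c0 := by rw [hc0]; ring
    have e1 : -q * a0 + p * a1 = c1 := by rw [hc1]
    rw [← hs, ← hr, ← hqq, ← hp, ← ha0, ← ha1, e0]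
    linarith

end Pool.Agent.Lib.Tor
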