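import Pool.Agent.Lib.MP_fe6961_an.Tor10

/-! Torus bundles, row SB: growth in both directions. -/

open Filter Matrix

namespace Pool.Agent.Lib.Tor

open Pool.Agent.Lib.Hom

theorem iv_inner (w : Fin 2 → ℤ) (ξ : E3) :
    inner ℝ (iv w) ξ = (w 0 : ℝ) * ξ 0 + (w 1 : ℝ) * ξ 1 := by
  simp [iv, PiLp.inner_apply, Fin.sum_univ_three]
  ring

theorem pull_rec (w : Fin 2 → ℤ) (M : Matrix (Fin 2) (Fin 2) ℝ) (hd : M.det = 1) (ξ : E3) :
    inner ℝ (iv w) (pull M (pull M ξ)) =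
      M.trace * inner ℝ (iv w) (pull M ξ) - inner ℝ (iv w) ξ := by
  rw [Matrix.det_fin_two] at hd
  rw [iv_inner, iv_inner, iv_inner, Matrix.trace_fin_two]
  simp only [pull, PiLp.toLp_apply, Matrix.cons_val_zero, Matrix.cons_val_one, Matrix.head_cons]
  linear_combination (-((w 0 : ℝ) * ξ 0 + (w 1 : ℝ) * ξ 1)) * hd

theorem pull_grow (w : Fin 2 → ℤ) (M : Matrix (Fin 2) (Fin 2) ℝ) (hd : M.det = 1)
    (ht : 3 ≤ M.trace) (ξ : E3) (h0 : 0 < inner ℝ (iv w) ξ)
    (h1 : inner ℝ (iv w) ξ < inner ℝ (iv w) (pull M ξ)) (j : ℕ) :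
    0 < inner ℝ (iv w) ((pull M)^[j] ξ) ∧
      inner ℝ (iv w) ((pull M)^[j] ξ) < inner ℝ (iv w) ((pull M)^[j + 1] ξ) ∧
      (2 : ℝ) ^ j * inner ℝ (iv w) ξ ≤ inner ℝ (iv w) ((pull M)^[j + 1] ξ) := by
  induction j with
  | zero => exact ⟨h0, h1, by simpa using h1.le⟩
  | succ j ih =>
    obtain ⟨a, b, c⟩ := ih
    have e : inner ℝ (iv w) ((pull M)^[j + 1 + 1] ξ) =
        M.trace * inner ℝ (iv w) ((pull M)^[j + 1] ξ) - inner ℝ (iv w) ((pull M)^[j] ξ) := by
      rw [Function.iterate_succ_apply' (pull M) (j + 1), Function.iterate_succ_apply' (pull M) j]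
      exact pull_rec w M hd _
    have hp : 0 < inner ℝ (iv w) ((pull M)^[j + 1] ξ) := a.trans b
    have h3 : 3 * inner ℝ (iv w) ((pull M)^[j + 1] ξ) ≤
        M.trace * inner ℝ (iv w) ((pull M)^[j + 1] ξ) := mul_le_mul_of_nonneg_right ht hp.le
    refine ⟨hp, by rw [e]; linarith, ?_⟩
    rw [e, pow_succ]
    linarith

theorem stSB : StSB := by
  intro B hB ht ξ w h0 h1 h2 C
  have e1 : (re B).det = 1 := by
    rw [Matrix.det_fin_two]
    rw [Matrix.det_fin_two] at hB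
    simp only [re, Matrix.map_apply]
    exact_mod_cast hB
  have e2 : (3 : ℝ) ≤ (re B).trace := by
    rw [Matrix.trace_fin_two]
    rw [Matrix.trace_fin_two] at ht
    simp only [re, Matrix.map_apply]
    have h : (3 : ℤ) ≤ B 0 0 + B 1 1 := ht
    exact_mod_cast h
  have e3 : (re B.adjugate).det = 1 := by
    rw [Matrix.det_fin_two]
    rw [Matrix.det_fin_two] at hB
    simp only [re, Matrix.map_apply, Matrix.adjugate_fin_two]
    simp only [Matrix.of_apply, Matrix.cons_val_zero, Matrix.cons_val_one, Matrix.cons_val',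
      Matrix.cons_val_fin_one]
    have h : B 1 1 * B 0 0 - -B 0 1 * -B 1 0 = 1 := by linear_combination hB
    exact_mod_cast h
  have e4 : (3 : ℝ) ≤ (re B.adjugate).trace := by
    rw [Matrix.trace_fin_two]
    rw [Matrix.trace_fin_two] at ht
    simp only [re, Matrix.map_apply, Matrix.adjugate_fin_two]
    simp only [Matrix.of_apply, Matrix.cons_val_zero, Matrix.cons_val_one, Matrix.cons_val',
      Matrix.cons_val_fin_one]
    have h : (3 : ℤ) ≤ B 1 1 + B 0 0 := by linarith [Int.add_one_le_iff.mpr ht]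
    exact_mod_cast h
  obtain ⟨j, hj⟩ := pow_unbounded_of_one_lt (C / inner ℝ (iv w) ξ) (one_lt_two (α := ℝ))
  rw [div_lt_iff₀ h0] at hj
  exact ⟨j + 1, Nat.succ_pos j,
    hj.trans_le (pull_grow w _ e1 e2 ξ h0 h1 j).2.2,
    hj.trans_le (pull_grow w _ e3 e4 ξ h0 h2 j).2.2⟩

end Pool.Agent.Lib.Tor
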