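import Pool.Agent.Lib.MP_fe6961_an.TorN10

set_option autoImplicit false

open Filter Matrix Topology

namespace Pool.Agent.Lib.TorN.SEL5

open Pool.Agent.Lib.TorN

/-- the support function data -/
structure Sup (n : ℕ) (σ : (Fin n → ℝ) → ℝ) (K : Set (Fin n → ℝ)) (L ε : ℝ) (c : Fin n → ℝ) :
    Prop where
  up : ∀ v q, q ∈ K → v ⬝ᵥ q ≤ σ v
  att : ∀ v, ∃ p ∈ K, σ v = v ⬝ᵥ p
  bd : ∀ v, σ v ≤ L * ‖v‖
  hL : 0 ≤ L
  hε : 0 < ε
  low : ∀ v, v ⬝ᵥ c + ε * ‖v‖ ≤ σ v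

theorem exists_sup {n : ℕ} {K : Set (Fin n → ℝ)} (hK : IsCompact K) (hint : (interior K).Nonempty) :
    ∃ σ L ε c, Sup n σ K L ε c := by
  obtain ⟨c, hc⟩ := hint
  rw [mem_interior_iff_mem_nhds, Metric.mem_nhds_iff] at hc
  obtain ⟨ε, hε, hball⟩ := hc
  have hcK : c ∈ K := hball (Metric.mem_ball_self hε)
  have hKne : K.Nonempty := ⟨c, hcK⟩
  have hmax : ∀ v : Fin n → ℝ, ∃ p ∈ K, ∀ q ∈ K, v ⬝ᵥ q ≤ v ⬝ᵥ p := by
    intro v
    have hcont : Continuous (fun p : Fin n → ℝ => v ⬝ᵥ p) := by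
      unfold dotProduct
      fun_prop
    obtain ⟨p, hp, hm⟩ := hK.exists_isMaxOn hKne hcont.continuousOn
    exact ⟨p, hp, fun q hq => hm hq⟩
  choose P hP1 hP2 using hmax
  obtain ⟨R, hR⟩ := hK.isBounded.exists_norm_le
  have hR0 : 0 ≤ R := (norm_nonneg c).trans (hR c hcK)
  refine ⟨fun v => v ⬝ᵥ P v, n * R, ε / 2, c, ⟨fun v q hq => hP2 v q hq,
    fun v => ⟨P v, hP1 v, rfl⟩, ?_, by positivity, by positivity, ?_⟩⟩
  · intro v
    show ∑ i, v i * P v i ≤ _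
    calc ∑ i, v i * P v i ≤ ∑ i : Fin n, ‖v‖ * R := Finset.sum_le_sum (fun i _ => by
            have a1 := norm_le_pi_norm v i
            have a2 := (norm_le_pi_norm (P v) i).trans (hR _ (hP1 v))
            calc v i * P v i ≤ |v i * P v i| := le_abs_self _
              _ = ‖v i‖ * ‖P v i‖ := by rw [abs_mul]; rfl
              _ ≤ ‖v‖ * R := mul_le_mul a1 a2 (norm_nonneg _) (norm_nonneg _))
      _ = n * R * ‖v‖ := by
          rw [Finset.sum_const, Finset.card_univ, Fintype.card_fin, nsmul_eq_mul]; ring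
  · intro v
    set p : Fin n → ℝ := fun i => c i + (ε / 2) * (if 0 ≤ v i then 1 else -1) with hp
    have hpK : p ∈ K := by
      apply hball
      rw [Metric.mem_ball, dist_eq_norm]
      refine lt_of_le_of_lt (b := ε / 2) ?_ (by linarith)
      rw [pi_norm_le_iff_of_nonneg (by positivity)]
      intro i
      have : (p - c) i = (ε / 2) * (if 0 ≤ v i then 1 else -1) := by
        simp [hp]
      rw [this, norm_mul, Real.norm_of_nonneg (by positivity : (0 : ℝ) ≤ ε / 2)]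
      split_ifs <;> simp
    have h1 := hP2 v p hpK
    have h2 : v ⬝ᵥ p = v ⬝ᵥ c + (ε / 2) * ∑ i, |v i| := by
      simp only [dotProduct]
      rw [Finset.mul_sum, ← Finset.sum_add_distrib]
      refine Finset.sum_congr rfl fun i _ => ?_
      rw [hp]
      by_cases hv : 0 ≤ v i
      · simp only [hv, if_true, abs_of_nonneg hv]; ring
      · push Not at hv
        simp only [not_le.2 hv, if_false, abs_of_neg hv]; ring
    have h3 : ‖v‖ ≤ ∑ i, |v i| := by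
      rw [pi_norm_le_iff_of_nonneg (Finset.sum_nonneg fun i _ => abs_nonneg _)]
      intro i
      exact Finset.single_le_sum (f := fun i => |v i|) (fun i _ => abs_nonneg _) (Finset.mem_univ i)
    have h4 : (ε / 2) * ‖v‖ ≤ (ε / 2) * ∑ i, |v i| := mul_le_mul_of_nonneg_left h3 (by positivity)
    show v ⬝ᵥ c + ε / 2 * ‖v‖ ≤ v ⬝ᵥ P v
    linarith

variable {n : ℕ} {σ : (Fin n → ℝ) → ℝ} {K : Set (Fin n → ℝ)} {L ε : ℝ} {c : Fin n → ℝ}

theorem Sup.sub (h : Sup n σ K L ε c) (x y : Fin n → ℝ) : σ (x + y) ≤ σ x + σ y := by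
  obtain ⟨p, hp, he⟩ := h.att (x + y)
  rw [he, add_dotProduct]
  have := h.up x p hp
  have := h.up y p hp
  linarith

theorem Sup.cont (h : Sup n σ K L ε c) : Continuous σ := by
  apply LipschitzWith.continuous (K := ⟨L, h.hL⟩)
  apply LipschitzWith.of_le_add_mul
  intro x y
  have h1 := h.sub y (x - y)
  rw [add_sub_cancel] at h1
  have h2 := h.bd (x - y)
  rw [← dist_eq_norm] at h2
  show σ x ≤ σ y + L * dist x y
  linarith

theorem Sup.smul (h : Sup n σ K L ε c) {t : ℝ} (ht : 0 < t) (x : Fin n → ℝ) :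
    σ (t • x) = t * σ x := by
  apply le_antisymm
  · obtain ⟨p, hp, he⟩ := h.att (t • x)
    rw [he, smul_dotProduct, smul_eq_mul]
    exact mul_le_mul_of_nonneg_left (h.up x p hp) ht.le
  · obtain ⟨p, hp, he⟩ := h.att x
    have := h.up (t • x) p hp
    rw [smul_dotProduct, smul_eq_mul] at this
    rw [he]; exact this

/-- the sign -/
theorem Sup.sign (h : Sup n σ K L ε c) (M : ℕ → Matrix (Fin n) (Fin n) ℝ) (v : Fin n → ℝ)
    (hv : ∀ C : ℝ, ∃ j, C < ‖M j *ᵥ v‖) :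
    ∃ u, (u = v ∨ u = -v) ∧ ∀ C : ℝ, ∃ j, C < σ (M j *ᵥ u) := by
  by_contra hcon
  push Not at hcon
  obtain ⟨C1, hC1⟩ := hcon v (Or.inl rfl)
  obtain ⟨C2, hC2⟩ := hcon (-v) (Or.inr rfl)
  obtain ⟨j, hj⟩ := hv ((C1 + C2) / (2 * ε))
  have h1 := hC1 j
  have h2 := hC2 j
  rw [mulVec_neg] at h2
  have l1 := h.low (M j *ᵥ v)
  have l2 := h.low (-(M j *ᵥ v))
  rw [neg_dotProduct, norm_neg] at l2
  have hε := h.hε
  rw [div_lt_iff₀ (by positivity)] at hj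
  linarith

theorem Sup.comb (h : Sup n σ K L ε c) (M : ℕ → Matrix (Fin n) (Fin n) ℝ) (u u' : Fin n → ℝ)
    (hu : ∀ C : ℝ, ∃ j, C < σ (M j *ᵥ u)) (hu' : Tendsto (fun j => M j *ᵥ u') atTop (𝓝 0)) :
    ∀ C : ℝ, ∃ j, C < σ (M j *ᵥ (u + u')) := by
  intro C
  obtain ⟨B, hB⟩ := (Metric.isBounded_range_of_tendsto _ hu').exists_norm_le
  obtain ⟨j, hj⟩ := hu (C + L * B)
  refine ⟨j, ?_⟩
  have h1 := h.sub (M j *ᵥ (u + u')) (-(M j *ᵥ u'))
  have h2 : M j *ᵥ (u + u') + -(M j *ᵥ u') = M j *ᵥ u := by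
    rw [mulVec_add]; abel
  rw [h2] at h1
  have h3 := h.bd (-(M j *ᵥ u'))
  rw [norm_neg] at h3
  have h4 : L * ‖M j *ᵥ u'‖ ≤ L * B :=
    mul_le_mul_of_nonneg_left (hB _ ⟨j, rfl⟩) h.hL
  linarith

theorem pos_of (h : Sup n σ K L ε c) (A : Matrix (Fin n) (Fin n) ℝ) (v : Fin n → ℝ)
    (hv : ∀ C : ℝ, ∃ j : ℕ, C < σ ((A ^ j) *ᵥ v)) : ∃ j : ℕ, 0 < j ∧ σ v < σ ((A ^ j) *ᵥ v) := by
  obtain ⟨j, hj⟩ := hv (σ v)
  refine ⟨j, ?_, hj⟩
  rcases Nat.eq_zero_or_pos j with rfl | h0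
  · rw [pow_zero, one_mulVec] at hj
    exact absurd hj (lt_irrefl _)
  · exact h0

theorem round (v : Fin n → ℝ) :
    Tendsto (fun N : ℕ => fun i => ((⌊(N : ℝ) * v i⌋ : ℤ) : ℝ) / N) atTop (𝓝 v) := by
  rw [tendsto_pi_nhds]
  intro i
  have h1 : Tendsto (fun N : ℕ => v i - 1 / (N : ℝ)) atTop (𝓝 (v i)) := by
    have := (tendsto_const_nhds (x := v i)).sub (tendsto_one_div_atTop_nhds_zero_nat (𝕜 := ℝ))
    simpa using this
  refine tendsto_of_tendsto_of_tendsto_of_le_of_le' h1 tendsto_const_nhds ?_ ?_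
  · filter_upwards [eventually_gt_atTop 0] with N hN
    have hN' : (0 : ℝ) < N := by exact_mod_cast hN
    rw [le_div_iff₀ hN', sub_mul, one_div, inv_mul_cancel₀ hN'.ne']
    have := Int.lt_floor_add_one ((N : ℝ) * v i)
    linarith [mul_comm (v i) (N : ℝ)]
  · filter_upwards [eventually_gt_atTop 0] with N hN
    have hN' : (0 : ℝ) < N := by exact_mod_cast hN
    rw [div_le_iff₀ hN']
    have := Int.floor_le ((N : ℝ) * v i)
    linarith [mul_comm (v i) (N : ℝ)]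

theorem sel5 : StSEL := by
  intro n A _ h1 h2 K hK hint
  obtain ⟨σ, L, ε, c, h⟩ := exists_sup hK hint
  obtain ⟨v1, hv1, hu1⟩ := h1
  obtain ⟨v2, hv2, hu2⟩ := h2
  obtain ⟨u, hu, hux⟩ := h.sign (fun j => A ^ j) v1 hu1
  obtain ⟨u', hu', hux'⟩ := h.sign (fun j => (A⁻¹) ^ j) v2 hu2
  have t1 : Tendsto (fun j : ℕ => ((A⁻¹) ^ j) *ᵥ u) atTop (𝓝 0) := by
    rcases hu with rfl | rfl
    · exact hv1
    · have := hv1.neg
      simpa [mulVec_neg] using this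
  have t2 : Tendsto (fun j : ℕ => (A ^ j) *ᵥ u') atTop (𝓝 0) := by
    rcases hu' with rfl | rfl
    · exact hv2
    · have := hv2.neg
      simpa [mulVec_neg] using this
  have c1 := h.comb (fun j => A ^ j) u u' hux t2
  have c2 := h.comb (fun j => (A⁻¹) ^ j) u' u hux' t1
  rw [add_comm u' u] at c2
  obtain ⟨b, hb, hb'⟩ := pos_of h A (u + u') c1
  obtain ⟨a, ha, ha'⟩ := pos_of h (A⁻¹) (u + u') c2
  have k1 : Continuous (fun w : Fin n → ℝ => σ ((A ^ b) *ᵥ w) - σ w) := by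
    have hc := h.cont
    have hm : Continuous (fun w : Fin n → ℝ => (A ^ b) *ᵥ w) := by fun_prop
    exact (hc.comp hm).sub hc
  have k2 : Continuous (fun w : Fin n → ℝ => σ ((A⁻¹ ^ a) *ᵥ w) - σ w) := by
    have hc := h.cont
    have hm : Continuous (fun w : Fin n → ℝ => (A⁻¹ ^ a) *ᵥ w) := by fun_prop
    exact (hc.comp hm).sub hc
  have r := round (u + u')
  have e1 := (k1.continuousAt.tendsto.comp r).eventually (lt_mem_nhds (sub_pos.2 hb'))
  have e2 := (k2.continuousAt.tendsto.comp r).eventually (lt_mem_nhds (sub_pos.2 ha'))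
  obtain ⟨N, ⟨⟨hN1, hN2⟩, hN0⟩⟩ := ((e1.and e2).and (eventually_gt_atTop 0)).exists
  have hN' : (0 : ℝ) < N := by exact_mod_cast hN0
  simp only [Function.comp] at hN1 hN2
  set x : Fin n → ℝ := fun i => ((⌊(N : ℝ) * (u + u') i⌋ : ℤ) : ℝ) / N with hx
  have hw : (fun i => ((⌊(N : ℝ) * (u + u') i⌋ : ℤ) : ℝ)) = (N : ℝ) • x := by
    funext i
    simp only [hx, Pi.smul_apply, smul_eq_mul]
    field_simp
  have g1 : σ ((N : ℝ) • x) < σ ((A ^ b) *ᵥ ((N : ℝ) • x)) := by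
    rw [mulVec_smul, h.smul hN', h.smul hN']
    exact mul_lt_mul_of_pos_left (by linarith) hN'
  have g2 : σ ((N : ℝ) • x) < σ ((A⁻¹ ^ a) *ᵥ ((N : ℝ) • x)) := by
    rw [mulVec_smul, h.smul hN', h.smul hN']
    exact mul_lt_mul_of_pos_left (by linarith) hN'
  refine ⟨fun i => ⌊(N : ℝ) * (u + u') i⌋, a, b, ha, hb, ?_, ?_, ?_⟩
  · intro h0
    have : (N : ℝ) • x = 0 := by
      rw [← hw]
      funext i
      have := congrFun h0 i
      simp only [Pi.zero_apply] at this ⊢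
      rw [this]; simp
    rw [this, mulVec_zero] at g1
    exact lt_irrefl _ g1
  · rw [hw]
    obtain ⟨p, hp, he⟩ := h.att ((A ^ b) *ᵥ ((N : ℝ) • x))
    refine ⟨p, hp, fun q hq => ?_⟩
    rw [← he]
    exact lt_of_le_of_lt (h.up _ q hq) g1
  · rw [hw]
    obtain ⟨p, hp, he⟩ := h.att ((A⁻¹ ^ a) *ᵥ ((N : ℝ) • x))
    refine ⟨p, hp, fun q hq => ?_⟩
    rw [← he]
    exact lt_of_le_of_lt (h.up _ q hq) g2

end Pool.Agent.Lib.TorN.SEL5
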