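import Pool.Agent.Lib.MP_fe6961_an.MR10

/-! Row SL (helper21). -/

open Filter Matrix Topology

namespace Pool.Agent.Lib.MR.S21

theorem rnd (v : ℝ) : Tendsto (fun N : ℕ => ((round ((N : ℝ) * v) : ℤ) : ℝ) / N) atTop (𝓝 v) := by
  rw [tendsto_iff_norm_sub_tendsto_zero]
  have h0 : Tendsto (fun N : ℕ => (1 / 2 : ℝ) / N) atTop (𝓝 0) :=
    tendsto_const_div_atTop_nhds_zero_nat _
  refine squeeze_zero' (Eventually.of_forall fun N => norm_nonneg _) ?_ h0
  filter_upwards [eventually_gt_atTop 0] with N hN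
  have hN' : (0 : ℝ) < N := by exact_mod_cast hN
  have h1 := abs_sub_round ((N : ℝ) * v)
  have h2 : ((round ((N : ℝ) * v) : ℤ) : ℝ) / N - v =
      -(((N : ℝ) * v - ((round ((N : ℝ) * v) : ℤ) : ℝ)) / N) := by
    field_simp
    ring
  rw [h2, norm_neg, norm_div, Real.norm_eq_abs, Real.norm_eq_abs, abs_of_pos hN']
  exact div_le_div_of_nonneg_right h1 hN'.le

theorem wex (n : ℕ) (P : Matrix (Fin n) (Fin n) ℝ) (hP : P.det ≠ 0) (c : Fin n → ℝ)
    (hc : ∀ l, c l ≠ 0) :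
    ∃ w : Fin n → ℤ, ∀ l, 0 < (P *ᵥ (fun i => (w i : ℝ))) l / c l := by
  obtain ⟨v, hv⟩ : ∃ v, P *ᵥ v = c := by
    refine ⟨P⁻¹ *ᵥ c, ?_⟩
    rw [mulVec_mulVec, Matrix.mul_nonsing_inv _ (isUnit_iff_ne_zero.2 hP), one_mulVec]
  have h1 : ∀ l, Tendsto (fun N : ℕ =>
      (P *ᵥ (fun i => ((round ((N : ℝ) * v i) : ℤ) : ℝ) / N)) l / c l) atTop (𝓝 1) := by
    intro l
    have h2 : Tendsto (fun N : ℕ =>
      (P *ᵥ (fun i => ((round ((N : ℝ) * v i) : ℤ) : ℝ) / N)) l) atTop (𝓝 (c l)) := by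
      rw [← hv]
      simp only [mulVec, dotProduct]
      exact tendsto_finsetSum _ (fun i _ => (rnd (v i)).const_mul _)
    have h3 := h2.div_const (c l)
    rwa [div_self (hc l)] at h3
  have h2 : ∀ᶠ N : ℕ in atTop, ∀ l,
      0 < (P *ᵥ (fun i => ((round ((N : ℝ) * v i) : ℤ) : ℝ) / N)) l / c l := by
    rw [eventually_all]
    intro l
    exact (h1 l).eventually_const_lt one_pos
  obtain ⟨N, h3, hN⟩ := (h2.and (eventually_gt_atTop 0)).exists
  have hN' : (0 : ℝ) < N := by exact_mod_cast hN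
  refine ⟨fun i => round ((N : ℝ) * v i), fun l => ?_⟩
  have h4 := h3 l
  have h5 : (P *ᵥ (fun i => ((round ((N : ℝ) * v i) : ℤ) : ℝ) / N)) l / c l =
      ((P *ᵥ (fun i => ((round ((N : ℝ) * v i) : ℤ) : ℝ))) l / c l) / N := by
    simp only [mulVec, dotProduct]
    rw [Finset.sum_div, Finset.sum_div, Finset.sum_div]
    apply Finset.sum_congr rfl
    intro i _
    ring
  rw [h5] at h4
  exact (div_pos_iff_of_pos_right hN').1 h4

theorem sl21 : StSL := by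
  intro n m X P hn hX hP p κ hκ hp
  obtain ⟨w, hw⟩ := wex n P hP (fun l => κ / p l) (fun l => div_ne_zero hκ (hp l))
  have hn' : (0 : ℝ) < n := by exact_mod_cast hn
  have hsum : ∑ l, (Real.log ((P *ᵥ (fun i => (w i : ℝ))) l / (κ / p l)) -
      (∑ l, Real.log ((P *ᵥ (fun i => (w i : ℝ))) l / (κ / p l))) / n) = 0 := by
    rw [Finset.sum_sub_distrib, Finset.sum_const, Finset.card_univ, Fintype.card_fin,
      nsmul_eq_mul]
    field_simp
    ring
  obtain ⟨s, hs⟩ := hX _ hsum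
  refine ⟨w, Real.exp (-((∑ l, Real.log ((P *ᵥ (fun i => (w i : ℝ))) l / (κ / p l))) / n)), s,
    ?_, Real.exp_pos _, ?_⟩
  · intro h0
    have h1 := hw ⟨0, hn⟩
    rw [h0] at h1
    have h2 : (P *ᵥ (fun i : Fin n => (((0 : Fin n → ℤ) i : ℤ) : ℝ))) ⟨0, hn⟩ = 0 := by
      simp [mulVec, dotProduct]
    rw [h2] at h1
    simp at h1
  · intro l
    have h1 := congrFun hs l
    have h2 : ∑ j, X l j * s j = Real.log ((P *ᵥ (fun i => (w i : ℝ))) l / (κ / p l)) -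
      (∑ l, Real.log ((P *ᵥ (fun i => (w i : ℝ))) l / (κ / p l))) / n := h1
    rw [h2, sub_eq_add_neg, Real.exp_add, Real.exp_log (hw l)]
    have h3 := hp l
    field_simp

end Pool.Agent.Lib.MR.S21
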