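import Pool.Agent.Lib.MP_fe6961_an.MR10

/-! Row SL: the integer vector and the place. -/

open Filter Matrix

namespace Pool.Agent.Lib.MR.SL81

/-- an integer vector whose image has prescribed signs -/
theorem exists_int {n : ℕ} (P : Matrix (Fin n) (Fin n) ℝ) (hP : P.det ≠ 0) (c : Fin n → ℝ)
    (hc : ∀ l, c l ≠ 0) :
    ∃ w : Fin n → ℤ, ∀ l, 0 < (P *ᵥ (fun i => (w i : ℝ))) l * c l := by
  have hu : IsUnit P.det := isUnit_iff_ne_zero.mpr hP
  set q : Fin n → ℝ := P⁻¹ *ᵥ c with hq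
  have hPq : P *ᵥ q = c := by
    rw [hq, Matrix.mulVec_mulVec, Matrix.mul_nonsing_inv _ hu, Matrix.one_mulVec]
  set B : Fin n → ℝ := fun l => ∑ i, |P l i| with hB
  have hB0 : ∀ l, 0 ≤ B l := fun l => Finset.sum_nonneg (fun i _ => abs_nonneg _)
  obtain ⟨N, hN⟩ := exists_nat_gt (∑ l, B l / |c l|)
  have hN0 : ∀ l, B l / |c l| < N := by
    intro l
    refine lt_of_le_of_lt ?_ hN
    exact Finset.single_le_sum (f := fun l => B l / |c l|)
      (fun l _ => div_nonneg (hB0 l) (abs_nonneg _)) (Finset.mem_univ l)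
  refine ⟨fun i => round ((N : ℝ) * q i), fun l => ?_⟩
  have hcl : 0 < |c l| := abs_pos.mpr (hc l)
  have h1 : B l < N * |c l| := (div_lt_iff₀ hcl).mp (hN0 l)
  set W := (P *ᵥ (fun i => ((round ((N : ℝ) * q i) : ℤ) : ℝ))) l with hW
  have h2 : |W - N * c l| ≤ B l := by
    have e1 : W - N * c l = ∑ i, P l i * (((round ((N : ℝ) * q i) : ℤ) : ℝ) - N * q i) := by
      rw [hW, ← hPq]
      simp only [Matrix.mulVec, dotProduct]
      rw [Finset.mul_sum, ← Finset.sum_sub_distrib]
      refine Finset.sum_congr rfl (fun i _ => ?_)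
      ring
    rw [e1]
    refine (Finset.abs_sum_le_sum_abs _ _).trans ?_
    refine Finset.sum_le_sum (fun i _ => ?_)
    rw [abs_mul]
    have h3 : |((round ((N : ℝ) * q i) : ℤ) : ℝ) - N * q i| ≤ 1 := by
      rw [abs_sub_comm]
      exact (abs_sub_round _).trans (by norm_num)
    calc |P l i| * |((round ((N : ℝ) * q i) : ℤ) : ℝ) - N * q i| ≤ |P l i| * 1 :=
          mul_le_mul_of_nonneg_left h3 (abs_nonneg _)
      _ = |P l i| := mul_one _
  have h4 : |W - N * c l| < N * |c l| := lt_of_le_of_lt h2 h1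
  obtain ⟨h5, h6⟩ := abs_lt.mp h4
  rcases lt_or_gt_of_ne (hc l) with h | h
  · rw [abs_of_neg h] at h5 h6
    exact mul_pos_of_neg_of_neg (by linarith) h
  · rw [abs_of_pos h] at h5 h6
    exact mul_pos (by linarith) h

theorem sl81 : StSL := by
  intro n m X P hn hX hP p κ hκ hp
  have hc : ∀ l, κ / p l ≠ 0 := fun l => div_ne_zero hκ (hp l)
  obtain ⟨w, hw⟩ := exists_int P hP (fun l => κ / p l) hc
  set a : Fin n → ℝ := fun l => Real.log ((P *ᵥ (fun i => (w i : ℝ))) l / (κ / p l)) with ha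
  set L : ℝ := -(∑ l, a l) / n with hL
  have hn' : (n : ℝ) ≠ 0 := by exact_mod_cast hn.ne'
  have hsum : ∑ l, (L + a l) = 0 := by
    rw [Finset.sum_add_distrib]
    simp only [Finset.sum_const, Finset.card_univ, Fintype.card_fin, nsmul_eq_mul]
    rw [hL]
    field_simp
    ring
  obtain ⟨s, hs⟩ := hX (fun l => L + a l) hsum
  refine ⟨w, Real.exp L, s, ?_, Real.exp_pos _, fun l => ?_⟩
  · intro h0
    have := hw ⟨0, hn⟩
    rw [h0] at this
    simp [Matrix.mulVec, dotProduct] at this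
  · have h1 : ∑ j, X l j * s j = L + a l := by
      have := congrFun hs l
      simpa [Matrix.mulVec, dotProduct] using this
    have hpos : 0 < (P *ᵥ (fun i => (w i : ℝ))) l / (κ / p l) := by
      have h2 := hw l
      have h3 : (P *ᵥ (fun i => (w i : ℝ))) l / (κ / p l) =
          (P *ᵥ (fun i => (w i : ℝ))) l * (κ / p l) / ((κ / p l) ^ 2) := by
        rw [pow_two, mul_div_mul_right _ _ (hc l)]
      rw [h3]
      exact div_pos h2 (by have := hc l; exact lt_of_le_of_ne (sq_nonneg _) (Ne.symm (pow_ne_zero 2 this)))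
    rw [h1, Real.exp_add, ha]
    simp only
    rw [Real.exp_log hpos, mul_assoc, div_mul_cancel₀ _ (hc l)]

end Pool.Agent.Lib.MR.SL81
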