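import Pool.Agent.Lib.MP_fe6961_an.MR10

/-! Maximal rank, row SL: the integer vector and the place. -/

open Filter Matrix

namespace Pool.Agent.Lib.MR

theorem sl95 : StSL := by
  intro n m X P hn hX hP p κ hκ hp
  obtain ⟨c, hcd⟩ : ∃ c : Fin n → ℝ, ∀ l, c l = κ / p l := ⟨_, fun _ => rfl⟩
  have hc : ∀ l, c l ≠ 0 := fun l => by rw [hcd]; exact div_ne_zero hκ (hp l)
  obtain ⟨v, hv⟩ : ∃ v : Fin n → ℝ, P *ᵥ v = c := ⟨P⁻¹ *ᵥ c, by
    rw [Matrix.mulVec_mulVec, Matrix.mul_nonsing_inv _ (isUnit_iff_ne_zero.mpr hP),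
      Matrix.one_mulVec]⟩
  have hvl : ∀ l, ∑ i, P l i * v i = c l := fun l => congrFun hv l
  obtain ⟨N, hN⟩ : ∃ N : ℝ, ∀ l, ∑ i, |P l i| < N * |c l| := by
    have h1 : ∀ l, ∀ᶠ N : ℝ in atTop, ∑ i, |P l i| < N * |c l| := fun l =>
      (tendsto_id.atTop_mul_const (abs_pos.mpr (hc l))).eventually_gt_atTop _
    exact (eventually_all.mpr h1).exists
  obtain ⟨w, hw⟩ : ∃ w : Fin n → ℤ, ∀ i, w i = round (N * v i) := ⟨_, fun _ => rfl⟩
  obtain ⟨a, ha⟩ : ∃ a : Fin n → ℝ, a = P *ᵥ (fun i => (w i : ℝ)) := ⟨_, rfl⟩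
  have hal : ∀ l, a l = ∑ i, P l i * (w i : ℝ) := fun l => by rw [ha]; rfl
  have hdist : ∀ l, |a l - N * c l| ≤ ∑ i, |P l i| := by
    intro l
    have e : a l - N * c l = ∑ i, P l i * ((w i : ℝ) - N * v i) := by
      rw [hal, ← hvl, Finset.mul_sum, ← Finset.sum_sub_distrib]
      exact Finset.sum_congr rfl fun i _ => by ring
    rw [e]
    refine (Finset.abs_sum_le_sum_abs _ _).trans (Finset.sum_le_sum fun i _ => ?_)
    rw [abs_mul]
    have h1 : |(w i : ℝ) - N * v i| ≤ 1 := by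
      rw [abs_sub_comm, hw]
      exact (abs_sub_round _).trans (by norm_num)
    calc |P l i| * |(w i : ℝ) - N * v i| ≤ |P l i| * 1 :=
          mul_le_mul_of_nonneg_left h1 (abs_nonneg _)
      _ = |P l i| := mul_one _
  have hq : ∀ l, 0 < a l / c l := by
    intro l
    have hcl : 0 < |c l| := abs_pos.mpr (hc l)
    have h1 : |a l / c l - N| < N := by
      have e : a l / c l - N = (a l - N * c l) / c l := by
        rw [sub_div, mul_div_assoc, div_self (hc l), mul_one]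
      rw [e, abs_div, div_lt_iff₀ hcl]
      exact (hdist l).trans_lt (hN l)
    have h2 := (abs_lt.mp h1).1
    linarith
  obtain ⟨L, hL⟩ : ∃ L : ℝ, L = (∑ l, Real.log (a l / c l)) / n := ⟨_, rfl⟩
  have hn' : (n : ℝ) ≠ 0 := by
    have : n ≠ 0 := hn.ne'
    exact_mod_cast this
  obtain ⟨s, hs⟩ := hX (fun l => Real.log (a l / c l) - L) (by
    rw [Finset.sum_sub_distrib, Finset.sum_const, Finset.card_univ, Fintype.card_fin,
      nsmul_eq_mul, hL, mul_div_cancel₀ _ hn', sub_self])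
  refine ⟨w, Real.exp (-L), s, ?_, Real.exp_pos _, fun l => ?_⟩
  · intro h0
    have h1 := hq ⟨0, hn⟩
    rw [hal, h0] at h1
    simp at h1
  · have h1 : ∑ j, X l j * s j = Real.log (a l / c l) - L := congrFun hs l
    rw [h1, sub_eq_add_neg, Real.exp_add, Real.exp_log (hq l), ← hcd, ← ha]
    have h2 := hc l
    field_simp

end Pool.Agent.Lib.MR
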