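import Mathlib
import Pool.Agent.Lib.MP_fe6961_an.Tor10
import Pool.Agent.Lib.MP_fe6961_an.Asm10

/-! Assembly row TOR. -/

open Filter Matrix

namespace Pool.Agent.Lib.Tor

open Pool.Agent.Lib.Hom

lemma pull_pull_adj {B : Matrix (Fin 2) (Fin 2) ℤ} (hB : B.det = 1) (ξ : E3) :
    pull (re B) (pull (re B.adjugate) ξ) = ξ := by
  have hd : (B 0 0 : ℝ) * B 1 1 - B 0 1 * B 1 0 = 1 := by
    have := hB
    rw [Matrix.det_fin_two] at this
    exact_mod_cast this
  have a0 : pull (re B.adjugate) ξ 0 = B 1 1 * ξ 0 + -B 1 0 * ξ 1 := by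
    simp [pull, re, Matrix.adjugate_fin_two]
  have a1 : pull (re B.adjugate) ξ 1 = -B 0 1 * ξ 0 + B 0 0 * ξ 1 := by
    simp [pull, re, Matrix.adjugate_fin_two]
  ext i
  fin_cases i
  · show (B 0 0 : ℝ) * pull (re B.adjugate) ξ 0 + B 1 0 * pull (re B.adjugate) ξ 1 = ξ 0
    rw [a0, a1]
    linear_combination ξ 0 * hd
  · show (B 0 1 : ℝ) * pull (re B.adjugate) ξ 0 + B 1 1 * pull (re B.adjugate) ξ 1 = ξ 1
    rw [a0, a1]
    linear_combination ξ 1 * hd
  · rfl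

section

variable {H : ℝ → E3 → ℝ} {B : Matrix (Fin 2) (Fin 2) ℤ}

lemma up_iter (hB : B.det = 1) (hper : ∀ s ξ, H (s + 1) ξ = H s (pull (re B) ξ)) (j : ℕ) :
    ∀ s ξ, H (s + j) ((pull (re B.adjugate))^[j] ξ) = H s ξ := by
  induction j with
  | zero => intro s ξ; simp
  | succ j ih =>
    intro s ξ
    rw [Function.iterate_succ_apply', Nat.cast_succ, ← add_assoc, hper, pull_pull_adj hB, ih]

lemma down_iter (hper : ∀ s ξ, H (s + 1) ξ = H s (pull (re B) ξ)) (j : ℕ) :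
    ∀ s ξ, H (s - j) ((pull (re B))^[j] ξ) = H s ξ := by
  induction j with
  | zero => intro s ξ; simp
  | succ j ih =>
    intro s ξ
    rw [Function.iterate_succ_apply', ← hper, Nat.cast_succ]
    have : s - ((j : ℝ) + 1) + 1 = s - j := by ring
    rw [this, ih]

/-- shift by an integer, with the invariance of a function `f` of the momentum -/
lemma shift (hB : B.det = 1) (hper : ∀ s ξ, H (s + 1) ξ = H s (pull (re B) ξ)) (f : E3 → ℝ)
    (hf : ∀ ξ, f (pull (re B) ξ) = f ξ) (n : ℤ) (s : ℝ) (ξ : E3) :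
    ∃ ξ', H (s + n) ξ' = H s ξ ∧ f ξ' = f ξ := by
  have hf' : ∀ ξ, f (pull (re B.adjugate) ξ) = f ξ := by
    intro ξ
    rw [← hf, pull_pull_adj hB]
  have h1 : ∀ j : ℕ, ∀ ξ, f ((pull (re B))^[j] ξ) = f ξ := by
    intro j
    induction j with
    | zero => intro ξ; rfl
    | succ j ih => intro ξ; rw [Function.iterate_succ_apply', hf, ih]
  have h2 : ∀ j : ℕ, ∀ ξ, f ((pull (re B.adjugate))^[j] ξ) = f ξ := by
    intro j
    induction j with
    | zero => intro ξ; rfl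
    | succ j ih => intro ξ; rw [Function.iterate_succ_apply', hf', ih]
  obtain ⟨j, rfl | rfl⟩ := n.eq_nat_or_neg
  · exact ⟨_, by push_cast; exact up_iter hB hper j s ξ, h2 j ξ⟩
  · refine ⟨_, ?_, h1 j ξ⟩
    push_cast
    rw [← sub_eq_add_neg]
    exact down_iter hper j s ξ

end

theorem tor_10 (hLAG : StLAG) (hMAX : StMAX) (hCORE : StCORE) (hATT : StATT) (hORB : StORB)
    (hSA : StSA) (hSB : StSB) : StTOR := by
  intro H B hT hB htr hper k hk
  obtain ⟨s1, ξ1, hk1⟩ := hk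
  have hT' := hT
  obtain ⟨hC, hconv, hcomp⟩ := hT
  have hcont : Continuous (fun z : ℝ × E3 => H z.1 z.2) := hC.continuous
  have hcl : ∀ v : E3, Continuous (fun z : ℝ × E3 => inner ℝ v z.2) := fun v =>
    continuous_const.inner continuous_snd
  -- the end of the proof
  have hend : ∀ w : Fin 2 → ℤ, w ≠ 0 → ∀ s p, H s p = k → HasDerivAt (fun r => H r p) 0 s →
      (∃ μ : ℝ, gradient (H s) p = μ • iv w) →
      (∃ x ξ, HT H x ξ = k ∧ IsOrbit (HT H) (fun _ => x) (fun _ => ξ)) ∨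
      ∃ (x ξ : ℝ → E3), IsOrbit (HT H) x ξ ∧ (∀ t, HT H (x t) (ξ t) = k) ∧
        ∃ T > 0, ∃ w : Fin 2 → ℤ, w ≠ 0 ∧ ∀ t, x (t + T) = x t + iv w ∧ ξ (t + T) = ξ t := by
    intro w hw s p hp hd hμ
    obtain ⟨μ, hμ⟩ := hμ
    have := hORB H hT' w hw s μ p hd hμ
    rw [hp] at this
    exact this
  have hiv : ∀ w : Fin 2 → ℤ, w ≠ 0 → iv w ≠ 0 := by
    intro w hw h0
    apply hw
    funext i
    fin_cases i
    · have : iv w 0 = (0 : E3) 0 := by rw [h0]
      have e : iv w 0 = (w 0 : ℝ) := rfl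
      rw [e] at this
      simpa using this
    · have : iv w 1 = (0 : E3) 1 := by rw [h0]
      have e : iv w 1 = (w 1 : ℝ) := rfl
      rw [e] at this
      simpa using this
  by_cases hfix : ∃ w : Fin 2 → ℤ, w ≠ 0 ∧ B *ᵥ w = w
  · -- the fixed vector
    obtain ⟨w, hw, hBw⟩ := hfix
    have hB0 : (B 0 0 : ℝ) * w 0 + B 0 1 * w 1 = w 0 := by
      have := congrFun hBw 0
      simp only [Matrix.mulVec, dotProduct, Fin.sum_univ_two] at this
      exact_mod_cast this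
    have hB1 : (B 1 0 : ℝ) * w 0 + B 1 1 * w 1 = w 1 := by
      have := congrFun hBw 1
      simp only [Matrix.mulVec, dotProduct, Fin.sum_univ_two] at this
      exact_mod_cast this
    have hf : ∀ ξ, inner ℝ (iv w) (pull (re B) ξ) = inner ℝ (iv w) ξ := by
      intro ξ
      have e0 : pull (re B) ξ 0 = B 0 0 * ξ 0 + B 1 0 * ξ 1 := rfl
      have e1 : pull (re B) ξ 1 = B 0 1 * ξ 0 + B 1 1 * ξ 1 := rfl
      have e2 : pull (re B) ξ 2 = ξ 2 := rfl
      have w0 : iv w 0 = w 0 := rfl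
      have w1 : iv w 1 = w 1 := rfl
      have w2 : iv w 2 = 0 := rfl
      rw [inner3, inner3, e0, e1, e2, w0, w1, w2]
      linear_combination ξ 0 * hB0 + ξ 1 * hB1
    have hne : ({z : ℝ × E3 | 0 ≤ z.1 ∧ z.1 ≤ 1 ∧ H z.1 z.2 ≤ k}).Nonempty := by
      obtain ⟨ξ', h1, -⟩ := shift hB hper _ hf (-⌊s1⌋) s1 ξ1
      refine ⟨(s1 + ((-⌊s1⌋ : ℤ) : ℝ), ξ'), ?_, ?_, ?_⟩
      · have := Int.floor_le s1
        push_cast
        show 0 ≤ s1 + -(⌊s1⌋ : ℝ)
        linarith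
      · have := Int.lt_floor_add_one s1
        push_cast
        show s1 + -(⌊s1⌋ : ℝ) ≤ 1
        linarith
      · show H _ ξ' ≤ k
        rw [h1, hk1]
    obtain ⟨⟨s, p⟩, ⟨h0, h1, h2⟩, hmax⟩ := (hcomp 0 1 k).exists_isMaxOn hne (hcl (iv w)).continuousOn
    obtain ⟨e1, e2, e3⟩ := hMAX H hT' (iv w) (hiv w hw) k (s - 1) (s + 1) s p (by linarith)
      (by linarith) h2 (by
        intro s' p' _ _ hle
        obtain ⟨ξ', g1, g2⟩ := shift hB hper _ hf (-⌊s'⌋) s' p'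
        have hmem : ((s' + ((-⌊s'⌋ : ℤ) : ℝ), ξ') : ℝ × E3) ∈
            {z : ℝ × E3 | 0 ≤ z.1 ∧ z.1 ≤ 1 ∧ H z.1 z.2 ≤ k} := by
          refine ⟨?_, ?_, ?_⟩
          · have := Int.floor_le s'
            push_cast
            show 0 ≤ s' + -(⌊s'⌋ : ℝ)
            linarith
          · have := Int.lt_floor_add_one s'
            push_cast
            show s' + -(⌊s'⌋ : ℝ) ≤ 1
            linarith
          · show H _ ξ' ≤ k
            rw [g1]; exact hle
        have := hmax hmem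
        rw [← g2]
        exact this)
    exact hend w hw s p e1 e2 e3
  have htr' : 2 < B.trace := by
    rcases htr with h | h
    · exact h
    · exact absurd h hfix
  let w0 : Fin 2 → ℤ := ![1, 0]
  have hw0 : w0 ≠ 0 := by
    intro h0
    have := congrFun h0 0
    simp [w0] at this
  by_cases hA : ∃ s, ∀ ξ, k < H s ξ
  · obtain ⟨s, hs⟩ := hA
    have hall : ∀ n : ℤ, ∀ ξ, k < H (s + n) ξ := by
      intro n ξ
      obtain ⟨ξ', h1, -⟩ := shift hB hper (fun _ => (0 : ℝ)) (fun _ => rfl) (-n) (s + n) ξ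
      rw [← h1]
      have : s + (n : ℝ) + ((-n : ℤ) : ℝ) = s := by push_cast; ring
      rw [this]
      exact hs ξ'
    have f1 := Int.floor_le (s1 - s)
    have f2 := Int.lt_floor_add_one (s1 - s)
    have hb : ∀ ξ, k < H (s + ⌊s1 - s⌋ + 1) ξ := by
      intro ξ
      have := hall (⌊s1 - s⌋ + 1) ξ
      push_cast at this
      rw [← add_assoc] at this
      exact this
    obtain ⟨⟨s', p⟩, ⟨h0, h1, h2⟩, hmax⟩ :=
      (hcomp (s + ⌊s1 - s⌋) (s + ⌊s1 - s⌋ + 1) k).exists_isMaxOn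
        ⟨(s1, ξ1), by show s + ⌊s1 - s⌋ ≤ s1; linarith,
          by show s1 ≤ s + ⌊s1 - s⌋ + 1; linarith, hk1.le⟩ (hcl (iv w0)).continuousOn
    have h0' : s + ⌊s1 - s⌋ ≤ s' := h0
    have h1' : s' ≤ s + ⌊s1 - s⌋ + 1 := h1
    have h2' : H s' p ≤ k := h2
    have l0 : s + ⌊s1 - s⌋ < s' := by
      rcases lt_or_eq_of_le h0' with h | h
      · exact h
      · exfalso
        have := hall ⌊s1 - s⌋ p
        rw [h] at this
        linarith
    have l1 : s' < s + ⌊s1 - s⌋ + 1 := by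
      rcases lt_or_eq_of_le h1' with h | h
      · exact h
      · exfalso
        have := hb p
        rw [← h] at this
        linarith
    have hmax' : ∀ s'' p'', s + ⌊s1 - s⌋ ≤ s'' → s'' ≤ s + ⌊s1 - s⌋ + 1 → H s'' p'' ≤ k →
        inner ℝ (iv w0) p'' ≤ inner ℝ (iv w0) p := by
      intro s'' p'' ha hb' hle
      have hmem : ((s'', p'') : ℝ × E3) ∈
        {z : ℝ × E3 | s + ⌊s1 - s⌋ ≤ z.1 ∧ z.1 ≤ s + ⌊s1 - s⌋ + 1 ∧ H z.1 z.2 ≤ k} :=
        ⟨ha, hb', hle⟩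
      exact hmax hmem
    obtain ⟨e1, e2, e3⟩ := hMAX H hT' (iv w0) (hiv w0 hw0) k _ _ s' p l0 l1 h2' hmax'
    exact hend w0 hw0 s' p e1 e2 e3
  push Not at hA
  by_cases hCc : ∃ s0, ∀ ξ, k ≤ H s0 ξ
  · obtain ⟨s0, hs0⟩ := hCc
    obtain ⟨p, e1, -, e2⟩ := hCORE H hT' 0 0 k s0 (by
      obtain ⟨p, hp⟩ := hA s0
      exact ⟨p, hp, by simp⟩) (fun p _ => hs0 p) (by
      intro δ hδ
      obtain ⟨p, hp⟩ := hA (s0 + δ / 2)
      obtain ⟨q, hq⟩ := hA (s0 - δ / 2)
      exact ⟨⟨_, p, by linarith, by linarith, hp, by simp⟩,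
        ⟨_, q, by linarith, by linarith, hq, by simp⟩⟩)
    refine hend w0 hw0 s0 p e1 e2 ⟨0, ?_⟩
    rw [zero_smul]
    exact gradient_eq_zero_of_isMin (fun y => by rw [e1]; exact hs0 y)
  push Not at hCc
  have hcs : ∀ s, Continuous (H s) := fun s =>
    hcont.comp (continuous_const.prodMk continuous_id)
  obtain ⟨ξ, hξ, w, hw, y0, y1, y2⟩ := hSA B hB htr' {ξ | H 0 ξ < k}
    (isOpen_lt (hcs 0) continuous_const) (hCc 0)
  obtain ⟨C, hCb⟩ : ∃ C, ∀ p, H 0 p ≤ k → inner ℝ (iv w) p ≤ C := by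
    have := ((hcomp 0 0 k).image (hcl (iv w))).bddAbove
    obtain ⟨C, hC'⟩ := this
    exact ⟨C, fun p hp => hC' ⟨((0 : ℝ), p), ⟨le_refl _, le_refl _, hp⟩, rfl⟩⟩
  obtain ⟨j, hj, g1, g2⟩ := hSB B hB htr' ξ w y0 y1 y2 C
  have hj' : (0 : ℝ) < j := by exact_mod_cast hj
  obtain ⟨s0, M, ha, hb, ⟨p0, hp0, hp0M⟩, hmax, hall⟩ := hATT H hT' (iv w) k (0 - j) (0 + j) 0
    (by linarith) (by linarith) hCc
    ⟨C, hCb, ⟨_, by rw [down_iter hper]; exact le_of_lt hξ, g1⟩,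
      ⟨_, by rw [up_iter hB hper]; exact le_of_lt hξ, g2⟩⟩
  have hv := hiv w hw
  obtain ⟨p, e1, e2, e3⟩ := hCORE H hT' (iv w) M k s0 ⟨p0, hp0, hp0M.ge⟩ (by
    intro p hp
    by_contra hlt
    push Not at hlt
    -- move `p` in the direction `iv w`
    have hc1 : Continuous (fun ε : ℝ => H s0 (p + ε • iv w)) :=
      (hcs s0).comp (continuous_const.add (continuous_id.smul continuous_const))
    have ho : ∀ᶠ ε in nhds (0 : ℝ), H s0 (p + ε • iv w) < k := by
      have : (fun ε : ℝ => H s0 (p + ε • iv w)) 0 < k := by simpa using hlt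
      exact hc1.continuousAt.eventually (gt_mem_nhds this)
    have ho' : ∀ᶠ ε in nhdsWithin (0 : ℝ) (Set.Ioi 0), H s0 (p + ε • iv w) < k :=
      nhdsWithin_le_nhds ho
    obtain ⟨ε, hε, hε0⟩ := (ho'.and self_mem_nhdsWithin).exists
    have h3 := hmax _ (le_of_lt hε)
    rw [inner_add_right, inner_smul_right, real_inner_self_eq_norm_sq] at h3
    have h4 : 0 < ε * ‖iv w‖ ^ 2 := mul_pos hε0 (pow_pos (norm_pos_iff.mpr hv) 2)
    linarith) (by
    intro δ hδ
    constructor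
    · obtain ⟨q, hq, hq'⟩ := hall (s0 + min (δ / 2) (0 + j - s0)) (by
        have : 0 ≤ min (δ / 2) (0 + (j : ℝ) - s0) := le_min (by linarith) (by linarith)
        linarith) (by
        have : min (δ / 2) (0 + (j : ℝ) - s0) ≤ 0 + j - s0 := min_le_right _ _
        linarith)
      refine ⟨_, q, ?_, ?_, hq, hq'⟩
      · have : 0 < min (δ / 2) (0 + (j : ℝ) - s0) := lt_min (by linarith) (by linarith)
        linarith
      · have : min (δ / 2) (0 + (j : ℝ) - s0) ≤ δ / 2 := min_le_left _ _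
        linarith
    · obtain ⟨q, hq, hq'⟩ := hall (s0 - min (δ / 2) (s0 - (0 - j))) (by
        have : min (δ / 2) (s0 - (0 - (j : ℝ))) ≤ s0 - (0 - j) := min_le_right _ _
        linarith) (by
        have : 0 ≤ min (δ / 2) (s0 - (0 - (j : ℝ))) := le_min (by linarith) (by linarith)
        linarith)
      refine ⟨_, q, ?_, ?_, hq, hq'⟩
      · have : min (δ / 2) (s0 - (0 - (j : ℝ))) ≤ δ / 2 := min_le_left _ _
        linarith
      · have : 0 < min (δ / 2) (s0 - (0 - (j : ℝ))) := lt_min (by linarith) (by linarith)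
        linarith)
  refine hend w hw s0 p e1 e3 ?_
  have hCs : ContDiff ℝ 1 (H s0) := hC.comp (contDiff_const.prodMk contDiff_id)
  exact hLAG (H s0) hCs (iv w) p k hv e1 (fun p' hp' => (hmax p' hp').trans e2)

end Pool.Agent.Lib.Tor
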