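import Mathlib
import Pool.Agent.Lib.MP_fe6961_an.TorN53

/-! Assembly row TORN (after TAsm10). -/

open Filter Matrix

namespace Pool.Agent.Lib.TorN

theorem grad_zero_of_min {n : ℕ} {f : EN n → ℝ} {p : EN n} (h : ∀ y, f p ≤ f y) :
    gradient f p = 0 := by
  have h1 : IsLocalMin f p := Filter.Eventually.of_forall h
  unfold gradient
  rw [h1.fderiv_eq_zero, map_zero]

theorem torn53 (hLAG : StLAG) (hMAX : StMAX) (hCORE : StCORE) (hATT : StATT) (hORB : StORB)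
    (hPUL : StPUL) (hKEY : StKEY) : StTORN := by
  intro n H B hn hT hB hper k hk
  obtain ⟨s1, ξ1, hk1⟩ := hk
  obtain ⟨hP1, hPm, hPi, -, hiv⟩ := hPUL n
  have hT' := hT
  obtain ⟨hC, hconv, hcomp⟩ := hT
  have hcont : Continuous (fun z : ℝ × EN n => H z.1 z.2) := hC.continuous
  have hcl : ∀ v : EN n, Continuous (fun z : ℝ × EN n => (inner ℝ v z.2 : ℝ)) := fun v =>
    continuous_const.inner continuous_snd
  -- powers
  have hcm : Commute B⁻¹ B := by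
    show B⁻¹ * B = B * B⁻¹
    rw [Matrix.nonsing_inv_mul B hB, Matrix.mul_nonsing_inv B hB]
  have hinv : ∀ j : ℕ, B⁻¹ ^ j * B ^ j = 1 := by
    intro j
    rw [← hcm.mul_pow, Matrix.nonsing_inv_mul B hB, one_pow]
  have hit : ∀ (j : ℕ) (s : ℝ) (ξ : EN n), H (s + j) ξ = H s (pull (B ^ j) ξ) := by
    intro j
    induction j with
    | zero => intro s ξ; simp [hP1]
    | succ j ih =>
      intro s ξ
      rw [Nat.cast_succ, ← add_assoc, hper, ih, hPm, pow_succ']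
  have hup : ∀ (j : ℕ) (s : ℝ) (ξ : EN n), H (s + j) (pull (B⁻¹ ^ j) ξ) = H s ξ := by
    intro j s ξ
    rw [hit, hPm, hinv, hP1]
  have hdn : ∀ (j : ℕ) (s : ℝ) (ξ : EN n), H (s - j) (pull (B ^ j) ξ) = H s ξ := by
    intro j s ξ
    rw [← hit, sub_add_cancel]
  have hsh : ∀ (N : ℤ) (s : ℝ) (ξ : EN n), ∃ ξ', H (s + N) ξ' = H s ξ := by
    intro N s ξ
    obtain ⟨j, rfl | rfl⟩ := N.eq_nat_or_neg
    · exact ⟨_, by push_cast; exact hup j s ξ⟩
    · refine ⟨pull (B ^ j) ξ, ?_⟩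
      push_cast
      rw [← sub_eq_add_neg]
      exact hdn j s ξ
  -- the end of the proof
  have hend : ∀ w : Fin n → ℤ, w ≠ 0 → ∀ s p, H s p = k → HasDerivAt (fun r => H r p) 0 s →
      (∃ μ : ℝ, gradient (H s) p = μ • iv w) →
      (∃ x ξ, HT H x ξ = k ∧ IsOrbit (HT H) (fun _ => x) (fun _ => ξ)) ∨
      ∃ (x ξ : ℝ → EN n), IsOrbit (HT H) x ξ ∧ (∀ t, HT H (x t) (ξ t) = k) ∧
        ∃ T > 0, ∃ w : Fin n → ℤ, w ≠ 0 ∧ ∀ t, x (t + T) = x t + iv w ∧ ξ (t + T) = ξ t := by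
    intro w hw s p hp hd hμ
    obtain ⟨μ, hμ⟩ := hμ
    have := hORB n H hT' w hw s μ p hd hμ
    rw [hp] at this
    exact this
  by_cases hfix : ∀ w : Fin n → ℤ, w ≠ 0 → ∀ m : ℕ, 0 < m → (B ^ m) *ᵥ w ≠ w
  swap
  · -- the fixed vector
    push Not at hfix
    obtain ⟨w, hw, m, hm, hBw⟩ := hfix
    have hm' : (0 : ℝ) < m := by exact_mod_cast hm
    have hfj : ∀ j : ℕ, (B ^ (m * j)) *ᵥ w = w := by
      intro j
      induction j with
      | zero => simp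
      | succ j ih =>
        rw [Nat.mul_succ, pow_add, ← Matrix.mulVec_mulVec, hBw, ih]
    have hfj' : ∀ j : ℕ, (B⁻¹ ^ (m * j)) *ᵥ w = w := by
      intro j
      conv_lhs => rw [← hfj j]
      rw [Matrix.mulVec_mulVec, hinv, Matrix.one_mulVec]
    have hshm : ∀ (N : ℤ) (s : ℝ) (ξ : EN n), ∃ ξ', H (s + N * m) ξ' = H s ξ ∧
        (inner ℝ (iv w) ξ' : ℝ) = inner ℝ (iv w) ξ := by
      intro N s ξ
      obtain ⟨j, rfl | rfl⟩ := N.eq_nat_or_neg
      · refine ⟨pull (B⁻¹ ^ (m * j)) ξ, ?_, ?_⟩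
        · have := hup (m * j) s ξ
          push_cast at this ⊢
          rw [mul_comm (j : ℝ)]
          exact this
        · rw [hPi, hfj']
      · refine ⟨pull (B ^ (m * j)) ξ, ?_, ?_⟩
        · have := hdn (m * j) s ξ
          push_cast at this ⊢
          rw [neg_mul, ← sub_eq_add_neg, mul_comm (j : ℝ)]
          exact this
        · rw [hPi, hfj]
    have hfl : ∀ s : ℝ, 0 ≤ s + ((-⌊s / m⌋ : ℤ) : ℝ) * m ∧ s + ((-⌊s / m⌋ : ℤ) : ℝ) * m ≤ m := by
      intro s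
      have h1 := Int.floor_le (s / m)
      have h2 := (Int.lt_floor_add_one (s / m)).le
      rw [le_div_iff₀ hm'] at h1
      rw [div_le_iff₀ hm'] at h2
      push_cast
      constructor <;> linarith
    have hne : ({z : ℝ × EN n | 0 ≤ z.1 ∧ z.1 ≤ m ∧ H z.1 z.2 ≤ k}).Nonempty := by
      obtain ⟨ξ', h1, -⟩ := hshm (-⌊s1 / m⌋) s1 ξ1
      exact ⟨(_, ξ'), (hfl s1).1, (hfl s1).2, by
        show H _ ξ' ≤ k
        rw [h1, hk1]⟩
    obtain ⟨⟨s, p⟩, ⟨h0, h1, h2⟩, hmax⟩ := (hcomp 0 m k).exists_isMaxOn hne (hcl (iv w)).continuousOn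
    obtain ⟨e1, e2, e3⟩ := hMAX n H hT' (iv w) (hiv w hw) k (s - 1) (s + 1) s p (by linarith)
      (by linarith) h2 (by
        intro s' p' _ _ hle
        obtain ⟨ξ', g1, g2⟩ := hshm (-⌊s' / m⌋) s' p'
        have hmem : ((s' + ((-⌊s' / m⌋ : ℤ) : ℝ) * m, ξ') : ℝ × EN n) ∈
            {z : ℝ × EN n | 0 ≤ z.1 ∧ z.1 ≤ m ∧ H z.1 z.2 ≤ k} :=
          ⟨(hfl s').1, (hfl s').2, by
            show H _ ξ' ≤ k
            rw [g1]; exact hle⟩
        have := hmax hmem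
        rw [← g2]
        exact this)
    exact hend w hw s p e1 e2 e3
  let w0 : Fin n → ℤ := fun _ => 1
  have hw0 : w0 ≠ 0 := by
    intro h0
    have := congrFun h0 ⟨0, hn⟩
    simp [w0] at this
  by_cases hA : ∃ s, ∀ ξ, k < H s ξ
  · obtain ⟨s, hs⟩ := hA
    have hall : ∀ N : ℤ, ∀ ξ, k < H (s + N) ξ := by
      intro N ξ
      obtain ⟨ξ', h1⟩ := hsh (-N) (s + N) ξ
      rw [← h1]
      have : s + (N : ℝ) + ((-N : ℤ) : ℝ) = s := by push_cast; ring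
      rw [this]
      exact hs ξ'
    have f1 := Int.floor_le (s1 - s)
    have f2 := Int.lt_floor_add_one (s1 - s)
    have hb : ∀ ξ, k < H (s + ⌊s1 - s⌋ + 1) ξ := by
      intro ξ
      have := hall (⌊s1 - s⌋ + 1) ξ
      push_cast at this
      rw [← add_assoc] at this
      exact this
    obtain ⟨⟨s', p⟩, ⟨h0, h1, h2⟩, hmax⟩ :=
      (hcomp (s + ⌊s1 - s⌋) (s + ⌊s1 - s⌋ + 1) k).exists_isMaxOn
        ⟨(s1, ξ1), by show s + ⌊s1 - s⌋ ≤ s1; linarith,
          by show s1 ≤ s + ⌊s1 - s⌋ + 1; linarith, hk1.le⟩ (hcl (iv w0)).continuousOn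
    have h0' : s + ⌊s1 - s⌋ ≤ s' := h0
    have h1' : s' ≤ s + ⌊s1 - s⌋ + 1 := h1
    have h2' : H s' p ≤ k := h2
    have l0 : s + ⌊s1 - s⌋ < s' := by
      rcases lt_or_eq_of_le h0' with h | h
      · exact h
      · exfalso
        have := hall ⌊s1 - s⌋ p
        rw [h] at this
        linarith
    have l1 : s' < s + ⌊s1 - s⌋ + 1 := by
      rcases lt_or_eq_of_le h1' with h | h
      · exact h
      · exfalso
        have := hb p
        rw [← h] at this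
        linarith
    have hmax' : ∀ s'' p'', s + ⌊s1 - s⌋ ≤ s'' → s'' ≤ s + ⌊s1 - s⌋ + 1 → H s'' p'' ≤ k →
        (inner ℝ (iv w0) p'' : ℝ) ≤ inner ℝ (iv w0) p := by
      intro s'' p'' ha hb' hle
      have hmem : ((s'', p'') : ℝ × EN n) ∈
        {z : ℝ × EN n | s + ⌊s1 - s⌋ ≤ z.1 ∧ z.1 ≤ s + ⌊s1 - s⌋ + 1 ∧ H z.1 z.2 ≤ k} :=
        ⟨ha, hb', hle⟩
      exact hmax hmem
    obtain ⟨e1, e2, e3⟩ := hMAX n H hT' (iv w0) (hiv w0 hw0) k _ _ s' p l0 l1 h2' hmax'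
    exact hend w0 hw0 s' p e1 e2 e3
  push Not at hA
  by_cases hCc : ∃ s0, ∀ ξ, k ≤ H s0 ξ
  · obtain ⟨s0, hs0⟩ := hCc
    obtain ⟨p, e1, -, e2⟩ := hCORE n H hT' 0 0 k s0 (by
      obtain ⟨p, hp⟩ := hA s0
      exact ⟨p, hp, by simp⟩) (fun p _ => hs0 p) (by
      intro δ hδ
      obtain ⟨p, hp⟩ := hA (s0 + δ / 2)
      obtain ⟨q, hq⟩ := hA (s0 - δ / 2)
      exact ⟨⟨_, p, by linarith, by linarith, hp, by simp⟩,
        ⟨_, q, by linarith, by linarith, hq, by simp⟩⟩)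
    refine hend w0 hw0 s0 p e1 e2 ⟨0, ?_⟩
    rw [zero_smul]
    exact grad_zero_of_min (fun y => by rw [e1]; exact hs0 y)
  push Not at hCc
  have hcs : ∀ s, Continuous (H s) := fun s =>
    hcont.comp (continuous_const.prodMk continuous_id)
  have hbd : ∀ w : Fin n → ℤ, ∃ C : ℝ, ∀ p, H 0 p ≤ k → (inner ℝ (iv w) p : ℝ) ≤ C := by
    intro w
    have := ((hcomp 0 0 k).image (hcl (iv w))).bddAbove
    obtain ⟨C, hC'⟩ := this
    exact ⟨C, fun p hp => hC' ⟨((0 : ℝ), p), ⟨le_refl _, le_refl _, hp⟩, rfl⟩⟩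
  choose C hCb using hbd
  obtain ⟨w, hw, ⟨j, hj, η, hη, g2⟩, i, hi, ζ, hζ, g1⟩ := hKEY n B hn hB hfix {ξ | H 0 ξ < k}
    (isOpen_lt (hcs 0) continuous_const) (hCc 0) C
  rw [← hPi] at g1 g2
  have hj' : (0 : ℝ) < j := by exact_mod_cast hj
  have hi' : (0 : ℝ) < i := by exact_mod_cast hi
  obtain ⟨s0, M, ha, hb, ⟨p0, hp0, hp0M⟩, hmax, hall⟩ := hATT n H hT' (iv w) k (0 - i) (0 + j) 0
    (by linarith) (by linarith) hCc
    ⟨C w, hCb w, ⟨_, by rw [hdn]; exact le_of_lt hζ, g1⟩,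
      ⟨_, by rw [hup]; exact le_of_lt hη, g2⟩⟩
  have hv := hiv w hw
  obtain ⟨p, e1, e2, e3⟩ := hCORE n H hT' (iv w) M k s0 ⟨p0, hp0, hp0M.ge⟩ (by
    intro p hp
    by_contra hlt
    push Not at hlt
    -- move `p` in the direction `iv w`
    have hc1 : Continuous (fun ε : ℝ => H s0 (p + ε • iv w)) :=
      (hcs s0).comp (continuous_const.add (continuous_id.smul continuous_const))
    have ho : ∀ᶠ ε in nhds (0 : ℝ), H s0 (p + ε • iv w) < k := by
      have : (fun ε : ℝ => H s0 (p + ε • iv w)) 0 < k := by simpa using hlt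
      exact hc1.continuousAt.eventually (gt_mem_nhds this)
    have ho' : ∀ᶠ ε in nhdsWithin (0 : ℝ) (Set.Ioi 0), H s0 (p + ε • iv w) < k :=
      nhdsWithin_le_nhds ho
    obtain ⟨ε, hε, hε0⟩ := (ho'.and self_mem_nhdsWithin).exists
    have h3 := hmax _ (le_of_lt hε)
    rw [inner_add_right, inner_smul_right, real_inner_self_eq_norm_sq] at h3
    have h4 : 0 < ε * ‖iv w‖ ^ 2 := mul_pos hε0 (pow_pos (norm_pos_iff.mpr hv) 2)
    linarith) (by
    intro δ hδ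
    constructor
    · obtain ⟨q, hq, hq'⟩ := hall (s0 + min (δ / 2) (0 + j - s0)) (by
        have : 0 ≤ min (δ / 2) (0 + (j : ℝ) - s0) := le_min (by linarith) (by linarith)
        linarith) (by
        have : min (δ / 2) (0 + (j : ℝ) - s0) ≤ 0 + j - s0 := min_le_right _ _
        linarith)
      refine ⟨_, q, ?_, ?_, hq, hq'⟩
      · have : 0 < min (δ / 2) (0 + (j : ℝ) - s0) := lt_min (by linarith) (by linarith)
        linarith
      · have : min (δ / 2) (0 + (j : ℝ) - s0) ≤ δ / 2 := min_le_left _ _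
        linarith
    · obtain ⟨q, hq, hq'⟩ := hall (s0 - min (δ / 2) (s0 - (0 - i))) (by
        have : min (δ / 2) (s0 - (0 - (i : ℝ))) ≤ s0 - (0 - i) := min_le_right _ _
        linarith) (by
        have : 0 ≤ min (δ / 2) (s0 - (0 - (i : ℝ))) := le_min (by linarith) (by linarith)
        linarith)
      refine ⟨_, q, ?_, ?_, hq, hq'⟩
      · have : min (δ / 2) (s0 - (0 - (i : ℝ))) ≤ δ / 2 := min_le_left _ _
        linarith
      · have : 0 < min (δ / 2) (s0 - (0 - (i : ℝ))) := lt_min (by linarith) (by linarith)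
        linarith)
  refine hend w hw s0 p e1 e3 ?_
  have hCs : ContDiff ℝ 1 (H s0) := hC.comp (contDiff_const.prodMk contDiff_id)
  exact hLAG n (H s0) hCs (iv w) p k hv e1 (fun p' hp' => (hmax p' hp').trans e2)

end Pool.Agent.Lib.TorN
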