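import Mathlib

/-! Tonelli Hamiltonians on bundles over the circle with fibre a torus of dimension `n`, invariant
under the translations of the fibres: definitions and rows. -/

open Filter Matrix

namespace Pool.Agent.Lib.TorN

/-- the Euclidean space of dimension `n + 1` -/
abbrev EN (n : ℕ) := EuclideanSpace ℝ (Fin (n + 1))

variable {n : ℕ}

/-- a Tonelli family (less is asked): `C^1`, convex in the momentum, the part of a sublevel set over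
a compact interval is compact -/
def TonN (H : ℝ → EN n → ℝ) : Prop :=
  ContDiff ℝ 1 (fun z : ℝ × EN n => H z.1 z.2) ∧ (∀ s, ConvexOn ℝ Set.univ (H s)) ∧
    ∀ a b k, IsCompact {z : ℝ × EN n | a ≤ z.1 ∧ z.1 ≤ b ∧ H z.1 z.2 ≤ k}

/-- the Hamiltonian on the cotangent bundle of `ℝⁿ × ℝ` -/
noncomputable def HN (H : ℝ → EN n → ℝ) (x ξ : EN n) : ℝ := H (x (Fin.last n)) ξ

/-- Hamilton's equations -/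
def IsOrbitN (H : EN n → EN n → ℝ) (x ξ : ℝ → EN n) : Prop :=
  ∀ t, HasDerivAt x (gradient (H (x t)) (ξ t)) t ∧
    HasDerivAt ξ (-gradient (fun y => H y (ξ t)) (x t)) t

/-- the first `n` coordinates -/
def bas (ξ : EN n) : Fin n → ℝ := fun i => ξ (Fin.castSucc i)

/-- the vector `(v, c)` -/
noncomputable def mk (v : Fin n → ℝ) (c : ℝ) : EN n :=
  WithLp.toLp 2 (Fin.snoc (α := fun _ => ℝ) v c)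

/-- the transpose of `M` applied to the first `n` coordinates -/
noncomputable def pullN (M : Matrix (Fin n) (Fin n) ℝ) (ξ : EN n) : EN n :=
  mk (Mᵀ *ᵥ bas ξ) (ξ (Fin.last n))

/-- the integer matrix as a real one -/
def reN (B : Matrix (Fin n) (Fin n) ℤ) : Matrix (Fin n) (Fin n) ℝ := B.map (fun m => (m : ℝ))

/-- the integer vector `(w, 0)` -/
noncomputable def ivN (w : Fin n → ℤ) : EN n := mk (fun i => (w i : ℝ)) 0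

/-- LAG -/
def StLAG (n : ℕ) : Prop := ∀ h : EN n → ℝ, ContDiff ℝ 1 h → ∀ (v p : EN n) (k : ℝ), v ≠ 0 → h p = k →
  (∀ p', h p' ≤ k → inner ℝ v p' ≤ inner ℝ v p) → ∃ μ : ℝ, gradient h p = μ • v

/-- MAX -/
def StMAX (n : ℕ) : Prop := ∀ H : ℝ → EN n → ℝ, TonN H → ∀ (v : EN n), v ≠ 0 →
  ∀ (k a b s : ℝ) (p : EN n), a < s → s < b →
  H s p ≤ k → (∀ s' p', a ≤ s' → s' ≤ b → H s' p' ≤ k → inner ℝ v p' ≤ inner ℝ v p) →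
  H s p = k ∧ HasDerivAt (fun r => H r p) 0 s ∧ ∃ μ : ℝ, gradient (H s) p = μ • v

/-- CORE -/
def StCORE (n : ℕ) : Prop := ∀ H : ℝ → EN n → ℝ, TonN H → ∀ (v : EN n) (M k s0 : ℝ),
  (∃ p, H s0 p ≤ k ∧ M ≤ inner ℝ v p) → (∀ p, M ≤ inner ℝ v p → k ≤ H s0 p) →
  (∀ δ > 0, (∃ s p, s0 < s ∧ s < s0 + δ ∧ H s p ≤ k ∧ M ≤ inner ℝ v p) ∧
    ∃ s p, s0 - δ < s ∧ s < s0 ∧ H s p ≤ k ∧ M ≤ inner ℝ v p) →
  ∃ p, H s0 p = k ∧ M ≤ inner ℝ v p ∧ HasDerivAt (fun r => H r p) 0 s0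

/-- ATT -/
def StATT (n : ℕ) : Prop := ∀ H : ℝ → EN n → ℝ, TonN H → ∀ (v : EN n) (k a b c : ℝ), a < c → c < b →
  (∀ s, ∃ p, H s p < k) →
  (∃ C, (∀ p, H c p ≤ k → inner ℝ v p ≤ C) ∧ (∃ p, H a p ≤ k ∧ C < inner ℝ v p) ∧
    ∃ p, H b p ≤ k ∧ C < inner ℝ v p) →
  ∃ s0 M, a < s0 ∧ s0 < b ∧ (∃ p, H s0 p ≤ k ∧ inner ℝ v p = M) ∧
    (∀ p, H s0 p ≤ k → inner ℝ v p ≤ M) ∧ ∀ s, a ≤ s → s ≤ b → ∃ p, H s p ≤ k ∧ M ≤ inner ℝ v p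

/-- ORB -/
def StORB (n : ℕ) : Prop := ∀ H : ℝ → EN n → ℝ, TonN H → ∀ (w : Fin n → ℤ), w ≠ 0 →
  ∀ (s μ : ℝ) (p : EN n),
  HasDerivAt (fun r => H r p) 0 s → gradient (H s) p = μ • ivN w →
  (∃ x ξ, HN H x ξ = H s p ∧ IsOrbitN (HN H) (fun _ => x) (fun _ => ξ)) ∨
  ∃ (x ξ : ℝ → EN n), IsOrbitN (HN H) x ξ ∧ (∀ t, HN H (x t) (ξ t) = H s p) ∧
    ∃ T > 0, ∃ w' : Fin n → ℤ, w' ≠ 0 ∧ ∀ t, x (t + T) = x t + ivN w' ∧ ξ (t + T) = ξ t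

/-- KRON: a power has a fixed integer vector, or there are eigenvalues on both sides of the circle -/
def StKRON : Prop := ∀ n : ℕ, 0 < n → ∀ B : Matrix (Fin n) (Fin n) ℤ, (B.det = 1 ∨ B.det = -1) →
  (∃ m > 0, ∃ w : Fin n → ℤ, w ≠ 0 ∧ (B ^ m) *ᵥ w = w) ∨
  ((∃ l : ℂ, 1 < ‖l‖ ∧ ∃ z : Fin n → ℂ, z ≠ 0 ∧ (B.map (fun m => (m : ℂ))) *ᵥ z = l • z) ∧
    ∃ l : ℂ, ‖l‖ < 1 ∧ ∃ z : Fin n → ℂ, z ≠ 0 ∧ (B.map (fun m => (m : ℂ))) *ᵥ z = l • z)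

/-- EIG: the real or the imaginary part of an eigenvector -/
def StEIG : Prop := ∀ (n : ℕ) (A : Matrix (Fin n) (Fin n) ℝ), IsUnit A.det →
  (∃ l : ℂ, 1 < ‖l‖ ∧ ∃ z : Fin n → ℂ, z ≠ 0 ∧ (A.map (fun m => (m : ℂ))) *ᵥ z = l • z) →
  ∃ v : Fin n → ℝ, Tendsto (fun j : ℕ => ((A⁻¹) ^ j) *ᵥ v) atTop (nhds 0) ∧
    ∀ C : ℝ, ∃ j : ℕ, C < ‖(A ^ j) *ᵥ v‖

/-- SEL: choice of the integer vector -/
def StSEL : Prop := ∀ (n : ℕ) (A : Matrix (Fin n) (Fin n) ℝ), IsUnit A.det →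
  (∃ v : Fin n → ℝ, Tendsto (fun j : ℕ => ((A⁻¹) ^ j) *ᵥ v) atTop (nhds 0) ∧
    ∀ C : ℝ, ∃ j : ℕ, C < ‖(A ^ j) *ᵥ v‖) →
  (∃ v : Fin n → ℝ, Tendsto (fun j : ℕ => (A ^ j) *ᵥ v) atTop (nhds 0) ∧
    ∀ C : ℝ, ∃ j : ℕ, C < ‖((A⁻¹) ^ j) *ᵥ v‖) →
  ∀ K : Set (Fin n → ℝ), IsCompact K → (interior K).Nonempty →
  ∃ (w : Fin n → ℤ) (a b : ℕ), 0 < a ∧ 0 < b ∧ w ≠ 0 ∧
    (∃ p ∈ K, ∀ q ∈ K, (fun i => (w i : ℝ)) ⬝ᵥ q < ((A ^ b) *ᵥ (fun i => (w i : ℝ))) ⬝ᵥ p) ∧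
    ∃ p ∈ K, ∀ q ∈ K, (fun i => (w i : ℝ)) ⬝ᵥ q < (((A⁻¹) ^ a) *ᵥ (fun i => (w i : ℝ))) ⬝ᵥ p

end Pool.Agent.Lib.TorN
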